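import Pool.Agent.H93.MQ.Defs

/-!
ROW FF (project MP_78d38b_MQ). Over a finite field of odd characteristic every two-covering of
`y^2 = (x - e₁)(x - e₂)(x - e₃)` has a point.

Proof by counting, with the quadratic character `χ` of the field `F` with `q` elements.
For `z₀ = 1` the number of `(z₁, z₂, z₃)` with `d_i z_i² + e_i` all equal (to `x`, say) is
`∑_x ∏_i (1 + χ (d_i (x - e_i)))`, because `d_i z² = x - e_i` has `1 + χ (d_i (x - e_i))`
solutions `z`. Expand: `q + ∑_i χ(d_i) ∑_x χ(x - e_i) + ∑_{i<j} χ(d_i d_j) ∑_x χ((x - e_i)(x - e_j))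
+ χ(d₁ d₂ d₃) ∑_x χ(f(x))`, with `f(x) = (x - e₁)(x - e₂)(x - e₃)`. Here `∑_x χ(x - e) = 0`,
`∑_x χ((x - e_i)(x - e_j)) = -1` for `e_i ≠ e_j` (for `x ≠ e_j` the value is
`χ(1 + (e_j - e_i)/(x - e_j))`, and `1 + (e_j - e_i)/(x - e_j)` runs through all elements
except `1`), and `χ(d₁ d₂ d₃) = χ(c²) = 1`. So the number is
`q - χ(d₁ d₂) - χ(d₁ d₃) - χ(d₂ d₃) + ∑_x χ(f(x))`, and `∑_x χ(f(x)) ≥ -(q - 3)` since it has at
most `q - 3` nonzero terms (`f` vanishes at three points), each at least `-1`.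
If all `χ(d_i d_j) = 1`, then `d₁ d₂ = s²`, `d₁ d₃ = t²` and the point `z₀ = 0`, with
`d₁ z₁² = d₂ z₂² = d₃ z₃²`, exists (`z₁ = 1`, `z₂ = s / d₂`, `z₃ = t / d₃`).
Otherwise, since the product of the three `χ(d_i d_j)` is one, exactly two of them are `-1` and
the number is at least `q + 1 - (q - 3) = 4 > 0`.
-/

set_option autoImplicit false

open NumberField IsDedekindDomain WeierstrassCurve Pool.Agent.H10

namespace Pool.Agent.H93.MQ

theorem FF_ringChar {F : Type*} [Field F] (h2 : (2 : F) ≠ 0) : ringChar F ≠ 2 := by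
  intro h
  apply h2
  have := ringChar.Nat.cast_ringChar (R := F)
  rw [h] at this
  exact_mod_cast this

open Classical in
theorem FF_sq {F : Type*} [Field F] [Fintype F] {d e x : F} (hd : d ≠ 0)
    (h : quadraticChar F (d * (x - e)) ≠ -1) : ∃ z : F, d * z ^ 2 + e = x := by
  by_cases hx : x - e = 0
  · exact ⟨0, by rw [sub_eq_zero] at hx; rw [hx]; ring⟩
  · have ha : d * (x - e) ≠ 0 := mul_ne_zero hd hx
    have h1 : quadraticChar F (d * (x - e)) = 1 :=
      (quadraticChar_dichotomy ha).resolve_right h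
    obtain ⟨r, hr⟩ := (quadraticChar_one_iff_isSquare ha).1 h1
    refine ⟨r / d, ?_⟩
    have : d * (r / d) ^ 2 = x - e := by
      field_simp
      rw [pow_two, ← hr]
    rw [this]
    ring

open Classical in
theorem FF_lin {F : Type*} [Field F] [Fintype F] (hF : ringChar F ≠ 2) (d e : F) :
    ∑ x : F, quadraticChar F (d * (x - e)) = 0 := by
  simp only [map_mul]
  rw [← Finset.mul_sum]
  have h := Equiv.sum_comp (Equiv.subRight e) (fun x : F => quadraticChar F x)
  simp only [Equiv.subRight_apply] at h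
  rw [h, quadraticChar_sum_zero hF, mul_zero]

open Classical in
theorem FF_quad {F : Type*} [Field F] [Fintype F] (hF : ringChar F ≠ 2) {e e' : F} (he : e ≠ e') :
    ∑ x : F, quadraticChar F ((x - e) * (x - e')) = -1 := by
  have hne : e' - e ≠ 0 := sub_ne_zero.2 (Ne.symm he)
  have hJ := jacobiSum_nontrivial_inv (quadraticChar_ne_one hF)
  rw [(quadraticChar_isQuadratic F).inv] at hJ
  have h := Equiv.sum_comp ((Equiv.mulLeft₀ (e' - e) hne).trans (Equiv.addLeft e))
    (fun x : F => quadraticChar F ((x - e) * (x - e')))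
  rw [← h]
  have h3 : ∀ t : F, quadraticChar F
      ((((Equiv.mulLeft₀ (e' - e) hne).trans (Equiv.addLeft e)) t - e) *
        (((Equiv.mulLeft₀ (e' - e) hne).trans (Equiv.addLeft e)) t - e')) =
      quadraticChar F (-1) * (quadraticChar F t * quadraticChar F (1 - t)) := by
    intro t
    have : ((((Equiv.mulLeft₀ (e' - e) hne).trans (Equiv.addLeft e)) t - e) *
        (((Equiv.mulLeft₀ (e' - e) hne).trans (Equiv.addLeft e)) t - e')) =
        (-1) * (t * (1 - t)) * (e' - e) ^ 2 := by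
      simp only [Equiv.trans_apply, Equiv.mulLeft₀_apply, Equiv.coe_addLeft]
      ring
    rw [this, map_mul, quadraticChar_sq_one' hne, mul_one, map_mul, map_mul]
  rw [Finset.sum_congr rfl (fun t _ => h3 t), ← Finset.mul_sum]
  unfold jacobiSum at hJ
  rw [hJ]
  have : quadraticChar F (-1) ^ 2 = 1 := quadraticChar_sq_one (by simp)
  linear_combination -this

open Classical in
theorem FF_cub {F : Type*} [Field F] [Fintype F] {e₁ e₂ e₃ : F}
    (h12 : e₁ ≠ e₂) (h13 : e₁ ≠ e₃) (h23 : e₂ ≠ e₃) :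
    -((Fintype.card F : ℤ) - 3) ≤
      ∑ x : F, quadraticChar F ((x - e₁) * (x - e₂) * (x - e₃)) := by
  have h1 : ∀ x : F, (if x ∈ ({e₁, e₂, e₃} : Finset F) then (1 : ℤ) else 0) - 1 ≤
      quadraticChar F ((x - e₁) * (x - e₂) * (x - e₃)) := by
    intro x
    by_cases hx : (x - e₁) * (x - e₂) * (x - e₃) = 0
    · rw [hx, quadraticChar_zero]
      split_ifs <;> norm_num
    · have hn : x ∉ ({e₁, e₂, e₃} : Finset F) := by
        intro hm
        apply hx
        simp only [Finset.mem_insert, Finset.mem_singleton] at hm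
        rcases hm with h | h | h <;> rw [h] <;> ring
      rw [if_neg hn]
      rcases quadraticChar_dichotomy hx with h | h <;> rw [h] <;> norm_num
  have h2 := Finset.sum_le_sum (fun x (_ : x ∈ (Finset.univ : Finset F)) => h1 x)
  refine le_trans (le_of_eq ?_) h2
  rw [Finset.sum_sub_distrib, Finset.sum_ite_mem, Finset.univ_inter]
  have h3 : ({e₁, e₂, e₃} : Finset F).card = 3 := by
    rw [Finset.card_eq_three]
    exact ⟨e₁, e₂, e₃, h12, h13, h23, rfl⟩
  rw [Finset.sum_const, h3, Finset.sum_const, Finset.card_univ]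
  simp

theorem ff_sol {F : Type*} [Field F] [Finite F] (h2 : (2 : F) ≠ 0) {e₁ e₂ e₃ d₁ d₂ d₃ c : F}
    (h12 : e₁ ≠ e₂) (h13 : e₁ ≠ e₃) (h23 : e₂ ≠ e₃) (hd : d₁ * d₂ * d₃ = c ^ 2) (hc : c ≠ 0) :
    CPt e₁ e₂ e₃ d₁ d₂ d₃ := by
  classical
  have := Fintype.ofFinite F
  have hF := FF_ringChar h2
  have hprod : d₁ * d₂ * d₃ ≠ 0 := by rw [hd]; exact pow_ne_zero 2 hc
  have hd1 : d₁ ≠ 0 := fun h => hprod (by rw [h]; ring)
  have hd2 : d₂ ≠ 0 := fun h => hprod (by rw [h]; ring)
  have hd3 : d₃ ≠ 0 := fun h => hprod (by rw [h]; ring)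
  by_contra hno
  -- every x is bad
  have hbad : ∀ x : F, (1 + quadraticChar F (d₁ * (x - e₁))) *
      (1 + quadraticChar F (d₂ * (x - e₂))) * (1 + quadraticChar F (d₃ * (x - e₃))) = 0 := by
    intro x
    by_contra hne
    have hn1 : quadraticChar F (d₁ * (x - e₁)) ≠ -1 := fun h => hne (by rw [h]; ring)
    have hn2 : quadraticChar F (d₂ * (x - e₂)) ≠ -1 := fun h => hne (by rw [h]; ring)
    have hn3 : quadraticChar F (d₃ * (x - e₃)) ≠ -1 := fun h => hne (by rw [h]; ring)
    obtain ⟨z₁, hz1⟩ := FF_sq hd1 hn1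
    obtain ⟨z₂, hz2⟩ := FF_sq hd2 hn2
    obtain ⟨z₃, hz3⟩ := FF_sq hd3 hn3
    apply hno
    refine ⟨1, z₁, z₂, z₃, Or.inl one_ne_zero, ?_, ?_⟩
    · rw [one_pow, mul_one, mul_one, hz1, hz2]
    · rw [one_pow, mul_one, mul_one, hz1, hz3]
  have hexp : ∀ x : F, (1 + quadraticChar F (d₁ * (x - e₁))) *
      (1 + quadraticChar F (d₂ * (x - e₂))) * (1 + quadraticChar F (d₃ * (x - e₃))) =
      1 + quadraticChar F (d₁ * (x - e₁)) + quadraticChar F (d₂ * (x - e₂)) +
      quadraticChar F (d₃ * (x - e₃)) +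
      quadraticChar F (d₁ * d₂) * quadraticChar F ((x - e₁) * (x - e₂)) +
      quadraticChar F (d₁ * d₃) * quadraticChar F ((x - e₁) * (x - e₃)) +
      quadraticChar F (d₂ * d₃) * quadraticChar F ((x - e₂) * (x - e₃)) +
      quadraticChar F ((x - e₁) * (x - e₂) * (x - e₃)) := by
    intro x
    have hcc : quadraticChar F d₁ * quadraticChar F d₂ * quadraticChar F d₃ = 1 := by
      rw [← map_mul, ← map_mul, hd, quadraticChar_sq_one' hc]
    simp only [map_mul]
    linear_combination (quadraticChar F (x - e₁) * quadraticChar F (x - e₂) *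
      quadraticChar F (x - e₃)) * hcc
  have hsum : (0 : ℤ) = (Fintype.card F : ℤ) - quadraticChar F (d₁ * d₂) -
      quadraticChar F (d₁ * d₃) - quadraticChar F (d₂ * d₃) +
      ∑ x : F, quadraticChar F ((x - e₁) * (x - e₂) * (x - e₃)) := by
    have h0 : ∑ x : F, (1 + quadraticChar F (d₁ * (x - e₁))) *
      (1 + quadraticChar F (d₂ * (x - e₂))) * (1 + quadraticChar F (d₃ * (x - e₃))) = 0 :=
      Finset.sum_eq_zero fun x _ => hbad x
    rw [Finset.sum_congr rfl (fun x _ => hexp x)] at h0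
    simp only [Finset.sum_add_distrib, ← Finset.mul_sum] at h0
    rw [FF_lin hF, FF_lin hF, FF_lin hF, FF_quad hF h12, FF_quad hF h13, FF_quad hF h23,
      Finset.sum_const, Finset.card_univ] at h0
    simp only [nsmul_eq_mul, mul_one] at h0
    linarith
  have hcub := FF_cub h12 h13 h23
  have h12n : d₁ * d₂ ≠ 0 := mul_ne_zero hd1 hd2
  have h13n : d₁ * d₃ ≠ 0 := mul_ne_zero hd1 hd3
  have h23n : d₂ * d₃ ≠ 0 := mul_ne_zero hd2 hd3
  have hp : quadraticChar F (d₁ * d₂) * quadraticChar F (d₁ * d₃) = quadraticChar F (d₂ * d₃) := by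
    rw [← map_mul]
    have : d₁ * d₂ * (d₁ * d₃) = d₂ * d₃ * d₁ ^ 2 := by ring
    rw [this, map_mul, quadraticChar_sq_one' hd1, mul_one]
  rcases quadraticChar_dichotomy h12n with ha | ha
  · rcases quadraticChar_dichotomy h13n with hb | hb
    · obtain ⟨s, hs⟩ := (quadraticChar_one_iff_isSquare h12n).1 ha
      obtain ⟨t, ht⟩ := (quadraticChar_one_iff_isSquare h13n).1 hb
      apply hno
      refine ⟨0, 1, s / d₂, t / d₃, Or.inr (Or.inl one_ne_zero), ?_, ?_⟩
      · field_simp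
        rw [pow_two s, ← hs]
        ring
      · field_simp
        rw [pow_two t, ← ht]
        ring
    · rw [ha, hb] at hp
      rw [ha, hb, ← hp] at hsum
      linarith
  · rcases quadraticChar_dichotomy h13n with hb | hb
    · rw [ha, hb] at hp
      rw [ha, hb, ← hp] at hsum
      linarith
    · rw [ha, hb] at hp
      rw [ha, hb, ← hp] at hsum
      linarith

end Pool.Agent.H93.MQ
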