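import Pool.Agent.H93.MQ.Defs

/-!
ROW Rsc (project MP_78d38b_MQ). Rescaling `(x, y) ↦ (s² x, s³ y)` of Weierstrass curves.

`Rsc s W W'` says that the coefficients of `W'` are `s^i` times those of `W`. Then the map
`(x, y) ↦ (s² x, s³ y)` is a homomorphism on points.
* `Rsc.nonsing`: `Affine.nonsingular_iff` and `Affine.equation_iff`, multiply by `s^6`, `s^4`, `s^3`.
* `rscFun_add`: as in the proof of `pm` (Pool/Agent/H10/Pm.lean): if `x₁ = x₂` and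
  `y₁ = negY x₂ y₂`, both sums are zero (`negY` scales by `s³`); otherwise `add_some`, and
  `slope` scales by `s` (cases `x₁ ≠ x₂`: `slope_of_X_ne`, `x₁ = x₂`: `slope_of_Y_ne`), `addX` by
  `s²`, `addY` by `s³`.
* `rsc_pm`: compatibility with maps along field homomorphisms, by cases.
* `rsc_neg`: if also `Rsc (-s) W W'` and `2 ≠ 0` then `W'.a₁ = W'.a₃ = 0`, and
  `(s² x, (-s)³ y)` is the negative of `(s² x, s³ y)`.
-/

set_option autoImplicit false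

open NumberField IsDedekindDomain WeierstrassCurve Pool.Agent.H10

namespace Pool.Agent.H93.MQ

/-- `W'` is the rescaling of `W` by `s`. -/
structure Rsc {k : Type*} [Field k] (s : k) (W W' : WeierstrassCurve k) : Prop where
  ne : s ≠ 0
  a₁ : W'.a₁ = s * W.a₁
  a₂ : W'.a₂ = s ^ 2 * W.a₂
  a₃ : W'.a₃ = s ^ 3 * W.a₃
  a₄ : W'.a₄ = s ^ 4 * W.a₄
  a₆ : W'.a₆ = s ^ 6 * W.a₆

section

variable {k : Type*} [Field k] {s : k} {W W' : WeierstrassCurve k}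

theorem Rsc.nonsing (h : Rsc s W W') {x y : k} (hxy : W.toAffine.Nonsingular x y) :
    W'.toAffine.Nonsingular (s ^ 2 * x) (s ^ 3 * y) := by
  rw [Affine.nonsingular_iff', Affine.equation_iff'] at hxy ⊢
  obtain ⟨h1, h2⟩ := hxy
  have hs := h.ne
  constructor
  · rw [h.a₁, h.a₂, h.a₃, h.a₄, h.a₆]
    linear_combination s ^ 6 * h1
  · rcases h2 with h2 | h2
    · left
      rw [h.a₁, h.a₂, h.a₄]
      have e : s * W.a₁ * (s ^ 3 * y) -
          (3 * (s ^ 2 * x) ^ 2 + 2 * (s ^ 2 * W.a₂) * (s ^ 2 * x) + s ^ 4 * W.a₄) =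
          s ^ 4 * (W.a₁ * y - (3 * x ^ 2 + 2 * W.a₂ * x + W.a₄)) := by ring
      rw [e]
      exact mul_ne_zero (pow_ne_zero 4 hs) h2
    · right
      rw [h.a₁, h.a₃]
      have e : 2 * (s ^ 3 * y) + s * W.a₁ * (s ^ 2 * x) + s ^ 3 * W.a₃ =
          s ^ 3 * (2 * y + W.a₁ * x + W.a₃) := by ring
      rw [e]
      exact mul_ne_zero (pow_ne_zero 3 hs) h2

theorem Rsc_negY (h : Rsc s W W') (x y : k) :
    W'.toAffine.negY (s ^ 2 * x) (s ^ 3 * y) = s ^ 3 * W.toAffine.negY x y := by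
  unfold Affine.negY
  rw [h.a₁, h.a₃]
  ring

theorem Rsc_addX (h : Rsc s W W') (x₁ x₂ l : k) :
    W'.toAffine.addX (s ^ 2 * x₁) (s ^ 2 * x₂) (s * l) = s ^ 2 * W.toAffine.addX x₁ x₂ l := by
  unfold Affine.addX
  rw [h.a₁, h.a₂]
  ring

theorem Rsc_addY (h : Rsc s W W') (x₁ x₂ y₁ l : k) :
    W'.toAffine.addY (s ^ 2 * x₁) (s ^ 2 * x₂) (s ^ 3 * y₁) (s * l) =
      s ^ 3 * W.toAffine.addY x₁ x₂ y₁ l := by
  unfold Affine.addY Affine.negAddY
  rw [Rsc_addX h]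
  have e : s * l * (s ^ 2 * W.toAffine.addX x₁ x₂ l - s ^ 2 * x₁) + s ^ 3 * y₁ =
      s ^ 3 * (l * (W.toAffine.addX x₁ x₂ l - x₁) + y₁) := by ring
  rw [e, Rsc_negY h]

/-- The rescaling on points, as a function. -/
def rscFun (h : Rsc s W W') : W.toAffine.Point → W'.toAffine.Point
  | 0 => 0
  | .some x y hxy => .some (s ^ 2 * x) (s ^ 3 * y) (h.nonsing hxy)

variable [DecidableEq k]

theorem Rsc_slope (h : Rsc s W W') {x₁ x₂ y₁ y₂ : k}
    (hxy : ¬(x₁ = x₂ ∧ y₁ = W.toAffine.negY x₂ y₂)) :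
    W'.toAffine.slope (s ^ 2 * x₁) (s ^ 2 * x₂) (s ^ 3 * y₁) (s ^ 3 * y₂) =
      s * W.toAffine.slope x₁ x₂ y₁ y₂ := by
  have hs := h.ne
  by_cases hx : x₁ = x₂
  · have hy : y₁ ≠ W.toAffine.negY x₂ y₂ := fun hy => hxy ⟨hx, hy⟩
    have hy' : s ^ 3 * y₁ ≠ W'.toAffine.negY (s ^ 2 * x₂) (s ^ 3 * y₂) := by
      rw [Rsc_negY h]
      exact fun h1 => hy (mul_left_cancel₀ (pow_ne_zero 3 hs) h1)
    rw [Affine.slope_of_Y_ne hx hy, Affine.slope_of_Y_ne (by rw [hx]) hy', Rsc_negY h, h.a₁,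
      h.a₂, h.a₄]
    have e1 : 3 * (s ^ 2 * x₁) ^ 2 + 2 * (s ^ 2 * W.a₂) * (s ^ 2 * x₁) + s ^ 4 * W.a₄ -
        s * W.a₁ * (s ^ 3 * y₁) =
        s ^ 3 * (s * (3 * x₁ ^ 2 + 2 * W.a₂ * x₁ + W.a₄ - W.a₁ * y₁)) := by ring
    have e2 : s ^ 3 * y₁ - s ^ 3 * W.toAffine.negY x₁ y₁ =
        s ^ 3 * (y₁ - W.toAffine.negY x₁ y₁) := by ring
    rw [e1, e2, mul_div_mul_left _ _ (pow_ne_zero 3 hs), mul_div_assoc]
  · have hx' : s ^ 2 * x₁ ≠ s ^ 2 * x₂ := fun h1 =>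
      hx (mul_left_cancel₀ (pow_ne_zero 2 hs) h1)
    rw [Affine.slope_of_X_ne hx, Affine.slope_of_X_ne hx']
    have e1 : s ^ 3 * y₁ - s ^ 3 * y₂ = s ^ 2 * (s * (y₁ - y₂)) := by ring
    have e2 : s ^ 2 * x₁ - s ^ 2 * x₂ = s ^ 2 * (x₁ - x₂) := by ring
    rw [e1, e2, mul_div_mul_left _ _ (pow_ne_zero 2 hs), mul_div_assoc]

theorem rscFun_add (h : Rsc s W W') (P Q : W.toAffine.Point) :
    rscFun h (P + Q) = rscFun h P + rscFun h Q := by
  have hs := h.ne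
  rcases P with _ | ⟨x₁, y₁, h₁⟩ <;> rcases Q with _ | ⟨x₂, y₂, h₂⟩
  any_goals rfl
  by_cases hxy : x₁ = x₂ ∧ y₁ = W.toAffine.negY x₂ y₂
  · rw [Affine.Point.add_of_Y_eq hxy.left hxy.right]
    change _ = Affine.Point.some (s ^ 2 * x₁) (s ^ 3 * y₁) _ +
      Affine.Point.some (s ^ 2 * x₂) (s ^ 3 * y₂) _
    rw [Affine.Point.add_of_Y_eq (by rw [hxy.left]) (by
      rw [Rsc_negY h, hxy.right])]
    rfl
  · rw [Affine.Point.add_some hxy]
    change Affine.Point.some (s ^ 2 * _) (s ^ 3 * _) _ =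
      Affine.Point.some (s ^ 2 * x₁) (s ^ 3 * y₁) _ + Affine.Point.some (s ^ 2 * x₂) (s ^ 3 * y₂) _
    rw [Affine.Point.add_some (fun h1 => hxy
      ⟨mul_left_cancel₀ (pow_ne_zero 2 hs) h1.1, mul_left_cancel₀ (pow_ne_zero 3 hs) (by
        rw [← Rsc_negY h]; exact h1.2)⟩)]
    rw [Affine.Point.some.injEq]
    constructor
    · rw [Rsc_slope h hxy, Rsc_addX h]
    · rw [Rsc_slope h hxy, Rsc_addY h]

/-- The rescaling on points. -/
noncomputable def rsc (h : Rsc s W W') : W.toAffine.Point →+ W'.toAffine.Point where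
  toFun := rscFun h
  map_zero' := rfl
  map_add' := rscFun_add h

lemma rsc_some (h : Rsc s W W') {x y : k} (hxy : W.toAffine.Nonsingular x y) :
    rsc h (.some x y hxy) = .some (s ^ 2 * x) (s ^ 3 * y) (h.nonsing hxy) := rfl

omit [DecidableEq k] in
theorem Rsc.symm (h : Rsc s W W') : Rsc s⁻¹ W' W := by
  have hs := h.ne
  refine ⟨inv_ne_zero hs, ?_, ?_, ?_, ?_, ?_⟩
  · rw [h.a₁]; field_simp
  · rw [h.a₂]; field_simp
  · rw [h.a₃]; field_simp
  · rw [h.a₄]; field_simp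
  · rw [h.a₆]; field_simp

theorem rsc_symm (h : Rsc s W W') (P : W.toAffine.Point) : rsc h.symm (rsc h P) = P := by
  have hs := h.ne
  rcases P with _ | ⟨x, y, hxy⟩
  · rfl
  · rw [rsc_some, rsc_some, Affine.Point.some.injEq]
    constructor <;> field_simp

theorem rsc_neg (h2 : (2 : k) ≠ 0) (h : Rsc s W W') (h' : Rsc (-s) W W') (P : W.toAffine.Point) :
    rsc h' P = - rsc h P := by
  have e1 : W'.a₁ = 0 := by
    have h3 : 2 * W'.a₁ = 0 := by linear_combination h.a₁ + h'.a₁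
    exact (mul_eq_zero.1 h3).resolve_left h2
  have e3 : W'.a₃ = 0 := by
    have h3 : 2 * W'.a₃ = 0 := by linear_combination h.a₃ + h'.a₃
    exact (mul_eq_zero.1 h3).resolve_left h2
  rcases P with _ | ⟨x, y, hxy⟩
  · rfl
  · rw [rsc_some, rsc_some, Affine.Point.neg_some, Affine.Point.some.injEq]
    constructor
    · ring
    · unfold Affine.negY
      rw [e1, e3]
      ring

end

section

variable {k k' : Type*} [Field k] [Field k'] {s : k} {W W' : WeierstrassCurve k}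
  {Z Z' : WeierstrassCurve k'}

theorem Rsc.map (h : Rsc s W W') (φ : k →+* k') (hZ : W.map φ = Z) (hZ' : W'.map φ = Z') :
    Rsc (φ s) Z Z' := by
  subst hZ hZ'
  refine ⟨fun h1 => h.ne (φ.injective (by rw [h1, map_zero])), ?_, ?_, ?_, ?_, ?_⟩
  · show φ W'.a₁ = φ s * φ W.a₁
    rw [h.a₁, map_mul]
  · show φ W'.a₂ = φ s ^ 2 * φ W.a₂
    rw [h.a₂, map_mul, map_pow]
  · show φ W'.a₃ = φ s ^ 3 * φ W.a₃
    rw [h.a₃, map_mul, map_pow]
  · show φ W'.a₄ = φ s ^ 4 * φ W.a₄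
    rw [h.a₄, map_mul, map_pow]
  · show φ W'.a₆ = φ s ^ 6 * φ W.a₆
    rw [h.a₆, map_mul, map_pow]

theorem rsc_pm [DecidableEq k] [DecidableEq k'] (h : Rsc s W W') (φ : k →+* k')
    (hZ : W.map φ = Z) (hZ' : W'.map φ = Z') {t : k'} (ht : t = φ s) (h' : Rsc t Z Z')
    (P : W.toAffine.Point) : pm φ hZ' (rsc h P) = rsc h' (pm φ hZ P) := by
  rcases P with _ | ⟨x, y, hxy⟩
  · rfl
  · rw [rsc_some, pm_some, pm_some, rsc_some, Affine.Point.some.injEq]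
    rw [map_mul, map_mul, map_pow, map_pow, ht]
    exact ⟨rfl, rfl⟩

end

/-- The standard curves. -/
theorem rsc_cu {k : Type*} [Field k] {A B d d' : ℤ} {s : k} (hs : s ≠ 0)
    (hd : (d' : k) = s ^ 2 * (d : k)) : Rsc s (cu k (A * d) (B * d)) (cu k (A * d') (B * d')) := by
  refine ⟨hs, ?_, ?_, ?_, ?_, ?_⟩
  · show (0 : k) = s * 0
    rw [mul_zero]
  · show -(((A * d' : ℤ) : k) + ((B * d' : ℤ) : k)) =
      s ^ 2 * -(((A * d : ℤ) : k) + ((B * d : ℤ) : k))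
    push_cast
    rw [hd]
    ring
  · show (0 : k) = s ^ 3 * 0
    rw [mul_zero]
  · show ((A * d' : ℤ) : k) * ((B * d' : ℤ) : k) =
      s ^ 4 * (((A * d : ℤ) : k) * ((B * d : ℤ) : k))
    push_cast
    rw [hd]
    ring
  · show (0 : k) = s ^ 6 * 0
    rw [mul_zero]

theorem cu_map {k k' : Type*} [Field k] [Field k'] (φ : k →+* k') (A B : ℤ) :
    (cu k A B).map φ = cu k' A B := by
  ext
  · show φ 0 = 0
    rw [map_zero]
  · show φ (-((A : k) + (B : k))) = -((A : k') + (B : k'))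
    rw [map_neg, map_add, map_intCast, map_intCast]
  · show φ 0 = 0
    rw [map_zero]
  · show φ ((A : k) * (B : k)) = (A : k') * (B : k')
    rw [map_mul, map_intCast, map_intCast]
  · show φ 0 = 0
    rw [map_zero]

end Pool.Agent.H93.MQ
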