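import Pool.Agent.H93.MQ.Defs

/-!
ROW LocS (project MP_78d38b_MQ). Integers congruent to a square modulo `8 p` are squares in
`ℚ_[p]`.

Hensel's lemma (`hensels_lemma` in Mathlib.NumberTheory.Padics.Hensel) for `X ^ 2 - u` over
`ℤ_[p]` at `a = c`: `‖c ^ 2 - u‖ ≤ ‖8 p‖ < ‖2 c‖ ^ 2 = ‖4‖` since `c` is prime to `p`.
`sq_of_unit`: for an odd prime, a unit of `ℤ_[p]` which is a square modulo `p` is a square (same
argument).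
-/

set_option autoImplicit false

open NumberField IsDedekindDomain WeierstrassCurve Pool.Agent.H10

namespace Pool.Agent.H93.MQ

theorem LocS_core {p : ℕ} [Fact p.Prime] {u a : ℤ_[p]}
    (h : ‖a ^ 2 - u‖ < ‖2 * a‖ ^ 2) : ∃ z : ℤ_[p], z ^ 2 = u := by
  have hA : (Polynomial.aeval a) (Polynomial.X ^ 2 - Polynomial.C u : Polynomial ℤ_[p])
      = a ^ 2 - u := by simp
  have hD : (Polynomial.aeval a)
      (Polynomial.derivative (Polynomial.X ^ 2 - Polynomial.C u : Polynomial ℤ_[p]))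
      = 2 * a := by
    simp
    left; norm_num
  have hh := hensels_lemma (F := (Polynomial.X ^ 2 - Polynomial.C u : Polynomial ℤ_[p]))
    (a := a) (by rw [hA, hD]; exact h)
  obtain ⟨z, hz, -⟩ := hh
  refine ⟨z, ?_⟩
  have : (Polynomial.aeval z) (Polynomial.X ^ 2 - Polynomial.C u : Polynomial ℤ_[p])
      = z ^ 2 - u := by simp
  rw [this] at hz
  exact sub_eq_zero.mp hz

theorem loc_sq {p : ℕ} [Fact p.Prime] {u c : ℤ} (hc : ¬ (p : ℤ) ∣ c)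
    (h : (8 * p : ℤ) ∣ u - c ^ 2) : IsSquare ((u : ℤ) : ℚ_[p]) := by
  have hp : p.Prime := Fact.out
  have hc1 : ‖((c : ℤ) : ℤ_[p])‖ = 1 := by
    have h1 : ¬ ‖((c : ℤ) : ℤ_[p])‖ < 1 := by
      rw [PadicInt.norm_int_lt_one_iff_dvd]; exact hc
    exact le_antisymm (PadicInt.norm_le_one _) (not_lt.mp h1)
  obtain ⟨m, hm⟩ := h
  have hval : ((c : ℤ) : ℤ_[p]) ^ 2 - ((u : ℤ) : ℤ_[p]) = - (8 * (p : ℤ_[p]) * (m : ℤ_[p])) := by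
    have := congrArg (fun z : ℤ => (z : ℤ_[p])) hm
    push_cast at this
    rw [← this]; ring
  have hlt : ‖((c : ℤ) : ℤ_[p]) ^ 2 - ((u : ℤ) : ℤ_[p])‖ < ‖2 * ((c : ℤ) : ℤ_[p])‖ ^ 2 := by
    rw [hval, norm_neg, norm_mul, norm_mul, norm_mul (2 : ℤ_[p]), hc1, mul_one, PadicInt.norm_p]
    have h2le : ‖(2 : ℤ_[p])‖ ≤ 1 := PadicInt.norm_le_one _
    have h2pos : 0 < ‖(2 : ℤ_[p])‖ := norm_pos_iff.mpr (by norm_num)
    have hml : ‖((m : ℤ) : ℤ_[p])‖ ≤ 1 := PadicInt.norm_le_one _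
    have h8 : ‖(8 : ℤ_[p])‖ = ‖(2 : ℤ_[p])‖ ^ 3 := by
      rw [← norm_pow]; norm_num
    have hpinv : ((p : ℝ))⁻¹ < 1 := by
      have : (1 : ℝ) < p := by exact_mod_cast hp.one_lt
      exact inv_lt_one_of_one_lt₀ this
    have hpinv0 : 0 < ((p : ℝ))⁻¹ := by
      have : (0 : ℝ) < p := by exact_mod_cast hp.pos
      exact inv_pos.mpr this
    rw [h8]
    have h3 : ‖(2 : ℤ_[p])‖ ^ 3 ≤ ‖(2 : ℤ_[p])‖ ^ 2 := by
      have : ‖(2 : ℤ_[p])‖ ^ 3 = ‖(2 : ℤ_[p])‖ ^ 2 * ‖(2 : ℤ_[p])‖ := by ring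
      rw [this]; exact mul_le_of_le_one_right (by positivity) h2le
    have h4 : 0 < ‖(2 : ℤ_[p])‖ ^ 2 := by positivity
    have hm0 : 0 ≤ ‖((m : ℤ) : ℤ_[p])‖ := norm_nonneg _
    calc ‖(2 : ℤ_[p])‖ ^ 3 * (p : ℝ)⁻¹ * ‖((m : ℤ) : ℤ_[p])‖
        ≤ ‖(2 : ℤ_[p])‖ ^ 3 * (p : ℝ)⁻¹ * 1 := by gcongr
      _ ≤ ‖(2 : ℤ_[p])‖ ^ 2 * (p : ℝ)⁻¹ := by rw [mul_one]; gcongr
      _ < ‖(2 : ℤ_[p])‖ ^ 2 * 1 := by gcongr
      _ = ‖(2 : ℤ_[p])‖ ^ 2 := mul_one _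
  obtain ⟨z, hz⟩ := LocS_core hlt
  refine ⟨((z : ℤ_[p]) : ℚ_[p]), ?_⟩
  have h5 := congrArg (fun w : ℤ_[p] => (w : ℚ_[p])) hz
  push_cast at h5
  rw [← h5]; ring

theorem sq_of_unit {p : ℕ} [Fact p.Prime] (h2 : p ≠ 2) {u w : ℤ_[p]} (hw : ‖w‖ = 1)
    (h : ‖u - w ^ 2‖ < 1) : IsSquare u := by
  have hp : p.Prime := Fact.out
  have h21 : ‖(2 : ℤ_[p])‖ = 1 := by
    have h1 : ¬ ‖((2 : ℤ) : ℤ_[p])‖ < 1 := by
      rw [PadicInt.norm_int_lt_one_iff_dvd]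
      intro hd
      have : p ∣ 2 := by exact_mod_cast hd
      exact h2 ((Nat.prime_dvd_prime_iff_eq hp Nat.prime_two).mp this)
    have h3 := le_antisymm (PadicInt.norm_le_one _) (not_lt.mp h1)
    simpa using h3
  have hlt : ‖w ^ 2 - u‖ < ‖2 * w‖ ^ 2 := by
    rw [norm_mul, h21, hw, norm_sub_rev]; simpa using h
  obtain ⟨z, hz⟩ := LocS_core hlt
  exact ⟨z, by rw [← hz]; ring⟩

end Pool.Agent.H93.MQ
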