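import Pool.Agent.H93.MQ.ClA

/-!
ROW SolA (project MP_78d38b_MQ). Soluble classes form a group and behave well under scaling.

* `Sol.congr`: by `cl_eq_iff` there are nonzero integers with `m * s ^ 2 = m' * t ^ 2`,
  `n * s' ^ 2 = n' * t' ^ 2`; so in `k` (characteristic zero) `m' = m * (s / t) ^ 2`, and so on, and
  `(m' * n') = (m * n) * (s s' / (t t')) ^ 2`. Use `CPt.congr` (H10/SelDef).
* `SolC.sol`: choose the representatives, then `Sol.congr`.
* `SolC.zero`: `m = n = 1`, the point `(0, 1, 1, 1)`.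
* `SolC.add`: `CPt.mul` (H10/Bridge3; the field has characteristic zero, hence is perfect), with
  `c = m n`, `c' = m' n'`, then `cl_mul`.
* `SolC.tor`: the four cases of `u`; `TorsCls.cpt` (H10/SelTors) or direct: `u = (0,1)`: triple
  `(A B, -A, -B)`, the class of `(A * B) * (-A)` is the class of `-B` (up to the square `A ^ 2`),
  point `(1, 0, 1, 1)`; `u = (1,0)`: `(A, A (A - B), A - B)`, point `(1, 1, 0, 1)`;
  `u = (1,1)`: `(B, B - A, B (B - A))`, point `(1, 1, 1, 0)`. Use `tor_apply`, `cl_mul`, and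
  `CPt.congr` to pass to the third component `m * n`.
* `SolC.scale`: if `d = s ^ 2` in `k`, replace `z₀` by `s * z₀`, respectively `z₀ / s`.
* `SolC.real_of_pos`: `z = (cl m, cl n)` with `m, n > 0` by `exists_cl` and `cl_apply_zero`; then
  the point is `z₀ = 0`, `z₁ = 1 / sqrt m` etc.
-/

set_option autoImplicit false

open NumberField IsDedekindDomain WeierstrassCurve Pool.Agent.H10

namespace Pool.Agent.H93.MQ

variable {k : Type*} [Field k] [CharZero k] {A B : ℤ}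

lemma SolA_ratio {m m' s t : ℤ} (ht : t ≠ 0) (h : m * s ^ 2 = m' * t ^ 2) :
    ((m' : ℤ) : k) = (m : k) * ((s : k) / (t : k)) ^ 2 := by
  have ht' : (t : k) ≠ 0 := Int.cast_ne_zero.2 ht
  have h' := congrArg (Int.cast : ℤ → k) h
  push_cast at h'
  rw [div_pow, mul_div_assoc', eq_div_iff (pow_ne_zero 2 ht')]
  exact h'.symm

lemma Sol.congr {m n m' n' : ℤ} (hm : m ≠ 0) (hn : n ≠ 0) (hm' : m' ≠ 0) (hn' : n' ≠ 0)
    (h1 : cl m = cl m') (h2 : cl n = cl n') (H : Sol k A B m n) : Sol k A B m' n' := by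
  obtain ⟨s, t, hs, ht, e1⟩ := (cl_eq_iff hm hm').1 h1
  obtain ⟨s', t', hs', ht', e2⟩ := (cl_eq_iff hn hn').1 h2
  have cs : (s : k) ≠ 0 := Int.cast_ne_zero.2 hs
  have ct : (t : k) ≠ 0 := Int.cast_ne_zero.2 ht
  have cs' : (s' : k) ≠ 0 := Int.cast_ne_zero.2 hs'
  have ct' : (t' : k) ≠ 0 := Int.cast_ne_zero.2 ht'
  have g1 := SolA_ratio (k := k) ht e1
  have g2 := SolA_ratio (k := k) ht' e2
  refine CPt.congr (div_ne_zero cs ct) (div_ne_zero cs' ct')
    (mul_ne_zero (div_ne_zero cs ct) (div_ne_zero cs' ct')) H g1 g2 ?_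
  rw [Int.cast_mul, Int.cast_mul, g1, g2]
  ring

lemma SolC.sol {m n : ℤ} (hm : m ≠ 0) (hn : n ≠ 0) (H : SolC k A B (cl m, cl n)) :
    Sol k A B m n := by
  obtain ⟨m', n', hm', hn', he, hs⟩ := H
  have e := Prod.mk.injEq _ _ _ _ ▸ he
  exact Sol.congr hm' hn' hm hn e.1.symm e.2.symm hs

lemma SolC.zero : SolC k A B 0 := by
  refine ⟨1, 1, one_ne_zero, one_ne_zero, by rw [cl_one]; rfl, ?_⟩
  exact ⟨0, 1, 1, 1, Or.inr (Or.inl one_ne_zero), by simp, by simp⟩

lemma SolC.add (h : NZ A B) {z z' : V × V} (H : SolC k A B z) (H' : SolC k A B z') :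
    SolC k A B (z + z') := by
  obtain ⟨m, n, hm, hn, rfl, hs⟩ := H
  obtain ⟨m', n', hm', hn', rfl, hs'⟩ := H'
  refine ⟨m * m', n * n', mul_ne_zero hm hm', mul_ne_zero hn hn', ?_, ?_⟩
  · rw [cl_mul hm hm', cl_mul hn hn']; rfl
  · have h12 : (0 : k) ≠ (A : k) := (Int.cast_ne_zero.2 h.hA).symm
    have h13 : (0 : k) ≠ (B : k) := (Int.cast_ne_zero.2 h.hB).symm
    have h23 : (A : k) ≠ (B : k) := fun e => h.hAB (Int.cast_injective e)
    have key := CPt.mul h12 h13 h23 two_ne_zero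
      (d₁ := (m : k)) (d₂ := (n : k)) (d₃ := ((m * n : ℤ) : k)) (c := ((m * n : ℤ) : k))
      (b₁ := (m' : k)) (b₂ := (n' : k)) (b₃ := ((m' * n' : ℤ) : k)) (c' := ((m' * n' : ℤ) : k))
      (by push_cast; ring) (Int.cast_ne_zero.2 (mul_ne_zero hm hn)) (by push_cast; ring)
      (Int.cast_ne_zero.2 (mul_ne_zero hm' hn')) hs hs'
    unfold Sol
    have e1 : ((m * m' : ℤ) : k) = (m : k) * (m' : k) := by push_cast; ring
    have e2 : ((n * n' : ℤ) : k) = (n : k) * (n' : k) := by push_cast; ring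
    have e3 : ((m * m' * (n * n') : ℤ) : k) = ((m * n : ℤ) : k) * ((m' * n' : ℤ) : k) := by
      push_cast; ring
    rw [e1, e2, e3]
    exact key

lemma SolC.tor (h : NZ A B) (u : ZMod 2 × ZMod 2) : SolC k A B (tor A B u) := by
  have h2 : ∀ x : ZMod 2, x = 0 ∨ x = 1 := by decide
  have hA := h.hA
  have hB := h.hB
  have hD : A - B ≠ 0 := sub_ne_zero.2 h.hAB
  have cA : (A : k) ≠ 0 := Int.cast_ne_zero.2 hA
  obtain ⟨u1, u2⟩ := u
  rcases h2 u1 with rfl | rfl <;> rcases h2 u2 with rfl | rfl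
  · have : Pool.Agent.H93.MQ.tor A B ((0 : ZMod 2), (0 : ZMod 2)) = 0 :=
      map_zero (Pool.Agent.H93.MQ.tor A B)
    rw [this]
    exact SolC.zero
  · refine ⟨A * B, -A, mul_ne_zero hA hB, neg_ne_zero.2 hA, ?_, ?_⟩
    · rw [tor_apply]; simp
    · refine ⟨1, 0, 1, 1 / (A : k), Or.inl one_ne_zero, ?_, ?_⟩
      · push_cast; ring
      · push_cast; field_simp; ring
  · refine ⟨A, A * (A - B), hA, mul_ne_zero hA hD, ?_, ?_⟩
    · rw [tor_apply]; simp
    · refine ⟨1, 1, 0, 1 / (A : k), Or.inl one_ne_zero, ?_, ?_⟩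
      · push_cast; ring
      · push_cast; field_simp; ring
  · refine ⟨A * (A * B), A * (A - B) * (-A), mul_ne_zero hA (mul_ne_zero hA hB),
      mul_ne_zero (mul_ne_zero hA hD) (neg_ne_zero.2 hA), ?_, ?_⟩
    · rw [tor_apply, cl_mul hA (mul_ne_zero hA hB),
        cl_mul (mul_ne_zero hA hD) (neg_ne_zero.2 hA)]
      simp
    · refine ⟨1, 1 / (A : k), 1 / (A : k), 0, Or.inl one_ne_zero, ?_, ?_⟩
      · push_cast; field_simp; ring
      · push_cast; field_simp; ring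

lemma SolC.scale {d : ℤ} (hd : d ≠ 0) (hs : IsSquare ((d : ℤ) : k)) (z : V × V) :
    SolC k (A * d) (B * d) z ↔ SolC k A B z := by
  obtain ⟨s, hs⟩ := hs
  have cd : (d : k) ≠ 0 := Int.cast_ne_zero.2 hd
  have s0 : s ≠ 0 := by
    rintro rfl
    rw [mul_zero] at hs
    exact cd hs
  constructor
  · rintro ⟨m, n, hm, hn, hz, z₀, z₁, z₂, z₃, h0, E1, E2⟩
    refine ⟨m, n, hm, hn, hz, s * z₀, z₁, z₂, z₃, ?_, ?_, ?_⟩
    · rcases h0 with h | h
      · exact Or.inl (mul_ne_zero s0 h)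
      · exact Or.inr h
    · push_cast at E1
      rw [hs] at E1
      linear_combination E1
    · push_cast at E2 ⊢
      rw [hs] at E2
      linear_combination E2
  · rintro ⟨m, n, hm, hn, hz, z₀, z₁, z₂, z₃, h0, E1, E2⟩
    refine ⟨m, n, hm, hn, hz, z₀ / s, z₁, z₂, z₃, ?_, ?_, ?_⟩
    · rcases h0 with h | h
      · exact Or.inl (div_ne_zero h s0)
      · exact Or.inr h
    · push_cast
      rw [hs]
      have : (A : k) * (s * s) * (z₀ / s) ^ 2 = A * z₀ ^ 2 := by field_simp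
      rw [this]
      linear_combination E1
    · push_cast at E2 ⊢
      rw [hs]
      have : (B : k) * (s * s) * (z₀ / s) ^ 2 = B * z₀ ^ 2 := by field_simp
      rw [this]
      linear_combination E2

/-- The coordinates of a soluble class vanish at the nonzero non-primes. -/
lemma SolC.at_eq {z : V × V} (H : SolC k A B z) {i : ℕ} (h0 : i ≠ 0) (hi : ¬ i.Prime) :
    at_ i z = 0 := by
  obtain ⟨m, n, hm, hn, rfl, -⟩ := H
  rw [at_apply, cl_apply_of_not_prime m h0 hi, cl_apply_of_not_prime n h0 hi]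
  rfl

lemma SolA_pos {m : ℤ} (hm : m ≠ 0) (h : cl m 0 = 0) : 0 < m := by
  rw [cl_apply_zero hm] at h
  by_contra hcon
  have : m < 0 := lt_of_le_of_ne (not_lt.1 hcon) hm
  rw [if_pos this] at h
  exact one_ne_zero h

lemma SolC.real_of_pos {A B : ℤ} {z : V × V} (hz : ∀ i : ℕ, i ≠ 0 → ¬ i.Prime → at_ i z = 0)
    (h0 : at_ 0 z = 0) : SolC ℝ A B z := by
  obtain ⟨m, hm, hm'⟩ := exists_cl z.1 (fun i h1 h2 => by
    have := hz i h1 h2
    rw [at_apply] at this
    exact congrArg Prod.fst this)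
  obtain ⟨n, hn, hn'⟩ := exists_cl z.2 (fun i h1 h2 => by
    have := hz i h1 h2
    rw [at_apply] at this
    exact congrArg Prod.snd this)
  rw [at_apply] at h0
  have hmp : 0 < m := SolA_pos hm (by rw [hm']; exact congrArg Prod.fst h0)
  have hnp : 0 < n := SolA_pos hn (by rw [hn']; exact congrArg Prod.snd h0)
  have cm : (0 : ℝ) < m := Int.cast_pos.2 hmp
  have cn : (0 : ℝ) < n := Int.cast_pos.2 hnp
  refine ⟨m, n, hm, hn, by rw [hm', hn'], 0, 1 / Real.sqrt m, 1 / Real.sqrt n,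
    1 / Real.sqrt ((m : ℝ) * n), Or.inr (Or.inl ?_), ?_, ?_⟩
  · exact one_div_ne_zero (Real.sqrt_ne_zero'.2 cm)
  · rw [div_pow, div_pow, Real.sq_sqrt cm.le, Real.sq_sqrt cn.le]
    field_simp
    ring
  · push_cast
    rw [div_pow, div_pow, Real.sq_sqrt cm.le, Real.sq_sqrt (mul_pos cm cn).le]
    field_simp
    ring

lemma NZ.scale (h : NZ A B) {d : ℤ} (hd : d ≠ 0) : NZ (A * d) (B * d) :=
  ⟨mul_ne_zero h.hA hd, mul_ne_zero h.hB hd, fun e => h.hAB (mul_right_cancel₀ hd e)⟩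

end Pool.Agent.H93.MQ
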