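import Pool.Agent.H93.MQ.FF
import Pool.Agent.H93.MQ.LocS
import Pool.Agent.H93.MQ.SolA

/-!
ROW LocG (project MP_78d38b_MQ). At an odd prime of good reduction all unramified classes are
soluble.

Write `z = (cl m, cl n)` (by `exists_cl`, hypothesis `hz`), and since `at_ p z = 0` divide by even
powers of `p` so that `p` divides neither `m` nor `n`. Let `F = ZMod p`. By `ff_sol` with
`e = (0, A, B)`, `d = (m, n, m n)`, `c = m n` there is a point `(z₀, z₁, z₂, z₃)` over `F`.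
If `z₀ = 0`: `m z₁² = n z₂² = m n z₃²` with one, hence all, of `z₁ z₂ z₃` nonzero; so `m n`, `n`,
`m` are squares modulo `p`, hence in `ℚ_[p]` (`sq_of_unit`), and `(0, 1/√m, 1/√n, 1/√(m n))` is a
point.
If `z₀ ≠ 0`, scale to `z₀ = 1` and let `x = m z₁² = n z₂² + A = m n z₃² + B` in `F`.
Case `z₁ = 0`, that is `x = 0`: then `-A = n z₂²`, `-B = m n z₃²` in `F`, and both are nonzero, so
`-A / n` and `-B / (m n)` are squares in `ℤ_[p]` by `sq_of_unit`, which gives a point with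
`z₀ = 1`, `z₁ = 0`. Similarly for `z₂ = 0` (`x = A`) and `z₃ = 0` (`x = B`); these cases exclude
each other. If all `z_i ≠ 0`, lift `x` to an integer `X`: then `X / m`, `(X - A) / n`,
`(X - B) / (m n)` are units of `ℤ_[p]` which are squares modulo `p`, hence squares.
-/

set_option autoImplicit false

open NumberField IsDedekindDomain WeierstrassCurve Pool.Agent.H10

namespace Pool.Agent.H93.MQ

/-- a representative prime to `p` -/
lemma LocG_rep {p : ℕ} [Fact p.Prime] (v : V) (hv : ∀ i : ℕ, i ≠ 0 → ¬ i.Prime → v i = 0)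
    (h0 : v p = 0) : ∃ n : ℤ, n ≠ 0 ∧ ¬ (p : ℤ) ∣ n ∧ cl n = v := by
  have hp : p.Prime := Fact.out
  obtain ⟨n, hn, rfl⟩ := exists_cl v hv
  rw [cl_apply_prime hn hp, ZMod.natCast_eq_zero_iff] at h0
  obtain ⟨k, hk⟩ := h0
  obtain ⟨m, hm⟩ := padicValInt_dvd (p := p) n
  rw [hk] at hm
  have hm0 : m ≠ 0 := by
    intro h
    rw [h, mul_zero] at hm
    exact hn hm
  refine ⟨m, hm0, ?_, ?_⟩
  · rintro ⟨a, ha⟩
    have h1 : (p : ℤ) ^ (2 * k + 1) ∣ n := ⟨a, by rw [hm, ha, pow_succ, mul_assoc]⟩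
    rcases (padicValInt_dvd_iff (2 * k + 1) n).1 h1 with h | h
    · exact hn h
    · omega
  · refine (cl_eq_iff hm0 hn).2 ⟨(p : ℤ) ^ k, 1, pow_ne_zero k ?_, one_ne_zero, ?_⟩
    · exact_mod_cast hp.ne_zero
    · rw [hm]
      ring

/-- nonzero squares modulo `p` are squares in `ℚ_[p]` -/
lemma LocG_sq {p : ℕ} [Fact p.Prime] (h2 : p ≠ 2) (a : ℤ) (h0 : (a : ZMod p) ≠ 0) {w : ZMod p}
    (hw : (a : ZMod p) = w ^ 2) : ∃ r : ℚ_[p], (a : ℚ_[p]) = r ^ 2 := by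
  obtain ⟨b, rfl⟩ := ZMod.intCast_surjective w
  have hb : ¬ (p : ℤ) ∣ b := by
    intro h
    apply h0
    rw [hw, (ZMod.intCast_zmod_eq_zero_iff_dvd b p).2 h]
    ring
  have h1 : (p : ℤ) ∣ a - b ^ 2 := by
    rw [← ZMod.intCast_zmod_eq_zero_iff_dvd]
    push_cast
    rw [hw]
    ring
  have h3 : ‖((b : ℤ) : ℤ_[p])‖ = 1 :=
    le_antisymm (PadicInt.norm_le_one _)
      (not_lt.1 fun h => hb ((PadicInt.norm_int_lt_one_iff_dvd b).1 h))
  have h4 : ‖((a : ℤ) : ℤ_[p]) - ((b : ℤ) : ℤ_[p]) ^ 2‖ < 1 := by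
    have h5 := (PadicInt.norm_int_lt_one_iff_dvd (p := p) (a - b ^ 2)).2 h1
    push_cast at h5
    exact h5
  obtain ⟨r, hr⟩ := sq_of_unit h2 h3 h4
  refine ⟨(r : ℚ_[p]), ?_⟩
  have h5 := congrArg (fun x : ℤ_[p] => (x : ℚ_[p])) hr
  push_cast at h5
  rw [h5, sq]

/-- the lifting of the affine points -/
lemma LocG_aff {p : ℕ} [Fact p.Prime] (h2 : p ≠ 2) {A B m n : ℤ} (hA : (A : ZMod p) ≠ 0)
    (hB : (B : ZMod p) ≠ 0) (hAB : (A : ZMod p) ≠ (B : ZMod p)) (hm : (m : ZMod p) ≠ 0)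
    (hn : (n : ZMod p) ≠ 0) {x z₁ z₂ z₃ : ZMod p} (h1 : (m : ZMod p) * z₁ ^ 2 = x)
    (h2' : (n : ZMod p) * z₂ ^ 2 + A = x) (h3 : (m : ZMod p) * n * z₃ ^ 2 + B = x) :
    Sol ℚ_[p] A B m n := by
  obtain ⟨X, hX, hX0, hXA, hXB⟩ : ∃ X : ℤ, (X : ZMod p) = x ∧ (X = 0 ∨ x ≠ 0) ∧
      (X = A ∨ x ≠ A) ∧ (X = B ∨ x ≠ B) := by
    by_cases e0 : x = 0
    · refine ⟨0, by rw [e0]; simp, Or.inl rfl, Or.inr ?_, Or.inr ?_⟩
      · rw [e0]; exact hA.symm
      · rw [e0]; exact hB.symm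
    by_cases eA : x = A
    · refine ⟨A, eA.symm, Or.inr e0, Or.inl rfl, Or.inr ?_⟩
      rw [eA]; exact hAB
    by_cases eB : x = B
    · exact ⟨B, eB.symm, Or.inr e0, Or.inr eA, Or.inl rfl⟩
    obtain ⟨X, hX⟩ := ZMod.intCast_surjective x
    exact ⟨X, hX, Or.inr e0, Or.inr eA, Or.inr eB⟩
  have key : ∀ (e d : ℤ) (y : ZMod p), (d : ZMod p) ≠ 0 → (d : ZMod p) * y ^ 2 + e = x →
      (X = e ∨ x ≠ e) → ∃ r : ℚ_[p], (((X - e) * d : ℤ) : ℚ_[p]) = r ^ 2 := by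
    intro e d y hd hy he
    rcases he with rfl | he
    · exact ⟨0, by simp⟩
    · refine LocG_sq h2 _ ?_ (w := (d : ZMod p) * y) ?_
      · push_cast
        rw [hX]
        exact mul_ne_zero (sub_ne_zero.2 he) hd
      · push_cast
        rw [hX, ← hy]
        ring
  obtain ⟨r₁, hr₁⟩ := key 0 m z₁ hm (by push_cast; rw [add_zero]; exact h1)
    (by push_cast; exact hX0)
  obtain ⟨r₂, hr₂⟩ := key A n z₂ hn h2' hXA
  obtain ⟨r₃, hr₃⟩ := key B (m * n) z₃ (by push_cast; exact mul_ne_zero hm hn)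
    (by push_cast; exact h3) hXB
  have hm0 : (m : ℚ_[p]) ≠ 0 := by
    have h4 : m ≠ 0 := by
      rintro rfl
      exact hm (by simp)
    exact_mod_cast h4
  have hn0 : (n : ℚ_[p]) ≠ 0 := by
    have h4 : n ≠ 0 := by
      rintro rfl
      exact hn (by simp)
    exact_mod_cast h4
  push_cast at hr₁ hr₂ hr₃
  refine ⟨1, r₁ / m, r₂ / n, r₃ / (m * n), Or.inl one_ne_zero, ?_, ?_⟩
  · rw [div_pow, div_pow, ← hr₁, ← hr₂]
    field_simp
    ring
  · push_cast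
    rw [div_pow, div_pow, ← hr₁, ← hr₃]
    field_simp
    ring

theorem loc_good {p : ℕ} [Fact p.Prime] (h2 : p ≠ 2) {A B : ℤ}
    (hp : ¬ (p : ℤ) ∣ A * B * (A - B)) {z : V × V}
    (hz : ∀ i : ℕ, i ≠ 0 → ¬ i.Prime → at_ i z = 0) (h0 : at_ p z = 0) : SolC ℚ_[p] A B z := by
  have hpp : p.Prime := Fact.out
  obtain ⟨m, hm0, hpm, hm⟩ := LocG_rep (p := p) z.1
    (fun i h0 hi => congrArg Prod.fst (hz i h0 hi)) (congrArg Prod.fst h0)
  obtain ⟨n, hn0, hpn, hn⟩ := LocG_rep (p := p) z.2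
    (fun i h0 hi => congrArg Prod.snd (hz i h0 hi)) (congrArg Prod.snd h0)
  refine ⟨m, n, hm0, hn0, by rw [hm, hn], ?_⟩
  have hcast : ∀ a : ℤ, ¬ (p : ℤ) ∣ a → (a : ZMod p) ≠ 0 := fun a ha h =>
    ha ((ZMod.intCast_zmod_eq_zero_iff_dvd a p).1 h)
  have hA := hcast A fun h => hp (Dvd.dvd.mul_right (Dvd.dvd.mul_right h _) _)
  have hB := hcast B fun h => hp (Dvd.dvd.mul_right (Dvd.dvd.mul_left h _) _)
  have hAB := hcast (A - B) fun h => hp (Dvd.dvd.mul_left h _)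
  push_cast at hAB
  rw [sub_ne_zero] at hAB
  have hm' := hcast m hpm
  have hn' := hcast n hpn
  have h2' : (2 : ZMod p) ≠ 0 := by
    have h3 := hcast 2 fun h => h2 ((Nat.prime_dvd_prime_iff_eq hpp Nat.prime_two).1 (by exact_mod_cast h))
    exact_mod_cast h3
  obtain ⟨z₀, z₁, z₂, z₃, hne, e1, e2⟩ := ff_sol (F := ZMod p) h2' (e₁ := 0) (e₂ := (A : ZMod p))
    (e₃ := (B : ZMod p)) (d₁ := (m : ZMod p)) (d₂ := (n : ZMod p)) (d₃ := (m : ZMod p) * n)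
    (c := (m : ZMod p) * n) hA.symm hB.symm hAB (by ring) (mul_ne_zero hm' hn')
  by_cases hz0 : z₀ = 0
  · subst hz0
    have e3 : (m : ZMod p) * z₁ ^ 2 = n * z₂ ^ 2 := by linear_combination e1
    have e4 : (m : ZMod p) * z₁ ^ 2 = m * n * z₃ ^ 2 := by linear_combination e2
    have hz1 : z₁ ≠ 0 := by
      rintro rfl
      have h3 : z₂ = 0 := by
        have h4 : (n : ZMod p) * z₂ ^ 2 = 0 := by rw [← e3]; ring
        exact pow_eq_zero_iff two_ne_zero |>.1 ((mul_eq_zero.1 h4).resolve_left hn')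
      have h5 : z₃ = 0 := by
        have h4 : (m : ZMod p) * n * z₃ ^ 2 = 0 := by rw [← e4]; ring
        exact pow_eq_zero_iff two_ne_zero |>.1
          ((mul_eq_zero.1 h4).resolve_left (mul_ne_zero hm' hn'))
      rcases hne with h | h | h | h
      · exact h rfl
      · exact h rfl
      · exact h h3
      · exact h h5
    have hz3 : z₃ ≠ 0 := by
      rintro rfl
      have h4 : (m : ZMod p) * z₁ ^ 2 = 0 := by rw [e4]; ring
      exact hz1 (pow_eq_zero_iff two_ne_zero |>.1 ((mul_eq_zero.1 h4).resolve_left hm'))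
    obtain ⟨s, hs⟩ := LocG_sq h2 n hn' (w := z₁ / z₃) (by
      rw [div_pow, eq_div_iff (pow_ne_zero 2 hz3)]
      exact mul_left_cancel₀ hm' (by rw [e4]; ring))
    obtain ⟨r, hr⟩ := LocG_sq h2 m hm' (w := z₂ / z₃) (by
      rw [div_pow, eq_div_iff (pow_ne_zero 2 hz3)]
      exact mul_left_cancel₀ hn' (by rw [← e3, e4]; ring))
    refine ⟨0, s, r, 1, Or.inr (Or.inr (Or.inr one_ne_zero)), ?_, ?_⟩
    · rw [hr, hs]
      ring
    · push_cast
      rw [hr, hs]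
      ring
  · refine LocG_aff h2 hA hB hAB hm' hn' (x := m * (z₁ / z₀) ^ 2) (z₁ := z₁ / z₀)
      (z₂ := z₂ / z₀) (z₃ := z₃ / z₀) rfl ?_ ?_
    · field_simp
      linear_combination -e1
    · field_simp
      linear_combination -e2

end Pool.Agent.H93.MQ
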