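import Pool.Agent.H93.MQ.SelA
import Pool.Agent.H93.MQ.LocG

/-!
ROW SelC (project MP_78d38b_MQ). If `E(ℚ)` is finite without points of order four and
`Sha(E/ℚ)[2] = 0`, then `Sel S A B` consists of the classes of the two-torsion points.

Let `z = (cl m, cl n) ∈ Sel S A B` (`mem_sel`). By `loc_good` (primes outside `S`) it is soluble over
`ℚ_[p]` for every prime `p`, and over the reals. Transport to the completions
`v.adicCompletion ℚ` of all finite places (every finite place of the rationals comes from a prime,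
`Rat.HeightOneSpectrum.adicCompletion.padicEquiv v` is a ring isomorphism with `ℚ_[primesEquiv v]`)
and to `v.Completion` for the infinite place (`exists_real_to_completion`, H10/RealPl.lean).
Apply `exists_sha_of_triple` (H10/Hasse.lean) for the curve `cu ℚ A B` (`isCub_cu`), with `c = m n`:
it gives a locally trivial cocycle `f` with `f σ + f σ = 0` and a `Triple`. The class
`Sha.mk ⟨f, _⟩` is killed by two, hence zero, so `f` is a coboundary (`Sha.mk_eq_zero`), and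
`Triple.cpt` (H10/Descent.lean, see the proof of `cpt_of_sha2Trivial` in Hasse.lean) gives a
rational point `(z₀, z₁, z₂, z₃)` of `CPt 0 A B m n (m n)`.
If `z₀ = 0` then `m z₁² = n z₂² = m n z₃²` with all `z_i ≠ 0`, so `m`, `n` are squares and `z = 0`.
If `z₀ ≠ 0`, put `x = m z₁² / z₀²`: this is a rational point `P = (x, y)` of the curve with
`x = m □`, `x - A = n □`, `x - B = m n □`.
The group `E(ℚ)` is finite and `4 P = 0` implies `2 P = 0`. Hence `P = T + (R + R)` with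
`T + T = 0` (let `k` be the odd part of the order of the group: `k P` is killed by a power of two,
hence by two; and `P = k P + (1 - k) P` with `1 - k` even).
It remains to see that the class of `P = T + 2 R` is the class of `T`. This is the
multiplicativity of the class; a convenient way: over an algebraic closure use `bridge_mp`,
`bridge_mpr`, or show directly: if `P - T = R + R` with `T` one of the four two-torsion points
then `x(P - T) - e_i` are squares for all `i` (for `R + R = (X, Y)`, `X - e_i` are squares by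
the duplication formula, see `exists_half`/`half_add_half` in Bridge.lean and Cub.lean) and the
formulas `half_of_T₁` in SelTors.lean for `x(P + T₁) - e_i` in terms of `x(P) - e_i`.
Also treat the cases where `P` itself is a two-torsion point or `P - T = 0`.
Finally the four classes of two-torsion points are the values `tor A B u` (see SolA).
-/

set_option autoImplicit false

open NumberField IsDedekindDomain WeierstrassCurve Pool.Agent.H10

namespace Pool.Agent.H93.MQ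

section SelCgen

variable {L : Type*} [Field L] {W : WeierstrassCurve L} {e₁ e₂ e₃ : L}

private lemma SelC_double [DecidableEq L] (h : IsCub W e₁ e₂ e₃) {x y : L}
    (hxy : W.toAffine.Nonsingular x y) (R : W.toAffine.Point)
    (hR : R + R = Affine.Point.some x y hxy) :
    IsSquare (x - e₁) ∧ IsSquare (x - e₂) ∧ IsSquare (x - e₃) := by
  rcases R with _ | ⟨X, Y, hns⟩
  · exfalso
    change (0 : W.toAffine.Point) + 0 = _ at hR
    rw [add_zero] at hR
    exact Affine.Point.some_ne_zero _ hR.symm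
  · by_cases hY : Y = 0
    · exfalso
      rw [Affine.Point.add_self_of_Y_eq (by rw [h.negY_eq, hY, neg_zero])] at hR
      exact Affine.Point.some_ne_zero _ hR.symm
    · obtain ⟨x', s₁, s₂, s₃, h1, h2, h3, e, -⟩ := h.exists_half hns hY
      rw [e] at hR
      have hns' : W.toAffine.Nonsingular x' (s₁ * s₂ * s₃) :=
        h.nonsingular (by rw [← h1, ← h2, ← h3]; ring)
      rw [h.half_add_half h1 h2 h3 hns', Affine.Point.some.injEq] at hR
      obtain ⟨rfl, -⟩ := hR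
      exact ⟨⟨s₁, by rw [← h1]; ring⟩, ⟨s₂, by rw [← h2]; ring⟩, ⟨s₃, by rw [← h3]; ring⟩⟩

private lemma SelC_T1 [DecidableEq L] (h : IsCub W e₁ e₂ e₃) {x y : L}
    (hxy : W.toAffine.Nonsingular x y) (hx : x ≠ e₁) (R : W.toAffine.Point)
    (hR : R + R = Affine.Point.some x y hxy + h.T₁) :
    IsSquare ((e₁ - e₂) * (e₁ - e₃) / (x - e₁)) ∧ IsSquare ((x - e₃) * (e₁ - e₂) / (x - e₁)) ∧
      IsSquare ((x - e₂) * (e₁ - e₃) / (x - e₁)) := by
  have hE := (h.equation_iff x y).mp hxy.1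
  have n1 : x - e₁ ≠ 0 := sub_ne_zero.2 hx
  have hsl : W.toAffine.slope x e₁ y 0 = y / (x - e₁) := by
    rw [Affine.slope_of_X_ne hx, sub_zero]
  have key : ∀ e : L, W.toAffine.addX x e₁ (W.toAffine.slope x e₁ y 0) - e =
      (x - e₂) * (x - e₃) / (x - e₁) + e₂ + e₃ - x - e := by
    intro e
    rw [hsl, Affine.addX, h.a₁, h.a₂, div_pow, hE]
    field_simp
    ring
  unfold IsCub.T₁ at hR
  rw [Affine.Point.add_of_X_ne hx] at hR
  obtain ⟨k1, k2, k3⟩ := SelC_double h _ R hR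
  rw [key] at k1 k2 k3
  refine ⟨?_, ?_, ?_⟩
  · have e : (e₁ - e₂) * (e₁ - e₃) / (x - e₁) =
        (x - e₂) * (x - e₃) / (x - e₁) + e₂ + e₃ - x - e₁ := by field_simp; ring
    rw [e]; exact k1
  · have e : (x - e₃) * (e₁ - e₂) / (x - e₁) =
        (x - e₂) * (x - e₃) / (x - e₁) + e₂ + e₃ - x - e₂ := by field_simp; ring
    rw [e]; exact k2
  · have e : (x - e₂) * (e₁ - e₃) / (x - e₁) =
        (x - e₂) * (x - e₃) / (x - e₁) + e₂ + e₃ - x - e₃ := by field_simp; ring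
    rw [e]; exact k3

private lemma SelC_third {a b d c : L} (hc : c ≠ 0) (hd : a * b * d = c ^ 2) (hb : IsSquare b)
    (hd' : IsSquare d) : IsSquare a := by
  have hne : a * b * d ≠ 0 := by rw [hd]; exact pow_ne_zero 2 hc
  have nb : b ≠ 0 := fun h => hne (by rw [h]; ring)
  have nd : d ≠ 0 := fun h => hne (by rw [h]; ring)
  have e : a = c ^ 2 / b / d := by rw [← hd]; field_simp
  rw [e]
  exact ((IsSquare.sq c).div hb).div hd'

private lemma SelC_q {d z₀ z a : L} (h0 : z₀ ≠ 0) (g : d * z ^ 2 = a * z₀ ^ 2) :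
    IsSquare (d * a) := by
  refine ⟨d * z / z₀, ?_⟩
  field_simp
  linear_combination (-d) * g

private lemma SelC_T1cls [DecidableEq L] (h : IsCub W e₁ e₂ e₃) {x y : L}
    (hxy : W.toAffine.Nonsingular x y) {d₁ d₂ d₃ c z₀ z₁ z₂ z₃ : L} (hc : c ≠ 0)
    (hd : d₁ * d₂ * d₃ = c ^ 2) (h0 : z₀ ≠ 0) (g1 : d₁ * z₁ ^ 2 = (x - e₁) * z₀ ^ 2)
    (g2 : d₂ * z₂ ^ 2 = (x - e₂) * z₀ ^ 2) (g3 : d₃ * z₃ ^ 2 = (x - e₃) * z₀ ^ 2)
    (R : W.toAffine.Point) (hR : R + R = Affine.Point.some x y hxy + h.T₁) :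
    IsSquare (d₁ * ((e₁ - e₂) * (e₁ - e₃))) ∧ IsSquare (d₂ * (e₁ - e₂)) ∧
      IsSquare (d₃ * (e₁ - e₃)) := by
  have hne : d₁ * d₂ * d₃ ≠ 0 := by rw [hd]; exact pow_ne_zero 2 hc
  have nd1 : d₁ ≠ 0 := fun h => hne (by rw [h]; ring)
  have nd2 : d₂ ≠ 0 := fun h => hne (by rw [h]; ring)
  have nd3 : d₃ ≠ 0 := fun h => hne (by rw [h]; ring)
  have n12 := sub_ne_zero.mpr h.h12
  have n13 := sub_ne_zero.mpr h.h13
  have q1 := SelC_q h0 g1
  have q2 := SelC_q h0 g2
  have q3 := SelC_q h0 g3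
  have hcc : c * ((e₁ - e₂) * (e₁ - e₃)) ≠ 0 := mul_ne_zero hc (mul_ne_zero n12 n13)
  have hprod : (d₁ * ((e₁ - e₂) * (e₁ - e₃))) * (d₂ * (e₁ - e₂)) * (d₃ * (e₁ - e₃)) =
      (c * ((e₁ - e₂) * (e₁ - e₃))) ^ 2 := by
    linear_combination ((e₁ - e₂) * (e₁ - e₃)) ^ 2 * hd
  by_cases hx : x = e₁
  · subst hx
    exact ⟨SelC_third hcc hprod q2 q3, q2, q3⟩
  · have n1 : x - e₁ ≠ 0 := sub_ne_zero.2 hx
    obtain ⟨k1, k2, k3⟩ := SelC_T1 h hxy hx R hR
    have r1 : IsSquare (d₁ * ((e₁ - e₂) * (e₁ - e₃))) := by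
      have e : d₁ * ((e₁ - e₂) * (e₁ - e₃)) =
          ((e₁ - e₂) * (e₁ - e₃) / (x - e₁)) * (d₁ * (x - e₁)) := by field_simp
      rw [e]; exact k1.mul q1
    by_cases hx3 : x = e₃
    · have n2 : x - e₂ ≠ 0 := sub_ne_zero.2 (by rw [hx3]; exact h.h23.symm)
      have r3 : IsSquare (d₃ * (e₁ - e₃)) := by
        have e : d₃ * (e₁ - e₃) = ((x - e₂) * (e₁ - e₃) / (x - e₁)) * (d₂ * (x - e₂)) *
            (d₁ * (x - e₁)) * (d₃ / ((x - e₂) * c)) ^ 2 := by
          rw [div_pow, mul_pow, ← hd]; field_simp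
        rw [e]; exact ((k3.mul q2).mul q1).mul (IsSquare.sq _)
      refine ⟨r1, ?_, r3⟩
      refine SelC_third hcc ?_ r1 r3
      rw [← hprod]; ring
    · have n3 : x - e₃ ≠ 0 := sub_ne_zero.2 hx3
      have r2 : IsSquare (d₂ * (e₁ - e₂)) := by
        have e : d₂ * (e₁ - e₂) = ((x - e₃) * (e₁ - e₂) / (x - e₁)) * (d₃ * (x - e₃)) *
            (d₁ * (x - e₁)) * (d₂ / ((x - e₃) * c)) ^ 2 := by
          rw [div_pow, mul_pow, ← hd]; field_simp
        rw [e]; exact ((k2.mul q3).mul q1).mul (IsSquare.sq _)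
      refine ⟨r1, r2, ?_⟩
      refine SelC_third hcc ?_ r1 r2
      rw [← hprod]; ring

private lemma SelC_div {d z₀ z a : L} (h0 : z₀ ≠ 0) (ha : a ≠ 0) (g : d * z ^ 2 = a * z₀ ^ 2)
    (hs : IsSquare a) : IsSquare d := by
  have hz : z ≠ 0 := by
    rintro rfl
    apply mul_ne_zero ha (pow_ne_zero 2 h0)
    rw [← g]; ring
  have e : d = a * (z₀ / z) ^ 2 := by
    field_simp
    linear_combination g
  rw [e]
  exact hs.mul (IsSquare.sq _)

private lemma SelC_T0cls [DecidableEq L] (h : IsCub W e₁ e₂ e₃) {x y : L}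
    (hxy : W.toAffine.Nonsingular x y) {d₁ d₂ d₃ c z₀ z₁ z₂ z₃ : L} (hc : c ≠ 0)
    (hd : d₁ * d₂ * d₃ = c ^ 2) (h0 : z₀ ≠ 0) (g1 : d₁ * z₁ ^ 2 = (x - e₁) * z₀ ^ 2)
    (g2 : d₂ * z₂ ^ 2 = (x - e₂) * z₀ ^ 2) (g3 : d₃ * z₃ ^ 2 = (x - e₃) * z₀ ^ 2)
    (R : W.toAffine.Point) (hR : R + R = Affine.Point.some x y hxy) :
    IsSquare d₁ ∧ IsSquare d₂ ∧ IsSquare d₃ := by
  obtain ⟨k1, k2, k3⟩ := SelC_double h hxy R hR
  by_cases hx1 : x = e₁
  · have n2 : x - e₂ ≠ 0 := sub_ne_zero.2 (by rw [hx1]; exact h.h12)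
    have n3 : x - e₃ ≠ 0 := sub_ne_zero.2 (by rw [hx1]; exact h.h13)
    have r2 := SelC_div h0 n2 g2 k2
    have r3 := SelC_div h0 n3 g3 k3
    exact ⟨SelC_third hc hd r2 r3, r2, r3⟩
  · have n1 : x - e₁ ≠ 0 := sub_ne_zero.2 hx1
    have r1 := SelC_div h0 n1 g1 k1
    by_cases hx2 : x = e₂
    · have n3 : x - e₃ ≠ 0 := sub_ne_zero.2 (by rw [hx2]; exact h.h23)
      have r3 := SelC_div h0 n3 g3 k3
      exact ⟨r1, SelC_third hc (by rw [← hd]; ring) r1 r3, r3⟩
    · have n2 : x - e₂ ≠ 0 := sub_ne_zero.2 hx2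
      have r2 := SelC_div h0 n2 g2 k2
      exact ⟨r1, r2, SelC_third hc (by rw [← hd]; ring) r1 r2⟩

private lemma SelC_cls [DecidableEq L] (h : IsCub W e₁ e₂ e₃) {x y : L}
    (hxy : W.toAffine.Nonsingular x y) {d₁ d₂ d₃ c z₀ z₁ z₂ z₃ : L} (hc : c ≠ 0)
    (hd : d₁ * d₂ * d₃ = c ^ 2) (h0 : z₀ ≠ 0) (g1 : d₁ * z₁ ^ 2 = (x - e₁) * z₀ ^ 2)
    (g2 : d₂ * z₂ ^ 2 = (x - e₂) * z₀ ^ 2) (g3 : d₃ * z₃ ^ 2 = (x - e₃) * z₀ ^ 2)
    (T R : W.toAffine.Point) (hT : T + T = 0)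
    (hP : Affine.Point.some x y hxy = T + (R + R)) :
    ∃ t₁ t₂ t₃, TorsCls e₁ e₂ e₃ t₁ t₂ t₃ ∧ IsSquare (d₁ * t₁) ∧ IsSquare (d₂ * t₂) ∧
      IsSquare (d₃ * t₃) := by
  have hR : R + R = Affine.Point.some x y hxy + T := by
    rw [hP]
    calc R + R = (T + T) + (R + R) := by rw [hT, zero_add]
      _ = T + (R + R) + T := by abel
  obtain ⟨a, rfl⟩ := h.exists_tau T hT
  unfold IsCub.tau at hR
  split_ifs at hR
  · rw [add_zero] at hR
    obtain ⟨r1, r2, r3⟩ := SelC_T0cls h hxy hc hd h0 g1 g2 g3 R hR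
    exact ⟨1, 1, 1, Or.inl ⟨rfl, rfl, rfl⟩, by rwa [mul_one], by rwa [mul_one], by rwa [mul_one]⟩
  · obtain ⟨r1, r2, r3⟩ := SelC_T1cls h.swap12 hxy hc (by rw [← hd]; ring) h0 g2 g1 g3 R hR
    exact ⟨_, _, _, Or.inr (Or.inr (Or.inl ⟨rfl, rfl, rfl⟩)), r2, r1, r3⟩
  · obtain ⟨r1, r2, r3⟩ := SelC_T1cls h.swap13 hxy hc (by rw [← hd]; ring) h0 g3 g2 g1 R hR
    refine ⟨_, _, _, Or.inr (Or.inr (Or.inr ⟨rfl, rfl, rfl⟩)), r3, r2, ?_⟩
    rw [mul_comm (e₃ - e₁)]
    exact r1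
  · obtain ⟨r1, r2, r3⟩ := SelC_T1cls h hxy hc hd h0 g1 g2 g3 R hR
    exact ⟨_, _, _, Or.inr (Or.inl ⟨rfl, rfl, rfl⟩), r1, r2, r3⟩

end SelCgen

lemma isCub_cu {k : Type*} [Field k] [CharZero k] {A B : ℤ} (h : NZ A B) :
    IsCub (cu k A B) (0 : k) (A : k) (B : k) where
  a₁ := rfl
  a₂ := by simp [cu]
  a₃ := rfl
  a₄ := by simp [cu]
  a₆ := by simp [cu]
  h12 := by
    intro h'
    exact h.hA (by exact_mod_cast h'.symm)
  h13 := by
    intro h'
    exact h.hB (by exact_mod_cast h'.symm)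
  h23 := by
    intro h'
    exact h.hAB (by exact_mod_cast h')
  two := two_ne_zero

private lemma SelC_pow4 {G : Type*} [AddCommGroup G] (h4 : ∀ P : G, 4 • P = 0 → 2 • P = 0)
    (a : ℕ) (P : G) (h : 2 ^ a • P = 0) : 2 • P = 0 := by
  induction a with
  | zero =>
    rw [pow_zero, one_smul] at h
    rw [h, smul_zero]
  | succ a ih =>
    rcases a with _ | a
    · simpa using h
    · apply ih
      have e : 4 • (2 ^ a • P) = 0 := by
        rw [← mul_smul, show 4 * 2 ^ a = 2 ^ (a + 1 + 1) by ring]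
        exact h
      have := h4 _ e
      rw [← mul_smul] at this
      rw [pow_succ, mul_comm]
      exact this

private lemma SelC_split {G : Type*} [AddCommGroup G] [Finite G]
    (h4 : ∀ P : G, 4 • P = 0 → 2 • P = 0) (P : G) : ∃ T R : G, T + T = 0 ∧ P = T + (R + R) := by
  have hN : Nat.card G ≠ 0 := Nat.card_pos.ne'
  obtain ⟨a, k, hk, hNk⟩ := Nat.exists_eq_two_pow_mul_odd hN
  have h1 : Nat.card G • P = 0 := card_nsmul_eq_zero'
  have h2 : 2 • (k • P) = 0 := by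
    apply SelC_pow4 h4 a
    rw [← mul_smul, ← hNk]
    exact h1
  obtain ⟨j, hj⟩ := hk
  refine ⟨k • P, -(j • P), by rw [← two_nsmul]; exact h2, ?_⟩
  rw [hj, add_smul, mul_smul, two_nsmul, one_smul]
  abel

private lemma SelC_cl {a b : ℤ} (ha : a ≠ 0) (hb : b ≠ 0) (h : IsSquare ((a : ℚ) * (b : ℚ))) :
    cl a = cl b := by
  have h1 : IsSquare (a * b) := by
    have h2 : IsSquare ((a * b : ℤ) : ℚ) := by push_cast; exact h
    exact Rat.isSquare_intCast_iff.1 h2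
  have h3 := (cl_eq_zero_iff (mul_ne_zero ha hb)).2 h1
  rw [cl_mul ha hb] at h3
  have h4 : cl b + cl b = 0 := ZModModule.add_self _
  calc cl a = cl a + (cl b + cl b) := by rw [h4, add_zero]
    _ = (cl a + cl b) + cl b := by abel
    _ = cl b := by rw [h3, zero_add]

private lemma SelC_local {S : Finset ℕ} {A B : ℤ} (h : Adm S A B) {z : V × V}
    (hz : z ∈ SelSet S A B) (p : ℕ) [hp : Fact p.Prime] : SolC ℚ_[p] A B z := by
  obtain ⟨h1, h2, h3⟩ := hz
  by_cases hpS : p ∈ S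
  · exact h2 p hpS
  · refine loc_good (fun h' => hpS (by rw [h']; exact h.two)) (fun h' => hpS (h.bad p hp.out h')) ?_
      (h1 p hp.out.ne_zero hpS)
    intro i hi0 hi
    exact SolC.at_eq h3 hi0 hi

attribute [-instance] charZero_adic in
private lemma SelC_hom (v : HeightOneSpectrum (𝓞 ℚ))
    [Fact (Rat.HeightOneSpectrum.primesEquiv v : Nat.Primes).1.Prime] :
    Nonempty (ℚ_[(Rat.HeightOneSpectrum.primesEquiv v : Nat.Primes).1] →+* v.adicCompletion ℚ) :=
  ⟨(Rat.HeightOneSpectrum.adicCompletion.padicEquiv v).toRingEquiv.symm.toRingHom⟩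

private lemma SelC_fin {A B m n : ℤ} (H : ∀ (p : ℕ) [Fact p.Prime], Sol ℚ_[p] A B m n)
    (v : HeightOneSpectrum (𝓞 ℚ)) (g : ℚ →+* v.adicCompletion ℚ) :
    CPt (g 0) (g A) (g B) (g m) (g n) (g ((m : ℚ) * n)) := by
  have : Fact (Rat.HeightOneSpectrum.primesEquiv v : Nat.Primes).1.Prime :=
    ⟨(Rat.HeightOneSpectrum.primesEquiv v).2⟩
  have h1 := H (Rat.HeightOneSpectrum.primesEquiv v : Nat.Primes).1
  obtain ⟨f⟩ := SelC_hom v
  have h2 := CPt.map f h1
  simp only [map_zero, map_intCast] at h2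
  simp only [map_zero, map_intCast, map_mul]
  push_cast at h2
  exact h2

private lemma SelC_inf {A B m n : ℤ} (H : Sol ℝ A B m n) (v : InfinitePlace ℚ)
    (g : ℚ →+* v.Completion) :
    CPt (g 0) (g A) (g B) (g m) (g n) (g ((m : ℚ) * n)) := by
  obtain ⟨f⟩ := exists_real_to_completion v
  have h2 := CPt.map f H
  simp only [map_zero, map_intCast] at h2
  simp only [map_zero, map_intCast, map_mul]
  push_cast at h2
  exact h2

open scoped Classical in
private lemma SelC_cob {K : Type} [Field K] [NumberField K] {W : WeierstrassCurve K}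
    {f : Coch K W} (hf : IsCocycle K W f) (hl : IsLocTriv K W f) (h2 : ∀ σ, f σ + f σ = 0)
    (hsha : ∀ x : Sha K W, 2 • x = 0 → x = 0) : IsCobound K W f := by
  have e1 : Sha.mk (⟨f, hf, hl⟩ : ShaZ K W) = 0 := by
    apply hsha
    rw [← Sha.mk_nsmul, Sha.mk_eq_zero]
    refine ⟨0, fun σ => ?_⟩
    change (2 • f) σ = _
    rw [Pi.smul_apply, two_nsmul, h2, map_zero, sub_zero]
  exact (Sha.mk_eq_zero _).1 e1

theorem sel_le_of_sha {S : Finset ℕ} {A B : ℤ} (h : Adm S A B)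
    (hfin : Finite (cu ℚ A B).toAffine.Point)
    (h4 : ∀ P : (cu ℚ A B).toAffine.Point, 4 • P = 0 → 2 • P = 0)
    (hsha : ∀ x : Sha ℚ (cu ℚ A B), 2 • x = 0 → x = 0) :
    Sel S A B ≤ LinearMap.range (tor A B) := by
  intro z hz
  rw [mem_sel h.nz] at hz
  have hz' := hz
  obtain ⟨-, -, hreal⟩ := hz'
  obtain ⟨m, n, hm, hn, hzz, hR⟩ := hreal
  have hmQ : (m : ℚ) ≠ 0 := by exact_mod_cast hm
  have hnQ : (n : ℚ) ≠ 0 := by exact_mod_cast hn
  have hC : IsCub (cu ℚ A B) (0 : ℚ) (A : ℚ) (B : ℚ) := isCub_cu h.nz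
  have hloc : ∀ (p : ℕ) [Fact p.Prime], Sol ℚ_[p] A B m n := by
    intro p _
    apply SolC.sol hm hn
    rw [← hzz]
    exact SelC_local h hz p
  have hd : (m : ℚ) * n * ((m : ℚ) * n) = ((m : ℚ) * n) ^ 2 := by ring
  have hc : ((m : ℚ) * n) ≠ 0 := mul_ne_zero hmQ hnQ
  obtain ⟨f, a, r₁, r₂, r₃, hf, hl, h2, T⟩ := exists_sha_of_triple hC hd hc
    (fun v => SelC_fin hloc v _) (fun v => SelC_inf hR v _)
  have hcob : IsCobound ℚ (cu ℚ A B) f := SelC_cob hf hl h2 hsha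
  have hcpt : CPt (0 : ℚ) (A : ℚ) (B : ℚ) (m : ℚ) (n : ℚ) ((m : ℚ) * n) := T.cpt hcob
  obtain ⟨z₀, z₁, z₂, z₃, hne, E1, E2⟩ := hcpt
  have key : ∃ t₁ t₂ t₃ : ℚ, TorsCls (0 : ℚ) (A : ℚ) (B : ℚ) t₁ t₂ t₃ ∧ IsSquare ((m : ℚ) * t₁) ∧
      IsSquare ((n : ℚ) * t₂) ∧ IsSquare ((m : ℚ) * n * t₃) := by
    by_cases h0 : z₀ = 0
    · subst h0
      have F1 : (m : ℚ) * z₁ ^ 2 = n * z₂ ^ 2 := by linear_combination E1
      have F2 : z₁ ^ 2 = n * z₃ ^ 2 := by
        have : (m : ℚ) * z₁ ^ 2 = m * (n * z₃ ^ 2) := by linear_combination E2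
        exact mul_left_cancel₀ hmQ this
      have n3 : z₃ ≠ 0 := by
        rintro rfl
        have k1 : z₁ = 0 := by
          have : z₁ ^ 2 = 0 := by rw [F2]; ring
          exact pow_eq_zero_iff two_ne_zero |>.1 this
        subst k1
        have k2 : z₂ = 0 := by
          have : (n : ℚ) * z₂ ^ 2 = 0 := by rw [← F1]; ring
          exact pow_eq_zero_iff two_ne_zero |>.1 ((mul_eq_zero.1 this).resolve_left hnQ)
        subst k2
        simp at hne
      have s2 : IsSquare (n : ℚ) := by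
        refine ⟨z₁ / z₃, ?_⟩
        field_simp
        linear_combination -F2
      have s1 : IsSquare (m : ℚ) := by
        have n1 : z₁ ≠ 0 := by
          rintro rfl
          have : (n : ℚ) * z₃ ^ 2 = 0 := by rw [← F2]; ring
          exact mul_ne_zero hnQ (pow_ne_zero 2 n3) this
        have e : (m : ℚ) = n * (z₂ / z₁) ^ 2 := by
          field_simp
          linear_combination F1
        rw [e]
        exact s2.mul (IsSquare.sq _)
      exact ⟨1, 1, 1, Or.inl ⟨rfl, rfl, rfl⟩, by rwa [mul_one], by rwa [mul_one],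
        by rw [mul_one]; exact s1.mul s2⟩
    · have g1 : (m : ℚ) * z₁ ^ 2 = (m * z₁ ^ 2 / z₀ ^ 2 - 0) * z₀ ^ 2 := by field_simp; ring
      have g2 : (n : ℚ) * z₂ ^ 2 = (m * z₁ ^ 2 / z₀ ^ 2 - A) * z₀ ^ 2 := by
        field_simp; linear_combination -E1
      have g3 : (m : ℚ) * n * z₃ ^ 2 = (m * z₁ ^ 2 / z₀ ^ 2 - B) * z₀ ^ 2 := by
        field_simp; linear_combination -E2
      have hxy : (cu ℚ A B).toAffine.Nonsingular (m * z₁ ^ 2 / z₀ ^ 2)
          (m * n * z₁ * z₂ * z₃ / z₀ ^ 3) := by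
        apply hC.nonsingular
        have e1 : (m : ℚ) * z₁ ^ 2 / z₀ ^ 2 - A = n * z₂ ^ 2 / z₀ ^ 2 := by
          rw [g2]; field_simp
        have e2 : (m : ℚ) * z₁ ^ 2 / z₀ ^ 2 - B = m * n * z₃ ^ 2 / z₀ ^ 2 := by
          rw [g3]; field_simp
        rw [e1, e2]
        field_simp
        ring
      obtain ⟨T', R', hT', hP'⟩ := SelC_split h4 (Affine.Point.some _ _ hxy)
      exact SelC_cls hC hxy hc hd h0 g1 g2 g3 T' R' hT' hP'
  obtain ⟨t₁, t₂, t₃, ht, q1, q2, -⟩ := key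
  have hA := h.nz.hA
  have hB := h.nz.hB
  have hAB : A - B ≠ 0 := sub_ne_zero.2 h.nz.hAB
  rw [LinearMap.mem_range]
  have dbl : ∀ v : V, v + v = 0 := fun v => ZModModule.add_self v
  rcases ht with ⟨rfl, rfl, rfl⟩ | ⟨rfl, rfl, rfl⟩ | ⟨rfl, rfl, rfl⟩ | ⟨rfl, rfl, rfl⟩
  · refine ⟨0, ?_⟩
    rw [map_zero, hzz]
    have k1 := SelC_cl hm one_ne_zero (by push_cast; exact q1)
    have k2 := SelC_cl hn one_ne_zero (by push_cast; exact q2)
    rw [k1, k2, cl_one]
    rfl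
  · refine ⟨(0, 1), ?_⟩
    rw [tor_apply, hzz]
    have k1 : cl m = cl (A * B) := SelC_cl hm (mul_ne_zero hA hB) (by
      push_cast
      have e : (m : ℚ) * (A * B) = m * ((0 - A) * (0 - B)) := by ring
      rw [e]; exact q1)
    have k2 : cl n = cl (-A) := SelC_cl hn (neg_ne_zero.2 hA) (by
      push_cast
      have e : (n : ℚ) * (-A) = n * (0 - A) := by ring
      rw [e]; exact q2)
    rw [k1, k2]
    simp
  · refine ⟨(1, 0), ?_⟩
    rw [tor_apply, hzz]
    have k1 : cl m = cl A := SelC_cl hm hA (by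
      have e : (m : ℚ) * A = m * (A - 0) := by ring
      rw [e]; exact q1)
    have k2 : cl n = cl (A * (A - B)) := SelC_cl hn (mul_ne_zero hA hAB) (by
      push_cast
      have e : (n : ℚ) * (A * (A - B)) = n * ((A - 0) * (A - B)) := by ring
      rw [e]; exact q2)
    rw [k1, k2]
    simp
  · refine ⟨(1, 1), ?_⟩
    rw [tor_apply, hzz]
    have k1 : cl m = cl B := SelC_cl hm hB (by
      have e : (m : ℚ) * B = m * (B - 0) := by ring
      rw [e]; exact q1)
    have k2 : cl n = cl (-(A - B)) := SelC_cl hn (neg_ne_zero.2 hAB) (by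
      push_cast
      have e : (n : ℚ) * (-(A - B)) = n * (B - A) := by ring
      rw [e]; exact q2)
    rw [k1, k2]
    have e1 : cl (-A) = cl (-1) + cl A := by
      rw [← cl_mul (by norm_num) hA]; congr 1; ring
    have e2 : cl (-(A - B)) = cl (-1) + cl (A - B) := by
      rw [← cl_mul (by norm_num) hAB]; congr 1; ring
    simp only [one_smul]
    rw [cl_mul hA hB, cl_mul hA hAB, e1, e2]
    ext1
    · simp only []
      calc cl A + (cl A + cl B) = (cl A + cl A) + cl B := by abel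
        _ = cl B := by rw [dbl, zero_add]
    · simp only []
      calc cl A + cl (A - B) + (cl (-1) + cl A) = (cl A + cl A) + (cl (-1) + cl (A - B)) := by abel
        _ = cl (-1) + cl (A - B) := by rw [dbl, zero_add]

end Pool.Agent.H93.MQ
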