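import Pool.Agent.H93.MQ.Rsc

/-!
ROW QPts (project MP_78d38b_MQ). Finiteness of the Mordell-Weil group in an extension of degree at
most two.

`L/K` is normal, hence Galois (characteristic zero). Automorphisms act on `V(L)` by
`act (inv_of_map hV) σ` (Pool/Agent/H10/Func1.lean) and on `V'(L)` similarly; fixed points come from
the base curve by `pm_descent` (Pool/Agent/H10/Iso3.lean, import Pool.Agent.H10.Iso3 is already
available through Defs). Let `m₁`, `m₂` be positive with `m₁ Q = 0` on the finite group `V₀(K)` and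
`m₂ Q = 0` on `V₀'(K)` (the cardinalities).
If all automorphisms are trivial then every point is fixed, so `m₁ P = 0`. Otherwise there is
`τ ≠ 1`, `τ s = -s`, the automorphisms are `1, τ`, `τ² = 1`. `P + τ P` is fixed, so
`m₁ (P + τ P) = 0`. For `y = rsc h P`, `τ y = rsc' (τ P)` for the rescaling by `τ s = -s` (`rsc_pm`
with `φ = τ`), so `τ y = - rsc h (τ P)` by `rsc_neg`; `y + τ y = rsc h (P - τ P)` is fixed, so
`m₂ • rsc h (P - τ P) = 0` and, `rsc h` being injective (`rsc_symm`), `m₂ (P - τ P) = 0`. Hence
`2 m₁ m₂ P = 0` for all `P`; conclude by `finite_of_torsion` (Pool/Agent/H10/SelTors.lean).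
-/

set_option autoImplicit false
set_option linter.style.haveILetI false
open scoped Classical

open NumberField IsDedekindDomain WeierstrassCurve Pool.Agent.H10 Pool.Agent.H11

namespace Pool.Agent.H93.MQ

/-- points fixed by the Galois group are killed by the order of the group over the base -/
theorem QPts_fixed {K L : Type} [Field K] [NumberField K] [Field L] [NumberField L] [Algebra K L]
    [Normal K L] {V₀ : WeierstrassCurve K} {V : WeierstrassCurve L}
    (hV : V₀.map (algebraMap K L) = V) (h1 : Finite V₀.toAffine.Point)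
    (P : V.toAffine.Point) (hP : ∀ σ : L ≃ₐ[K] L, act (inv_of_map hV) σ P = P) :
    Nat.card V₀.toAffine.Point • P = 0 := by
  haveI : IsGalois K L := IsGalois.mk
  obtain ⟨P₀, hP₀⟩ := pm_descent hV (inv_of_map hV) P hP
  rw [← hP₀, ← map_nsmul, card_nsmul_eq_zero', map_zero]

theorem fin_step {K L : Type} [Field K] [NumberField K] [Field L] [NumberField L] [Algebra K L]
    [Normal K L] {V₀ V₀' : WeierstrassCurve K} {V V' : WeierstrassCurve L} [V.IsElliptic]
    (hV : V₀.map (algebraMap K L) = V) (hV' : V₀'.map (algebraMap K L) = V') {s : L}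
    (h : Rsc s V V') (hσ : ∀ σ : L ≃ₐ[K] L, σ = 1 ∨ σ s = -s)
    (huniq : ∀ σ τ : L ≃ₐ[K] L, σ s = -s → τ s = -s → σ = τ)
    (h1 : Finite V₀.toAffine.Point) (h2 : Finite V₀'.toAffine.Point) :
    Finite V.toAffine.Point := by
  have hm1 : Nat.card V₀.toAffine.Point ≠ 0 := Nat.card_pos.ne'
  have hm2 : Nat.card V₀'.toAffine.Point ≠ 0 := Nat.card_pos.ne'
  by_cases hall : ∀ σ : L ≃ₐ[K] L, σ = 1
  · refine finite_of_torsion (m := Nat.card V₀.toAffine.Point) hm1 fun P => ?_
    refine QPts_fixed hV h1 P fun σ => ?_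
    rw [hall σ, Pool.Agent.H10.act_one]
  · push Not at hall
    obtain ⟨τ, hτ⟩ := hall
    have hτs : τ s = -s := (hσ τ).resolve_left hτ
    have hall2 : ∀ σ : L ≃ₐ[K] L, σ = 1 ∨ σ = τ := fun σ => by
      rcases hσ σ with h3 | h3
      · exact Or.inl h3
      · exact Or.inr (huniq σ τ h3 hτs)
    have hττ : τ * τ = 1 := by
      rcases hσ (τ * τ) with h3 | h3
      · exact h3
      · exfalso
        rw [AlgEquiv.mul_apply, hτs, map_neg, hτs, neg_neg] at h3
        exact h.ne (self_eq_neg.1 h3)
    have h' : Rsc (-s) V V' := by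
      have h3 := h.map (τ : L →+* L) (inv_of_map hV τ) (inv_of_map hV' τ)
      have h4 : (τ : L →+* L) s = -s := hτs
      rwa [h4] at h3
    have hact : ∀ R : V.toAffine.Point,
        act (inv_of_map hV') τ (rsc h R) = - rsc h (act (inv_of_map hV) τ R) := by
      intro R
      rw [← rsc_neg two_ne_zero h h']
      exact rsc_pm h (τ : L →+* L) (inv_of_map hV τ) (inv_of_map hV' τ) (t := -s) hτs.symm h' R
    refine finite_of_torsion (m := Nat.card V₀.toAffine.Point * Nat.card V₀'.toAffine.Point * 2)
      (by positivity) fun P => ?_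
    have hττP : act (inv_of_map hV) τ (act (inv_of_map hV) τ P) = P := by
      rw [← Pool.Agent.H10.act_mul, hττ, Pool.Agent.H10.act_one]
    have hQ : Nat.card V₀.toAffine.Point • (P + act (inv_of_map hV) τ P) = 0 := by
      refine QPts_fixed hV h1 _ fun σ => ?_
      rcases hall2 σ with h3 | h3
      · rw [h3, Pool.Agent.H10.act_one]
      · rw [h3, map_add, hττP, add_comm]
    have hR : Nat.card V₀'.toAffine.Point • (P - act (inv_of_map hV) τ P) = 0 := by
      have hy : Nat.card V₀'.toAffine.Point • rsc h (P - act (inv_of_map hV) τ P) = 0 := by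
        refine QPts_fixed hV' h2 _ fun σ => ?_
        rcases hall2 σ with h3 | h3
        · rw [h3, Pool.Agent.H10.act_one]
        · rw [h3, hact, map_sub, hττP, ← map_neg, neg_sub]
      rw [← rsc_symm h (Nat.card V₀'.toAffine.Point • (P - act (inv_of_map hV) τ P)),
        map_nsmul, hy, map_zero]
    have h2P : (2 : ℕ) • P = (P + act (inv_of_map hV) τ P) + (P - act (inv_of_map hV) τ P) := by
      rw [two_nsmul]; abel
    rw [mul_smul, h2P, smul_add, mul_comm (Nat.card V₀.toAffine.Point), mul_smul, hQ, smul_zero,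
      mul_comm (Nat.card V₀'.toAffine.Point), mul_smul, hR, smul_zero, add_zero]

end Pool.Agent.H93.MQ
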