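import Pool.Agent.H93.MQ.RscA

/-!
ROW QSha (project MP_78d38b_MQ). Boundedness of the two-primary part in an extension of degree at
most two.

Let `x ∈ Sha L V` with `2 ^ m • x = 0`. By `res_cor` (Pool/Agent/H11/ConjSha.lean),
`Sha.res (Sha.cor x) = ∑ σ, actS σ x`.
Case (i): all automorphisms are trivial: `x = Sha.res (Sha.cor x)` (`actS_one`), and
`2 ^ N₁ • Sha.cor x = 0` (`Sha.cor x` is killed by `2 ^ m`), so `2 ^ N₁ • x = 0`.
Case (ii): there is `τ ≠ 1`; then `τ s = -s`, and the automorphisms are exactly `1` and `τ`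
(`hσ`, `huniq`). So `x + τ x` is a restriction and `2 ^ N₁ • (x + τ x) = 0`. Apply the same to
`y = shaRsc h x ∈ Sha L V'`: `2 ^ N₂ • (y + τ y) = 0`, and `y + τ y = shaRsc h (x - τ x)` by
`actS_rsc`; applying `shaRsc h.symm` (`shaRsc_symm`), `2 ^ N₂ • (x - τ x) = 0`. Adding,
`2 ^ (N₁ + N₂ + 1) • x = 0`.
-/

set_option autoImplicit false
set_option linter.style.haveILetI false
open scoped Classical

open NumberField IsDedekindDomain WeierstrassCurve Pool.Agent.H10 Pool.Agent.H11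

namespace Pool.Agent.H93.MQ

theorem QSha_sum {K L : Type} [Field K] [NumberField K] [Field L] [NumberField L] [Algebra K L]
    [Normal K L] {V₀ : WeierstrassCurve K} {V : WeierstrassCurve L}
    (hV : V₀.map (algebraMap K L) = V) {N : ℕ}
    (hN : ∀ x : Sha K V₀, (∃ m : ℕ, 2 ^ m • x = 0) → 2 ^ N • x = 0) (x : Sha L V)
    (hx : ∃ m : ℕ, 2 ^ m • x = 0) : 2 ^ N • ∑ σ : L ≃ₐ[K] L, actS hV σ x = 0 := by
  obtain ⟨m, hm⟩ := hx
  rw [← res_cor hV x, ← map_nsmul, hN (Sha.cor hV x) ⟨m, by rw [← map_nsmul, hm, map_zero]⟩,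
    map_zero]

theorem QSha_two {G : Type*} [AddCommGroup G] {N₁ N₂ : ℕ} {x y : G} (h1 : 2 ^ N₁ • (x + y) = 0)
    (h2 : 2 ^ N₂ • (x - y) = 0) : 2 ^ (N₁ + N₂ + 1) • x = 0 := by
  have e : 2 ^ (N₁ + N₂ + 1) • x = 2 ^ N₂ • (2 ^ N₁ • (x + y)) + 2 ^ N₁ • (2 ^ N₂ • (x - y)) := by
    rw [← mul_smul, ← mul_smul, mul_comm (2 ^ N₂) (2 ^ N₁), ← pow_add, ← smul_add]
    have e2 : x + y + (x - y) = 2 • x := by rw [two_smul]; abel
    rw [e2, ← mul_smul, pow_succ]
  rw [e, h1, h2, smul_zero, smul_zero, add_zero]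

theorem bdd_step {K L : Type} [Field K] [NumberField K] [Field L] [NumberField L] [Algebra K L]
    [Normal K L] {V₀ V₀' : WeierstrassCurve K} {V V' : WeierstrassCurve L}
    (hV : V₀.map (algebraMap K L) = V) (hV' : V₀'.map (algebraMap K L) = V') {s : L}
    (h : Rsc s V V') (hσ : ∀ σ : L ≃ₐ[K] L, σ = 1 ∨ σ s = -s)
    (huniq : ∀ σ τ : L ≃ₐ[K] L, σ s = -s → τ s = -s → σ = τ)
    (h1 : Bdd K V₀) (h2 : Bdd K V₀') : Bdd L V := by
  obtain ⟨N₁, hN₁⟩ := h1
  obtain ⟨N₂, hN₂⟩ := h2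
  refine ⟨N₁ + N₂ + 1, fun x hx => ?_⟩
  have k1 := QSha_sum hV hN₁ x hx
  by_cases hτ : ∃ τ : L ≃ₐ[K] L, τ ≠ 1
  · obtain ⟨τ, hτ1⟩ := hτ
    have hτs : τ s = -s := (hσ τ).resolve_left hτ1
    have huniv : (Finset.univ : Finset (L ≃ₐ[K] L)) = {1, τ} := by
      ext σ
      simp only [Finset.mem_univ, Finset.mem_insert, Finset.mem_singleton, true_iff]
      rcases hσ σ with h3 | h3
      · exact Or.inl h3
      · exact Or.inr (huniq σ τ h3 hτs)
    rw [huniv, Finset.sum_pair (Ne.symm hτ1), actS_one] at k1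
    have hy : ∃ m : ℕ, 2 ^ m • shaRsc h x = 0 := by
      obtain ⟨m, hm⟩ := hx
      exact ⟨m, by rw [← map_nsmul, hm, map_zero]⟩
    have k2 := QSha_sum hV' hN₂ (shaRsc h x) hy
    rw [huniv, Finset.sum_pair (Ne.symm hτ1), actS_one, actS_rsc hV hV' h τ hτs,
      ← sub_eq_add_neg, ← map_sub] at k2
    have k3 : 2 ^ N₂ • (x - actS hV τ x) = 0 := by
      have k4 := congrArg (shaRsc h.symm) k2
      rw [map_nsmul, shaRsc_symm, map_zero] at k4
      exact k4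
    exact QSha_two k1 k3
  · push Not at hτ
    have huniv : (Finset.univ : Finset (L ≃ₐ[K] L)) = {1} := by
      ext σ
      simp only [Finset.mem_univ, Finset.mem_singleton, true_iff]
      exact hτ σ
    rw [huniv, Finset.sum_singleton, actS_one] at k1
    rw [show N₁ + N₂ + 1 = (N₂ + 1) + N₁ by ring, pow_add, mul_smul, k1, smul_zero]

end Pool.Agent.H93.MQ
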