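import Pool.Agent.H93.MQ.Defs

/-!
ROW FldA (project MP_78d38b_MQ). The finite levels `Kn q n` and the field `Fq q` (see Defs).

* The instance: `Kn q n` is generated by finitely many algebraic elements (`rt q i` is a root of
  `X² - q₀ q_{i+1}`), so it is finite over the rationals
  (`IntermediateField.finiteDimensional_adjoin`).
* `mem_Kn_succ`: the set of all `a + b * rt q n` with `a, b ∈ Kn q n` is a field (the product uses
  `rt q n ^ 2 ∈ ℚ`; inverse of `a + b r` with `r = rt q n`: `(a - b r) / (a² - b² r²)` if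
  `a² ≠ b² r²`; otherwise, if `b ≠ 0`, `r = ± a / b ∈ Kn q n` and the set is `Kn q n` itself), it
  contains the generators, and is contained in `Kn q (n + 1)`. (Alternative: the set is a
  finite-dimensional domain over `Kn q n`, hence a field; or use
  `IntermediateField.adjoin_adjoin_left` and a power basis.)
* `mem_Fq`: the union of the chain `Kn q n` is a field containing all generators.
* `Kn_zero`: adjoining the empty set.
-/

set_option autoImplicit false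

open NumberField IsDedekindDomain WeierstrassCurve Pool.Agent.H10

namespace Pool.Agent.H93.MQ

variable {q : ℕ → ℕ}

lemma rt_sq (q : ℕ → ℕ) (i : ℕ) : rt q i ^ 2 = ((q 0 * q (i + 1) : ℕ) : ℝ) := by
  unfold rt
  exact Real.sq_sqrt (Nat.cast_nonneg _)

lemma FldA_gens_finite (q : ℕ → ℕ) (n : ℕ) : {x : ℝ | ∃ i, i < n ∧ x = rt q i}.Finite := by
  have h : {x : ℝ | ∃ i, i < n ∧ x = rt q i} = rt q '' {i | i < n} := by
    ext x
    constructor
    · rintro ⟨i, hi, rfl⟩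
      exact ⟨i, hi, rfl⟩
    · rintro ⟨i, hi, rfl⟩
      exact ⟨i, hi, rfl⟩
  rw [h]
  exact (Set.finite_lt_nat n).image _

lemma FldA_isIntegral (q : ℕ → ℕ) (i : ℕ) : IsIntegral ℚ (rt q i) := by
  refine IsIntegral.of_pow (n := 2) (by norm_num) ?_
  rw [rt_sq]
  have : (((q 0 * q (i + 1) : ℕ) : ℚ) : ℝ) = ((q 0 * q (i + 1) : ℕ) : ℝ) := by
    push_cast; rfl
  rw [← this]
  exact isIntegral_algebraMap (R := ℚ) (x := ((q 0 * q (i + 1) : ℕ) : ℚ))

instance instNumberFieldKn (q : ℕ → ℕ) (n : ℕ) : NumberField (Kn q n) := by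
  have hf : FiniteDimensional ℚ (Kn q n) := by
    unfold Kn
    haveI : Finite ↥{x : ℝ | ∃ i, i < n ∧ x = rt q i} := (FldA_gens_finite q n).to_subtype
    refine IntermediateField.finiteDimensional_adjoin ?_
    rintro x ⟨i, _, rfl⟩
    exact FldA_isIntegral q i
  exact { to_charZero := inferInstance, to_finiteDimensional := hf }

lemma Kn_zero (q : ℕ → ℕ) : Kn q 0 = ⊥ := by
  unfold Kn
  have h : {x : ℝ | ∃ i, i < 0 ∧ x = rt q i} = ∅ := by
    ext x
    simp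
  rw [h, IntermediateField.adjoin_empty]

lemma Kn_mono {m n : ℕ} (h : m ≤ n) : Kn q m ≤ Kn q n := by
  unfold Kn
  apply IntermediateField.adjoin.mono
  rintro x ⟨i, hi, rfl⟩
  exact ⟨i, lt_of_lt_of_le hi h, rfl⟩

lemma FldA_rt_mem (q : ℕ → ℕ) {i n : ℕ} (h : i < n) : rt q i ∈ Kn q n := by
  unfold Kn
  exact IntermediateField.subset_adjoin ℚ _ ⟨i, h, rfl⟩

lemma rt_mem (q : ℕ → ℕ) (n : ℕ) : rt q n ∈ Kn q (n + 1) := FldA_rt_mem q (Nat.lt_succ_self n)

/-- the field `K + K r` for `r ^ 2 ∈ K` -/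
def FldA_ext (K : IntermediateField ℚ ℝ) (r : ℝ) (hr : r ^ 2 ∈ K) : IntermediateField ℚ ℝ where
  carrier := {x | ∃ a ∈ K, ∃ b ∈ K, x = a + b * r}
  mul_mem' := by
    rintro x y ⟨a, ha, b, hb, rfl⟩ ⟨c, hc, d, hd, rfl⟩
    refine ⟨a * c + b * d * r ^ 2, K.add_mem (K.mul_mem ha hc) (K.mul_mem (K.mul_mem hb hd) hr),
      a * d + b * c, K.add_mem (K.mul_mem ha hd) (K.mul_mem hb hc), by ring⟩
  one_mem' := ⟨1, K.one_mem, 0, K.zero_mem, by ring⟩
  add_mem' := by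
    rintro x y ⟨a, ha, b, hb, rfl⟩ ⟨c, hc, d, hd, rfl⟩
    exact ⟨a + c, K.add_mem ha hc, b + d, K.add_mem hb hd, by ring⟩
  zero_mem' := ⟨0, K.zero_mem, 0, K.zero_mem, by ring⟩
  algebraMap_mem' := by
    intro c
    exact ⟨algebraMap ℚ ℝ c, K.algebraMap_mem c, 0, K.zero_mem, by ring⟩
  inv_mem' := by
    rintro x ⟨a, ha, b, hb, rfl⟩
    by_cases h0 : a + b * r = 0
    · exact ⟨0, K.zero_mem, 0, K.zero_mem, by rw [h0]; simp⟩
    · by_cases h1 : a - b * r = 0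
      · have h2 : a + b * r = 2 * a := by linarith
        refine ⟨(2 * a)⁻¹, K.inv_mem (K.mul_mem ?_ ha), 0, K.zero_mem, by rw [h2]; ring⟩
        have : ((2 : ℕ) : ℝ) ∈ K := natCast_mem K 2
        exact_mod_cast this
      · have h3 : a ^ 2 - b ^ 2 * r ^ 2 ≠ 0 := by
          have : a ^ 2 - b ^ 2 * r ^ 2 = (a + b * r) * (a - b * r) := by ring
          rw [this]
          exact mul_ne_zero h0 h1
        have hm : a ^ 2 - b ^ 2 * r ^ 2 ∈ K :=
          K.sub_mem (K.pow_mem ha 2) (K.mul_mem (K.pow_mem hb 2) hr)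
        refine ⟨a * (a ^ 2 - b ^ 2 * r ^ 2)⁻¹, K.mul_mem ha (K.inv_mem hm),
          -b * (a ^ 2 - b ^ 2 * r ^ 2)⁻¹, K.mul_mem (K.neg_mem hb) (K.inv_mem hm), ?_⟩
        have h4 : a * (a ^ 2 - b ^ 2 * r ^ 2)⁻¹ + -b * (a ^ 2 - b ^ 2 * r ^ 2)⁻¹ * r =
            (a - b * r) * (a ^ 2 - b ^ 2 * r ^ 2)⁻¹ := by ring
        rw [h4]
        have h5 : a ^ 2 - b ^ 2 * r ^ 2 = (a + b * r) * (a - b * r) := by ring
        rw [h5, mul_inv]
        field_simp

lemma FldA_mem_ext {K : IntermediateField ℚ ℝ} {r : ℝ} {hr : r ^ 2 ∈ K} {x : ℝ} :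
    x ∈ FldA_ext K r hr ↔ ∃ a ∈ K, ∃ b ∈ K, x = a + b * r := Iff.rfl

lemma FldA_sq_mem (q : ℕ → ℕ) (i : ℕ) (K : IntermediateField ℚ ℝ) : rt q i ^ 2 ∈ K := by
  rw [rt_sq]
  exact natCast_mem K _

lemma mem_Kn_succ {n : ℕ} {x : ℝ} :
    x ∈ Kn q (n + 1) ↔ ∃ a ∈ Kn q n, ∃ b ∈ Kn q n, x = a + b * rt q n := by
  constructor
  · intro hx
    have hle : Kn q (n + 1) ≤ FldA_ext (Kn q n) (rt q n) (FldA_sq_mem q n _) := by
      conv_lhs => unfold Kn
      rw [IntermediateField.adjoin_le_iff]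
      rintro y ⟨i, hi, rfl⟩
      rw [SetLike.mem_coe, FldA_mem_ext]
      rcases Nat.lt_succ_iff_lt_or_eq.1 hi with h | h
      · exact ⟨rt q i, FldA_rt_mem q h, 0, (Kn q n).zero_mem, by ring⟩
      · subst h
        exact ⟨0, (Kn q i).zero_mem, 1, (Kn q i).one_mem, by ring⟩
    exact FldA_mem_ext.1 (hle hx)
  · rintro ⟨a, ha, b, hb, rfl⟩
    exact (Kn q (n + 1)).add_mem (Kn_mono (Nat.le_succ n) ha)
      ((Kn q (n + 1)).mul_mem (Kn_mono (Nat.le_succ n) hb) (rt_mem q n))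

lemma Kn_le_Fq (n : ℕ) : Kn q n ≤ Fq q := by
  unfold Kn Fq
  apply IntermediateField.adjoin.mono
  rintro x ⟨i, _, rfl⟩
  exact ⟨i, rfl⟩

lemma mem_Fq {x : ℝ} : x ∈ Fq q ↔ ∃ n, x ∈ Kn q n := by
  constructor
  · intro hx
    have hdir : Directed (· ≤ ·) (fun n => Kn q n) := by
      intro m n
      exact ⟨max m n, Kn_mono (le_max_left m n), Kn_mono (le_max_right m n)⟩
    have hle : Fq q ≤ ⨆ n, Kn q n := by
      unfold Fq
      rw [IntermediateField.adjoin_le_iff]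
      rintro y ⟨i, rfl⟩
      have h1 : Kn q (i + 1) ≤ ⨆ n, Kn q n := le_iSup (fun n => Kn q n) (i + 1)
      exact h1 (rt_mem q i)
    have h2 := hle hx
    rw [← SetLike.mem_coe, IntermediateField.coe_iSup_of_directed hdir] at h2
    obtain ⟨n, hn⟩ := Set.mem_iUnion.1 h2
    exact ⟨n, hn⟩
  · rintro ⟨n, hn⟩
    exact Kn_le_Fq n hn

/-- The field is generated by its elements whose square is rational. -/
lemma Fq_gen : Fq q = IntermediateField.adjoin ℚ {x : ℝ | x ∈ Fq q ∧ ∃ r : ℚ, x ^ 2 = r} := by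
  apply le_antisymm
  · conv_lhs => unfold Fq
    rw [IntermediateField.adjoin_le_iff]
    rintro y ⟨i, rfl⟩
    refine IntermediateField.subset_adjoin ℚ _ ⟨Kn_le_Fq (i + 1) (rt_mem q i),
      ((q 0 * q (i + 1) : ℕ) : ℚ), ?_⟩
    rw [rt_sq]
    push_cast
    rfl
  · rw [IntermediateField.adjoin_le_iff]
    rintro y ⟨hy, _⟩
    exact hy

end Pool.Agent.H93.MQ
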