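import Pool.Agent.H93.MQ.GStep
import Pool.Agent.H93.MQ.FldA

/-!
ROW Chain (project MP_78d38b_MQ). Goodness along the chain, and for all number fields in `Fq q`.

`good_Kn`: induction on `n`. `n = 0`: `Kn q 0 = ⊥` (`Kn_zero`), `algebraMap ℚ (Kn q 0)` is surjective,
`good_triv`. Step: the inclusion `Kn q n → Kn q (n + 1)` (`Kn_mono`) gives an algebra structure
(`(IntermediateField.inclusion _).toRingHom.toAlgebra` as a local instance); `good_step` with
`j = n + 1`, `s = ⟨rt q n, _⟩` (`rt_mem`, `rt_sq`), and `hgen` from `mem_Kn_succ`.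

`sub_finite`: let `φ : K →+* Fq q`. `K` is finite over the rationals, so it is generated by one
element (or finitely many) and `φ` has image in some `Kn q n` (`mem_Fq`, `Kn_mono`). This gives a ring
homomorphism `K →+* Kn q n`, hence an algebra structure. `Bdd (Kn q n) (cu _ A B)` holds by `good_Kn`
for `J = ∅` (`dd q ∅ = 1`, `A * 1 = A`). If `x ∈ Sha K (cu K A B)` is killed by a power of two, so is
`Sha.res x` (with `hV : (cu K A B).map _ = cu (Kn q n) A B`, `cu_map`), so `2 ^ N • Sha.res x = 0`, and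
`Sha.cor_res` gives `(finrank K (Kn q n) * 2 ^ N) • x = 0`. Conclude by `sha_finite_torsion`
(Pool/Agent/H11/Desc.lean; ellipticity by `isCub_cu` and `IsCub.isElliptic`).
-/

set_option autoImplicit false
set_option linter.style.haveILetI false
open scoped Classical

open NumberField IsDedekindDomain WeierstrassCurve Pool.Agent.H10 Pool.Agent.H11

namespace Pool.Agent.H93.MQ

theorem good_Kn {q : ℕ → ℕ} {A B : ℤ} (h : NZ A B) (hq : ∀ i, q i ≠ 0)
    (H : GoodOver q A B ℚ) (n : ℕ) : GoodOver q A B (Kn q n) := by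
  induction n with
  | zero =>
    refine good_triv h hq (K := ℚ) (L := Kn q 0) ?_ H
    intro x
    have hx : (x : ℝ) ∈ (⊥ : IntermediateField ℚ ℝ) := (Kn_zero q).le x.2
    obtain ⟨r, hr⟩ := IntermediateField.mem_bot.1 hx
    exact ⟨r, Subtype.ext hr⟩
  | succ n ih =>
    letI : Algebra (Kn q n) (Kn q (n + 1)) :=
      (IntermediateField.inclusion (Kn_mono (q := q) (Nat.le_succ n))).toRingHom.toAlgebra
    refine good_step h hq (K := Kn q n) (L := Kn q (n + 1)) (j := n + 1) (Nat.succ_ne_zero n)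
      (s := ⟨rt q n, rt_mem q n⟩) ?_ ?_ ih
    · apply Subtype.ext
      have h1 := rt_sq q n
      push_cast at h1 ⊢
      exact h1
    · intro x
      obtain ⟨a, ha, b, hb, hx⟩ := mem_Kn_succ.1 x.2
      exact ⟨⟨a, ha⟩, ⟨b, hb⟩, Subtype.ext hx⟩

/-- a number field inside the infinite field lies in a finite level -/
theorem Chain_level {q : ℕ → ℕ} (K : Type) [Field K] [NumberField K] (φ : K →+* Fq q) :
    ∃ n : ℕ, ∀ x : K, ((φ x : Fq q) : ℝ) ∈ Kn q n := by
  obtain ⟨α, hα⟩ := Field.exists_primitive_element ℚ K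
  obtain ⟨n, hn⟩ := mem_Fq.1 (φ α).2
  refine ⟨n, fun x => ?_⟩
  let ψ : K →ₐ[ℚ] ℝ := ((algebraMap (Fq q) ℝ).comp φ).toRatAlgHom
  have h1 : IntermediateField.adjoin ℚ {α} ≤ (Kn q n).comap ψ := by
    rw [IntermediateField.adjoin_le_iff]
    intro y hy
    rw [Set.mem_singleton_iff] at hy
    subst hy
    exact hn
  rw [hα] at h1
  exact h1 (IntermediateField.mem_top (x := x))

lemma Chain_dd (q : ℕ → ℕ) : dd q ∅ = 1 := by
  simp [dd]

theorem sub_finite {q : ℕ → ℕ} {A B : ℤ} (h : NZ A B) (hq : ∀ i, q i ≠ 0)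
    (H : GoodOver q A B ℚ) (K : Type) [Field K] [NumberField K] (φ : K →+* Fq q) :
    {x : Sha K (cu K A B) | ∃ m : ℕ, 2 ^ m • x = 0}.Finite := by
  obtain ⟨n, hn⟩ := Chain_level K φ
  let g : K →+* Kn q n := ((algebraMap (Fq q) ℝ).comp φ).codRestrict (Kn q n) hn
  letI : Algebra K (Kn q n) := g.toAlgebra
  have hb : Bdd (Kn q n) (cu (Kn q n) A B) := by
    have h1 := (good_Kn h hq H n ∅ (by simp)).1
    rw [Chain_dd, mul_one, mul_one] at h1
    exact h1
  obtain ⟨N, hN⟩ := hb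
  have hV : (cu K A B).map (algebraMap K (Kn q n)) = cu (Kn q n) A B := cu_map _ A B
  haveI : FiniteDimensional K (Kn q n) := Module.Finite.of_restrictScalars_finite ℚ K (Kn q n)
  have hfr : Module.finrank K (Kn q n) ≠ 0 := Module.finrank_pos.ne'
  haveI : (cu K A B).IsElliptic := (isCub_cu (k := K) h).isElliptic
  refine (sha_finite_torsion (cu K A B) (2 ^ N * Module.finrank K (Kn q n))
    (mul_ne_zero (by positivity) hfr)).subset ?_
  rintro x ⟨m, hm⟩
  have h1 : 2 ^ N • Sha.res hV x = 0 := by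
    refine hN _ ⟨m, ?_⟩
    rw [← map_nsmul, hm, map_zero]
  have h2 := congrArg (Sha.cor hV) h1
  rw [map_nsmul, map_zero, Sha.cor_res, ← mul_nsmul'] at h2
  exact h2

/-- Every point over the infinite field is torsion. -/
theorem tors_Fq {q : ℕ → ℕ} {A B : ℤ} (h : NZ A B) (hq : ∀ i, q i ≠ 0)
    (H : GoodOver q A B ℚ) (P : (cu (Fq q) A B).toAffine.Point) :
    ∃ n : ℕ, n ≠ 0 ∧ n • P = 0 := by
  rcases P with _ | ⟨x, y, hxy⟩
  · exact ⟨1, one_ne_zero, one_nsmul 0⟩
  · obtain ⟨n₁, h1⟩ := mem_Fq.1 x.2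
    obtain ⟨n₂, h2⟩ := mem_Fq.1 y.2
    have h1' : (x : ℝ) ∈ Kn q (max n₁ n₂) := Kn_mono (le_max_left _ _) h1
    have h2' : (y : ℝ) ∈ Kn q (max n₁ n₂) := Kn_mono (le_max_right _ _) h2
    have hfin : Finite (cu (Kn q (max n₁ n₂)) A B).toAffine.Point := by
      have h3 := (good_Kn h hq H (max n₁ n₂) ∅ (by simp)).2
      rw [Chain_dd, mul_one, mul_one] at h3
      exact h3
    let ι : Kn q (max n₁ n₂) →+* Fq q :=
      (IntermediateField.inclusion (Kn_le_Fq (q := q) (max n₁ n₂))).toRingHom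
    have hV : (cu (Kn q (max n₁ n₂)) A B).map ι = cu (Fq q) A B := cu_map ι A B
    have hns : (cu (Kn q (max n₁ n₂)) A B).toAffine.Nonsingular ⟨x, h1'⟩ ⟨y, h2'⟩ := by
      rw [← Affine.map_nonsingular (cu (Kn q (max n₁ n₂)) A B) ι.injective]
      exact (congrArg (fun W => Affine.Nonsingular W x y) hV).mpr hxy
    have hP : pm ι hV (.some _ _ hns) = .some x y hxy := rfl
    obtain ⟨m, hm0, hm⟩ := isOfFinAddOrder_iff_nsmul_eq_zero.1
      (isOfFinAddOrder_of_finite (Affine.Point.some _ _ hns))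
    refine ⟨m, hm0.ne', ?_⟩
    rw [← hP, ← map_nsmul, hm, map_zero]

end Pool.Agent.H93.MQ
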