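import Pool.Agent.H93.MQ.SolA

/-!
ROW LocE (project MP_78d38b_MQ). At an odd prime of good reduction the soluble classes are
unramified.

Use `even_of_cpt` (Pool/Agent/H10/ValPar.lean) for the valuation
`Padic.mulValuation : Valuation ℚ_[p] (WithZero (Multiplicative ℤ))` (or another valuation of
`ℚ_[p]` with values in that group) with `e₁ = 0`, `e₂ = A`, `e₃ = B`, `d = (m, n, m n)`, `c = m n`,
and relate the parity of the logarithm of the valuation of an integer to `cl_apply_prime`.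
The prime `p` does not divide `A`, `B`, `A - B`. (The proof of `even_of_cpt` is elementary; a direct
proof with `prim_sol`-like arguments is possible as well.)
-/

set_option autoImplicit false

open NumberField IsDedekindDomain WeierstrassCurve Pool.Agent.H10

namespace Pool.Agent.H93.MQ

open WithZero in
lemma LocE_log {p : ℕ} [Fact p.Prime] {n : ℤ} (hn : n ≠ 0) :
    log (Padic.mulValuation (p := p) (n : ℚ_[p])) = -(padicValInt p n : ℤ) := by
  have hn' : (n : ℚ_[p]) ≠ 0 := by exact_mod_cast hn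
  rw [Padic.mulValuation_toFun, if_neg hn', log_exp, Padic.valuation_intCast]

open WithZero in
lemma LocE_unit {p : ℕ} [Fact p.Prime] {n : ℤ} (hn : ¬ (p : ℤ) ∣ n) :
    Padic.mulValuation (p := p) (n : ℚ_[p]) = 1 := by
  have hn0 : n ≠ 0 := by
    rintro rfl
    exact hn (dvd_zero _)
  have hn' : (n : ℚ_[p]) ≠ 0 := by exact_mod_cast hn0
  rw [Padic.mulValuation_toFun, if_neg hn', Padic.valuation_intCast,
    padicValInt.eq_zero_of_not_dvd hn]
  simp

lemma LocE_cl {p : ℕ} [hp : Fact p.Prime] {n : ℤ} (hn : n ≠ 0)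
    (h : Even (WithZero.log (Padic.mulValuation (p := p) (n : ℚ_[p])))) : cl n p = 0 := by
  rw [LocE_log hn, even_neg] at h
  rw [cl_apply_prime hn hp.out, ZMod.natCast_eq_zero_iff_even]
  exact_mod_cast h

theorem loc_even {p : ℕ} [Fact p.Prime] {A B : ℤ}
    (hp : ¬ (p : ℤ) ∣ A * B * (A - B)) {z : V × V} (H : SolC ℚ_[p] A B z) : at_ p z = 0 := by
  obtain ⟨m, n, hm, hn, rfl, H⟩ := H
  have hA : ¬ (p : ℤ) ∣ A := fun h => hp (dvd_mul_of_dvd_left (dvd_mul_of_dvd_left h _) _)
  have hB : ¬ (p : ℤ) ∣ B := fun h => hp (dvd_mul_of_dvd_left (dvd_mul_of_dvd_right h _) _)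
  have hBA : ¬ (p : ℤ) ∣ B - A := fun h => hp (dvd_mul_of_dvd_right (by
    rw [← neg_sub]; exact (dvd_neg).mpr h) _)
  have h := even_of_cpt (F := ℚ_[p]) (Padic.mulValuation (p := p)) (e₁ := (0 : ℚ_[p]))
    (e₂ := (A : ℚ_[p])) (e₃ := (B : ℚ_[p])) (d₁ := (m : ℚ_[p])) (d₂ := (n : ℚ_[p]))
    (d₃ := ((m * n : ℤ) : ℚ_[p])) (c := ((m * n : ℤ) : ℚ_[p])) (by
      rw [sub_zero]; exact LocE_unit hA) (by rw [sub_zero]; exact LocE_unit hB) (by
      rw [← Int.cast_sub]; exact LocE_unit hBA) (by push_cast; ring) (by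
      have : m * n ≠ 0 := mul_ne_zero hm hn
      exact_mod_cast this) H
  rw [at_apply, LocE_cl hm h.1, LocE_cl hn h.2.1]
  rfl

end Pool.Agent.H93.MQ
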