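import Pool.Agent.H93.MQ.SelA
import Pool.Agent.H93.MQ.LocE

/-!
ROW Enl (project MP_78d38b_MQ). Enlarging the set of primes does not enlarge the Selmer group.

If `z ∈ Sel S' A B` with `S ⊂ S'`, and `S` is admissible, then for `p ∈ S' \ S` the prime `p` does not
divide `A B (A - B)` (`Adm.bad`), so `at_ p z = 0` by `loc_even`; hence `z` is supported in `S` and
`z ∈ Sel S A B` (`mem_sel`). `Adm.enlarge` is clear.
-/

set_option autoImplicit false

open NumberField IsDedekindDomain WeierstrassCurve Pool.Agent.H10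

namespace Pool.Agent.H93.MQ

theorem Adm.enlarge {S S' : Finset ℕ} {A B : ℤ} (h : Adm S A B) (hS : S ⊆ S')
    (hS' : ∀ p ∈ S', p.Prime) : Adm S' A B where
  prime := hS'
  two := hS h.two
  nz := h.nz
  bad p hp hd := hS (h.bad p hp hd)

theorem sel_enlarge {S S' : Finset ℕ} {A B : ℤ} (h : Adm S A B) (hS : S ⊆ S')
    (hS' : ∀ p ∈ S', p.Prime) : Sel S' A B ≤ Sel S A B := by
  intro z hz
  rw [mem_sel h.nz] at hz ⊢
  obtain ⟨h1, h2, h3⟩ := hz
  refine ⟨fun i h0 hi => ?_, fun p _ hp => h2 p (hS hp), h3⟩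
  by_cases hi' : i ∈ S'
  · have hp : i.Prime := hS' i hi'
    have : Fact i.Prime := ⟨hp⟩
    exact loc_even (fun hd => hi (h.bad i hp hd)) (h2 i hi')
  · exact h1 i h0 hi'

end Pool.Agent.H93.MQ
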