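import Pool.Agent.H93.MQ.SelA
import Pool.Agent.H93.MQ.LocE

/-!
ROW SelB (project MP_78d38b_MQ). If the Selmer group `Sel S A B` consists of classes of two-torsion
points, then `SelTors ℚ 0 A B` holds (H10/SelTors.lean: every everywhere locally soluble triple of
rationals is the class of a two-torsion point).

Let `d₁ d₂ d₃ = c ^ 2` be an everywhere locally soluble triple. Write `d₁ = m s²`, `d₂ = n t²` with
nonzero integers `m`, `n` (`exists_int_rep`); then `d₃ = m n (c / (m n s t))²`. Put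
`z = (cl m, cl n)`. For every prime `p` we have `Sol ℚ_[p] A B m n`: take the finite place
`v` corresponding to `p` (for instance `ratPlace hp`, or through `Padic.adicCompletionEquiv p`:
Mathlib.NumberTheory.Padics.HeightOneSpectrum provides a ring isomorphism between
`ℚ_[p]` and the completion at the place `primesEquiv.symm p` of the ring of integers), apply
`CPt.map` along the ring homomorphism and `CPt.congr`. Over the reals: `exists_completion`
(H10/RealPl.lean) for `K = ℚ` gives a real place with a ring homomorphism to `ℝ`. The support of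
`z` is in `S` by `loc_even` and `Adm.bad`, and `cl_apply_of_not_prime` for non-primes.
So `z ∈ Sel S A B` (`mem_sel`), hence `z = tor A B u` for some `u`. In each of the four cases the
corresponding `TorsCls` (see the header of SolA) has the same classes as `(m, n, m n)`;
equality of classes gives squares by `cl_eq_zero_iff`/`cl_eq_iff`.
-/

set_option autoImplicit false

open NumberField IsDedekindDomain WeierstrassCurve Pool.Agent.H10

namespace Pool.Agent.H93.MQ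

/-- transport of solubility to a field of characteristic zero -/
lemma SelB_sol {L k : Type*} [Field L] [Field k] [CharZero k] (φ : ℚ →+* L) (ψ : L →+* k)
    {A B m n : ℤ} (hm : m ≠ 0) (hn : n ≠ 0) {d₁ d₂ d₃ c s t : ℚ} (hs : s ≠ 0) (ht : t ≠ 0)
    (hc : c ≠ 0) (h1 : d₁ = m * s ^ 2) (h2 : d₂ = n * t ^ 2) (h3 : d₁ * d₂ * d₃ = c ^ 2)
    (H : CPt (φ 0) (φ (A : ℚ)) (φ (B : ℚ)) (φ d₁) (φ d₂) (φ d₃)) : Sol k A B m n := by
  have H' := H.map ψ
  have e : ∀ x : ℚ, ψ (φ x) = (x : k) := fun x => by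
    have := eq_ratCast (ψ.comp φ) x
    exact this
  simp only [e] at H'
  rw [Rat.cast_zero, Rat.cast_intCast, Rat.cast_intCast] at H'
  have hmQ : (m : ℚ) ≠ 0 := by exact_mod_cast hm
  have hnQ : (n : ℚ) ≠ 0 := by exact_mod_cast hn
  have hr : (m : ℚ) * n * s * t / c ≠ 0 :=
    div_ne_zero (mul_ne_zero (mul_ne_zero (mul_ne_zero hmQ hnQ) hs) ht) hc
  unfold Sol
  refine H'.congr (s₁ := ((s⁻¹ : ℚ) : k)) (s₂ := ((t⁻¹ : ℚ) : k))
    (s₃ := (((m : ℚ) * n * s * t / c : ℚ) : k)) ?_ ?_ ?_ ?_ ?_ ?_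
  · exact_mod_cast inv_ne_zero hs
  · exact_mod_cast inv_ne_zero ht
  · exact_mod_cast hr
  · have : (m : ℚ) = d₁ * s⁻¹ ^ 2 := by
      rw [h1]; field_simp
    exact_mod_cast congrArg (Rat.cast : ℚ → k) this
  · have : (n : ℚ) = d₂ * t⁻¹ ^ 2 := by
      rw [h2]; field_simp
    exact_mod_cast congrArg (Rat.cast : ℚ → k) this
  · have h4 : (m : ℚ) * s ^ 2 * (n * t ^ 2) * d₃ = c ^ 2 := by
      rw [← h1, ← h2]; exact h3
    have : ((m * n : ℤ) : ℚ) = d₃ * ((m : ℚ) * n * s * t / c) ^ 2 := by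
      push_cast
      field_simp
      linear_combination (-1 : ℚ) * h4
    exact_mod_cast congrArg (Rat.cast : ℚ → k) this

lemma SelB_hom (v : HeightOneSpectrum (𝓞 ℚ)) (p : ℕ) [Fact p.Prime]
    (h : ((Rat.HeightOneSpectrum.primesEquiv v : Nat.Primes) : ℕ) = p) :
    Nonempty (v.adicCompletion ℚ →+* ℚ_[p]) := by
  subst h
  have E := (Rat.HeightOneSpectrum.adicCompletion.padicEquiv v)
  exact ⟨RingHomClass.toRingHom E⟩

lemma SelB_sq {m T : ℤ} (hm : m ≠ 0) (hT : T ≠ 0) (h : cl m = cl T) : IsSquare (m * T) := by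
  rw [← cl_eq_zero_iff (mul_ne_zero hm hT), cl_mul hm hT, h]
  exact ZModModule.add_self _

lemma SelB_fin {A B m n : ℤ} (hm : m ≠ 0) (hn : n ≠ 0) (h : NZ A B) {d₁ d₂ d₃ c s t : ℚ}
    (hs : s ≠ 0) (ht : t ≠ 0)
    (hc : c ≠ 0) (h1 : d₁ = m * s ^ 2) (h2 : d₂ = n * t ^ 2) (h3 : d₁ * d₂ * d₃ = c ^ 2)
    {T₁ T₂ : ℤ} {t₃ : ℚ} (hT1 : T₁ ≠ 0) (hT2 : T₂ ≠ 0)
    (hT : TorsCls (0 : ℚ) (A : ℚ) (B : ℚ) (T₁ : ℚ) (T₂ : ℚ) t₃) (e1 : cl m = cl T₁)
    (e2 : cl n = cl T₂) :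
    ∃ t₁ t₂ t₃ : ℚ, TorsCls (0 : ℚ) (A : ℚ) (B : ℚ) t₁ t₂ t₃ ∧
      IsSquare (d₁ * t₁) ∧ IsSquare (d₂ * t₂) ∧ IsSquare (d₃ * t₃) := by
  have hA : (0 : ℚ) ≠ (A : ℚ) := by exact_mod_cast h.hA.symm
  have hB : (0 : ℚ) ≠ (B : ℚ) := by exact_mod_cast h.hB.symm
  have hAB : (A : ℚ) ≠ (B : ℚ) := by exact_mod_cast h.hAB
  obtain ⟨e, he, hprod⟩ := hT.prod hA hB hAB
  obtain ⟨a, ha⟩ := SelB_sq hm hT1 e1
  obtain ⟨b, hb⟩ := SelB_sq hn hT2 e2
  have haQ : (m : ℚ) * T₁ = a * a := by exact_mod_cast ha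
  have hbQ : (n : ℚ) * T₂ = b * b := by exact_mod_cast hb
  have ha0 : (a : ℚ) ≠ 0 := by
    intro h0
    rw [h0, mul_zero, mul_eq_zero] at haQ
    rcases haQ with h | h
    · exact hm (by exact_mod_cast h)
    · exact hT1 (by exact_mod_cast h)
  have hb0 : (b : ℚ) ≠ 0 := by
    intro h0
    rw [h0, mul_zero, mul_eq_zero] at hbQ
    rcases hbQ with h | h
    · exact hn (by exact_mod_cast h)
    · exact hT2 (by exact_mod_cast h)
  have g1 : d₁ * T₁ = (a * s) * (a * s) := by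
    rw [h1]
    linear_combination s ^ 2 * haQ
  have g2 : d₂ * T₂ = (b * t) * (b * t) := by
    rw [h2]
    linear_combination t ^ 2 * hbQ
  refine ⟨T₁, T₂, t₃, hT, ⟨_, g1⟩, ⟨_, g2⟩, ⟨c * e / ((a * s) * (b * t)), ?_⟩⟩
  have g3 : (d₁ * T₁) * (d₂ * T₂) * (d₃ * t₃) = (c * e) ^ 2 := by
    calc (d₁ * T₁) * (d₂ * T₂) * (d₃ * t₃) = (d₁ * d₂ * d₃) * (T₁ * T₂ * t₃) := by ring
      _ = (c * e) ^ 2 := by rw [h3, hprod]; ring
  rw [g1, g2] at g3
  have hden : (a * s) * (b * t) ≠ 0 := mul_ne_zero (mul_ne_zero ha0 hs) (mul_ne_zero hb0 ht)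
  rw [div_mul_div_comm, eq_div_iff (mul_ne_zero hden hden)]
  linear_combination g3

theorem selTors_of {S : Finset ℕ} {A B : ℤ} (h : Adm S A B)
    (H : Sel S A B ≤ LinearMap.range (tor A B)) : SelTors ℚ (0 : ℚ) (A : ℚ) (B : ℚ) := by
  intro d₁ d₂ d₃ c hd hc hf hi
  have hdn : d₁ * d₂ * d₃ ≠ 0 := by rw [hd]; exact pow_ne_zero 2 hc
  have hd1 : d₁ ≠ 0 := fun h => hdn (by rw [h]; ring)
  have hd2 : d₂ ≠ 0 := fun h => hdn (by rw [h]; ring)
  obtain ⟨m, hm, s, hs, h1⟩ := exists_int_rep hd1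
  obtain ⟨n, hn, t, ht, h2⟩ := exists_int_rep hd2
  have hA := h.nz.hA
  have hB := h.nz.hB
  have hAB : A - B ≠ 0 := sub_ne_zero.2 h.nz.hAB
  have hBA : B - A ≠ 0 := sub_ne_zero.2 h.nz.hAB.symm
  -- local solubility at the primes
  have hloc : ∀ (p : ℕ) [Fact p.Prime], SolC ℚ_[p] A B (cl m, cl n) := by
    intro p hp
    refine ⟨m, n, hm, hn, rfl, ?_⟩
    obtain ⟨ψ⟩ := SelB_hom (Rat.HeightOneSpectrum.primesEquiv.symm ⟨p, hp.out⟩) p
      (by rw [Equiv.apply_symm_apply])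
    exact SelB_sol _ ψ hm hn hs ht hc h1 h2 hd (hf _)
  have hreal : SolC ℝ A B (cl m, cl n) := by
    refine ⟨m, n, hm, hn, rfl, ?_⟩
    obtain ⟨v, ψ, -⟩ := exists_completion (K := ℚ) (algebraMap ℚ ℝ)
    exact SelB_sol _ ψ hm hn hs ht hc h1 h2 hd (hi v)
  have hmem : ((cl m, cl n) : V × V) ∈ Sel S A B := by
    rw [mem_sel h.nz]
    refine ⟨?_, fun p _ _ => hloc p, hreal⟩
    intro i h0 hiS
    by_cases hip : i.Prime
    · have : Fact i.Prime := ⟨hip⟩
      exact loc_even (fun hdvd => hiS (h.bad i hip hdvd)) (hloc i)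
    · rw [at_apply]
      change (cl m i, cl n i) = 0
      rw [cl_apply_of_not_prime m h0 hip, cl_apply_of_not_prime n h0 hip]
      rfl
  obtain ⟨u, hu⟩ := H hmem
  rw [tor_apply] at hu
  have hu1 : u.1 • cl A + u.2 • cl (A * B) = cl m := congrArg Prod.fst hu
  have hu2 : u.1 • cl (A * (A - B)) + u.2 • cl (-A) = cl n := congrArg Prod.snd hu
  have hcases : ∀ x : ZMod 2, x = 0 ∨ x = 1 := by decide
  have hneg : ∀ x : ℤ, x ≠ 0 → cl (-x) = cl (-1) + cl x := by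
    intro x hx
    rw [← cl_mul (by norm_num) hx, neg_one_mul]
  rcases hcases u.1 with hu3 | hu3 <;> rcases hcases u.2 with hu4 | hu4
  · -- (0,0)
    rw [hu3, hu4, zero_smul, zero_smul, add_zero] at hu1 hu2
    refine SelB_fin hm hn h.nz hs ht hc h1 h2 hd (T₁ := 1) (T₂ := 1) (t₃ := 1) one_ne_zero
      one_ne_zero ?_ ?_ ?_
    · left
      exact ⟨by norm_num, by norm_num, rfl⟩
    · rw [← hu1, cl_one]
    · rw [← hu2, cl_one]
  · -- (0,1)
    rw [hu3, hu4, zero_smul, zero_add, one_smul] at hu1 hu2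
    refine SelB_fin hm hn h.nz hs ht hc h1 h2 hd (T₁ := A * B) (T₂ := -A) (t₃ := 0 - (B : ℚ))
      (mul_ne_zero hA hB) (neg_ne_zero.2 hA) ?_ hu1.symm hu2.symm
    right; left
    refine ⟨?_, ?_, rfl⟩
    · push_cast
      ring
    · push_cast
      ring
  · -- (1,0)
    rw [hu3, hu4, zero_smul, add_zero, one_smul] at hu1 hu2
    refine SelB_fin hm hn h.nz hs ht hc h1 h2 hd (T₁ := A) (T₂ := A * (A - B))
      (t₃ := (A : ℚ) - B) hA (mul_ne_zero hA hAB) ?_ hu1.symm hu2.symm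
    right; right; left
    refine ⟨?_, ?_, rfl⟩
    · ring
    · push_cast
      ring
  · -- (1,1)
    rw [hu3, hu4, one_smul, one_smul] at hu1 hu2
    refine SelB_fin hm hn h.nz hs ht hc h1 h2 hd (T₁ := B) (T₂ := B - A)
      (t₃ := ((B : ℚ) - 0) * (B - A)) hB hBA ?_ ?_ ?_
    · right; right; right
      refine ⟨?_, ?_, rfl⟩
      · ring
      · push_cast
        ring
    · rw [← hu1, cl_mul hA hB, ← add_assoc, ZModModule.add_self, zero_add]
    · rw [← hu2, cl_mul hA hAB, hneg A hA, show B - A = -(A - B) by ring, hneg _ hAB]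
      have := ZModModule.add_self (cl A)
      calc cl A + cl (A - B) + (cl (-1) + cl A) = cl (-1) + cl (A - B) + (cl A + cl A) := by abel
        _ = cl (-1) + cl (A - B) := by rw [this, add_zero]

end Pool.Agent.H93.MQ
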