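import Pool.Agent.H93.MQ.EvA
import Pool.Agent.H93.MQ.SelB
import Pool.Agent.H93.MQ.SelC

/-!
ROW EvB (project MP_78d38b_MQ). The even twists have only two-torsion classes; conclusion over the
rationals.

`sel_even`: if `J` is empty, `dd q J = 1` and the claim is the hypothesis. Otherwise let `i ∈ J`,
`z ∈ Sel (S ∪ T) (A d) (B d)`, `u = at_ (q i) z`; by `seq_equal` all coordinates at `T` are `u`. By
`tw_sel` (`d > 0`), `z' = z + tor (A d) (B d) u ∈ Sel S A B`, so `z' = tor A B w` by hypothesis. By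
`tw_loc`, `ev2 (chi (q i)) z' = 0`, and `chi (q i)` agrees with `χ` on `S` (`ev2_congr`, `tor_supp`),
so `ev2 χ (tor A B w) = 0` and `w = 0` by `GoodChi.inj`. So `z = tor (A d) (B d) u` is in the range.

`good_rat`: for every even `J`, `selTors_of` gives `SelTors ℚ 0 (A d) (B d)`. Then
`SelTors.hasse` and `sha2Trivial_of_hasse` (with `isCub_cu`) give `Sha2Trivial`, so every class
killed by a power of two is zero (`Sha.mk_surjective`, `Sha.mk_eq_zero`, `Sha.mk_nsmul`; take
`N = 0` in `Bdd`), and `SelTors.torsion` with `finite_of_torsion` gives finiteness of the group of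
points (`IsCub.isElliptic`).
-/

set_option autoImplicit false

open NumberField IsDedekindDomain WeierstrassCurve Pool.Agent.H10

namespace Pool.Agent.H93.MQ

variable {S : Finset ℕ} {A B : ℤ} {χ : ℕ → ZMod 2} {q : ℕ → ℕ}

theorem sel_even (h : Adm S A B) (hS : Sel S A B ≤ LinearMap.range (tor A B))
    (hχ : GoodChi A B χ) (hq : GoodSeq S χ q) (J : Finset ℕ) (hJ : Even J.card) :
    Sel (S ∪ J.image q) (A * dd q J) (B * dd q J) ≤
      LinearMap.range (tor (A * dd q J) (B * dd q J)) := by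
  rcases J.eq_empty_or_nonempty with rfl | ⟨i, hi⟩
  · have h1 : dd q ∅ = 1 := by simp [dd]
    rw [h1, mul_one, mul_one, Finset.image_empty, Finset.union_empty]
    exact hS
  · intro z hz
    have hT := seq_tw h hq J hJ
    have heq : ∀ p ∈ J.image q, at_ p z = at_ (q i) z := by
      intro p hp
      obtain ⟨j, hj, rfl⟩ := Finset.mem_image.1 hp
      exact seq_equal h hχ hq J hJ hz j hj i hi
    have hdpos : 0 < dd q J := by
      unfold dd
      exact Finset.prod_pos (fun j _ => by exact_mod_cast (hq.prime j).pos)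
    have hz' := tw_sel h hT hdpos hz heq
    obtain ⟨w, hw⟩ := hS hz'
    have hloc := tw_loc h hT hz (Finset.mem_image_of_mem q hi)
    rw [← hw] at hloc
    have hcg : ev2 (Pool.Agent.H93.MQ.chi (q i)) (tor A B w) = ev2 χ (tor A B w) :=
      ev2_congr (tor_supp h w) (fun j hj => hq.chi i j hj)
    rw [hcg] at hloc
    have hw0 := hχ.inj w hloc
    rw [hw0, map_zero] at hw
    refine ⟨at_ (q i) z, ?_⟩
    calc tor (A * dd q J) (B * dd q J) (at_ (q i) z)
        = z + tor (A * dd q J) (B * dd q J) (at_ (q i) z) +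
            tor (A * dd q J) (B * dd q J) (at_ (q i) z) := by rw [← hw, zero_add]
      _ = z := by rw [add_assoc, ← map_add, StA_two, map_zero, add_zero]

theorem good_rat (h : Adm S A B) (hS : Sel S A B ≤ LinearMap.range (tor A B))
    (hχ : GoodChi A B χ) (hq : GoodSeq S χ q) : GoodOver q A B ℚ := by
  intro J hJ
  have hT := seq_tw h hq J hJ
  have hadm := hT.adm h
  have hST := selTors_of hadm (sel_even h hS hχ hq J hJ)
  have hc : IsCub (cu ℚ (A * dd q J) (B * dd q J)) (0 : ℚ) ((A * dd q J : ℤ) : ℚ)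
      ((B * dd q J : ℤ) : ℚ) := isCub_cu hadm.nz
  have H0 : Sha2Trivial ℚ (cu ℚ (A * dd q J) (B * dd q J)) :=
    sha2Trivial_of_hasse hc (hST.hasse hc)
  refine ⟨⟨0, ?_⟩, ?_⟩
  · intro x hx
    obtain ⟨f, rfl⟩ := Sha.mk_surjective x
    have h1 : IsCobound ℚ (cu ℚ (A * dd q J) (B * dd q J)) f.1 :=
      H0 f.1 f.2.1 f.2.2 ((mk_mem_iff' f).mp hx)
    rw [(Sha.mk_eq_zero f).mpr h1, smul_zero]
  · have := hc.isElliptic
    obtain ⟨m, hm, hP⟩ := hST.torsion hc
    exact finite_of_torsion hm hP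

end Pool.Agent.H93.MQ
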