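import Pool.Agent.H93.MQ.Rsc
import Pool.Agent.H93.MQ.SelC

/-!
ROW FinF (project MP_78d38b_MQ). Finiteness of the points over a field embedding into two different
`ℚ_[l]` with good reduction, when all points are torsion.

For an embedding `f : F →+* ℚ_[l]` let `R : ValuationSubring F` be the preimage of the subring of
elements of norm at most one (`PadicInt.subring`, as a valuation subring;
`ValuationSubring.comap`). The results of Pool/Agent/H11/Local.lean apply:
`Integral R W` for `W = cu F A B` (coefficients are integers), `R.valuation W.Δ = 1` since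
`Δ = 16 A² B² (A - B)²` is prime to `l`.
(1) If `n` is prime to `l` then a point `T` with `n • T = 0` which lies in `InE1` is zero
(`InE1.eq_zero`).
(2) Send a point `P = (x, y)` with `x ∈ R` (then `y ∈ R` by `y_mem`) to the residues of `f x`, `f y` in
`ℤ_[l] / l = ZMod l` (`PadicInt.toZMod`), all other points to a further value. If two points `P, Q`
have the same value then `P - Q ∈ InE1`: both with integral coordinates: `inE1_sub` (equal residues
mean `R.valuation (x₁ - x₂) < 1`); both with non-integral `x` or zero: `InE1.add_sub`.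
So the points of order prime to `l` are finite in number (the map to a finite set is injective on
them: if `n P = n' Q = 0` then `n n' (P - Q) = 0`).
(3) Every point `P` is torsion, `N P = 0` with `N = l^a m`, `l ∤ m`. By coprimality `P = u + v` with
`m u = 0` and `l^a v = 0`; `u` is one of finitely many points by (2) for `l`, and `v` is one of
finitely many by (2) for `l'` (the order `l^a` is prime to `l'`). So there are finitely many `P`.
-/

set_option autoImplicit false
set_option linter.style.haveILetI false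
open scoped Classical

open NumberField IsDedekindDomain WeierstrassCurve Pool.Agent.H10 Pool.Agent.H11

namespace Pool.Agent.H93.MQ

/-- the elements whose image has norm at most one -/
def finF_R {F : Type*} [Field F] {l : ℕ} [Fact l.Prime] (f : F →+* ℚ_[l]) : ValuationSubring F where
  carrier := {x | ‖f x‖ ≤ 1}
  mul_mem' := by
    intro a b ha hb
    show ‖f (a * b)‖ ≤ 1
    rw [map_mul, norm_mul]
    exact mul_le_one₀ ha (norm_nonneg _) hb
  one_mem' := by
    show ‖f 1‖ ≤ 1
    rw [map_one, norm_one]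
  add_mem' := by
    intro a b ha hb
    show ‖f (a + b)‖ ≤ 1
    rw [map_add]
    exact (Padic.nonarchimedean _ _).trans (max_le ha hb)
  zero_mem' := by
    show ‖f 0‖ ≤ 1
    rw [map_zero, norm_zero]
    exact zero_le_one
  neg_mem' := by
    intro a ha
    show ‖f (-a)‖ ≤ 1
    rw [map_neg, norm_neg]
    exact ha
  mem_or_inv_mem' := by
    intro x
    show ‖f x‖ ≤ 1 ∨ ‖f x⁻¹‖ ≤ 1
    rw [map_inv₀, norm_inv]
    rcases le_total ‖f x‖ 1 with h | h
    · exact Or.inl h
    · exact Or.inr (inv_le_one_of_one_le₀ h)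

section finF

variable {F : Type*} [Field F] {l : ℕ} [Fact l.Prime] (f : F →+* ℚ_[l])

lemma finF_mem {x : F} : x ∈ finF_R f ↔ ‖f x‖ ≤ 1 := Iff.rfl

lemma finF_lt {x : F} : (finF_R f).valuation x < 1 ↔ ‖f x‖ < 1 := by
  rw [← ValuationSubring.mem_nonunits_iff, ValuationSubring.mem_nonunits_iff_or, finF_mem, map_inv₀,
    norm_inv]
  constructor
  · rintro (rfl | h)
    · rw [map_zero, norm_zero]; exact zero_lt_one
    · by_contra hcon
      push Not at hcon
      exact h (inv_le_one_of_one_le₀ hcon)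
  · intro h
    by_cases hx : x = 0
    · exact Or.inl hx
    · right
      push Not
      have hpos : 0 < ‖f x‖ := norm_pos_iff.2 ((map_ne_zero f).2 hx)
      exact (one_lt_inv₀ hpos).2 h

lemma finF_eq_one {x : F} (h : ‖f x‖ = 1) : (finF_R f).valuation x = 1 := by
  apply le_antisymm
  · rw [ValuationSubring.valuation_le_one_iff, finF_mem, h]
  · by_contra hcon
    push Not at hcon
    rw [finF_lt, h] at hcon
    exact lt_irrefl _ hcon

lemma finF_nat {n : ℕ} (h : n.Coprime l) : (finF_R f).valuation (n : F) = 1 := by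
  apply finF_eq_one
  rw [map_natCast, Padic.norm_natCast_eq_one_iff]
  exact h.symm

lemma finF_integral (A B : ℤ) : Integral (finF_R f) (cu F A B) where
  a₁ := (finF_R f).zero_mem
  a₂ := neg_mem (add_mem (intCast_mem _ A) (intCast_mem _ B))
  a₃ := (finF_R f).zero_mem
  a₄ := mul_mem (intCast_mem _ A) (intCast_mem _ B)
  a₆ := (finF_R f).zero_mem

lemma finF_disc (A B : ℤ) : (cu F A B).Δ = ((4 * (2 * A * B * (A - B)) ^ 2 : ℤ) : F) := by
  rw [WeierstrassCurve.Δ, WeierstrassCurve.b₂, WeierstrassCurve.b₄, WeierstrassCurve.b₆,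
    WeierstrassCurve.b₈]
  simp only [cu]
  push_cast
  ring

lemma finF_unit {A B : ℤ} (hl : ¬ (l : ℤ) ∣ 2 * A * B * (A - B)) :
    (finF_R f).valuation (cu F A B).Δ = 1 := by
  apply finF_eq_one
  rw [finF_disc, map_intCast]
  apply le_antisymm (Padic.norm_int_le_one _)
  by_contra hcon
  push Not at hcon
  rw [Padic.norm_intCast_lt_one_iff] at hcon
  have hp : Prime (l : ℤ) := Nat.prime_iff_prime_int.1 Fact.out
  apply hl
  rcases hp.dvd_or_dvd hcon with h | h
  · have h2 : (l : ℤ) ∣ 2 * 2 := by simpa using h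
    have h3 : (l : ℤ) ∣ 2 := by
      rcases hp.dvd_or_dvd h2 with h | h <;> exact h
    exact Dvd.dvd.mul_right (Dvd.dvd.mul_right (Dvd.dvd.mul_right h3 A) B) (A - B)
  · exact hp.dvd_of_dvd_pow h

/-- the residue -/
noncomputable def finF_res (x : F) : ZMod l :=
  if h : ‖f x‖ ≤ 1 then PadicInt.toZMod (⟨f x, h⟩ : ℤ_[l]) else 0

lemma finF_res_eq {x y : F} (hx : ‖f x‖ ≤ 1) (hy : ‖f y‖ ≤ 1) (h : finF_res f x = finF_res f y) :
    (finF_R f).valuation (x - y) < 1 := by
  rw [finF_lt, map_sub]
  rw [finF_res, finF_res, dif_pos hx, dif_pos hy, ← sub_eq_zero, ← map_sub, ← RingHom.mem_ker,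
    PadicInt.ker_toZMod, IsLocalRing.mem_maximalIdeal, PadicInt.mem_nonunits] at h
  exact h

/-- the code of a point -/
noncomputable def finF_code {W : WeierstrassCurve F} : W.toAffine.Point → Option (ZMod l × ZMod l)
  | 0 => none
  | .some x y _ => if ‖f x‖ ≤ 1 then some (finF_res f x, finF_res f y) else none

lemma finF_none {W : WeierstrassCurve F} {P : W.toAffine.Point} (h : finF_code f P = none) :
    InE1 (finF_R f) W P := by
  match P, h with
  | 0, _ => exact Or.inl rfl
  | .some x y hxy, h =>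
    right
    refine ⟨x, y, hxy, rfl, ?_⟩
    intro hx
    rw [finF_mem] at hx
    rw [finF_code, if_pos hx] at h
    exact Option.some_ne_none _ h

lemma finF_some {W : WeierstrassCurve F} {P : W.toAffine.Point} {c : ZMod l × ZMod l}
    (h : finF_code f P = some c) : ∃ x y h, P = .some x y h ∧ ‖f x‖ ≤ 1 ∧ finF_res f x = c.1 ∧
      finF_res f y = c.2 := by
  match P, h with
  | 0, h => exact absurd (show (none : Option (ZMod l × ZMod l)) = some c from h) (by simp)
  | .some x y hxy, h =>
    by_cases hx : ‖f x‖ ≤ 1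
    · rw [finF_code, if_pos hx, Option.some_inj] at h
      exact ⟨x, y, hxy, rfl, hx, by rw [← h], by rw [← h]⟩
    · rw [finF_code, if_neg hx] at h
      exact absurd h.symm (Option.some_ne_none _)

lemma finF_sub {W : WeierstrassCurve F} [W.IsElliptic] (hW : Integral (finF_R f) W)
    (hΔ : (finF_R f).valuation W.Δ = 1) {P Q : W.toAffine.Point} (h : finF_code f P = finF_code f Q) :
    InE1 (finF_R f) W (P - Q) := by
  rcases hP : finF_code f P with _ | c
  · exact (InE1.add_sub hW (finF_none f hP) (finF_none f (h.symm.trans hP))).2.1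
  · obtain ⟨x, y, h1, rfl, hx, e1, e2⟩ := finF_some f hP
    obtain ⟨x', y', h1', rfl, hx', e1', e2'⟩ := finF_some f (h.symm.trans hP)
    have hy := y_mem hW (A := finF_R f) hx h1.1
    have hy' := y_mem hW (A := finF_R f) hx' h1'.1
    exact inE1_sub hW hΔ h1 h1' hx hx' (finF_res_eq f hx hx' (e1.trans e1'.symm))
      (finF_res_eq f hy hy' (e2.trans e2'.symm))

end finF

theorem fin_prime_to {F : Type*} [Field F] {A B : ℤ} (h : NZ A B) {l : ℕ} [Fact l.Prime]
    (hl : ¬ (l : ℤ) ∣ 2 * A * B * (A - B)) (f : F →+* ℚ_[l]) :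
    {P : (cu F A B).toAffine.Point | ∃ n : ℕ, n.Coprime l ∧ n • P = 0}.Finite := by
  haveI : CharZero F := f.charZero
  haveI : (cu F A B).IsElliptic := (isCub_cu (k := F) h).isElliptic
  have hW := finF_integral f A B
  have hΔ := finF_unit f hl
  haveI : NeZero l := ⟨(Fact.out : l.Prime).ne_zero⟩
  apply Set.Finite.of_finite_image (f := finF_code f) (Set.toFinite _)
  rintro P ⟨n, hn, hP⟩ Q ⟨m, hm, hQ⟩ hPQ
  have h1 := finF_sub f hW hΔ hPQ
  rw [← sub_eq_zero]
  refine InE1.eq_zero hW h1 (n * m) (finF_nat f (Nat.Coprime.mul_left hn hm)) ?_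
  rw [smul_sub, mul_comm, mul_smul, hP, mul_comm, mul_smul, hQ, smul_zero, smul_zero, sub_zero]

theorem finite_of_two {F : Type*} [Field F] {A B : ℤ} (h : NZ A B) {l l' : ℕ} [Fact l.Prime]
    [Fact l'.Prime] (hne : l ≠ l') (hl : ¬ (l : ℤ) ∣ 2 * A * B * (A - B))
    (hl' : ¬ (l' : ℤ) ∣ 2 * A * B * (A - B)) (f : F →+* ℚ_[l]) (f' : F →+* ℚ_[l'])
    (htor : ∀ P : (cu F A B).toAffine.Point, ∃ n : ℕ, n ≠ 0 ∧ n • P = 0) :
    Finite (cu F A B).toAffine.Point := by
  have h1 := fin_prime_to h hl f
  have h2 := fin_prime_to h hl' f'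
  rw [← Set.finite_univ_iff]
  refine (h1.image2 (fun u v => u + v) h2).subset ?_
  intro P _
  obtain ⟨n, hn, hP⟩ := htor P
  have hlp : l.Prime := Fact.out
  have hlp' : l'.Prime := Fact.out
  obtain ⟨e, m, hm, hnm⟩ := Nat.exists_eq_pow_mul_and_not_dvd hn l hlp.ne_one
  have hml : m.Coprime l := (hlp.coprime_iff_not_dvd.2 hm).symm
  have hll : (l ^ e).Coprime l' := ((Nat.coprime_primes hlp hlp').2 hne).pow_left e
  have hcop : IsCoprime ((l ^ e : ℕ) : ℤ) (m : ℤ) :=
    Nat.isCoprime_iff_coprime.2 (Nat.Coprime.pow_left e hml.symm)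
  obtain ⟨s, t, hst⟩ := hcop
  have hP0 : ((l ^ e : ℕ) : ℤ) • ((m : ℤ) • P) = 0 := by
    rw [natCast_zsmul, natCast_zsmul, ← mul_smul, ← hnm]
    exact hP
  have hP1 : (m : ℤ) • (((l ^ e : ℕ) : ℤ) • P) = 0 := by
    rw [smul_comm]
    exact hP0
  refine ⟨s • (((l ^ e : ℕ) : ℤ) • P), ⟨m, hml, ?_⟩, t • ((m : ℤ) • P), ⟨l ^ e, hll, ?_⟩, ?_⟩
  · rw [← natCast_zsmul, smul_comm, hP1, smul_zero]
  · rw [← natCast_zsmul, smul_comm, hP0, smul_zero]
  · show s • (((l ^ e : ℕ) : ℤ) • P) + t • ((m : ℤ) • P) = P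
    rw [← mul_smul, ← mul_smul, ← add_smul, hst, one_smul]

end Pool.Agent.H93.MQ
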