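import Pool.Agent.H93.MQ.FldA

/-!
ROW FldB (project MP_78d38b_MQ). The field `Fq q` has infinite degree when the `q i` are distinct
primes.

`sqrt_mem`: if `x ∈ Kn q n` and `x ^ 2 = r` is a nonzero rational, then there is `J ⊂ {0, .., n-1}` and
a rational `c ≠ 0` with `r * ∏ i ∈ J, (q 0 * q (i + 1)) = c ^ 2`. Induction on `n`. `n = 0`: `x` is
rational (`Kn_zero`), `J = ∅`. Step: if `rt q n ∈ Kn q n` then `Kn q (n+1) = Kn q n` (`mem_Kn_succ`).
Otherwise `x = a + b r'` with `r' = rt q n`, `x² = a² + b² r'² + 2 a b r'` rational, so `a b = 0`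
(otherwise `r' ∈ Kn q n`). If `b = 0` use induction for `x = a`. If `a = 0`, `x = b r'`, so
`(b r'²)² = r * r'²`, with `b r'² ∈ Kn q n`: induction for the rational number `r * (q 0 * q (n + 1))`,
and insert `n` in `J`.

`infinite`: if `Fq q` were finite over the rationals, it would be contained in some `Kn q n`
(a finite spanning set lies in some `Kn q n`, `mem_Fq`). Then `rt q n ∈ Kn q n`, so by `sqrt_mem`
`(q 0 * q (n + 1)) * ∏ i ∈ J, (q 0 * q (i + 1)) = c ^ 2` with `J ⊂ {0, .., n-1}`; the valuation at the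
prime `q (n + 1)` of the left side is one, a contradiction (`padicValRat`).
-/

set_option autoImplicit false

open NumberField IsDedekindDomain WeierstrassCurve Pool.Agent.H10

namespace Pool.Agent.H93.MQ

variable {q : ℕ → ℕ}

theorem FldB_rat {n : ℕ} (y : ℚ) : (y : ℝ) ∈ Kn q n := by
  have h := (Kn q n).algebraMap_mem y
  rwa [eq_ratCast] at h

theorem sqrt_mem (hq : ∀ i, q i ≠ 0) (n : ℕ) : ∀ (x : ℝ) (r : ℚ), x ∈ Kn q n → r ≠ 0 →
    x ^ 2 = (r : ℝ) → ∃ (J : Finset ℕ) (c : ℚ), (∀ i ∈ J, i < n) ∧ c ≠ 0 ∧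
      r * ∏ i ∈ J, ((q 0 * q (i + 1) : ℕ) : ℚ) = c ^ 2 := by
  induction n with
  | zero =>
    intro x r hx hr hxr
    rw [Kn_zero, IntermediateField.mem_bot] at hx
    obtain ⟨y, rfl⟩ := hx
    rw [eq_ratCast] at hxr
    have h1 : y ^ 2 = r := by exact_mod_cast hxr
    refine ⟨∅, y, fun i hi => absurd hi (Finset.notMem_empty i), ?_, ?_⟩
    · rintro rfl
      apply hr
      rw [← h1]
      norm_num
    · rw [Finset.prod_empty, mul_one, h1]
  | succ n ih =>
    intro x r hx hr hxr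
    obtain ⟨a, ha, b, hb, hab⟩ := mem_Kn_succ.1 hx
    have lift : x ∈ Kn q n → ∃ (J : Finset ℕ) (c : ℚ), (∀ i ∈ J, i < n + 1) ∧ c ≠ 0 ∧
        r * ∏ i ∈ J, ((q 0 * q (i + 1) : ℕ) : ℚ) = c ^ 2 := by
      intro hx'
      obtain ⟨J, c, h1, h2, h3⟩ := ih x r hx' hr hxr
      exact ⟨J, c, fun i hi => (h1 i hi).trans (Nat.lt_succ_self n), h2, h3⟩
    by_cases hrt : rt q n ∈ Kn q n
    · apply lift
      rw [hab]
      exact add_mem ha (mul_mem hb hrt)
    have hsq := rt_sq q n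
    have hR : (((q 0 * q (n + 1) : ℕ) : ℝ)) ∈ Kn q n := by
      have := FldB_rat (q := q) (n := n) ((q 0 * q (n + 1) : ℕ) : ℚ)
      rwa [Rat.cast_natCast] at this
    have h0 : a * b = 0 := by
      by_contra hne
      apply hrt
      have h1 : rt q n = ((r : ℝ) - a ^ 2 - b ^ 2 * ((q 0 * q (n + 1) : ℕ) : ℝ)) / (2 * (a * b)) := by
        rw [eq_div_iff (mul_ne_zero two_ne_zero hne), ← hxr, hab, ← hsq]
        ring
      rw [h1]
      refine div_mem (sub_mem (sub_mem (FldB_rat r) (pow_mem ha 2)) (mul_mem (pow_mem hb 2) hR)) ?_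
      refine mul_mem ?_ (mul_mem ha hb)
      have := FldB_rat (q := q) (n := n) 2
      exact_mod_cast this
    rcases mul_eq_zero.1 h0 with h1 | h1
    · -- x = b * rt
      rw [h1, zero_add] at hab
      have hRne : ((q 0 * q (n + 1) : ℕ) : ℚ) ≠ 0 := by
        exact_mod_cast mul_ne_zero (hq 0) (hq (n + 1))
      obtain ⟨J, c, h2, h3, h4⟩ := ih (b * ((q 0 * q (n + 1) : ℕ) : ℝ))
        (r * ((q 0 * q (n + 1) : ℕ) : ℚ)) (mul_mem hb hR) (mul_ne_zero hr hRne) (by
          rw [Rat.cast_mul, Rat.cast_natCast, ← hxr, hab, mul_pow, mul_pow, hsq]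
          ring)
      have hn : n ∉ J := fun h => absurd (h2 n h) (lt_irrefl n)
      refine ⟨insert n J, c, ?_, h3, ?_⟩
      · intro i hi
        rcases Finset.mem_insert.1 hi with rfl | hi
        · exact Nat.lt_succ_self _
        · exact (h2 i hi).trans (Nat.lt_succ_self n)
      · rw [Finset.prod_insert hn, ← mul_assoc]
        exact h4
    · apply lift
      rw [hab, h1, zero_mul, add_zero]
      exact ha

theorem FldB_chain {N : Type*} [Fintype N] (v : N → ℝ) (h : ∀ i, v i ∈ Fq q) :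
    ∃ n, ∀ i, v i ∈ Kn q n := by
  classical
  choose n hn using fun i => mem_Fq.1 (h i)
  refine ⟨∑ i, n i, fun i => Kn_mono ?_ (hn i)⟩
  exact Finset.single_le_sum (f := n) (fun _ _ => Nat.zero_le _) (Finset.mem_univ i)

theorem Fq_infinite (hq : ∀ i, (q i).Prime) (hinj : Function.Injective q) :
    ¬ FiniteDimensional ℚ (Fq q) := by
  intro hfin
  have hb := Module.finBasis ℚ (Fq q)
  obtain ⟨n, hn⟩ := FldB_chain (q := q) (fun i => (hb i : ℝ)) (fun i => (hb i).2)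
  have hrt : rt q n ∈ Fq q := Kn_le_Fq (n + 1) (rt_mem q n)
  have hrt' : rt q n ∈ Kn q n := by
    have h1 := hb.sum_repr ⟨rt q n, hrt⟩
    have h2 : rt q n = ∑ i, (hb.repr ⟨rt q n, hrt⟩ i) • (hb i : ℝ) := by
      have h3 := congrArg (Subtype.val) h1
      rw [AddSubmonoidClass.coe_finsetSum] at h3
      exact h3.symm
    rw [h2]
    refine sum_mem fun i _ => ?_
    rw [Algebra.smul_def]
    exact mul_mem ((Kn q n).algebraMap_mem _) (hn i)
  have hq0 : ∀ i, q i ≠ 0 := fun i => (hq i).ne_zero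
  obtain ⟨J, c, h1, h2, h3⟩ := sqrt_mem hq0 n (rt q n) ((q 0 * q (n + 1) : ℕ) : ℚ) hrt'
    (by exact_mod_cast mul_ne_zero (hq0 0) (hq0 (n + 1))) (by
      rw [Rat.cast_natCast]
      exact rt_sq q n)
  have h4 : IsSquare (((q 0 * q (n + 1)) * ∏ i ∈ J, (q 0 * q (i + 1)) : ℕ) : ℚ) := by
    refine ⟨c, ?_⟩
    rw [← sq, ← h3]
    push_cast
    ring
  rw [Rat.isSquare_natCast_iff] at h4
  obtain ⟨k, hk⟩ := h4
  have hp := hq (n + 1)
  have hpk : q (n + 1) ∣ k := by
    have : q (n + 1) ∣ k * k := by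
      rw [← hk]
      exact Dvd.dvd.mul_right (Dvd.intro_left _ rfl) _
    rcases (Nat.Prime.dvd_mul hp).1 this with h | h <;> exact h
  obtain ⟨l, rfl⟩ := hpk
  have hne : ∀ i, i ≠ n + 1 → ¬ q (n + 1) ∣ q i := by
    intro i hi hdvd
    exact hi (hinj ((Nat.prime_dvd_prime_iff_eq hp (hq i)).1 hdvd)).symm
  have h5 : q 0 * ∏ i ∈ J, (q 0 * q (i + 1)) = q (n + 1) * (l * l) := by
    have h6 : q (n + 1) * (q 0 * ∏ i ∈ J, (q 0 * q (i + 1))) =
        q (n + 1) * (q (n + 1) * (l * l)) := by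
      calc q (n + 1) * (q 0 * ∏ i ∈ J, (q 0 * q (i + 1)))
          = (q 0 * q (n + 1)) * ∏ i ∈ J, (q 0 * q (i + 1)) := by ring
        _ = (q (n + 1) * l) * (q (n + 1) * l) := hk
        _ = q (n + 1) * (q (n + 1) * (l * l)) := by ring
    exact Nat.eq_of_mul_eq_mul_left hp.pos h6
  have h6 : q (n + 1) ∣ q 0 * ∏ i ∈ J, (q 0 * q (i + 1)) := ⟨_, h5⟩
  rcases (Nat.Prime.dvd_mul hp).1 h6 with h | h
  · exact hne 0 (by omega) h
  · obtain ⟨i, hi, hdvd⟩ := (Prime.dvd_finsetProd_iff hp.prime _).1 h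
    rcases (Nat.Prime.dvd_mul hp).1 hdvd with h | h
    · exact hne 0 (by omega) h
    · have := h1 i hi
      exact hne (i + 1) (by omega) h

end Pool.Agent.H93.MQ
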