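import Pool.Agent.H93.MQ.ClC
import Pool.Agent.H93.MQ.LocS

/-!
ROW Dir (project MP_78d38b_MQ). Dirichlet's theorem with prescribed residue symbols.

`exists_prime_in_class`: let `N ≠ 0`, `r` prime to `N`, and `T` a finite set of odd primes not dividing
`N`. For every `s : ℕ → ZMod 2` and `C` there is a prime `q > C`, `q = r` mod `N`, with
`chi p q = s p` for all `p ∈ T`. Proof: Chinese remainder theorem for `N` and the `p ∈ T`
(nonzero square or non-square modulo `p` according to `s p`), then Dirichlet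
(`Nat.forall_exists_prime_gt_and_eq_mod` or `Nat.infinite_setOf_prime_and_eq_mod`), `q > C` and
`q` larger than all elements of `T`, so that `q ≠ p` and `chi_eq_zero_iff` applies.

`sq_prod`: let `S` be a finite set of primes, `d` an integer with `d = c ^ 2` mod `modS S` with `c`
prime to `modS S`. Then `d` is a square in `ℚ_[p]` for all `p ∈ S`: `8 * p` divides `modS S`, use
`loc_sq`.
-/

set_option autoImplicit false

open NumberField IsDedekindDomain WeierstrassCurve Pool.Agent.H10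

namespace Pool.Agent.H93.MQ

lemma Dir_z2 {a b : ZMod 2} (h : a = 0 ↔ b = 0) : a = b := by
  revert a b
  decide

lemma Dir_crt {N r : ℕ} (hN : N ≠ 0) (hr : r.Coprime N) (s : ℕ → ZMod 2) (T : Finset ℕ)
    (hT : ∀ p ∈ T, p.Prime ∧ p ≠ 2 ∧ p.Coprime N) :
    ∃ M r' : ℕ, M ≠ 0 ∧ r'.Coprime M ∧ N ∣ M ∧ r' ≡ r [MOD N] ∧
      (∀ p ∈ T, p ∣ M ∧ (IsSquare ((r' : ℕ) : ZMod p) ↔ s p = 0)) ∧
      (∀ p : ℕ, p.Prime → p.Coprime N → p ∉ T → p.Coprime M) := by
  induction T using Finset.induction_on with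
  | empty =>
    exact ⟨N, r, hN, hr, dvd_rfl, rfl, by simp, fun p _ h _ => h⟩
  | insert a T ha ih =>
    obtain ⟨M, r', hM, hr', hNM, hrr, hsq, hcop⟩ :=
      ih (fun p hp => hT p (Finset.mem_insert_of_mem hp))
    obtain ⟨hap, ha2, haN⟩ := hT a (Finset.mem_insert_self a T)
    have haM : a.Coprime M := hcop a hap haN ha
    have : Fact a.Prime := ⟨hap⟩
    -- a nonzero residue
    have ht : ∃ t : ZMod a, t ≠ 0 ∧ (IsSquare t ↔ s a = 0) := by
      by_cases h0 : s a = 0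
      · exact ⟨1, one_ne_zero, by simp [h0]⟩
      · obtain ⟨t, ht⟩ := FiniteField.exists_nonsquare (F := ZMod a)
          (by rw [ZMod.ringChar_zmod_n]; exact ha2)
        refine ⟨t, ?_, ?_⟩
        · rintro rfl
          exact ht (IsSquare.zero)
        · constructor
          · intro h; exact absurd h ht
          · intro h; exact absurd h h0
    obtain ⟨t, ht0, ht⟩ := ht
    obtain ⟨k, hk1, hk2⟩ := Nat.chineseRemainder haM.symm r' t.val
    have hkt : (k : ZMod a) = t := by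
      have := (ZMod.natCast_eq_natCast_iff _ _ _).2 hk2
      rw [this, ZMod.natCast_zmod_val]
    have hkM : k.Coprime M := by
      unfold Nat.Coprime
      rw [Nat.ModEq.gcd_eq hk1]
      exact hr'
    have hka : k.Coprime a := by
      rw [Nat.coprime_comm, hap.coprime_iff_not_dvd]
      intro hd
      apply ht0
      rw [← hkt]
      exact (ZMod.natCast_eq_zero_iff _ _).2 hd
    refine ⟨M * a, k, mul_ne_zero hM hap.ne_zero, Nat.Coprime.mul_right hkM hka,
      hNM.mul_right a, (hk1.of_dvd hNM).trans hrr, ?_, ?_⟩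
    · intro p hp
      rcases Finset.mem_insert.1 hp with rfl | hp
      · refine ⟨Dvd.intro_left M rfl, ?_⟩
        rw [hkt]
        exact ht
      · obtain ⟨h1, h2⟩ := hsq p hp
        refine ⟨h1.mul_right a, ?_⟩
        have h3 : ((k : ℕ) : ZMod p) = ((r' : ℕ) : ZMod p) :=
          (ZMod.natCast_eq_natCast_iff _ _ _).2 (hk1.of_dvd h1)
        rw [h3]
        exact h2
    · intro p hp hpN hpT
      rw [Finset.mem_insert, not_or] at hpT
      refine Nat.Coprime.mul_right (hcop p hp hpN hpT.2) ?_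
      exact (Nat.coprime_primes hp hap).2 hpT.1

theorem exists_prime_in_class {N r : ℕ} (hN : N ≠ 0) (hr : r.Coprime N) (T : Finset ℕ)
    (hT : ∀ p ∈ T, p.Prime ∧ p ≠ 2 ∧ p.Coprime N) (s : ℕ → ZMod 2) (C : ℕ) :
    ∃ q : ℕ, q.Prime ∧ C < q ∧ q ≡ r [MOD N] ∧ ∀ p ∈ T, chi p q = s p := by
  obtain ⟨M, r', hM, hr', hNM, hrr, hsq, -⟩ := Dir_crt hN hr s T hT
  have : NeZero M := ⟨hM⟩
  obtain ⟨q, hq1, hq2, hq3⟩ := Nat.forall_exists_prime_gt_and_eq_mod
    (q := M) (a := (r' : ZMod M)) ((ZMod.isUnit_iff_coprime r' M).2 hr') (max C (T.sup id))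
  have hmod : q ≡ r' [MOD M] := (ZMod.natCast_eq_natCast_iff _ _ _).1 hq3
  refine ⟨q, hq2, lt_of_le_of_lt (le_max_left _ _) hq1, (hmod.of_dvd hNM).trans hrr, ?_⟩
  intro p hp
  obtain ⟨h1, h2⟩ := hsq p hp
  have hlt : p < q := lt_of_le_of_lt
    ((Finset.le_sup (f := id) hp).trans (le_max_right C (T.sup id))) hq1
  apply Dir_z2
  rw [chi_eq_zero_iff hq2 hlt.ne', ← h2]
  have h3 : ((q : ℤ) : ZMod p) = ((r' : ℕ) : ZMod p) := by
    rw [Int.cast_natCast]
    exact (ZMod.natCast_eq_natCast_iff _ _ _).2 (hmod.of_dvd h1)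
  rw [h3]

theorem sq_prod {S : Finset ℕ} {d c : ℤ} (hc : IsCoprime c (modS S : ℤ))
    (h : (modS S : ℤ) ∣ d - c ^ 2) {p : ℕ} [Fact p.Prime] (hp : p ∈ S) :
    IsSquare ((d : ℤ) : ℚ_[p]) := by
  have h8 : 8 * p ∣ modS S := by
    unfold modS
    exact Nat.mul_dvd_mul_left 8 (Finset.dvd_prod_of_mem (fun p => p) hp)
  have h8z : (8 * p : ℤ) ∣ (modS S : ℤ) := by exact_mod_cast h8
  have hpz : (p : ℤ) ∣ (modS S : ℤ) := dvd_trans (Dvd.intro_left 8 rfl) h8z
  refine loc_sq (c := c) ?_ (dvd_trans h8z h)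
  intro hpc
  have h1 := hc.isUnit_of_dvd' hpc hpz
  have h2 : Prime (p : ℤ) := Nat.prime_iff_prime_int.1 Fact.out
  exact h2.not_isUnit h1

end Pool.Agent.H93.MQ
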