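import Pool.Agent.H93.MQ.FldA
import Pool.Agent.H93.MQ.Dir

/-!
ROW FldC (project MP_78d38b_MQ). Embeddings into `ℚ_[p]`: if all `q 0 * q (i + 1)` are squares in
`ℚ_[p]`, then `Fq q` embeds into `ℚ_[p]`.

`Fq q` is algebraic over the rationals; let `φ : Fq q → AlgebraicClosure ℚ_[p]` be an embedding
(`IsAlgClosed.lift`, `ℚ`-algebra). Each generator `x = rt q i` satisfies
`φ x ^ 2 = q 0 * q (i + 1) = (algebraMap y) ^ 2` with `y ∈ ℚ_[p]`, so `φ x = ± y` is in the image of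
`ℚ_[p]`. The preimage of the image of `ℚ_[p]` under `φ` is an intermediate field containing the
generators (as elements of `Fq q`), hence everything; compose with the inverse on the image.
(One may also build embeddings of the `Kn q n` by induction, but the above is simpler.)

`seq_sq`: for a good sequence and `p ∈ S` the product `q 0 * q (i + 1)` is a square in `ℚ_[p]`:
`sq_prod` with `c = q 0`, since `q (i + 1) = q 0` mod `modS S`.
-/

set_option autoImplicit false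

open NumberField IsDedekindDomain WeierstrassCurve Pool.Agent.H10

namespace Pool.Agent.H93.MQ

variable {q : ℕ → ℕ}

lemma FldC_alg (q : ℕ → ℕ) : Algebra.IsAlgebraic ℚ (Fq q) := by
  unfold Fq
  apply IntermediateField.isAlgebraic_adjoin
  rintro _ ⟨i, rfl⟩
  refine ⟨Polynomial.X ^ 2 - Polynomial.C ((q 0 * q (i + 1) : ℕ) : ℚ),
    Polynomial.monic_X_pow_sub_C _ two_ne_zero, ?_⟩
  simp only [Polynomial.eval₂_sub, Polynomial.eval₂_X_pow, Polynomial.eval₂_C]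
  rw [rt_sq]
  simp

theorem exists_emb {p : ℕ} [Fact p.Prime]
    (h : ∀ i, IsSquare (((q 0 * q (i + 1) : ℕ) : ℤ) : ℚ_[p])) : Nonempty (Fq q →+* ℚ_[p]) := by
  have halg := FldC_alg q
  let φ : Fq q →ₐ[ℚ] AlgebraicClosure ℚ_[p] := IsAlgClosed.lift
  let ψ : ℚ_[p] →ₐ[ℚ] AlgebraicClosure ℚ_[p] := Algebra.algHom ℚ ℚ_[p] (AlgebraicClosure ℚ_[p])
  have hψ : ∀ y, ψ y = algebraMap ℚ_[p] (AlgebraicClosure ℚ_[p]) y := fun _ => rfl
  -- all elements have image in the image of the base field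
  have key : ∀ x : ℝ, ∀ hx : x ∈ Fq q, φ ⟨x, hx⟩ ∈ ψ.fieldRange := by
    intro x hx
    have h1 : Fq q ≤ (ψ.fieldRange.comap φ).map (Fq q).val := by
      unfold Fq
      rw [IntermediateField.adjoin_le_iff]
      rintro _ ⟨i, rfl⟩
      have hi : rt q i ∈ Fq q := IntermediateField.subset_adjoin _ _ ⟨i, rfl⟩
      refine ⟨⟨rt q i, hi⟩, ?_, rfl⟩
      change φ ⟨rt q i, hi⟩ ∈ ψ.fieldRange
      obtain ⟨y, hy⟩ := h i
      have h2 : (⟨rt q i, hi⟩ : Fq q) ^ 2 = ((q 0 * q (i + 1) : ℕ) : Fq q) := by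
        apply Subtype.ext
        push_cast
        change rt q i ^ 2 = _
        rw [rt_sq]
        push_cast
        rfl
      have h3 : φ ⟨rt q i, hi⟩ ^ 2 = ψ y ^ 2 := by
        rw [← map_pow, h2, map_natCast, ← map_pow, sq y, ← hy, map_intCast]
        push_cast
        rfl
      rcases sq_eq_sq_iff_eq_or_eq_neg.mp h3 with h4 | h4
      · exact ⟨y, h4.symm⟩
      · exact ⟨-y, by rw [map_neg, h4]; rfl⟩
    obtain ⟨y, hy, hyx⟩ := h1 hx
    have : y = ⟨x, hx⟩ := Subtype.ext hyx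
    rw [← this]
    exact hy
  have key' : ∀ x : Fq q, φ x ∈ ψ.fieldRange := fun x => key x.1 x.2
  let φ' : Fq q →ₐ[ℚ] ψ.fieldRange := φ.codRestrict ψ.fieldRange.toSubalgebra key'
  let e : ℚ_[p] ≃ₐ[ℚ] ψ.fieldRange := AlgEquiv.ofInjectiveField ψ
  exact ⟨(e.symm : ψ.fieldRange →+* ℚ_[p]).comp (φ' : Fq q →+* ψ.fieldRange)⟩

theorem seq_sq {S : Finset ℕ} {χ : ℕ → ZMod 2} (hq : GoodSeq S χ q) {p : ℕ} [Fact p.Prime]
    (hp : p ∈ S) (i : ℕ) : IsSquare (((q 0 * q (i + 1) : ℕ) : ℤ) : ℚ_[p]) := by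
  apply sq_prod (S := S) (c := (q 0 : ℤ)) _ _ hp
  · exact Nat.isCoprime_iff_coprime.mpr (hq.cop 0)
  · have h1 : ((q 0 * q (i + 1) : ℕ) : ℤ) - (q 0 : ℤ) ^ 2 =
        (q 0 : ℤ) * ((q (i + 1) : ℤ) - (q 0 : ℤ)) := by push_cast; ring
    rw [h1]
    apply dvd_mul_of_dvd_right
    exact (Nat.modEq_iff_dvd.mp (hq.cong 0 (i + 1)))

end Pool.Agent.H93.MQ
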