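import Pool.Agent.H93.MQ.SelC

/-!
ROW Four (project MP_78d38b_MQ). No rational point of order four, in terms of square classes.

If `-A = s²` and `-B = t²` (classes zero: `cl_eq_zero_iff`), then by `half_of_sq`
(Pool/Agent/H10/SelTors.lean) for the curve `cu ℚ A B` (`isCub_cu`) the point `(0, 0)` is `R + R`
(`0 - 0`, `0 - A`, `0 - B` are squares); `R` satisfies `4 • R = 0` but `2 • R = (0, 0) ≠ 0`. Similarly
for the point `(A, 0)` when `A` and `A - B` are squares, and for `(B, 0)` when `B` and `B - A` are.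
(The points are `T₁`, `T₂`, `T₃` of H10/Cub.lean.)
-/

set_option autoImplicit false

open NumberField IsDedekindDomain WeierstrassCurve Pool.Agent.H10

namespace Pool.Agent.H93.MQ

lemma Four_inst {F : Type*} [Field F] (W : WeierstrassCurve F) (i j : DecidableEq F)
    (P R : W.toAffine.Point) (h : (letI := i; P = R + R)) : (letI := j; P = R + R) := by
  have e : i = j := Subsingleton.elim i j
  subst e
  exact h

lemma Four_key {A B : ℤ} (h : NZ A B)
    (h4 : ∀ P : (cu ℚ A B).toAffine.Point, 4 • P = 0 → 2 • P = 0) {x : ℚ}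
    (hx : x = 0 ∨ x = A ∨ x = B) (h1 : IsSquare (x - 0)) (h2 : IsSquare (x - A))
    (h3 : IsSquare (x - B)) : False := by
  have hc := isCub_cu (k := ℚ) h
  have hxy : (cu ℚ A B).toAffine.Nonsingular x 0 := by
    apply hc.nonsingular
    rcases hx with rfl | rfl | rfl <;> ring
  obtain ⟨R, hR⟩ := half_of_sq hc hxy h1 h2 h3
  have hR' : Affine.Point.some x 0 hxy = R + R := Four_inst _ _ _ _ _ hR
  have hT : Affine.Point.some x 0 hxy + Affine.Point.some x 0 hxy = 0 := by
    apply Affine.Point.add_self_of_Y_eq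
    rw [hc.negY_eq, neg_zero]
  have h5 : 4 • R = 0 := by
    have : 4 • R = (R + R) + (R + R) := by abel
    rw [this, ← hR', hT]
  have h6 := h4 R h5
  rw [two_nsmul, ← hR'] at h6
  exact Affine.Point.some_ne_zero _ h6

theorem noFour_of {A B : ℤ} (h : NZ A B)
    (h4 : ∀ P : (cu ℚ A B).toAffine.Point, 4 • P = 0 → 2 • P = 0) : NoFour A B := by
  have cast : ∀ {n : ℤ}, IsSquare n → IsSquare ((n : ℤ) : ℚ) := by
    rintro n ⟨r, rfl⟩
    exact ⟨r, by push_cast; ring⟩
  have hAB : A - B ≠ 0 := sub_ne_zero.mpr h.hAB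
  have hBA : B - A ≠ 0 := sub_ne_zero.mpr h.hAB.symm
  refine ⟨?_, ?_, ?_⟩
  · rintro ⟨h1, h2⟩
    rw [cl_eq_zero_iff (neg_ne_zero.mpr h.hA)] at h1
    rw [cl_eq_zero_iff (neg_ne_zero.mpr h.hB)] at h2
    have h1' := cast h1
    have h2' := cast h2
    push_cast at h1' h2'
    exact Four_key h h4 (x := 0) (Or.inl rfl) ⟨0, by ring⟩ (by rwa [zero_sub])
      (by rwa [zero_sub])
  · rintro ⟨h1, h2⟩
    rw [cl_eq_zero_iff h.hA] at h1
    rw [cl_eq_zero_iff hAB] at h2
    have h1' := cast h1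
    have h2' := cast h2
    push_cast at h1' h2'
    exact Four_key h h4 (x := A) (Or.inr (Or.inl rfl)) (by rwa [sub_zero]) ⟨0, by ring⟩ h2'
  · rintro ⟨h1, h2⟩
    rw [cl_eq_zero_iff h.hB] at h1
    rw [cl_eq_zero_iff hBA] at h2
    have h1' := cast h1
    have h2' := cast h2
    push_cast at h1' h2'
    exact Four_key h h4 (x := B) (Or.inr (Or.inr rfl)) (by rwa [sub_zero]) h2' ⟨0, by ring⟩

end Pool.Agent.H93.MQ
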