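import Pool.Agent.H93.MQ.ClB

/-!
ROW GCh (project MP_78d38b_MQ). Existence of a good character.

Let `a = cl A`, `b = cl B`, `c = cl (A - B)` in `V` and `e = single 0 1` (the class of `-1`,
`cl_neg_one`; `cl (-A) = a + e`). For a linear form `χ` write `α = χ a`, `β = χ b`, `γ = χ c`,
`ε = χ e`. Then (`tor_apply`, `cl_mul`) `χ (tor A B u) = (u₁ α + u₂ (α + β), u₁ (α + γ) + u₂ (α + ε))`.
* If `ε = 0` and at least two of `α, β, γ` are `1`, then `GoodChi` holds: the determinant is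
  `α² + (α + β)(α + γ) = α β + α γ + β γ = 1` (check all cases by `decide`), and `fix` is vacuous.
* If `ε = 1` and `(α, β, γ) = (0,1,1)` or `(1,0,0)`, then `GoodChi` holds (`decide` over all `u`).

Existence. Let `F = {0, e}`. The conditions `NoFour A B`, `NoFour (-A) (-B)` say:
not (`a = e` and `b = e`), not (`a = 0` and `c = 0`), not (`b = 0` and `c = e`), and
not (`a = 0` and `b = 0`), not (`a = e` and `c = e`), not (`b = e` and `c = 0`)
(`cl (-A) = 0` iff `a = e`, `cl (B - A) = 0` iff `c = e`; for the pair `(-A, -B)`: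
`cl (-(-A)) = a`, `cl (-A - -B) = cl (-(A - B)) = c + e`, `cl (-B - -A) = c`).
Case I: at least two of `a, b, c` are not in `F`, say `x, y ∉ F`. Choose `χ` with `χ e = 0`, `χ x = 1`,
`χ y = 1`: it suffices that `x` is not in the span `{0, e, x + y, x + y + e}` of `e` and `x + y`; then
`Submodule.exists_dual_map_eq_bot_of_notMem` (or a similar lemma) gives `χ` vanishing on that span
with `χ x ≠ 0`. Indeed `x ≠ 0, e`, and `x = x + y` or `x = x + y + e` would give `y ∈ F`.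
Case II: at least two of `a, b, c` are in `F`.
 - `a, b ∈ F`: by the conditions `(a, b) = (0, e)` or `(e, 0)`. If `(0, e)`: `c ≠ 0` by the second
   condition, and `c ≠ e` by sign: the sign coordinate `a 0 = 0`, `b 0 = 1` means `A > 0 > B`, so
   `A - B > 0`, `c 0 = 0` (`cl_apply_zero`), while `e 0 = 1`. So `c ∉ F`; choose `χ` with
   `χ e = 1`, `χ c = 1` (possible: `c ∉ span{e + c}`..., that is find `χ` vanishing on `e + c`
   with `χ e = 1`): `(α, β, γ) = (0, 1, 1)`. If `(e, 0)`: `A < 0 < B`, `A - B < 0`, `c 0 = 1`, so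
   `c ≠ 0`; and `c ≠ e` by the fifth condition; choose `χ` with `χ e = 1`, `χ c = 0`:
   `(α, β, γ) = (1, 0, 0)`.
 - `a, c ∈ F`, `b ∉ F`: then `(a, c) = (0, e)` or `(e, 0)` (second and fifth conditions). If
   `(0, e)`: choose `χ e = 1`, `χ b = 1`: `(0,1,1)`. If `(e, 0)`: `χ e = 1`, `χ b = 0`: `(1,0,0)`.
 - `b, c ∈ F`, `a ∉ F`: `(b, c) = (0, 0)` or `(e, e)` (third and sixth conditions). If `(0,0)`:
   `χ e = 1`, `χ a = 1`: `(1, 0, 0)`. If `(e, e)`: `χ e = 1`, `χ a = 0`: `(0, 1, 1)`.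
In each case a form with two prescribed values on `e` and on `x ∉ F` exists since `e, x` are
linearly independent. Finally pass from `χ` to a function `ℕ → ZMod 2` by `exists_ev`; note
`ev f (single 0 1) = f 0` (`ev_single`).
-/

set_option autoImplicit false

open NumberField IsDedekindDomain WeierstrassCurve Pool.Agent.H10

namespace Pool.Agent.H93.MQ

theorem GCh_two (w : V) : w + w = 0 := by
  ext i
  rw [Finsupp.add_apply]
  exact CharTwo.add_self_eq_zero _

theorem GCh_eq {x y : V} (h : x + y = 0) : x = y := by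
  have h1 : x + (y + y) = y := by rw [← add_assoc, h, zero_add]
  rwa [GCh_two, add_zero] at h1

theorem GCh_z (a : ZMod 2) : a = 0 ∨ a = 1 := by
  revert a
  decide

theorem GCh_form {W : Submodule (ZMod 2) V} {x : V} (hx : x ∉ W) :
    ∃ f : V →ₗ[ZMod 2] ZMod 2, f x = 1 ∧ ∀ w ∈ W, f w = 0 := by
  obtain ⟨f, h1, h2⟩ := Submodule.exists_le_ker_of_notMem hx
  refine ⟨f, (GCh_z (f x)).resolve_left h1, fun w hw => ?_⟩
  exact LinearMap.mem_ker.1 (h2 hw)

theorem GCh_E2 {e x y : V} (hx0 : x ≠ 0) (hxe : x ≠ e) (hy0 : y ≠ 0) (hye : y ≠ e) :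
    ∃ f : V →ₗ[ZMod 2] ZMod 2, f e = 0 ∧ f x = 1 ∧ f y = 1 := by
  have hx : x ∉ Submodule.span (ZMod 2) ({e, x + y} : Set V) := by
    rw [Submodule.mem_span_pair]
    rintro ⟨s, t, h⟩
    rcases GCh_z s with rfl | rfl <;> rcases GCh_z t with rfl | rfl
    · simp only [zero_smul, add_zero] at h
      exact hx0 h.symm
    · simp only [zero_smul, one_smul, zero_add] at h
      exact hy0 (add_eq_left.1 h)
    · simp only [zero_smul, one_smul, add_zero] at h
      exact hxe h.symm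
    · simp only [one_smul] at h
      have h1 : x + (e + y) = x := by rw [← add_assoc, add_comm x e, add_assoc]; exact h
      have h2 := add_eq_left.1 h1
      exact hye (GCh_eq h2).symm
  obtain ⟨f, f1, f2⟩ := GCh_form hx
  have f3 := f2 e (Submodule.subset_span (by simp))
  have f4 := f2 (x + y) (Submodule.subset_span (by simp))
  refine ⟨f, f3, f1, ?_⟩
  rw [map_add, f1] at f4
  rcases GCh_z (f y) with h | h
  · rw [h, add_zero] at f4
    exact absurd f4 one_ne_zero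
  · exact h

theorem GCh_E1 {e x : V} (he : e ≠ 0) (hx0 : x ≠ 0) (hxe : x ≠ e) (t : ZMod 2) :
    ∃ f : V →ₗ[ZMod 2] ZMod 2, f e = 1 ∧ f x = t := by
  rcases GCh_z t with rfl | rfl
  · have h : e ∉ Submodule.span (ZMod 2) ({x} : Set V) := by
      rw [Submodule.mem_span_singleton]
      rintro ⟨s, h⟩
      rcases GCh_z s with rfl | rfl
      · rw [zero_smul] at h
        exact he h.symm
      · rw [one_smul] at h
        exact hxe h
    obtain ⟨f, f1, f2⟩ := GCh_form h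
    exact ⟨f, f1, f2 x (Submodule.subset_span (by simp))⟩
  · have h : e ∉ Submodule.span (ZMod 2) ({e + x} : Set V) := by
      rw [Submodule.mem_span_singleton]
      rintro ⟨s, h⟩
      rcases GCh_z s with rfl | rfl
      · rw [zero_smul] at h
        exact he h.symm
      · rw [one_smul] at h
        exact hx0 (add_eq_left.1 h)
    obtain ⟨f, f1, f2⟩ := GCh_form h
    have f4 := f2 (e + x) (Submodule.subset_span (by simp))
    refine ⟨f, f1, ?_⟩
    rw [map_add, f1] at f4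
    rcases GCh_z (f x) with h | h
    · rw [h, add_zero] at f4
      exact absurd f4 one_ne_zero
    · exact h

theorem GCh_alg1 : ∀ α β γ u v : ZMod 2, ((α = 1 ∧ β = 1) ∨ (α = 1 ∧ γ = 1) ∨ (β = 1 ∧ γ = 1)) →
    u * α + v * (α + β) = 0 → u * (α + γ) + v * (α + 0) = 0 → u = 0 ∧ v = 0 := by
  decide

theorem GCh_alg2 : ∀ α β γ u v : ZMod 2, ((α = 0 ∧ β = 1 ∧ γ = 1) ∨ (α = 1 ∧ β = 0 ∧ γ = 0)) →
    u * α + v * (α + β) = 0 → u * (α + γ) + v * (α + 1) = 0 → u = 0 ∧ v = 0 := by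
  decide

theorem GCh_alg3 : ∀ α β γ u v : ZMod 2, ((α = 0 ∧ β = 1 ∧ γ = 1) ∨ (α = 1 ∧ β = 0 ∧ γ = 0)) →
    u * α + v * (α + β) = u → u * (α + γ) + v * (α + 1) = v → u = 0 ∧ v = 0 := by
  decide

theorem GCh_val {A B : ℤ} (h : NZ A B) (χ : ℕ → ZMod 2) (u : ZMod 2 × ZMod 2) :
    ev2 χ (tor A B u) =
      (u.1 * ev χ (cl A) + u.2 * (ev χ (cl A) + ev χ (cl B)),
        u.1 * (ev χ (cl A) + ev χ (cl (A - B))) + u.2 * (ev χ (cl A) + χ 0)) := by
  have hA := h.hA
  have hAB : A - B ≠ 0 := sub_ne_zero.2 h.hAB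
  have e1 : cl (A * B) = cl A + cl B := cl_mul hA h.hB
  have e2 : cl (A * (A - B)) = cl A + cl (A - B) := cl_mul hA hAB
  have e3 : cl (-A) = Finsupp.single 0 1 + cl A := by
    rw [← cl_neg_one, ← cl_mul (by norm_num) hA, neg_one_mul]
  rw [ev2_apply, tor_apply, e1, e2, e3]
  simp only [map_add, map_smul, smul_eq_mul, ev_single, one_mul]
  rw [add_comm (χ 0)]

theorem GCh_good1 {A B : ℤ} (h : NZ A B) (f : V →ₗ[ZMod 2] ZMod 2)
    (h0 : f (Finsupp.single 0 1) = 0)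
    (h1 : (f (cl A) = 1 ∧ f (cl B) = 1) ∨ (f (cl A) = 1 ∧ f (cl (A - B)) = 1) ∨
      (f (cl B) = 1 ∧ f (cl (A - B)) = 1)) :
    ∃ χ : ℕ → ZMod 2, GoodChi A B χ := by
  obtain ⟨χ, rfl⟩ := exists_ev f
  rw [ev_single, one_mul] at h0
  refine ⟨χ, ⟨?_, ?_⟩⟩
  · intro u hu
    rw [GCh_val h, h0] at hu
    have h2 := GCh_alg1 _ _ _ u.1 u.2 h1 (congrArg Prod.fst hu) (congrArg Prod.snd hu)
    exact Prod.ext h2.1 h2.2
  · intro h2
    rw [h0] at h2
    exact absurd h2.symm one_ne_zero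

theorem GCh_good2 {A B : ℤ} (h : NZ A B) (f : V →ₗ[ZMod 2] ZMod 2)
    (h0 : f (Finsupp.single 0 1) = 1)
    (h1 : (f (cl A) = 0 ∧ f (cl B) = 1 ∧ f (cl (A - B)) = 1) ∨
      (f (cl A) = 1 ∧ f (cl B) = 0 ∧ f (cl (A - B)) = 0)) :
    ∃ χ : ℕ → ZMod 2, GoodChi A B χ := by
  obtain ⟨χ, rfl⟩ := exists_ev f
  rw [ev_single, one_mul] at h0
  refine ⟨χ, ⟨?_, ?_⟩⟩
  · intro u hu
    rw [GCh_val h, h0] at hu
    have h2 := GCh_alg2 _ _ _ u.1 u.2 h1 (congrArg Prod.fst hu) (congrArg Prod.snd hu)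
    exact Prod.ext h2.1 h2.2
  · intro _ u hu
    rw [GCh_val h, h0] at hu
    have h2 := GCh_alg3 _ _ _ u.1 u.2 h1 (congrArg Prod.fst hu) (congrArg Prod.snd hu)
    exact Prod.ext h2.1 h2.2

theorem exists_goodChi {A B : ℤ} (h : NZ A B) (h1 : NoFour A B) (h2 : NoFour (-A) (-B)) :
    ∃ χ : ℕ → ZMod 2, GoodChi A B χ := by
  have hA := h.hA
  have hB := h.hB
  have hAB : A - B ≠ 0 := sub_ne_zero.2 h.hAB
  have ce : (Finsupp.single 0 1 : V) ≠ 0 := by
    intro h0
    have := DFunLike.congr_fun h0 0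
    simp at this
  have neg : ∀ n : ℤ, n ≠ 0 → cl (-n) = Finsupp.single 0 1 + cl n := by
    intro n hn
    rw [← cl_neg_one, ← cl_mul (by norm_num) hn, neg_one_mul]
  have neg0 : ∀ n : ℤ, n ≠ 0 → cl n = Finsupp.single 0 1 → cl (-n) = 0 := by
    intro n hn h0
    rw [neg n hn, h0, GCh_two]
  -- the excluded pairs
  have x1 : ¬ (cl A = Finsupp.single 0 1 ∧ cl B = Finsupp.single 0 1) :=
    fun h0 => h1.h1 ⟨neg0 A hA h0.1, neg0 B hB h0.2⟩
  have x2 : ¬ (cl A = 0 ∧ cl (A - B) = 0) := h1.h2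
  have x3 : ¬ (cl B = 0 ∧ cl (A - B) = Finsupp.single 0 1) := by
    intro h0
    refine h1.h3 ⟨h0.1, ?_⟩
    have h3 := neg0 _ hAB h0.2
    rwa [neg_sub] at h3
  have y1 : ¬ (cl A = 0 ∧ cl B = 0) := by
    have h3 := h2.h1
    rwa [neg_neg, neg_neg] at h3
  have y2 : ¬ (cl A = Finsupp.single 0 1 ∧ cl (A - B) = Finsupp.single 0 1) := by
    intro h0
    refine h2.h2 ⟨neg0 A hA h0.1, ?_⟩
    have h3 := neg0 _ hAB h0.2
    have e : -A - -B = -(A - B) := by ring
    rw [e]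
    exact h3
  have y3 : ¬ (cl B = Finsupp.single 0 1 ∧ cl (A - B) = 0) := by
    intro h0
    refine h2.h3 ⟨neg0 B hB h0.1, ?_⟩
    have e : -B - -A = A - B := by ring
    rw [e]
    exact h0.2
  -- signs
  have s0 : ∀ n : ℤ, n ≠ 0 → cl n = 0 → 0 < n := by
    intro n hn h0
    have h3 := cl_apply_zero hn
    rw [h0, Finsupp.zero_apply] at h3
    by_contra h4
    rw [if_pos (lt_of_le_of_ne (not_lt.1 h4) hn)] at h3
    exact absurd h3.symm one_ne_zero
  have s1 : ∀ n : ℤ, n ≠ 0 → cl n = Finsupp.single 0 1 → n < 0 := by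
    intro n hn h0
    have h3 := cl_apply_zero hn
    rw [h0, Finsupp.single_eq_same] at h3
    by_contra h4
    rw [if_neg h4] at h3
    exact absurd h3 one_ne_zero
  by_cases ha : cl A = 0 ∨ cl A = Finsupp.single 0 1
  · by_cases hb : cl B = 0 ∨ cl B = Finsupp.single 0 1
    · rcases ha with ha | ha <;> rcases hb with hb | hb
      · exact absurd ⟨ha, hb⟩ y1
      · have c0 : cl (A - B) ≠ 0 := fun h3 => x2 ⟨ha, h3⟩
        have c1 : cl (A - B) ≠ Finsupp.single 0 1 := by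
          intro h3
          have := s0 A hA ha
          have := s1 B hB hb
          have := s1 _ hAB h3
          omega
        obtain ⟨f, f1, f2⟩ := GCh_E1 ce c0 c1 1
        exact GCh_good2 h f f1 (Or.inl ⟨by rw [ha, map_zero], by rw [hb, f1], f2⟩)
      · have c0 : cl (A - B) ≠ 0 := by
          intro h3
          have := s1 A hA ha
          have := s0 B hB hb
          have := s0 _ hAB h3
          omega
        have c1 : cl (A - B) ≠ Finsupp.single 0 1 := fun h3 => y2 ⟨ha, h3⟩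
        obtain ⟨f, f1, f2⟩ := GCh_E1 ce c0 c1 0
        exact GCh_good2 h f f1 (Or.inr ⟨by rw [ha, f1], by rw [hb, map_zero], f2⟩)
      · exact absurd ⟨ha, hb⟩ x1
    · rw [not_or] at hb
      by_cases hc : cl (A - B) = 0 ∨ cl (A - B) = Finsupp.single 0 1
      · rcases ha with ha | ha <;> rcases hc with hc | hc
        · exact absurd ⟨ha, hc⟩ x2
        · obtain ⟨f, f1, f2⟩ := GCh_E1 ce hb.1 hb.2 1
          exact GCh_good2 h f f1 (Or.inl ⟨by rw [ha, map_zero], f2, by rw [hc, f1]⟩)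
        · obtain ⟨f, f1, f2⟩ := GCh_E1 ce hb.1 hb.2 0
          exact GCh_good2 h f f1 (Or.inr ⟨by rw [ha, f1], f2, by rw [hc, map_zero]⟩)
        · exact absurd ⟨ha, hc⟩ y2
      · rw [not_or] at hc
        obtain ⟨f, f1, f2, f3⟩ := GCh_E2 hb.1 hb.2 hc.1 hc.2
        exact GCh_good1 h f f1 (Or.inr (Or.inr ⟨f2, f3⟩))
  · rw [not_or] at ha
    by_cases hb : cl B = 0 ∨ cl B = Finsupp.single 0 1
    · by_cases hc : cl (A - B) = 0 ∨ cl (A - B) = Finsupp.single 0 1
      · rcases hb with hb | hb <;> rcases hc with hc | hc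
        · obtain ⟨f, f1, f2⟩ := GCh_E1 ce ha.1 ha.2 1
          exact GCh_good2 h f f1 (Or.inr ⟨f2, by rw [hb, map_zero], by rw [hc, map_zero]⟩)
        · exact absurd ⟨hb, hc⟩ x3
        · exact absurd ⟨hb, hc⟩ y3
        · obtain ⟨f, f1, f2⟩ := GCh_E1 ce ha.1 ha.2 0
          exact GCh_good2 h f f1 (Or.inl ⟨f2, by rw [hb, f1], by rw [hc, f1]⟩)
      · rw [not_or] at hc
        obtain ⟨f, f1, f2, f3⟩ := GCh_E2 ha.1 ha.2 hc.1 hc.2
        exact GCh_good1 h f f1 (Or.inr (Or.inl ⟨f2, f3⟩))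
    · rw [not_or] at hb
      obtain ⟨f, f1, f2, f3⟩ := GCh_E2 ha.1 ha.2 hb.1 hb.2
      exact GCh_good1 h f f1 (Or.inl ⟨f2, f3⟩)

end Pool.Agent.H93.MQ
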