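import Pool.Agent.H93.MQ.Cls
import Pool.Agent.H93.MQ.Dir

/-!
ROW Seq (project MP_78d38b_MQ). Existence of good sequences of primes.

Let `r` be the class of `exists_class` for `χ`. Use
`exists_seq_of_forall_finset_exists` (Mathlib) for the predicate
`P q : q.Prime ∧ q ≡ r [MOD modS S]` and the relation `R x y : x < y ∧ chi y x = 0`:
given a finite set `T` of primes in the class, choose by `exists_prime_in_class` a prime `y` in the
class, larger than all elements of `T`, with `chi x y = χ 0` for all `x ∈ T` (the elements of `T` are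
odd and prime to `modS S`, since `r` is). By `chi_recip`,
`chi y x = chi x y + chi x 0 * chi y 0 = χ 0 + χ 0 * χ 0 = 0`.
-/

set_option autoImplicit false

open NumberField IsDedekindDomain WeierstrassCurve Pool.Agent.H10

namespace Pool.Agent.H93.MQ

theorem exists_seq {S : Finset ℕ} (hS : ∀ p ∈ S, p.Prime) (h2 : 2 ∈ S) (χ : ℕ → ZMod 2) :
    ∃ q : ℕ → ℕ, GoodSeq S χ q := by
  obtain ⟨r, hr, hcl⟩ := exists_class hS h2 χ
  have hN : modS S ≠ 0 := by
    unfold modS
    apply mul_ne_zero (by norm_num)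
    rw [Finset.prod_ne_zero_iff]
    exact fun p hp => (hS p hp).ne_zero
  have hN2 : 2 ∣ modS S := by
    unfold modS
    exact dvd_mul_of_dvd_left (by norm_num) _
  -- members of the class
  have hcop : ∀ {q : ℕ}, q ≡ r [MOD modS S] → q.Coprime (modS S) := by
    intro q hq
    unfold Nat.Coprime
    rw [hq.gcd_eq]
    exact hr
  have hne2 : ∀ {q : ℕ}, q ≡ r [MOD modS S] → q ≠ 2 := by
    rintro q hq rfl
    have h1 := hcop hq
    have h3 := Nat.dvd_gcd (dvd_refl 2) hN2
    rw [Nat.Coprime] at h1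
    rw [h1] at h3
    omega
  obtain ⟨f, hf, hf'⟩ := exists_seq_of_forall_finset_exists
    (fun q : ℕ => q.Prime ∧ q ≡ r [MOD modS S]) (fun x y : ℕ => x < y ∧ chi y x = 0) (by
      intro T hT
      obtain ⟨q, hq, hlt, hqr, hs⟩ := exists_prime_in_class hN hr T (fun p hp =>
        ⟨(hT p hp).1, hne2 (hT p hp).2, hcop (hT p hp).2⟩) (fun _ => χ 0) (∑ x ∈ T, x)
      refine ⟨q, ⟨hq, hqr⟩, fun x hx => ?_⟩
      have hxq : x < q := lt_of_le_of_lt (Finset.single_le_sum (f := fun x => x)
        (fun _ _ => Nat.zero_le _) hx) hlt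
      refine ⟨hxq, ?_⟩
      have h1 := chi_recip (hT x hx).1 hq (hne2 (hT x hx).2) (hne2 hqr) hxq.ne
      rw [hs x hx, (hcl x (hT x hx).1 (hT x hx).2).2 0 (Or.inl rfl),
        (hcl q hq hqr).2 0 (Or.inl rfl)] at h1
      revert h1
      generalize χ 0 = a
      generalize chi q x = b
      revert a b
      decide)
  refine ⟨f, ⟨strictMono_nat_of_lt_succ fun n => (hf' n (n + 1) (Nat.lt_succ_self n)).1,
    fun i => (hf i).1, fun i => (hcl _ (hf i).1 (hf i).2).1, fun i => hne2 (hf i).2,
    fun i j => (hf i).2.trans (hf j).2.symm, fun i => hcop (hf i).2,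
    fun i j hj => (hcl _ (hf i).1 (hf i).2).2 j hj, fun i j hij => (hf' i j hij).2⟩⟩

end Pool.Agent.H93.MQ
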