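import Pool.Agent.H93.MQ.Ind
import Pool.Agent.H93.MQ.EvB
import Pool.Agent.H93.MQ.Chain
import Pool.Agent.H93.MQ.FldB
import Pool.Agent.H93.MQ.FldC
import Pool.Agent.H93.MQ.FinF
import Pool.Agent.H93.MQ.Enl
import Pool.Agent.H93.MQ.GCh
import Pool.Agent.H93.MQ.Seq
import Pool.Agent.H93.MQ.Four

/-!
Assembly of the multiquadratic theorem.
-/

set_option autoImplicit false
set_option linter.style.haveILetI false
open scoped Classical

open NumberField IsDedekindDomain WeierstrassCurve Pool.Agent.H10 Pool.Agent.H11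

namespace Pool.Agent.H93.MQ

/-- A real field of infinite degree over the rationals, generated by square roots of rational
numbers, which embeds into `ℚ_[p]` for every prime `p` in `P` (all these primes split
completely). -/
structure MultiQuad (P : Finset ℕ) (F : IntermediateField ℚ ℝ) : Prop where
  infinite : ¬ FiniteDimensional ℚ F
  gen : F = IntermediateField.adjoin ℚ {x : ℝ | x ∈ F ∧ ∃ r : ℚ, x ^ 2 = r}
  split : ∀ (p : ℕ) [Fact p.Prime], p ∈ P → Nonempty (F →+* ℚ_[p])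

/-- There is an infinite multiquadratic field over which `y^2 = x (x - A) (x - B)` has only finitely
many points, and such that over all number fields inside it the two-primary part of the
Tate-Shafarevich group is finite. -/
def Controlled (A B : ℤ) (P : Finset ℕ) : Prop :=
  ∃ F : IntermediateField ℚ ℝ, MultiQuad P F ∧ Finite (cu F A B).toAffine.Point ∧
    ∀ (K : Type) [Field K] [NumberField K], Nonempty (K →+* F) →
      {x : Sha K (cu K A B) | ∃ m : ℕ, 2 ^ m • x = 0}.Finite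

/-- The group law does not depend on the decidability instance. -/
lemma nsmul_inst {F : Type*} [Field F] (W : WeierstrassCurve F) (i j : DecidableEq F) (n : ℕ)
    (P : W.toAffine.Point) (h : (letI := i; n • P = 0)) : (letI := j; n • P = 0) := by
  have e : i = j := Subsingleton.elim i j
  subst e
  exact h

lemma exists_good_prime (A B : ℤ) (h : NZ A B) (C : ℕ) :
    ∃ l : ℕ, l.Prime ∧ C < l ∧ ¬ (l : ℤ) ∣ 2 * A * B * (A - B) := by
  have hn : 2 * A * B * (A - B) ≠ 0 :=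
    mul_ne_zero (mul_ne_zero (mul_ne_zero two_ne_zero h.hA) h.hB) (sub_ne_zero.mpr h.hAB)
  obtain ⟨l, hl, hp⟩ := Nat.exists_infinite_primes (C + (2 * A * B * (A - B)).natAbs + 1)
  refine ⟨l, hp, by omega, fun hd => ?_⟩
  have h1 := Int.le_of_dvd (b := ((2 * A * B * (A - B)).natAbs : ℤ))
    (by exact_mod_cast Int.natAbs_pos.mpr hn) (Int.dvd_natAbs.mpr hd)
  omega

theorem controlled_of {S : Finset ℕ} {A B : ℤ} (h : Adm S A B)
    (hS : Sel S A B ≤ LinearMap.range (tor A B)) (h1 : NoFour A B) (h2 : NoFour (-A) (-B))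
    (P : Finset ℕ) : Controlled A B P := by
  obtain ⟨l, hl, -, hl'⟩ := exists_good_prime A B h.nz 0
  obtain ⟨l₂, hl₂, hlt, hl₂'⟩ := exists_good_prime A B h.nz l
  have : Fact l.Prime := ⟨hl⟩
  have : Fact l₂.Prime := ⟨hl₂⟩
  let S' : Finset ℕ := S ∪ (P.filter Nat.Prime ∪ {l, l₂})
  have hS' : ∀ p ∈ S', p.Prime := by
    intro p hp
    rw [Finset.mem_union, Finset.mem_union, Finset.mem_filter, Finset.mem_insert,
      Finset.mem_singleton] at hp
    rcases hp with hp | hp | hp | hp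
    · exact h.prime p hp
    · exact hp.2
    · rw [hp]; exact hl
    · rw [hp]; exact hl₂
  have hsub : S ⊆ S' := Finset.subset_union_left
  have h' : Adm S' A B := h.enlarge hsub hS'
  have hSel : Sel S' A B ≤ LinearMap.range (tor A B) := (sel_enlarge h hsub hS').trans hS
  obtain ⟨χ, hχ⟩ := exists_goodChi h.nz h1 h2
  obtain ⟨q, hq⟩ := exists_seq hS' h'.two χ
  have hq0 : ∀ i, q i ≠ 0 := fun i => (hq.prime i).ne_zero
  have H : GoodOver q A B ℚ := good_rat h' hSel hχ hq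
  have hemb : ∀ (p : ℕ) [Fact p.Prime], p ∈ S' → Nonempty (Fq q →+* ℚ_[p]) := fun p _ hp =>
    exists_emb (fun i => seq_sq hq hp i)
  obtain ⟨f⟩ := hemb l (by simp [S'])
  obtain ⟨f₂⟩ := hemb l₂ (by simp [S'])
  refine ⟨Fq q, ⟨Fq_infinite hq.prime hq.mono.injective, Fq_gen, fun p hp hpP => hemb p ?_⟩,
    finite_of_two h.nz (by omega) hl' hl₂' f f₂ (fun Q => ?_), ?_⟩
  rotate_left 1
  · obtain ⟨n, hn, hQ⟩ := tors_Fq h.nz hq0 H Q
    exact ⟨n, hn, nsmul_inst _ _ _ n Q hQ⟩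
  rotate_left 1
  · simp only [S', Finset.mem_union, Finset.mem_filter]
    exact Or.inr (Or.inl ⟨hpP, hp.out⟩)
  · rintro K _ _ ⟨φ⟩
    exact sub_finite h.nz hq0 H K φ

theorem part_one (A B : ℤ) (P : Finset ℕ) (hA : A ≠ 0) (hB : B ≠ 0) (hAB : A ≠ B)
    (hfin : Finite (cu ℚ A B).toAffine.Point)
    (hsha : ∀ x : Sha ℚ (cu ℚ A B), 2 • x = 0 → x = 0)
    (h4 : ∀ R : (cu ℚ A B).toAffine.Point, 4 • R = 0 → 2 • R = 0)
    (h4' : ∀ R : (cu ℚ (-A) (-B)).toAffine.Point, 4 • R = 0 → 2 • R = 0) :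
    Controlled A B P := by
  have hnz : NZ A B := ⟨hA, hB, hAB⟩
  have hn : A * B * (A - B) ≠ 0 := mul_ne_zero (mul_ne_zero hA hB) (sub_ne_zero.mpr hAB)
  let S : Finset ℕ := insert 2 (A * B * (A - B)).natAbs.primeFactors
  have h : Adm S A B := by
    refine ⟨?_, Finset.mem_insert_self _ _, hnz, ?_⟩
    · intro p hp
      rw [Finset.mem_insert] at hp
      rcases hp with rfl | hp
      · exact Nat.prime_two
      · exact Nat.prime_of_mem_primeFactors hp
    · intro p hp hd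
      rw [Finset.mem_insert, Nat.mem_primeFactors]
      exact Or.inr ⟨hp, Int.natCast_dvd.mp hd, by rwa [Ne, Int.natAbs_eq_zero]⟩
  exact controlled_of h (sel_le_of_sha h hfin h4 hsha) (noFour_of hnz h4)
    (noFour_of ⟨neg_ne_zero.mpr hA, neg_ne_zero.mpr hB, fun h => hAB (neg_injective h)⟩ h4') P

theorem part_two (A B : ℤ) (P : Finset ℕ) (C : ℕ) (hA : A ≠ 0) (hB : B ≠ 0) (hAB : A ≠ B)
    (h1 : ¬ IsSquare (A * B)) (h2 : ¬ IsSquare (A * (A - B))) (h3 : ¬ IsSquare (B * (B - A))) :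
    ∃ D : ℤ, Squarefree D ∧ (C : ℤ) < |D| ∧ Controlled (A * D) (B * D) P := by
  obtain ⟨S, D, -, hD, hC, hadm, hgen, hsel⟩ :=
    exists_twist ⟨hA, hB, hAB⟩ h1 h2 h3 ∅ (by simp) C
  exact ⟨D, hD, hC, controlled_of hadm hsel hgen.noFour.1 hgen.noFour.2 P⟩

end Pool.Agent.H93.MQ
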