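import Pool.Agent.H93.MQ.Defs

/-!
ROW ClA (project MP_78d38b_MQ). Square classes of nonzero integers as vectors over ZMod 2.

`cl n` is defined in Defs: the factorization of `|n|` reduced modulo two, plus `single 0` of the
sign. All lemmas below are elementary:
* `cl_mul`: `Int.natAbs_mul`, `Nat.factorization_mul`, and the sign table.
* `cl_apply_prime`: `Nat.factorization_def`, `padicValInt` unfolds to `padicValNat p n.natAbs`.
* `cl_eq_zero_iff`: if all exponents of `|n|` are even and `n > 0` then `n` is a square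
  (take the product of the half powers, or write `|n| = a * b ^ 2` with `a` squarefree by
  `Nat.sq_mul_squarefree`, then `cl a = 0` forces `a = 1`).
* `cl_eq_iff`: if `cl m = cl n` then `cl (m * n) = 0`, so `m * n = k ^ 2` with `k ≠ 0`, and
  `m * n ^ 2 = n * k ^ 2` (take `s = n`, `t = k`). Conversely `cl (m * s ^ 2) = cl m`.
* `exists_cl`: take the product over the support of the primes, with the sign.
* `exists_int_rep`: `x = num * den * (1 / den) ^ 2`.
-/

set_option autoImplicit false

open NumberField IsDedekindDomain WeierstrassCurve Pool.Agent.H10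

namespace Pool.Agent.H93.MQ

lemma ClA_two (v : V) : v + v = 0 := by
  ext i
  rw [Finsupp.add_apply]
  exact CharTwo.add_self_eq_zero (v i)

lemma ClA_ne {a : ZMod 2} (h : a ≠ 0) : a = 1 := by
  revert h
  revert a
  decide

lemma cl_one : cl 1 = 0 := by
  simp [cl]

lemma cl_mul {m n : ℤ} (hm : m ≠ 0) (hn : n ≠ 0) : cl (m * n) = cl m + cl n := by
  unfold cl
  rw [Int.natAbs_mul, Nat.factorization_mul (Int.natAbs_ne_zero.2 hm) (Int.natAbs_ne_zero.2 hn),
    Finsupp.mapRange_add (by intro x y; push_cast; ring)]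
  have h1 : Finsupp.single 0 (if m * n < 0 then 1 else 0) =
      (Finsupp.single 0 (if m < 0 then 1 else 0) : V) + Finsupp.single 0 (if n < 0 then 1 else 0) := by
    rw [← Finsupp.single_add]
    congr 1
    rcases lt_or_gt_of_ne hm with h | h
    · rcases lt_or_gt_of_ne hn with h' | h'
      · have := mul_pos_of_neg_of_neg h h'
        rw [if_neg (not_lt.2 this.le), if_pos h, if_pos h']
        decide
      · have := mul_neg_of_neg_of_pos h h'
        rw [if_pos this, if_pos h, if_neg (not_lt.2 h'.le)]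
        decide
    · rcases lt_or_gt_of_ne hn with h' | h'
      · have := mul_neg_of_pos_of_neg h h'
        rw [if_pos this, if_neg (not_lt.2 h.le), if_pos h']
        decide
      · have := mul_pos h h'
        rw [if_neg (not_lt.2 this.le), if_neg (not_lt.2 h.le), if_neg (not_lt.2 h'.le)]
        decide
  rw [h1]
  abel

lemma cl_neg_one : cl (-1) = Finsupp.single 0 1 := by
  simp [cl]

lemma cl_natPrime {p : ℕ} (hp : p.Prime) : cl (p : ℤ) = Finsupp.single p 1 := by
  unfold cl
  rw [Int.natAbs_natCast, hp.factorization, Finsupp.mapRange_single,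
    if_neg (not_lt.2 (Int.natCast_nonneg p))]
  simp

lemma cl_apply_zero {n : ℤ} (hn : n ≠ 0) : cl n 0 = if n < 0 then 1 else 0 := by
  unfold cl
  rw [Finsupp.add_apply, Finsupp.mapRange_apply,
    Nat.factorization_eq_zero_of_not_prime _ Nat.not_prime_zero, Finsupp.single_eq_same]
  simp

lemma cl_apply_prime {n : ℤ} (hn : n ≠ 0) {p : ℕ} (hp : p.Prime) :
    cl n p = ((padicValInt p n : ℕ) : ZMod 2) := by
  unfold cl
  rw [Finsupp.add_apply, Finsupp.mapRange_apply, Nat.factorization_def _ hp,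
    Finsupp.single_eq_of_ne hp.ne_zero, add_zero]
  rfl

/-- Coordinates at non-primes vanish. -/
lemma cl_apply_of_not_prime (n : ℤ) {i : ℕ} (h0 : i ≠ 0) (hi : ¬ i.Prime) : cl n i = 0 := by
  unfold cl
  rw [Finsupp.add_apply, Finsupp.mapRange_apply, Nat.factorization_eq_zero_of_not_prime _ hi,
    Finsupp.single_eq_of_ne h0]
  simp

lemma cl_apply_of_not_dvd {n : ℤ} (hn : n ≠ 0) {p : ℕ} (hp : p.Prime) (h : ¬ (p : ℤ) ∣ n) :
    cl n p = 0 := by
  unfold cl
  have h1 : ¬ p ∣ n.natAbs := fun h' => h (Int.natCast_dvd.2 h')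
  rw [Finsupp.add_apply, Finsupp.mapRange_apply, Nat.factorization_eq_zero_of_not_dvd h1,
    Finsupp.single_eq_of_ne hp.ne_zero]
  simp

lemma cl_sq {n : ℤ} (hn : n ≠ 0) : cl (n ^ 2) = 0 := by
  rw [sq, cl_mul hn hn]
  exact ClA_two _

lemma cl_eq_zero_iff {n : ℤ} (hn : n ≠ 0) : cl n = 0 ↔ IsSquare n := by
  constructor
  · intro h
    have hpos : 0 < n := by
      rcases lt_or_gt_of_ne hn with h1 | h1
      · exfalso
        have h2 := cl_apply_zero hn
        rw [h, if_pos h1] at h2
        simp at h2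
      · exact h1
    obtain ⟨a, b, hab, ha⟩ := Nat.sq_mul_squarefree n.natAbs
    have hna : (n.natAbs : ℤ) = n := Int.natAbs_of_nonneg hpos.le
    have hn0 : n.natAbs ≠ 0 := Int.natAbs_ne_zero.2 hn
    have hb0 : b ≠ 0 := by
      rintro rfl
      simp at hab
      exact hn0 hab.symm
    have ha0 : a ≠ 0 := ha.ne_zero
    have hn' : n = ((b : ℤ)) ^ 2 * (a : ℤ) := by
      rw [← hna, ← hab]
      push_cast
      ring
    have hbz : (b : ℤ) ≠ 0 := by exact_mod_cast hb0
    have haz : (a : ℤ) ≠ 0 := by exact_mod_cast ha0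
    have hcl : cl (a : ℤ) = 0 := by
      have h1 : cl n = cl (a : ℤ) := by
        rw [hn', cl_mul (pow_ne_zero 2 hbz) haz, cl_sq hbz, zero_add]
      rw [← h1, h]
    have ha1 : a = 1 := by
      by_contra hne
      obtain ⟨p, hp, hpa⟩ := Nat.exists_prime_and_dvd hne
      have h1 := cl_apply_prime haz hp
      have h2 : padicValInt p (a : ℤ) = 1 := by
        rw [padicValInt.of_nat, ← Nat.factorization_def _ hp]
        refine le_antisymm (ha.natFactorization_le_one p) ?_
        rw [Nat.one_le_iff_ne_zero, ← Nat.pos_iff_ne_zero]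
        exact hp.factorization_pos_of_dvd ha0 hpa
      rw [hcl, h2] at h1
      simp at h1
    rw [hn', ha1]
    exact ⟨b, by push_cast; ring⟩
  · rintro ⟨r, rfl⟩
    have hr : r ≠ 0 := by
      rintro rfl
      simp at hn
    rw [cl_mul hr hr]
    exact ClA_two _

lemma cl_eq_iff {m n : ℤ} (hm : m ≠ 0) (hn : n ≠ 0) :
    cl m = cl n ↔ ∃ s t : ℤ, s ≠ 0 ∧ t ≠ 0 ∧ m * s ^ 2 = n * t ^ 2 := by
  constructor
  · intro h
    have h1 : cl (m * n) = 0 := by
      rw [cl_mul hm hn, h]
      exact ClA_two _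
    obtain ⟨k, hk⟩ := (cl_eq_zero_iff (mul_ne_zero hm hn)).1 h1
    have hk0 : k ≠ 0 := by
      rintro rfl
      exact mul_ne_zero hm hn (by simpa using hk)
    exact ⟨n, k, hn, hk0, by linear_combination n * hk⟩
  · rintro ⟨s, t, hs, ht, h⟩
    have h1 : cl (m * s ^ 2) = cl m := by
      rw [cl_mul hm (pow_ne_zero 2 hs), cl_sq hs, add_zero]
    have h2 : cl (n * t ^ 2) = cl n := by
      rw [cl_mul hn (pow_ne_zero 2 ht), cl_sq ht, add_zero]
    rw [← h1, h, h2]

/-- Every vector supported on zero and the primes is a class. -/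
lemma exists_cl (v : V) (hv : ∀ i : ℕ, i ≠ 0 → ¬ i.Prime → v i = 0) :
    ∃ n : ℤ, n ≠ 0 ∧ cl n = v := by
  induction v using Finsupp.induction with
  | zero => exact ⟨1, one_ne_zero, cl_one⟩
  | single_add a b f ha hb ih =>
    have hfa : f a = 0 := Finsupp.notMem_support_iff.1 ha
    obtain ⟨n, hn, hcl⟩ := ih (by
      intro i h0 hi
      by_cases hia : i = a
      · rw [hia, hfa]
      · have h1 := hv i h0 hi
        rw [Finsupp.add_apply, Finsupp.single_eq_of_ne hia, zero_add] at h1
        exact h1)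
    have hb1 : b = 1 := ClA_ne hb
    by_cases ha0 : a = 0
    · refine ⟨(-1) * n, mul_ne_zero (by norm_num) hn, ?_⟩
      rw [cl_mul (by norm_num) hn, cl_neg_one, hcl, ha0, hb1]
    · have hp : a.Prime := by
        by_contra hp
        have h1 := hv a ha0 hp
        rw [Finsupp.add_apply, Finsupp.single_eq_same, hfa, add_zero] at h1
        exact hb h1
      have haz : (a : ℤ) ≠ 0 := by exact_mod_cast ha0
      refine ⟨(a : ℤ) * n, mul_ne_zero haz hn, ?_⟩
      rw [cl_mul haz hn, cl_natPrime hp, hcl, hb1]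

lemma exists_int_rep {x : ℚ} (hx : x ≠ 0) :
    ∃ m : ℤ, m ≠ 0 ∧ ∃ c : ℚ, c ≠ 0 ∧ x = (m : ℚ) * c ^ 2 := by
  have hd : (x.den : ℚ) ≠ 0 := by exact_mod_cast x.den_nz
  have hdz : (x.den : ℤ) ≠ 0 := by exact_mod_cast x.den_nz
  refine ⟨x.num * x.den, mul_ne_zero (Rat.num_ne_zero.2 hx) hdz, 1 / x.den,
    one_div_ne_zero hd, ?_⟩
  have h1 : x = x.num / x.den := (Rat.num_div_den x).symm
  push_cast
  field_simp
  rw [mul_comm]
  first
    | exact (Rat.mul_den_eq_num x)
    | (rw [mul_comm]; exact (Rat.mul_den_eq_num x))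

end Pool.Agent.H93.MQ
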