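import Pool.Agent.H93.MQ.ClA

/-!
ROW ClB (project MP_78d38b_MQ). Residue characters.

* `ev_apply_single`, `ev_eq_of_agree`: the evaluation is the linear combination
  `Finsupp.linearCombination`; if two characters agree on the support they have the same value.
* `ev_chi`: for an odd prime `q` and an integer `n` prime to `q`, `ev (chi q) (cl n) = 0` iff `n`
  is a square modulo `q`. Proof: define `leg q n : ZMod 2 := if IsSquare (n : ZMod q) then 0 else 1`
  on integers prime to `q`; it is additive (product of two non-squares of the field `ZMod q` is a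
  square: use `quadraticChar` or `FiniteField`/`ZMod` lemmas, for instance `legendreSym.mul`,
  `legendreSym.eq_one_iff`). Then use induction on the factorization of `n`: for `n = ± ∏ p`.
  For instance induction with `Int.induction_on_primes`/`Nat.recOnMul` on `natAbs`, treating
  `-1` separately, with `cl_mul`, `cl_natPrime`, `cl_neg_one`, `cl_one`.
  Note that `chi q p` for a prime `p ≠ q` is `0` iff `(p : ZMod q)` is a square, and
  `chi q 0 = 0` iff `-1` is a square (recall `gen 0 = -1`, `gen p = p`; `0 ≠ q`).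
* `exists_ev`: a linear form on `V` is `ev` of its values on the basis (`Finsupp.lhom_ext'`).
-/

set_option autoImplicit false

open NumberField IsDedekindDomain WeierstrassCurve Pool.Agent.H10

namespace Pool.Agent.H93.MQ

lemma ev_single (χ : ℕ → ZMod 2) (i : ℕ) (c : ZMod 2) : ev χ (Finsupp.single i c) = c * χ i := by
  unfold ev
  rw [Finsupp.linearCombination_single, smul_eq_mul]

lemma ev_congr {χ χ' : ℕ → ZMod 2} {v : V} (h : ∀ i, v i ≠ 0 → χ i = χ' i) : ev χ v = ev χ' v := by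
  unfold ev
  rw [Finsupp.linearCombination_apply, Finsupp.linearCombination_apply]
  refine Finset.sum_congr rfl fun i hi => ?_
  change v i • χ i = v i • χ' i
  rw [h i (Finsupp.mem_support_iff.1 hi)]

/-- Two characters which agree on `S` and zero agree on pairs supported in `S`. -/
lemma ev2_congr {S : Finset ℕ} {χ χ' : ℕ → ZMod 2} {z : V × V} (hz : Supp S z)
    (h : ∀ i, i = 0 ∨ i ∈ S → χ i = χ' i) : ev2 χ z = ev2 χ' z := by
  have key : ∀ i, (z.1 i ≠ 0 ∨ z.2 i ≠ 0) → χ i = χ' i := by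
    intro i hi
    apply h
    by_contra hc
    rw [not_or] at hc
    have h1 := hz i hc.1 hc.2
    rw [at_apply, Prod.mk_eq_zero] at h1
    rcases hi with hi | hi
    · exact hi h1.1
    · exact hi h1.2
  rw [ev2_apply, ev2_apply, ev_congr (fun i hi => key i (Or.inl hi)),
    ev_congr (fun i hi => key i (Or.inr hi))]

lemma exists_ev (f : V →ₗ[ZMod 2] ZMod 2) : ∃ χ : ℕ → ZMod 2, f = ev χ := by
  refine ⟨fun i => f (Finsupp.single i 1), ?_⟩
  refine Finsupp.lhom_ext' fun i => ?_
  refine LinearMap.ext_ring ?_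
  change f (Finsupp.single i 1) = ev _ (Finsupp.single i 1)
  rw [ev_single, one_mul]

open Classical in
/-- The additive Legendre symbol. -/
noncomputable def ClB_leg (q : ℕ) (n : ℤ) : ZMod 2 := if IsSquare ((n : ℤ) : ZMod q) then 0 else 1

lemma ClB_leg_mul {q : ℕ} (hq : q.Prime) (h2 : q ≠ 2) {m n : ℤ} (hm : ¬ (q : ℤ) ∣ m)
    (hn : ¬ (q : ℤ) ∣ n) : ClB_leg q (m * n) = ClB_leg q m + ClB_leg q n := by
  have : Fact q.Prime := ⟨hq⟩
  have hm0 : (m : ZMod q) ≠ 0 := fun h => hm ((ZMod.intCast_zmod_eq_zero_iff_dvd m q).1 h)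
  have hn0 : (n : ZMod q) ≠ 0 := fun h => hn ((ZMod.intCast_zmod_eq_zero_iff_dvd n q).1 h)
  have hmn0 : ((m * n : ℤ) : ZMod q) ≠ 0 := by
    push_cast
    exact mul_ne_zero hm0 hn0
  have hchar : ringChar (ZMod q) ≠ 2 := by
    rw [ZMod.ringChar_zmod_n]
    exact h2
  have e : quadraticChar (ZMod q) ((m * n : ℤ) : ZMod q) =
      quadraticChar (ZMod q) (m : ZMod q) * quadraticChar (ZMod q) (n : ZMod q) := by
    push_cast
    rw [map_mul]
  have f : ∀ a : ZMod q, a ≠ 0 → (quadraticChar (ZMod q) a = 1 ∧ IsSquare a) ∨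
      (quadraticChar (ZMod q) a = -1 ∧ ¬ IsSquare a) := by
    intro a ha
    rcases quadraticChar_dichotomy ha with h | h
    · exact Or.inl ⟨h, (quadraticChar_one_iff_isSquare ha).1 h⟩
    · refine Or.inr ⟨h, fun hs => ?_⟩
      rw [(quadraticChar_one_iff_isSquare ha).2 hs] at h
      norm_num at h
  unfold ClB_leg
  rcases f _ hm0 with ⟨h1, h1'⟩ | ⟨h1, h1'⟩ <;> rcases f _ hn0 with ⟨h3, h3'⟩ | ⟨h3, h3'⟩ <;>
    rcases f _ hmn0 with ⟨h4, h4'⟩ | ⟨h4, h4'⟩ <;> rw [h1, h3, h4] at e <;>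
    first
    | (exfalso; norm_num at e; done)
    | (simp only [h1', h3', h4', if_true, if_false]; decide)

lemma ClB_chi {q p : ℕ} (hp : p.Prime) (h : p ≠ q) : chi q p = ClB_leg q p := by
  unfold chi ClB_leg gen
  rw [if_neg hp.ne_zero]
  by_cases hs : IsSquare (((p : ℕ) : ℤ) : ZMod q)
  · rw [if_pos (Or.inr hs), if_pos hs]
  · rw [if_neg (not_or.2 ⟨h, hs⟩), if_neg hs]

lemma ClB_nat {q : ℕ} (hq : q.Prime) (h2 : q ≠ 2) (n : ℕ) (hn : ¬ (q : ℤ) ∣ (n : ℤ)) :
    ev (chi q) (cl (n : ℤ)) = ClB_leg q n := by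
  induction n using Nat.recOnMul with
  | zero => exact absurd (by simp) hn
  | one =>
    rw [Nat.cast_one, cl_one, map_zero]
    unfold ClB_leg
    rw [if_pos]
    exact ⟨1, by simp⟩
  | prime p hp =>
    rw [cl_natPrime hp, ev_single, one_mul]
    refine ClB_chi hp ?_
    rintro rfl
    exact hn dvd_rfl
  | mul a b iha ihb =>
    have ha : ¬ (q : ℤ) ∣ (a : ℤ) := fun h => hn (by push_cast; exact h.mul_right _)
    have hb : ¬ (q : ℤ) ∣ (b : ℤ) := fun h => hn (by push_cast; exact h.mul_left _)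
    have ha0 : (a : ℤ) ≠ 0 := by
      rintro h
      exact ha (by rw [h]; exact dvd_zero _)
    have hb0 : (b : ℤ) ≠ 0 := by
      rintro h
      exact hb (by rw [h]; exact dvd_zero _)
    push_cast
    rw [cl_mul ha0 hb0, map_add, iha ha, ihb hb, ClB_leg_mul hq h2 ha hb]

theorem ev_chi {q : ℕ} (hq : q.Prime) (h2 : q ≠ 2) {n : ℤ} (hqn : ¬ (q : ℤ) ∣ n) :
    ev (chi q) (cl n) = 0 ↔ IsSquare ((n : ℤ) : ZMod q) := by
  have key : ev (chi q) (cl n) = ClB_leg q n := by
    have hn0 : n ≠ 0 := by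
      rintro rfl
      exact hqn (dvd_zero _)
    have habs : ¬ (q : ℤ) ∣ (n.natAbs : ℤ) := by
      rw [Int.dvd_natAbs]
      exact hqn
    rcases Int.natAbs_eq n with h | h
    · rw [h]
      exact ClB_nat hq h2 _ habs
    · have h1 : ¬ (q : ℤ) ∣ (-1 : ℤ) := by
        intro h3
        have h4 := Int.natAbs_dvd_natAbs.2 h3
        simp only [Int.natAbs_natCast, Int.natAbs_neg, Int.natAbs_one, Nat.dvd_one] at h4
        exact hq.one_lt.ne' h4
      have h5 : n = (-1) * (n.natAbs : ℤ) := by omega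
      have h6 : (n.natAbs : ℤ) ≠ 0 := by omega
      rw [h5, cl_mul (by norm_num) h6, map_add, ClB_leg_mul hq h2 h1 habs, ClB_nat hq h2 _ habs,
        cl_neg_one, ev_single, one_mul]
      congr 1
      unfold chi ClB_leg gen
      rw [if_pos rfl]
      have h7 : (0 : ℕ) ≠ q := hq.ne_zero.symm
      by_cases hs : IsSquare ((-1 : ℤ) : ZMod q)
      · rw [if_pos (Or.inr hs), if_pos hs]
      · rw [if_neg (not_or.2 ⟨h7, hs⟩), if_neg hs]
  rw [key]
  unfold ClB_leg
  split_ifs with h
  · simp [h]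
  · simp [h]

lemma chi_eq_zero_iff {q p : ℕ} (hp : p.Prime) (h : p ≠ q) :
    chi q p = 0 ↔ IsSquare ((p : ℤ) : ZMod q) := by
  rw [ClB_chi hp h]
  unfold ClB_leg
  split_ifs with h'
  · simp only [h']
  · simp only [h', iff_false]
    decide

end Pool.Agent.H93.MQ
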