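import Pool.Agent.H93.MQ.ClB

/-!
ROW ClC (project MP_78d38b_MQ). Supplementary laws and quadratic reciprocity, additively.

* `chi_zero`: `chi q 0 = 0` iff `-1` is a square mod `q` iff `q % 4 = 1` for an odd prime
  (`ZMod.exists_sq_eq_neg_one_iff`).
* `chi_two`: `chi q 2 = 0` iff `2` is a square mod `q` iff `q % 8 = 1 ∨ q % 8 = 7`
  (`ZMod.exists_sq_eq_two_iff`).
* `chi_recip`: `ZMod.exists_sq_eq_prime_iff_of_mod_four_eq_one` and
  `ZMod.exists_sq_eq_prime_iff_of_mod_four_eq_three` (or `legendreSym.quadratic_reciprocity'`).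
  All values are in `ZMod 2` (decide after case distinction `x = 0 ∨ x = 1`).
-/

set_option autoImplicit false

open NumberField IsDedekindDomain WeierstrassCurve Pool.Agent.H10

namespace Pool.Agent.H93.MQ

private lemma ClC_ne {x : ZMod 2} : x ≠ 0 ↔ x = 1 := by
  revert x
  decide

lemma chi_zero {q : ℕ} (hq : q.Prime) (h2 : q ≠ 2) : chi q 0 = 0 ↔ q % 4 = 1 := by
  have : Fact q.Prime := ⟨hq⟩
  have h1 : chi q 0 = 0 ↔ (0 = q ∨ IsSquare ((gen 0 : ℤ) : ZMod q)) := by
    unfold chi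
    split_ifs with h
    · simp [h]
    · simp [h]
  have h3 : ((gen 0 : ℤ) : ZMod q) = -1 := by
    simp [gen]
  rw [h1, h3, ZMod.exists_sq_eq_neg_one_iff]
  have h4 := hq.eq_two_or_odd.resolve_left h2
  have h5 := hq.pos
  omega

lemma chi_two {q : ℕ} (hq : q.Prime) (h2 : q ≠ 2) : chi q 2 = 0 ↔ q % 8 = 1 ∨ q % 8 = 7 := by
  have : Fact q.Prime := ⟨hq⟩
  rw [chi_eq_zero_iff Nat.prime_two (Ne.symm h2), ← ZMod.exists_sq_eq_two_iff h2]
  norm_num

lemma chi_recip {p q : ℕ} (hp : p.Prime) (hq : q.Prime) (hp2 : p ≠ 2) (hq2 : q ≠ 2) (hpq : p ≠ q) :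
    chi p q + chi q p = chi p 0 * chi q 0 := by
  have : Fact p.Prime := ⟨hp⟩
  have : Fact q.Prime := ⟨hq⟩
  have hp4 := hp.eq_two_or_odd.resolve_left hp2
  have hq4 := hq.eq_two_or_odd.resolve_left hq2
  have e1 : chi p q = 0 ↔ IsSquare (q : ZMod p) := by
    rw [chi_eq_zero_iff hq hpq.symm, Int.cast_natCast]
  have e2 : chi q p = 0 ↔ IsSquare (p : ZMod q) := by
    rw [chi_eq_zero_iff hp hpq, Int.cast_natCast]
  have same : (chi p q = 0 ↔ chi q p = 0) → chi p q + chi q p = 0 := by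
    generalize chi p q = a
    generalize chi q p = b
    revert a b
    decide
  have diff : (chi p q = 0 ↔ ¬ chi q p = 0) → chi p q + chi q p = 1 := by
    generalize chi p q = a
    generalize chi q p = b
    revert a b
    decide
  by_cases h1 : p % 4 = 1
  · rw [(chi_zero hp hp2).2 h1, zero_mul]
    exact same (by rw [e1, e2, ZMod.exists_sq_eq_prime_iff_of_mod_four_eq_one h1 hq2])
  · by_cases h3 : q % 4 = 1
    · rw [(chi_zero hq hq2).2 h3, mul_zero]
      exact same (by rw [e1, e2, ZMod.exists_sq_eq_prime_iff_of_mod_four_eq_one h3 hp2])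
    · have h5 : chi p 0 = 1 := ClC_ne.1 fun h => h1 ((chi_zero hp hp2).1 h)
      have h6 : chi q 0 = 1 := ClC_ne.1 fun h => h3 ((chi_zero hq hq2).1 h)
      rw [h5, h6, one_mul]
      exact diff (by
        rw [e1, e2, ZMod.exists_sq_eq_prime_iff_of_mod_four_eq_three (by omega) (by omega) hpq])

end Pool.Agent.H93.MQ
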