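import Pool.Agent.H93.MQ.ClC

/-!
ROW Cls (project MP_78d38b_MQ). Residue classes realise characters.

Let `S` be a finite set of primes containing two and `χ : ℕ → ZMod 2` arbitrary. There is a residue
class `r` modulo `modS S = 8 ∏_{p ∈ S} p`, prime to the modulus, such that every prime
`q = r` mod `modS S` has `chi q i = χ i` for `i = 0` and for `i ∈ S` (and such a `q` is odd and
not in `S`).

Construction by the Chinese remainder theorem (`modS S = 16 ∏_{p ∈ S, p ≠ 2} p`):
modulo eight `r` is `1, 5, 7, 3` for `(χ 0, χ 2) = (0,0), (0,1), (1,0), (1,1)` (`chi_zero`, `chi_two`);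
modulo an odd `p ∈ S` choose `r` to be a nonzero square or a non-square according to
`χ p + chi p 0 * χ 0 = 0` or `1`: then for a prime `q = r` mod `modS S` we get
`chi p q = χ p + chi p 0 * χ 0` (`chi_eq_zero_iff`), and by `chi_recip`
`chi q p = chi p q + chi p 0 * chi q 0 = χ p`. Non-squares modulo an odd prime exist
(`ZMod`/`FiniteField.exists_nonsquare`). For the Chinese remainder theorem one may use
`Nat.chineseRemainderOfFinset` or induction on `S`, or `ZMod.prodEquivPi`-type isomorphisms.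
The class `r` is odd and not divisible by any odd `p ∈ S`, hence coprime to the modulus.
-/

set_option autoImplicit false

open NumberField IsDedekindDomain WeierstrassCurve Pool.Agent.H10

namespace Pool.Agent.H93.MQ

lemma Cls_two (x : ZMod 2) : x = 0 ∨ x = 1 := by
  revert x; decide

lemma Cls_ne {x : ZMod 2} (h : x ≠ 0) : x = 1 := (Cls_two x).resolve_left h

lemma Cls_res {p : ℕ} (hp : p.Prime) (h2 : p ≠ 2) (e : ZMod 2) :
    ∃ a : ℕ, ((a : ZMod p) ≠ 0) ∧ (e = 0 ↔ IsSquare (a : ZMod p)) := by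
  haveI : Fact p.Prime := ⟨hp⟩
  rcases Cls_two e with h | h
  · refine ⟨1, ?_, ?_⟩
    · rw [Nat.cast_one]
      exact one_ne_zero
    · rw [h, Nat.cast_one]
      exact ⟨fun _ => ⟨1, (mul_one 1).symm⟩, fun _ => rfl⟩
  · obtain ⟨a, ha⟩ := FiniteField.exists_nonsquare (F := ZMod p) (by
      rw [ZMod.ringChar_zmod_n]
      exact h2)
    refine ⟨a.val, ?_, ?_⟩
    · rw [ZMod.natCast_zmod_val]
      rintro rfl
      exact ha ⟨0, (mul_zero 0).symm⟩
    · rw [ZMod.natCast_zmod_val, h]
      exact ⟨fun h1 => absurd h1 one_ne_zero, fun h1 => absurd h1 ha⟩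

theorem exists_class {S : Finset ℕ} (hS : ∀ p ∈ S, p.Prime) (h2 : 2 ∈ S) (χ : ℕ → ZMod 2) :
    ∃ r : ℕ, r.Coprime (modS S) ∧ ∀ q : ℕ, q.Prime → q ≡ r [MOD modS S] →
      q ∉ S ∧ ∀ i, i = 0 ∨ i ∈ S → chi q i = χ i := by
  classical
  -- the residues
  have hres : ∀ p : ℕ, ∃ a : ℕ, p ∈ S → p ≠ 2 →
      ((a : ZMod p) ≠ 0) ∧ (χ p + chi p 0 * χ 0 = 0 ↔ IsSquare (a : ZMod p)) := by
    intro p
    by_cases hp : p ∈ S ∧ p ≠ 2
    · obtain ⟨a, ha⟩ := Cls_res (hS p hp.1) hp.2 (χ p + chi p 0 * χ 0)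
      exact ⟨a, fun _ _ => ha⟩
    · exact ⟨0, fun h1 h3 => absurd ⟨h1, h3⟩ hp⟩
  choose a ha using hres
  obtain ⟨b, hb8, hb4, hb7⟩ : ∃ b : ℕ, b < 8 ∧ (χ 0 = 0 ↔ b % 4 = 1) ∧
      (χ 2 = 0 ↔ (b = 1 ∨ b = 7)) ∧ b % 2 = 1 := by
    rcases Cls_two (χ 0) with h0 | h0 <;> rcases Cls_two (χ 2) with h1 | h1
    · exact ⟨1, by norm_num, by simp [h0], by simp [h1], by norm_num⟩
    · exact ⟨5, by norm_num, by simp [h0], by simp [h1], by norm_num⟩
    · exact ⟨7, by norm_num, by simp [h0], by simp [h1], by norm_num⟩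
    · exact ⟨3, by norm_num, by simp [h0], by simp [h1], by norm_num⟩
  obtain ⟨hb7, hbo⟩ := hb7
  let s : ℕ → ℕ := fun i => if i = 2 then 8 else i
  let w : ℕ → ℕ := fun i => if i = 2 then b else a i
  have hs : ∀ i ∈ S, s i ≠ 0 := by
    intro i hi
    by_cases h : i = 2
    · simp [s, h]
    · simp only [s, if_neg h]
      exact (hS i hi).ne_zero
  have hco : ∀ i ∈ S, i ≠ 2 → Nat.Coprime 8 i := by
    intro i hi h
    have h3 : Nat.Coprime 2 i := (Nat.coprime_primes Nat.prime_two (hS i hi)).2 (Ne.symm h)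
    exact Nat.Coprime.pow_left 3 h3
  have pp : Set.Pairwise (↑S : Set ℕ) (Function.onFun Nat.Coprime s) := by
    intro i hi j hj hij
    show Nat.Coprime (s i) (s j)
    by_cases h : i = 2
    · by_cases h' : j = 2
      · exact absurd (h.trans h'.symm) hij
      · simp only [s, if_pos h, if_neg h']
        exact hco j hj h'
    · by_cases h' : j = 2
      · simp only [s, if_neg h, if_pos h']
        exact (hco i hi h).symm
      · simp only [s, if_neg h, if_neg h']
        exact (Nat.coprime_primes (hS i hi) (hS j hj)).2 hij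
  obtain ⟨r, hr⟩ := Nat.chineseRemainderOfFinset w s S hs pp
  have hr8 : r ≡ b [MOD 8] := by
    have := hr 2 h2
    simpa [s, w] using this
  have hrp : ∀ p ∈ S, p ≠ 2 → r ≡ a p [MOD p] := by
    intro p hp h
    have := hr p hp
    simpa [s, w, if_neg h] using this
  have hr8' : r % 8 = b := by
    rw [hr8]
    exact Nat.mod_eq_of_lt hb8
  have hrc : ∀ p ∈ S, Nat.Coprime r p := by
    intro p hp
    rw [Nat.coprime_comm, Nat.Prime.coprime_iff_not_dvd (hS p hp)]
    intro hd
    by_cases h : p = 2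
    · rw [h] at hd
      omega
    · apply (ha p hp h).1
      have h3 : ((r : ℕ) : ZMod p) = (a p : ZMod p) := (ZMod.natCast_eq_natCast_iff _ _ _).2 (hrp p hp h)
      rw [← h3]
      exact (ZMod.natCast_eq_zero_iff _ _).2 hd
  have hcop : r.Coprime (modS S) := by
    unfold modS
    refine Nat.Coprime.mul_right ?_ (Nat.Coprime.prod_right fun p hp => hrc p hp)
    exact Nat.Coprime.pow_right 3 (hrc 2 h2)
  refine ⟨r, hcop, fun q hq hqr => ?_⟩
  have hdv : ∀ p ∈ S, p ∣ modS S := fun p hp => Dvd.dvd.mul_left (Finset.dvd_prod_of_mem _ hp) _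
  have hqS : q ∉ S := by
    intro hqS
    have h3 : q ∣ modS S := hdv q hqS
    have h4 : q ≡ r [MOD q] := hqr.of_dvd h3
    have h5 : q ∣ r := by
      have h6 : 0 ≡ r [MOD q] := ((Nat.modEq_zero_iff_dvd.2 dvd_rfl).symm).trans h4
      exact Nat.modEq_zero_iff_dvd.1 h6.symm
    have h6 := Nat.eq_one_of_dvd_coprimes hcop h5 h3
    exact hq.one_lt.ne' h6
  have hq2 : q ≠ 2 := by
    rintro rfl
    exact hqS h2
  have hq8 : q % 8 = b := by
    have h3 : q ≡ r [MOD 8] := hqr.of_dvd (Dvd.intro _ rfl)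
    rw [← hr8']
    exact h3
  have hc0 : chi q 0 = χ 0 := by
    have h3 := chi_zero hq hq2
    have h4 : q % 4 = b % 4 := by omega
    rw [h4, ← hb4] at h3
    by_cases h5 : χ 0 = 0
    · rw [h5]
      exact h3.2 h5
    · rw [Cls_ne h5]
      exact Cls_ne fun h6 => h5 (h3.1 h6)
  refine ⟨hqS, ?_⟩
  rintro i (rfl | hi)
  · exact hc0
  · by_cases h : i = 2
    · subst h
      have h3 := chi_two hq hq2
      rw [hq8, ← hb7] at h3
      by_cases h5 : χ 2 = 0
      · rw [h5]
        exact h3.2 h5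
      · rw [Cls_ne h5]
        exact Cls_ne fun h6 => h5 (h3.1 h6)
    · have hip := hS i hi
      have hne : i ≠ q := by
        rintro rfl
        exact hqS hi
      have hrec := chi_recip hip hq h hq2 hne
      have h3 := chi_eq_zero_iff (q := i) hq (Ne.symm hne)
      have h4 : q ≡ a i [MOD i] := (hqr.of_dvd (hdv i hi)).trans (hrp i hi h)
      have h5 : ((q : ℤ) : ZMod i) = (a i : ZMod i) := by
        rw [Int.cast_natCast]
        exact (ZMod.natCast_eq_natCast_iff _ _ _).2 h4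
      rw [h5, ← (ha i hi h).2] at h3
      have h6 : chi i q = χ i + chi i 0 * χ 0 := by
        by_cases h7 : χ i + chi i 0 * χ 0 = 0
        · rw [h7]
          exact h3.2 h7
        · rw [Cls_ne h7]
          exact Cls_ne fun h8 => h7 (h3.1 h8)
      rw [h6, hc0] at hrec
      have key : ∀ x y z : ZMod 2, x + y + z = y → z = x := by decide
      exact key _ _ _ hrec

end Pool.Agent.H93.MQ
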