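import Pool.Agent.H10.Cong
import Pool.Agent.H11.Desc

/-!
Definitions for the multiquadratic theorem (MP_78d38b).
-/

set_option autoImplicit false

open NumberField IsDedekindDomain WeierstrassCurve Pool.Agent.H10

namespace Pool.Agent.H93.MQ

/-- Square classes of nonzero rationals: coordinate `0` is the sign, coordinate `p` (prime) the
parity of the valuation at `p`. -/
abbrev V : Type := ℕ →₀ ZMod 2

/-- The square class of a nonzero integer. -/
noncomputable def cl (n : ℤ) : V :=
  n.natAbs.factorization.mapRange (fun k : ℕ => (k : ZMod 2)) (by simp) +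
    Finsupp.single 0 (if n < 0 then 1 else 0)

/-- The generator with index `i`: `-1` for `i = 0` and `i` otherwise. -/
def gen (i : ℕ) : ℤ := if i = 0 then -1 else (i : ℤ)

open Classical in
/-- Residue character of the prime `q` on the generators (the generator `q` itself is ignored). -/
noncomputable def chi (q i : ℕ) : ZMod 2 :=
  if i = q ∨ IsSquare ((gen i : ℤ) : ZMod q) then 0 else 1

/-- Evaluation of a character given by its values on the generators. -/
noncomputable def ev (χ : ℕ → ZMod 2) : V →ₗ[ZMod 2] ZMod 2 :=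
  Finsupp.linearCombination (ZMod 2) χ

/-- Evaluation on pairs. -/
noncomputable def ev2 (χ : ℕ → ZMod 2) : V × V →ₗ[ZMod 2] ZMod 2 × ZMod 2 :=
  (ev χ).prodMap (ev χ)

lemma ev2_apply (χ : ℕ → ZMod 2) (z : V × V) : ev2 χ z = (ev χ z.1, ev χ z.2) := rfl

/-- The coordinates at `i` of a pair. -/
noncomputable def at_ (i : ℕ) : V × V →ₗ[ZMod 2] ZMod 2 × ZMod 2 :=
  (Finsupp.lapply i).prodMap (Finsupp.lapply i)

lemma at_apply (i : ℕ) (z : V × V) : at_ i z = (z.1 i, z.2 i) := rfl

/-- Solubility over `k` of the two-covering of `y^2 = x (x - A) (x - B)` attached to the triple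
`(m, n, m n)`. -/
def Sol (k : Type*) [Field k] (A B m n : ℤ) : Prop :=
  CPt (0 : k) (A : k) (B : k) (m : k) (n : k) ((m * n : ℤ) : k)

/-- The pair `z` is the class of a triple which is soluble over `k`. -/
def SolC (k : Type*) [Field k] (A B : ℤ) (z : V × V) : Prop :=
  ∃ m n : ℤ, m ≠ 0 ∧ n ≠ 0 ∧ z = (cl m, cl n) ∧ Sol k A B m n

/-- The pair `z` has support in `S` (and the sign). -/
def Supp (S : Finset ℕ) (z : V × V) : Prop :=
  ∀ i : ℕ, i ≠ 0 → i ∉ S → at_ i z = 0

/-- The pairs with support in `S` which are soluble at the primes of `S` and over the reals. -/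
def SelSet (S : Finset ℕ) (A B : ℤ) : Set (V × V) :=
  {z | Supp S z ∧ (∀ (p : ℕ) [Fact p.Prime], p ∈ S → SolC ℚ_[p] A B z) ∧ SolC ℝ A B z}

/-- The Selmer group, as a subspace. -/
noncomputable def Sel (S : Finset ℕ) (A B : ℤ) : Submodule (ZMod 2) (V × V) :=
  Submodule.span (ZMod 2) (SelSet S A B)

/-- The classes of the two-torsion points. -/
noncomputable def tor (A B : ℤ) : ZMod 2 × ZMod 2 →ₗ[ZMod 2] V × V :=
  LinearMap.coprod
    (LinearMap.toSpanSingleton (ZMod 2) (V × V) (cl A, cl (A * (A - B))))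
    (LinearMap.toSpanSingleton (ZMod 2) (V × V) (cl (A * B), cl (-A)))

lemma tor_apply (A B : ℤ) (u : ZMod 2 × ZMod 2) :
    tor A B u = (u.1 • cl A + u.2 • cl (A * B), u.1 • cl (A * (A - B)) + u.2 • cl (-A)) := by
  simp [tor, LinearMap.coprod_apply, LinearMap.toSpanSingleton_apply]

/-- `A`, `B` and `A - B` are nonzero. -/
structure NZ (A B : ℤ) : Prop where
  hA : A ≠ 0
  hB : B ≠ 0
  hAB : A ≠ B

/-- `S` is a finite set of primes containing two and all primes dividing `A B (A - B)`. -/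
structure Adm (S : Finset ℕ) (A B : ℤ) : Prop where
  prime : ∀ p ∈ S, p.Prime
  two : 2 ∈ S
  nz : NZ A B
  bad : ∀ p : ℕ, p.Prime → (p : ℤ) ∣ A * B * (A - B) → p ∈ S

/-- Genericity: some prime divides `A`, `B` and `A - B` to an odd power, and there is no rational
cyclic subgroup of order four. -/
structure Gen (A B : ℤ) : Prop where
  nz : NZ A B
  prime : ∃ p : ℕ, p.Prime ∧ cl A p = 1 ∧ cl B p = 1 ∧ cl (A - B) p = 1
  h1 : cl (A * B) ≠ 0
  h2 : cl (A * (A - B)) ≠ 0
  h3 : cl (B * (B - A)) ≠ 0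

/-- No point of order four on `y^2 = x (x - A) (x - B)`, in terms of square classes. -/
structure NoFour (A B : ℤ) : Prop where
  h1 : ¬ (cl (-A) = 0 ∧ cl (-B) = 0)
  h2 : ¬ (cl A = 0 ∧ cl (A - B) = 0)
  h3 : ¬ (cl B = 0 ∧ cl (B - A) = 0)

/-- The modulus attached to `S`. -/
def modS (S : Finset ℕ) : ℕ := 8 * ∏ p ∈ S, p

/-- The character `χ` acts invertibly on the two-torsion, and if it is nontrivial on `-1` it
moreover has no fixed vector there. -/
structure GoodChi (A B : ℤ) (χ : ℕ → ZMod 2) : Prop where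
  inj : ∀ u : ZMod 2 × ZMod 2, ev2 χ (tor A B u) = 0 → u = 0
  fix : χ 0 = 1 → ∀ u : ZMod 2 × ZMod 2, ev2 χ (tor A B u) = u → u = 0

/-- Sequences of primes in one residue class and with prescribed mutual residue symbols. -/
structure GoodSeq (S : Finset ℕ) (χ : ℕ → ZMod 2) (q : ℕ → ℕ) : Prop where
  mono : StrictMono q
  prime : ∀ i, (q i).Prime
  notMem : ∀ i, q i ∉ S
  ne_two : ∀ i, q i ≠ 2
  cong : ∀ i j, q i ≡ q j [MOD modS S]
  cop : ∀ i, (q i).Coprime (modS S)
  chi : ∀ i j, j = 0 ∨ j ∈ S → chi (q i) j = χ j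
  res : ∀ i j, i < j → Pool.Agent.H93.MQ.chi (q j) (q i) = 0

/-- The product of the members of the sequence with index in `J`. -/
def dd (q : ℕ → ℕ) (J : Finset ℕ) : ℤ := ∏ i ∈ J, (q i : ℤ)

/-- The curve `y^2 = x (x - A) (x - B)`. -/
def cu (k : Type*) [Field k] (A B : ℤ) : WeierstrassCurve k :=
  ⟨0, -((A : k) + (B : k)), 0, (A : k) * (B : k), 0⟩

/-- The two-primary part of the Tate-Shafarevich group is bounded. -/
def Bdd (K : Type) [Field K] [NumberField K] (W : WeierstrassCurve K) : Prop :=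
  ∃ N : ℕ, ∀ x : Sha K W, (∃ m : ℕ, 2 ^ m • x = 0) → 2 ^ N • x = 0

/-- All even twists have bounded two-primary part and finitely many points over `K`. -/
def GoodOver (q : ℕ → ℕ) (A B : ℤ) (K : Type) [Field K] [NumberField K] : Prop :=
  ∀ J : Finset ℕ, Even J.card →
    Bdd K (cu K (A * dd q J) (B * dd q J)) ∧
      Finite (cu K (A * dd q J) (B * dd q J)).toAffine.Point

/-- The square roots. -/
noncomputable def rt (q : ℕ → ℕ) (i : ℕ) : ℝ := Real.sqrt ((q 0 * q (i + 1) : ℕ) : ℝ)

/-- The finite levels. -/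
noncomputable def Kn (q : ℕ → ℕ) (n : ℕ) : IntermediateField ℚ ℝ :=
  IntermediateField.adjoin ℚ {x | ∃ i, i < n ∧ x = rt q i}

/-- The infinite multiquadratic field. -/
noncomputable def Fq (q : ℕ → ℕ) : IntermediateField ℚ ℝ :=
  IntermediateField.adjoin ℚ (Set.range (rt q))

end Pool.Agent.H93.MQ
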