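import Pool.Agent.H93.MQ.StA

/-!
ROW EvA (project MP_78d38b_MQ). Twists by even products of a good sequence.

`seq_tw`: for `J` of even cardinality `T = J.image q` and `d = dd q J` are twisting data `Tw S T d`. For
`sq`: all `q i` are congruent modulo `N = modS S` and prime to `N`, so with `|J| = 2 k`,
`d = (q 0 ^ k) ^ 2` mod `N`; use `sq_prod` with `c = q 0 ^ k`. The primes dividing `d` are the
`q i`, `i ∈ J`, each once since `q` is injective.

`seq_eqn`: let `z ∈ Sel (S ∪ T) (A d) (B d)`, let `z₀` be its restriction to zero and `S` (as a pair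
of functions: `Finsupp.filter (fun i => i = 0 ∨ i ∈ S)`), `w i = at_ (q i) z`, `K u = ev2 χ (tor A B u)`,
`c = ev2 χ z₀`. For `i ∈ J`, `tw_loc` says `ev2 (chi (q i)) (z + tor (A d) (B d) (w i)) = 0`. By
`tor_scale`, `tor (A d) (B d) u = tor A B u + (u.1 • cl d, u.2 • cl d)`, where
`cl d = ∑_{j ∈ J} single (q j) 1`; and `z = z₀ + ∑_{j ∈ J} (w j) ⊗ single (q j) 1`. The values
`chi (q i) (q j)` are `0` for `j < i` (`GoodSeq.res`), `0` for `j = i` (definition of `chi`), and `χ 0`
for `j > i`: by `chi_recip`, `chi (q i) (q j) = chi (q j) (q i) + chi (q i) 0 * chi (q j) 0 = χ 0`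
(`χ 0 * χ 0 = χ 0`). On `z₀` and `tor A B u`, supported in `S` (`tor_supp`), `chi (q i)` agrees with
`χ` (`ev2_congr`). So
`c + K (w i) + χ 0 • ∑_{j ∈ J, i < j} (w i + w j) = 0`.

`seq_equal`: consequently all `w i`, `i ∈ J`, are equal: if `χ 0 = 0` then `K (w i) = c` and `K` is
injective (`GoodChi.inj`, additivity). If `χ 0 = 1`, descending (strong) induction: suppose
`w j = w` for all `j ∈ J`, `j > i`, where `w` is the value at the largest element of `J`, for which
`K w = c`. Then `K (w i + w) = n • (w i + w)` with `n` the number of `j ∈ J`, `j > i`; if `n` is even,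
`K (w i + w) = 0` and `w i = w` by `inj`; if `n` is odd, `K (w i + w) = w i + w` and `w i = w` by
`fix`.
-/

set_option autoImplicit false

open NumberField IsDedekindDomain WeierstrassCurve Pool.Agent.H10

namespace Pool.Agent.H93.MQ

variable {S : Finset ℕ} {A B : ℤ} {χ : ℕ → ZMod 2} {q : ℕ → ℕ}

lemma EvA_inj (hq : GoodSeq S χ q) : Function.Injective q := hq.mono.injective

lemma EvA_ne_zero (hq : GoodSeq S χ q) (i : ℕ) : (q i : ℤ) ≠ 0 := by
  exact_mod_cast (hq.prime i).ne_zero

lemma EvA_dd_ne (hq : GoodSeq S χ q) (J : Finset ℕ) : dd q J ≠ 0 :=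
  Finset.prod_ne_zero_iff.mpr (fun i _ => EvA_ne_zero hq i)

lemma EvA_cl_dd (hq : GoodSeq S χ q) (J : Finset ℕ) :
    cl (dd q J) = ∑ j ∈ J, Finsupp.single (q j) (1 : ZMod 2) := by
  classical
  induction J using Finset.induction_on with
  | empty => simp [dd, cl_one]
  | insert a J ha ih =>
    have e : dd q (insert a J) = (q a : ℤ) * dd q J := by
      unfold dd; rw [Finset.prod_insert ha]
    rw [e, cl_mul (EvA_ne_zero hq a) (EvA_dd_ne hq J), ih, Finset.sum_insert ha,
      cl_natPrime (hq.prime a)]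

theorem seq_tw (h : Adm S A B) (hq : GoodSeq S χ q) (J : Finset ℕ) (hJ : Even J.card) :
    Tw S (J.image q) (dd q J) := by
  classical
  refine ⟨EvA_dd_ne hq J, ?_, ?_, ?_, ?_, ?_, ?_⟩
  · intro r hr
    obtain ⟨i, _, rfl⟩ := Finset.mem_image.mp hr
    exact hq.prime i
  · intro r hr
    obtain ⟨i, _, rfl⟩ := Finset.mem_image.mp hr
    exact hq.ne_two i
  · rw [Finset.disjoint_right]
    intro r hr
    obtain ⟨i, _, rfl⟩ := Finset.mem_image.mp hr
    exact hq.notMem i
  · intro r hr
    unfold dd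
    rw [Prime.dvd_finsetProd_iff (Nat.prime_iff_prime_int.mp hr), Finset.mem_image]
    constructor
    · rintro ⟨i, hi, hd⟩
      refine ⟨i, hi, ?_⟩
      have hd' : r ∣ q i := by exact_mod_cast hd
      exact ((Nat.prime_dvd_prime_iff_eq hr (hq.prime i)).mp hd').symm
    · rintro ⟨i, hi, rfl⟩
      exact ⟨i, hi, dvd_rfl⟩
  · intro r hr hd
    obtain ⟨i, hi, rfl⟩ := Finset.mem_image.mp hr
    have e : dd q J = (q i : ℤ) * ∏ j ∈ J.erase i, (q j : ℤ) := by
      unfold dd; rw [Finset.mul_prod_erase J (fun j => (q j : ℤ)) hi]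
    rw [e, pow_two] at hd
    have hd2 := Int.dvd_of_mul_dvd_mul_left (EvA_ne_zero hq i) hd
    rw [Prime.dvd_finsetProd_iff (Nat.prime_iff_prime_int.mp (hq.prime i))] at hd2
    obtain ⟨j, hj, hdj⟩ := hd2
    have hd' : q i ∣ q j := by exact_mod_cast hdj
    have e2 := (Nat.prime_dvd_prime_iff_eq (hq.prime i) (hq.prime j)).mp hd'
    exact (Finset.ne_of_mem_erase hj) (EvA_inj hq e2).symm
  · intro p _ hp
    obtain ⟨k, hk⟩ := hJ
    refine sq_prod (S := S) (c := (q 0 : ℤ) ^ k) ?_ ?_ hp
    · apply IsCoprime.pow_left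
      exact Nat.isCoprime_iff_coprime.mpr (hq.cop 0)
    · have e1 : ((q 0 : ℤ) ^ k) ^ 2 = ∏ _j ∈ J, (q 0 : ℤ) := by
        rw [Finset.prod_const, hk, ← pow_mul, mul_two]
      rw [e1]
      apply Int.ModEq.dvd
      apply Int.ModEq.prod
      intro i _
      exact (Int.natCast_modEq_iff.mpr (hq.cong 0 i))

lemma EvA_chi (hq : GoodSeq S χ q) (i j : ℕ) :
    chi (q i) (q j) = if i < j then χ 0 else 0 := by
  rcases lt_trichotomy i j with hij | hij | hij
  · rw [if_pos hij]
    have h1 := chi_recip (hq.prime i) (hq.prime j) (hq.ne_two i) (hq.ne_two j)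
      (fun e => hij.ne (EvA_inj hq e))
    rw [hq.res i j hij, add_zero, hq.chi i 0 (Or.inl rfl), hq.chi j 0 (Or.inl rfl)] at h1
    rw [h1]
    generalize χ 0 = c
    revert c; decide
  · subst hij
    rw [if_neg (lt_irrefl _)]
    simp [chi]
  · rw [if_neg (not_lt.mpr hij.le)]
    exact hq.res j i hij

lemma EvA_decomp (hq : GoodSeq S χ q) (J : Finset ℕ) (v : V)
    (hv : ∀ i : ℕ, i ≠ 0 → i ∉ S ∪ J.image q → v i = 0) :
    v = v.filter (fun i => i = 0 ∨ i ∈ S) + ∑ j ∈ J, Finsupp.single (q j) (v (q j)) := by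
  classical
  ext n
  rw [Finsupp.add_apply, Finsupp.finsetSum_apply]
  by_cases hn : n = 0 ∨ n ∈ S
  · have e : (v.filter (fun i => i = 0 ∨ i ∈ S)) n = v n := by
      rw [Finsupp.filter_apply]; exact if_pos hn
    rw [e, Finset.sum_eq_zero, add_zero]
    intro j _
    rw [Finsupp.single_apply, if_neg]
    rintro rfl
    rcases hn with hn | hn
    · exact (hq.prime j).ne_zero hn
    · exact hq.notMem j hn
  · have e : (v.filter (fun i => i = 0 ∨ i ∈ S)) n = 0 := by
      rw [Finsupp.filter_apply]; exact if_neg hn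
    rw [e, zero_add]
    push Not at hn
    by_cases hT : n ∈ J.image q
    · obtain ⟨i, hi, rfl⟩ := Finset.mem_image.mp hT
      rw [Finset.sum_eq_single i]
      · simp
      · intro j _ hji
        rw [Finsupp.single_apply, if_neg]
        exact fun e => hji (EvA_inj hq e)
      · exact fun h => absurd hi h
    · rw [hv n hn.1 (by
        rw [Finset.mem_union]
        push Not
        exact ⟨hn.2, hT⟩), Finset.sum_eq_zero]
      intro j hj
      rw [Finsupp.single_apply, if_neg]
      rintro rfl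
      exact hT (Finset.mem_image_of_mem q hj)

lemma EvA_ev (hq : GoodSeq S χ q) (J : Finset ℕ) (v : V)
    (hv : ∀ i : ℕ, i ≠ 0 → i ∉ S ∪ J.image q → v i = 0) (i : ℕ) :
    ev (chi (q i)) v = ev χ (v.filter (fun i => i = 0 ∨ i ∈ S)) +
      χ 0 * ∑ j ∈ J.filter (fun j => i < j), v (q j) := by
  classical
  conv_lhs => rw [EvA_decomp hq J v hv]
  rw [map_add, map_sum]
  congr 1
  · apply ev_congr
    intro n hn
    apply hq.chi i n
    by_contra hcon
    apply hn
    rw [Finsupp.filter_apply]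
    exact if_neg hcon
  · rw [Finset.sum_filter, Finset.mul_sum]
    refine Finset.sum_congr rfl fun j _ => ?_
    rw [ev_single, EvA_chi hq i j]
    split_ifs <;> ring

lemma EvA_ev_dd (hq : GoodSeq S χ q) (J : Finset ℕ) (i : ℕ) :
    ev (chi (q i)) (cl (dd q J)) = χ 0 * ((J.filter (fun j => i < j)).card : ZMod 2) := by
  classical
  rw [EvA_cl_dd hq J, map_sum, Finset.card_filter, Nat.cast_sum, Finset.mul_sum]
  refine Finset.sum_congr rfl fun j _ => ?_
  rw [ev_single, EvA_chi hq i j]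
  split_ifs <;> simp

theorem seq_eqn (h : Adm S A B) (hq : GoodSeq S χ q) (J : Finset ℕ) (hJ : Even J.card)
    {z : V × V} (hz : z ∈ Sel (S ∪ J.image q) (A * dd q J) (B * dd q J)) :
    ∃ c : ZMod 2 × ZMod 2, ∀ i ∈ J, c + ev2 χ (tor A B (at_ (q i) z)) +
      χ 0 • ∑ j ∈ J.filter (fun j => i < j), (at_ (q i) z + at_ (q j) z) = 0 := by
  classical
  have hT := seq_tw h hq J hJ
  have hadm := hT.adm h
  have hsupp : Supp (S ∪ J.image q) z := ((mem_sel hadm.nz).mp hz).1
  have hs1 : ∀ i : ℕ, i ≠ 0 → i ∉ S ∪ J.image q → z.1 i = 0 := fun i h0 hi =>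
    congrArg Prod.fst (hsupp i h0 hi)
  have hs2 : ∀ i : ℕ, i ≠ 0 → i ∉ S ∪ J.image q → z.2 i = 0 := fun i h0 hi =>
    congrArg Prod.snd (hsupp i h0 hi)
  refine ⟨(ev χ (z.1.filter (fun i => i = 0 ∨ i ∈ S)), ev χ (z.2.filter (fun i => i = 0 ∨ i ∈ S))),
    fun i hi => ?_⟩
  have h1 := tw_loc h hT hz (Finset.mem_image_of_mem q hi)
  rw [tor_scale h.nz (EvA_dd_ne hq J), map_add, map_add,
    ev2_congr (χ' := χ) (tor_supp h _) (fun n hn => hq.chi i n hn)] at h1
  rw [← h1]
  generalize hu : ev2 χ (tor A B (at_ (q i) z)) = K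
  rw [ev2_apply, ev2_apply, EvA_ev hq J z.1 hs1 i, EvA_ev hq J z.2 hs2 i]
  simp only [map_smul, EvA_ev_dd hq J i, at_apply]
  refine Prod.ext ?_ ?_
  · simp only [Prod.fst_add, Prod.smul_fst, Prod.fst_sum, Finset.sum_add_distrib]
    simp only [Finset.sum_const, smul_eq_mul, nsmul_eq_mul]
    ring
  · simp only [Prod.snd_add, Prod.smul_snd, Prod.snd_sum, Finset.sum_add_distrib]
    simp only [Finset.sum_const, smul_eq_mul, nsmul_eq_mul]
    ring

lemma EvA_char2 (x : ZMod 2 × ZMod 2) : x + x = 0 := by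
  revert x; decide

lemma EvA_eq_of_add {x y : ZMod 2 × ZMod 2} (h : x + y = 0) : x = y := by
  revert x y; decide

theorem seq_equal (h : Adm S A B) (hχ : GoodChi A B χ) (hq : GoodSeq S χ q) (J : Finset ℕ)
    (hJ : Even J.card) {z : V × V}
    (hz : z ∈ Sel (S ∪ J.image q) (A * dd q J) (B * dd q J)) :
    ∀ i ∈ J, ∀ j ∈ J, at_ (q i) z = at_ (q j) z := by
  classical
  obtain ⟨c, hc⟩ := seq_eqn h hq J hJ hz
  rcases J.eq_empty_or_nonempty with rfl | hne
  · intro i hi; simp at hi
  set m := J.max' hne with hm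
  have hmJ : m ∈ J := J.max'_mem hne
  have hmeq := hc m hmJ
  have hempty : J.filter (fun j => m < j) = ∅ := by
    apply Finset.filter_eq_empty_iff.mpr
    intro j hj
    exact not_lt.mpr (J.le_max' j hj)
  rw [hempty, Finset.sum_empty, smul_zero, add_zero] at hmeq
  have key : ∀ n : ℕ, ∀ i ∈ J, m - i = n → at_ (q i) z = at_ (q m) z := by
    intro n
    induction n using Nat.strong_induction_on with
    | _ n ih =>
      intro i hi hin
      have hrest : ∀ j ∈ J.filter (fun j => i < j), at_ (q i) z + at_ (q j) z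
          = at_ (q i) z + at_ (q m) z := by
        intro j hj
        rw [Finset.mem_filter] at hj
        have hjm : j ≤ m := J.le_max' j hj.1
        rw [ih (m - j) (by omega) j hj.1 rfl]
      have hci := hc i hi
      rw [Finset.sum_congr rfl hrest, Finset.sum_const] at hci
      set u := at_ (q i) z + at_ (q m) z with hu
      have hK : ev2 χ (tor A B u) = ev2 χ (tor A B (at_ (q i) z)) +
          ev2 χ (tor A B (at_ (q m) z)) := by
        rw [hu, map_add, map_add]
      have hcc : c = ev2 χ (tor A B (at_ (q m) z)) := EvA_eq_of_add hmeq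
      rw [hcc] at hci
      have hKu : ev2 χ (tor A B u) + χ 0 • ((J.filter (fun j => i < j)).card • u) = 0 := by
        rw [hK, add_comm (ev2 χ (tor A B (at_ (q i) z)))]
        exact hci
      have hnsm : (J.filter (fun j => i < j)).card • u
          = ((J.filter (fun j => i < j)).card : ZMod 2) • u := by
        rw [Nat.cast_smul_eq_nsmul]
      rw [hnsm, smul_smul] at hKu
      have hu0 : u = 0 := by
        have hcases : ∀ x y : ZMod 2, x * y = 0 ∨ (x = 1 ∧ x * y = 1) := by decide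
        rcases hcases (χ 0) ((J.filter (fun j => i < j)).card : ZMod 2) with h0 | ⟨hx, h1⟩
        · rw [h0, zero_smul, add_zero] at hKu
          exact hχ.inj u hKu
        · rw [h1, one_smul] at hKu
          exact hχ.fix hx u (EvA_eq_of_add hKu)
      exact EvA_eq_of_add hu0
  intro i hi j hj
  rw [key _ i hi rfl, key _ j hj rfl]

end Pool.Agent.H93.MQ
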