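import Pool.Agent.H93.MQ.Asm

/-!
The multiquadratic theorem in terms of cocycles.
-/

set_option autoImplicit false
set_option linter.style.haveILetI false
open scoped Classical

open NumberField IsDedekindDomain WeierstrassCurve Pool.Agent.H10

namespace Pool.Agent.H93.MQ

section defs

variable (K : Type) [Field K] [NumberField K] (W : WeierstrassCurve K)

/-- The Tate-Shafarevich group of `W` over `K` has no element of order two: every everywhere locally
trivial continuous cocycle `f` for which `2 f` is a coboundary is a coboundary. -/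
def TwoTorsionTrivial : Prop :=
  ∀ f : (AlgebraicClosure K ≃ₐ[K] AlgebraicClosure K) →
      (W.baseChange (AlgebraicClosure K)).toAffine.Point,
    IsCocycle K W f → IsLocTriv K W f → IsCobound K W (fun σ => 2 • f σ) → IsCobound K W f

/-- The two-primary part of the Tate-Shafarevich group of `W` over `K` is finite: the everywhere
locally trivial continuous cocycles `f` for which `2 ^ m f` is a coboundary for some `m` fall into
finitely many classes modulo coboundaries. -/
def TwoPartFinite : Prop :=
  ∃ S : Set ((AlgebraicClosure K ≃ₐ[K] AlgebraicClosure K) →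
      (W.baseChange (AlgebraicClosure K)).toAffine.Point), S.Finite ∧
    ∀ f : (AlgebraicClosure K ≃ₐ[K] AlgebraicClosure K) →
        (W.baseChange (AlgebraicClosure K)).toAffine.Point,
      IsCocycle K W f → IsLocTriv K W f → (∃ m : ℕ, IsCobound K W (fun σ => (2 ^ m) • f σ)) →
      ∃ g ∈ S, IsCobound K W (fun σ => f σ - g σ)

variable {K W}

lemma sha_of_twoTorsionTrivial (h : TwoTorsionTrivial K W) (x : Sha K W) (hx : 2 • x = 0) :
    x = 0 := by
  obtain ⟨f, rfl⟩ := Sha.mk_surjective x
  rw [← Sha.mk_nsmul, Sha.mk_eq_zero] at hx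
  rw [Sha.mk_eq_zero]
  exact h f.1 f.2.1 f.2.2 hx

lemma twoPartFinite_of (h : {x : Sha K W | ∃ m : ℕ, 2 ^ m • x = 0}.Finite) :
    TwoPartFinite K W := by
  obtain ⟨rep, hrep⟩ : ∃ rep : Sha K W → ShaZ K W, ∀ x, Sha.mk (rep x) = x :=
    ⟨Function.surjInv Sha.mk_surjective, Function.surjInv_eq Sha.mk_surjective⟩
  refine ⟨(fun x => (rep x : Coch K W)) '' {x : Sha K W | ∃ m : ℕ, 2 ^ m • x = 0}, h.image _, ?_⟩
  rintro f hf hl ⟨m, hm⟩
  refine ⟨_, ⟨Sha.mk ⟨f, hf, hl⟩, ⟨m, ?_⟩, rfl⟩, ?_⟩
  · rw [← Sha.mk_nsmul, Sha.mk_eq_zero]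
    exact hm
  · have h1 : Sha.mk (⟨f, hf, hl⟩ : ShaZ K W) - Sha.mk (rep (Sha.mk ⟨f, hf, hl⟩)) =
        Sha.mk (⟨f, hf, hl⟩ - rep (Sha.mk ⟨f, hf, hl⟩)) := rfl
    rw [hrep, sub_self] at h1
    exact (Sha.mk_eq_zero _).1 h1.symm

end defs

/-- There is a real infinite multiquadratic field `F` in which all primes of `P` split completely,
over which `y^2 = x (x - A) (x - B)` has only finitely many points, and such that the two-primary
part of the Tate-Shafarevich group over `K` is finite for all number fields `K` inside `F`. -/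
def FiniteOverMultiquadratic (A B : ℤ) (P : Finset ℕ) : Prop :=
  ∃ F : IntermediateField ℚ ℝ, MultiQuad P F ∧ Finite (cu F A B).toAffine.Point ∧
    ∀ (K : Type) [Field K] [NumberField K], Nonempty (K →+* F) → TwoPartFinite K (cu K A B)

lemma Controlled.finite {A B : ℤ} {P : Finset ℕ} (h : Controlled A B P) :
    FiniteOverMultiquadratic A B P := by
  obtain ⟨F, h1, h2, h3⟩ := h
  exact ⟨F, h1, h2, fun K _ _ hK => twoPartFinite_of (h3 K hK)⟩

end Pool.Agent.H93.MQ
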