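import Pool.Agent.H93.MQ.QSha
import Pool.Agent.H93.MQ.QPts
import Pool.Agent.H93.MQ.SelC

/-!
ROW GStep (project MP_78d38b_MQ). Going up one quadratic step for all even twists.

`good_step`: `L = K(s)` with `s² = q 0 * q j`, `j ≠ 0`. `L/K` is normal: it is generated by `s`, a root
of `X² - q₀ q_j` over `K`, whose roots are `± s` (for instance `IntermediateField`/
`Normal.of_isSplittingField`, or show that every element `a + b s` is integral with splitting
minimal polynomial; the polynomial `(X - a)² - b² q₀ q_j` kills `a + b s` and splits with roots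
`a ± b s`). An automorphism satisfies `(σ s)² = s²`, so `σ s = ± s`, and it is determined by `σ s`
by `hgen`. Let `J` be even and `J' = symmDiff J {0, j}`, which is even too (`{0, j}` has two
elements). With `c = ∏ i ∈ J ∩ {0, j}, q i` one has `dd q J * (q 0 * q j) = dd q J' * c ^ 2`; put
`s' = s / c`, so `dd q J' = s'^2 * dd q J` in `L`, and `Rsc s' (cu L (A d) (B d)) (cu L (A d') (B d'))`
by `rsc_cu`. `σ s' = ± s'` accordingly. Apply `bdd_step` and `fin_step` with
`V₀ = cu K (A d) (B d)`, `V₀' = cu K (A d') (B d')` (`cu_map`), ellipticity from `isCub_cu` and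
`IsCub.isElliptic` (`dd q J ≠ 0`, `NZ.scale`).

`good_triv`: if `algebraMap K L` is surjective then `L/K` is normal with trivial automorphism group;
apply `bdd_step` and `fin_step` with `V' = V`, `s = 1`.
-/

set_option autoImplicit false
set_option linter.style.haveILetI false
open scoped Classical

open NumberField IsDedekindDomain WeierstrassCurve Pool.Agent.H10 Pool.Agent.H11

namespace Pool.Agent.H93.MQ

private theorem GStep_normal {K L : Type} [Field K] [Field L] [Algebra K L] {s : L} {c : K}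
    (hs : s ^ 2 = algebraMap K L c)
    (hgen : ∀ x : L, ∃ a b : K, x = algebraMap K L a + algebraMap K L b * s) : Normal K L := by
  rw [normal_iff]
  intro x
  obtain ⟨a, b, hx⟩ := hgen x
  set P : Polynomial K := (Polynomial.X - Polynomial.C a) ^ 2 - Polynomial.C (b ^ 2 * c) with hP
  have hmonic : P.Monic := by
    have h1 : ((Polynomial.X - Polynomial.C a) ^ 2 : Polynomial K).Monic :=
      (Polynomial.monic_X_sub_C a).pow 2
    refine h1.sub_of_left ?_
    rw [Polynomial.degree_pow, Polynomial.degree_X_sub_C]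
    refine lt_of_le_of_lt Polynomial.degree_C_le ?_
    norm_num
  have hfac : P.map (algebraMap K L) =
      (Polynomial.X - Polynomial.C x) *
        (Polynomial.X - Polynomial.C (algebraMap K L a - algebraMap K L b * s)) := by
    rw [hP]
    simp only [Polynomial.map_sub, Polynomial.map_pow, Polynomial.map_X, Polynomial.map_C]
    have h2 : algebraMap K L (b ^ 2 * c) = (algebraMap K L b * s) ^ 2 := by
      rw [map_mul, map_pow, mul_pow, hs]
    rw [h2, hx]
    simp only [Polynomial.C_add, Polynomial.C_sub, Polynomial.C_pow]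
    ring
  have haeval : Polynomial.aeval x P = 0 := by
    rw [Polynomial.aeval_def, ← Polynomial.eval_map, hfac]
    simp
  refine ⟨⟨P, hmonic, haeval⟩, ?_⟩
  have hdvd : minpoly K x ∣ P := minpoly.dvd K x haeval
  have hsp : (P.map (algebraMap K L)).Splits := by
    rw [hfac]
    exact (Polynomial.Splits.X_sub_C _).mul (Polynomial.Splits.X_sub_C _)
  exact hsp.of_dvd (hmonic.map _).ne_zero (Polynomial.map_dvd _ hdvd)

private theorem GStep_even {J : Finset ℕ} (hJ : Even J.card) {j : ℕ} (hj : j ≠ 0) :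
    Even ((J \ {0, j}) ∪ ({0, j} \ J)).card := by
  have hT : ({0, j} : Finset ℕ).card = 2 := Finset.card_pair (Ne.symm hj)
  have hd : Disjoint (J \ {0, j}) ({0, j} \ J) := by
    rw [Finset.disjoint_left]
    intro x hx hx'
    exact (Finset.mem_sdiff.1 hx').2 (Finset.mem_sdiff.1 hx).1
  rw [Finset.card_union_of_disjoint hd]
  have h1 := Finset.card_sdiff_add_card_inter J {0, j}
  have h2 := Finset.card_sdiff_add_card_inter ({0, j} : Finset ℕ) J
  rw [Finset.inter_comm] at h2
  obtain ⟨m, hm⟩ := hJ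
  rw [hT] at h2
  rw [Nat.even_iff]
  omega

private theorem GStep_dd (q : ℕ → ℕ) (J : Finset ℕ) {j : ℕ} (hj : j ≠ 0) :
    dd q J * ((q 0 : ℤ) * q j) =
      dd q ((J \ {0, j}) ∪ ({0, j} \ J)) * (dd q (J ∩ {0, j})) ^ 2 := by
  have hd : Disjoint (J \ {0, j}) ({0, j} \ J) := by
    rw [Finset.disjoint_left]
    intro x hx hx'
    exact (Finset.mem_sdiff.1 hx').2 (Finset.mem_sdiff.1 hx).1
  have hT : (q 0 : ℤ) * q j = dd q {0, j} := by
    unfold dd
    rw [Finset.prod_pair (Ne.symm hj)]
  have h1 : dd q J = dd q (J ∩ {0, j}) * dd q (J \ {0, j}) := by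
    unfold dd
    rw [← Finset.prod_inter_mul_prod_sdiff J {0, j}]
  have h2 : dd q {0, j} = dd q (J ∩ {0, j}) * dd q ({0, j} \ J) := by
    unfold dd
    rw [← Finset.prod_inter_mul_prod_sdiff {0, j} J, Finset.inter_comm]
  have h3 : dd q ((J \ {0, j}) ∪ ({0, j} \ J)) = dd q (J \ {0, j}) * dd q ({0, j} \ J) := by
    unfold dd
    rw [Finset.prod_union hd]
  rw [hT, h1, h2, h3]
  ring

private theorem GStep_ne {q : ℕ → ℕ} (hq : ∀ i, q i ≠ 0) (J : Finset ℕ) : dd q J ≠ 0 := by
  unfold dd
  exact Finset.prod_ne_zero_iff.2 fun i _ => by exact_mod_cast hq i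

theorem good_step {q : ℕ → ℕ} {A B : ℤ} (h : NZ A B) (hq : ∀ i, q i ≠ 0) {K L : Type} [Field K]
    [NumberField K] [Field L] [NumberField L] [Algebra K L] {j : ℕ} (hj : j ≠ 0) {s : L}
    (hs : s ^ 2 = ((q 0 * q j : ℕ) : L))
    (hgen : ∀ x : L, ∃ a b : K, x = algebraMap K L a + algebraMap K L b * s)
    (H : GoodOver q A B K) : GoodOver q A B L := by
  have hnorm : Normal K L := GStep_normal (c := ((q 0 * q j : ℕ) : K)) (by rw [hs, map_natCast]) hgen
  have hs0 : s ≠ 0 := by
    intro h0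
    rw [h0, zero_pow two_ne_zero] at hs
    have h1 : q 0 * q j = 0 := by exact_mod_cast hs.symm
    rcases mul_eq_zero.1 h1 with h2 | h2
    · exact hq _ h2
    · exact hq _ h2
  have hsig : ∀ σ : L ≃ₐ[K] L, σ s = s ∨ σ s = -s := by
    intro σ
    have h1 : (σ s) ^ 2 = s ^ 2 := by
      rw [← map_pow, hs, map_natCast]
    exact sq_eq_sq_iff_eq_or_eq_neg.1 h1
  have hfix : ∀ σ : L ≃ₐ[K] L, σ s = s → σ = 1 := by
    intro σ h1
    ext x
    obtain ⟨a, b, hx⟩ := hgen x
    rw [hx, map_add, map_mul, AlgEquiv.commutes, AlgEquiv.commutes, h1]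
    simp
  intro J hJ
  set J' := (J \ {0, j}) ∪ ({0, j} \ J) with hJ'
  have hJe : Even J'.card := GStep_even hJ hj
  set c : ℤ := dd q (J ∩ {0, j}) with hcd
  have hc0 : (c : L) ≠ 0 := by
    have := GStep_ne hq (J ∩ {0, j})
    exact_mod_cast this
  have hrel : (dd q J : L) * s ^ 2 = (dd q J' : L) * (c : L) ^ 2 := by
    have h1 := congrArg (fun z : ℤ => (z : L)) (GStep_dd q J hj)
    rw [hs]
    push_cast at h1 ⊢
    exact h1
  set s' : L := s / c with hs'
  have hs'0 : s' ≠ 0 := div_ne_zero hs0 hc0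
  have hd : ((dd q J' : ℤ) : L) = s' ^ 2 * ((dd q J : ℤ) : L) := by
    rw [hs', div_pow]
    field_simp
    linear_combination -hrel
  have hR : Rsc s' (cu L (A * dd q J) (B * dd q J)) (cu L (A * dd q J') (B * dd q J')) :=
    rsc_cu hs'0 hd
  have hcσ : ∀ σ : L ≃ₐ[K] L, σ s' = σ s / c := by
    intro σ
    rw [hs', map_div₀, map_intCast]
  have hσ : ∀ σ : L ≃ₐ[K] L, σ = 1 ∨ σ s' = -s' := by
    intro σ
    rcases hsig σ with h1 | h1
    · exact Or.inl (hfix σ h1)
    · right
      rw [hcσ, h1, hs', neg_div]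
  have huniq : ∀ σ τ : L ≃ₐ[K] L, σ s' = -s' → τ s' = -s' → σ = τ := by
    intro σ τ h1 h2
    have h3 : ∀ ρ : L ≃ₐ[K] L, ρ s' = -s' → ρ s = -s := by
      intro ρ h4
      rw [hcσ, hs', ← neg_div, div_left_inj' hc0] at h4
      exact h4
    ext x
    obtain ⟨a, b, hx⟩ := hgen x
    rw [hx, map_add, map_mul, map_add, map_mul, AlgEquiv.commutes, AlgEquiv.commutes,
      AlgEquiv.commutes, AlgEquiv.commutes, h3 σ h1, h3 τ h2]
  have hell : (cu L (A * dd q J) (B * dd q J)).IsElliptic :=
    (isCub_cu (h.scale (GStep_ne hq J))).isElliptic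
  exact ⟨bdd_step (cu_map (algebraMap K L) _ _) (cu_map (algebraMap K L) _ _) hR hσ huniq
      (H J hJ).1 (H J' hJe).1,
    fin_step (cu_map (algebraMap K L) _ _) (cu_map (algebraMap K L) _ _) hR hσ huniq
      (H J hJ).2 (H J' hJe).2⟩

theorem good_triv {q : ℕ → ℕ} {A B : ℤ} (h : NZ A B) (hq : ∀ i, q i ≠ 0) {K L : Type} [Field K]
    [NumberField K] [Field L] [NumberField L] [Algebra K L]
    (hs : Function.Surjective (algebraMap K L))
    (H : GoodOver q A B K) : GoodOver q A B L := by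
  have hnorm : Normal K L := by
    refine GStep_normal (s := 1) (c := 1) (by simp) fun x => ?_
    obtain ⟨a, ha⟩ := hs x
    exact ⟨a, 0, by simp [ha]⟩
  have hone : ∀ σ : L ≃ₐ[K] L, σ = 1 := by
    intro σ
    ext x
    obtain ⟨a, ha⟩ := hs x
    rw [← ha, AlgEquiv.commutes]
    simp
  intro J hJ
  have hR : Rsc (1 : L) (cu L (A * dd q J) (B * dd q J)) (cu L (A * dd q J) (B * dd q J)) :=
    ⟨one_ne_zero, by simp, by simp, by simp, by simp, by simp⟩
  have hell : (cu L (A * dd q J) (B * dd q J)).IsElliptic :=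
    (isCub_cu (h.scale (GStep_ne hq J))).isElliptic
  exact ⟨bdd_step (cu_map (algebraMap K L) _ _) (cu_map (algebraMap K L) _ _) hR
      (fun σ => Or.inl (hone σ)) (fun σ τ _ _ => (hone σ).trans (hone τ).symm)
      (H J hJ).1 (H J hJ).1,
    fin_step (cu_map (algebraMap K L) _ _) (cu_map (algebraMap K L) _ _) hR
      (fun σ => Or.inl (hone σ)) (fun σ τ _ _ => (hone σ).trans (hone τ).symm)
      (H J hJ).2 (H J hJ).2⟩

end Pool.Agent.H93.MQ
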