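import Pool.Agent.H93.MQ.Defs

/-!
ROW Prim (project MP_78d38b_MQ). From p-adic solutions to primitive integral solutions of
congruences.

Scale the p-adic solution by a power of `p` (the coordinate of maximal norm) so that all
coordinates lie in `ℤ_[p]` and one of them has norm one; then apply the ring homomorphism
`PadicInt.toZModPow k : ℤ_[p] →+* ZMod (p ^ k)` and take integer representatives of the residues
(for primitivity apply `PadicInt.toZMod`/norm, note `k ≥ 1` is assumed; a residue divisible by `p`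
comes from an element of norm less than one). The result `exists_prim` in
`Pool/Agent/H10/RatLoc.lean` is the same for the adic completion; it can also be used after
transport along the ring isomorphism `Padic.adicCompletionEquiv p` or
`Rat.HeightOneSpectrum.adicCompletion.padicEquiv` (Mathlib.NumberTheory.Padics.HeightOneSpectrum),
but the direct proof is easy.
-/

set_option autoImplicit false

open NumberField IsDedekindDomain WeierstrassCurve Pool.Agent.H10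

namespace Pool.Agent.H93.MQ

theorem Prim_gen {p : ℕ} [Fact p.Prime] {r : ℕ} (f : Fin r → ℚ_[p]) (hf : ∃ i, f i ≠ 0) (k : ℕ)
    (hk : k ≠ 0) : ∃ (t : ℚ_[p]) (w c : Fin r → ℤ_[p]) (a : Fin r → ℤ), t ≠ 0 ∧
      (∀ i, ((w i : ℤ_[p]) : ℚ_[p]) = f i / t) ∧
      (∀ i, ((a i : ℤ) : ℤ_[p]) = w i - (p : ℤ_[p]) ^ k * c i) ∧ ∃ i, ¬ (p : ℤ) ∣ a i := by
  obtain ⟨j, hj⟩ := hf
  have : Nonempty (Fin r) := ⟨j⟩
  obtain ⟨i0, hi0⟩ := Finite.exists_max (fun i => ‖f i‖)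
  have ht : f i0 ≠ 0 := by
    intro h0
    have h1 := hi0 j
    rw [h0, norm_zero] at h1
    exact hj (norm_le_zero_iff.1 h1)
  have hle : ∀ i, ‖f i / f i0‖ ≤ 1 := by
    intro i
    rw [norm_div]
    exact div_le_one_of_le₀ (hi0 i) (norm_nonneg _)
  let w : Fin r → ℤ_[p] := fun i => ⟨f i / f i0, hle i⟩
  have hw0 : w i0 = 1 := by
    apply Subtype.ext
    show f i0 / f i0 = ((1 : ℤ_[p]) : ℚ_[p])
    rw [div_self ht, PadicInt.coe_one]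
  have hc : ∀ i, ∃ c : ℤ_[p], w i - ((w i).appr k : ℤ_[p]) = (p : ℤ_[p]) ^ k * c := by
    intro i
    have h1 := PadicInt.appr_spec k (w i)
    rw [Ideal.mem_span_singleton] at h1
    exact h1
  choose c hc using hc
  refine ⟨f i0, w, c, fun i => ((w i).appr k : ℤ), ht, fun i => rfl, ?_, i0, ?_⟩
  · intro i
    push_cast
    linear_combination -(hc i)
  · intro hdvd
    have h2 : (p : ℤ_[p]) ∣ (((w i0).appr k : ℤ) : ℤ_[p]) := by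
      obtain ⟨e, he⟩ := hdvd
      have he' : ((w i0).appr k : ℤ) = p * e := he
      exact ⟨(e : ℤ_[p]), by rw [he']; push_cast; ring⟩
    have h3 : (p : ℤ_[p]) ∣ 1 := by
      rw [← hw0]
      have h4 : w i0 = (((w i0).appr k : ℤ) : ℤ_[p]) + (p : ℤ_[p]) ^ k * c i0 := by
        push_cast
        linear_combination hc i0
      rw [h4]
      exact dvd_add h2 (Dvd.dvd.mul_right (dvd_pow_self _ hk) _)
    exact PadicInt.prime_p.not_isUnit (isUnit_of_dvd_one h3)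

theorem prim_conic {p : ℕ} [Fact p.Prime] {x y : ℤ} {X Y Z : ℚ_[p]}
    (hne : X ≠ 0 ∨ Y ≠ 0 ∨ Z ≠ 0) (h : (x : ℚ_[p]) * X ^ 2 + (y : ℚ_[p]) * Y ^ 2 = Z ^ 2)
    (k : ℕ) (hk : k ≠ 0) :
    ∃ a b c : ℤ, ¬ ((p : ℤ) ∣ a ∧ (p : ℤ) ∣ b ∧ (p : ℤ) ∣ c) ∧
      (p : ℤ) ^ k ∣ x * a ^ 2 + y * b ^ 2 - c ^ 2 := by
  obtain ⟨t, w, c, a, ht, hw, ha, i, hi⟩ := Prim_gen ![X, Y, Z] (by
    rcases hne with h | h | h
    · exact ⟨0, h⟩
    · exact ⟨1, h⟩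
    · exact ⟨2, h⟩) k hk
  have w0 : ((w 0 : ℤ_[p]) : ℚ_[p]) = X / t := hw 0
  have w1 : ((w 1 : ℤ_[p]) : ℚ_[p]) = Y / t := hw 1
  have w2 : ((w 2 : ℤ_[p]) : ℚ_[p]) = Z / t := hw 2
  have F : (x : ℤ_[p]) * w 0 ^ 2 + (y : ℤ_[p]) * w 1 ^ 2 = w 2 ^ 2 := by
    apply PadicInt.ext
    push_cast
    rw [w0, w1, w2]
    field_simp
    exact h
  refine ⟨a 0, a 1, a 2, ?_, ?_⟩
  · rintro ⟨h0, h1, h2⟩
    apply hi
    fin_cases i
    · exact h0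
    · exact h1
    · exact h2
  · rw [← PadicInt.pow_p_dvd_int_iff]
    push_cast
    rw [ha 0, ha 1, ha 2]
    exact ⟨x * (-2 * w 0 * c 0 + (p : ℤ_[p]) ^ k * c 0 ^ 2) +
      y * (-2 * w 1 * c 1 + (p : ℤ_[p]) ^ k * c 1 ^ 2) -
      (-2 * w 2 * c 2 + (p : ℤ_[p]) ^ k * c 2 ^ 2), by linear_combination F⟩

theorem prim_sol {p : ℕ} [Fact p.Prime] {A B m n : ℤ} (H : Sol ℚ_[p] A B m n)
    (k : ℕ) (hk : k ≠ 0) :
    ∃ z₀ z₁ z₂ z₃ : ℤ, ¬ ((p : ℤ) ∣ z₀ ∧ (p : ℤ) ∣ z₁ ∧ (p : ℤ) ∣ z₂ ∧ (p : ℤ) ∣ z₃) ∧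
      (p : ℤ) ^ k ∣ m * z₁ ^ 2 - (n * z₂ ^ 2 + A * z₀ ^ 2) ∧
      (p : ℤ) ^ k ∣ m * z₁ ^ 2 - (m * n * z₃ ^ 2 + B * z₀ ^ 2) := by
  obtain ⟨z₀, z₁, z₂, z₃, hne, h1, h2⟩ := H
  obtain ⟨t, w, c, a, ht, hw, ha, i, hi⟩ := Prim_gen ![z₀, z₁, z₂, z₃] (by
    rcases hne with h | h | h | h
    · exact ⟨0, h⟩
    · exact ⟨1, h⟩
    · exact ⟨2, h⟩
    · exact ⟨3, h⟩) k hk
  have w0 : ((w 0 : ℤ_[p]) : ℚ_[p]) = z₀ / t := hw 0
  have w1 : ((w 1 : ℤ_[p]) : ℚ_[p]) = z₁ / t := hw 1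
  have w2 : ((w 2 : ℤ_[p]) : ℚ_[p]) = z₂ / t := hw 2
  have w3 : ((w 3 : ℤ_[p]) : ℚ_[p]) = z₃ / t := hw 3
  have F1 : (m : ℤ_[p]) * w 1 ^ 2 = (n : ℤ_[p]) * w 2 ^ 2 + (A : ℤ_[p]) * w 0 ^ 2 := by
    apply PadicInt.ext
    push_cast
    rw [w0, w1, w2]
    field_simp
    linear_combination h1
  have F2 : (m : ℤ_[p]) * w 1 ^ 2 = (m : ℤ_[p]) * (n : ℤ_[p]) * w 3 ^ 2 + (B : ℤ_[p]) * w 0 ^ 2 := by
    apply PadicInt.ext
    push_cast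
    rw [w0, w1, w3]
    push_cast at h2
    field_simp
    linear_combination h2
  refine ⟨a 0, a 1, a 2, a 3, ?_, ?_, ?_⟩
  · rintro ⟨h0, h1, h2, h3⟩
    apply hi
    fin_cases i
    · exact h0
    · exact h1
    · exact h2
    · exact h3
  · rw [← PadicInt.pow_p_dvd_int_iff]
    push_cast
    rw [ha 0, ha 1, ha 2]
    exact ⟨m * (-2 * w 1 * c 1 + (p : ℤ_[p]) ^ k * c 1 ^ 2) -
      (n * (-2 * w 2 * c 2 + (p : ℤ_[p]) ^ k * c 2 ^ 2) +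
      A * (-2 * w 0 * c 0 + (p : ℤ_[p]) ^ k * c 0 ^ 2)), by linear_combination F1⟩
  · rw [← PadicInt.pow_p_dvd_int_iff]
    push_cast
    rw [ha 0, ha 1, ha 3]
    exact ⟨m * (-2 * w 1 * c 1 + (p : ℤ_[p]) ^ k * c 1 ^ 2) -
      (m * n * (-2 * w 3 * c 3 + (p : ℤ_[p]) ^ k * c 3 ^ 2) +
      B * (-2 * w 0 * c 0 + (p : ℤ_[p]) ^ k * c 0 ^ 2)), by linear_combination F2⟩

end Pool.Agent.H93.MQ
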