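import Pool.Agent.H93.MQ.SolA
import Pool.Agent.H93.MQ.Prim
import Pool.Agent.H93.MQ.ClB

/-!
ROW LocQ (project MP_78d38b_MQ). Local condition at an odd prime `q` dividing `A`, `B`, `A - B`
exactly once (additive reduction of type `I₀^*`): a soluble class is locally the class of a
two-torsion point.

First `at_tor`: since `q` divides `A` exactly once, `cl A q = 1 = cl (-A) q`, and
`cl (A * B) q = 0 = cl (A * (A - B)) q`, so `at_ q (tor A B u) = u` (`tor_apply`, `cl_mul`,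
`cl_apply_prime`/`cl_natPrime`, `cl_apply_of_not_dvd`).

Main statement: let `u = at_ q z` and `z' = z + tor A B u`. Then `at_ q z' = 0` (characteristic
two) and `z'` is soluble (`SolC.add`, `SolC.tor`). Write `z' = (cl m, cl n)`. The valuations of `m`,
`n` at `q` are even, so dividing by an even power of `q` (this does not change the class,
`cl_eq_iff`) we may assume that `q` divides neither `m` nor `n` (use `Sol.congr`/`SolC.sol`).
Take a primitive solution modulo `q ^ 2` (`prim_sol`): `m z₁² = n z₂² + A z₀² = m n z₃² + B z₀²`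
modulo `q ^ 2`, with `A = q a'`, `B = q b'`. Modulo `q`: `m z₁² = n z₂² = m n z₃²`.
If `q` does not divide `z₁`, then it divides neither `z₂` nor `z₃`, hence `z₁² = n z₃²` shows
that `n` is a square modulo `q`, and then `m z₁² = n z₂²` shows that `m` is a square modulo `q`;
by `ev_chi` both coordinates of `ev2 (chi q) z'` vanish. If `q` divides `z₁` then it divides `z₂`
and `z₃`, so `q ^ 2` divides `q a' z₀²`, hence `q` divides `z₀`, contradicting primitivity.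
-/

set_option autoImplicit false

open NumberField IsDedekindDomain WeierstrassCurve Pool.Agent.H10

namespace Pool.Agent.H93.MQ

lemma LocQ_ne {q : ℕ} {a : ℤ} (ha : ¬ (q : ℤ) ∣ a) : a ≠ 0 := by
  rintro rfl
  exact ha (dvd_zero _)

lemma LocQ_nz {q : ℕ} (hq : q.Prime) {A B a' b' : ℤ} (hA : A = q * a') (hB : B = q * b')
    (ha : ¬ (q : ℤ) ∣ a') (hb : ¬ (q : ℤ) ∣ b') (hab : ¬ (q : ℤ) ∣ a' - b') : NZ A B := by
  have hq0 : (q : ℤ) ≠ 0 := by exact_mod_cast hq.ne_zero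
  refine ⟨?_, ?_, ?_⟩
  · rw [hA]; exact mul_ne_zero hq0 (LocQ_ne ha)
  · rw [hB]; exact mul_ne_zero hq0 (LocQ_ne hb)
  · intro h
    apply LocQ_ne hab
    rw [hA, hB] at h
    have := mul_left_cancel₀ hq0 h
    rw [this, sub_self]

lemma LocQ_cl_one {q : ℕ} (hq : q.Prime) {a' : ℤ} (ha : ¬ (q : ℤ) ∣ a') :
    cl ((q : ℤ) * a') q = 1 := by
  have hq0 : (q : ℤ) ≠ 0 := by exact_mod_cast hq.ne_zero
  rw [cl_mul hq0 (LocQ_ne ha), cl_natPrime hq, Finsupp.add_apply, Finsupp.single_eq_same,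
    cl_apply_of_not_dvd (LocQ_ne ha) hq ha, add_zero]

lemma at_tor {q : ℕ} (hq : q.Prime) {A B a' b' : ℤ} (hA : A = q * a') (hB : B = q * b')
    (ha : ¬ (q : ℤ) ∣ a') (hb : ¬ (q : ℤ) ∣ b') (hab : ¬ (q : ℤ) ∣ a' - b')
    (u : ZMod 2 × ZMod 2) : at_ q (tor A B u) = u := by
  have nz := LocQ_nz hq hA hB ha hb hab
  have hAB : A - B ≠ 0 := sub_ne_zero.2 nz.hAB
  have h1 : cl A q = 1 := by rw [hA]; exact LocQ_cl_one hq ha
  have h2 : cl B q = 1 := by rw [hB]; exact LocQ_cl_one hq hb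
  have h3 : cl (A - B) q = 1 := by
    rw [hA, hB, ← mul_sub]; exact LocQ_cl_one hq hab
  have h4 : cl (A * B) q = 0 := by
    rw [cl_mul nz.hA nz.hB, Finsupp.add_apply, h1, h2]; rfl
  have h5 : cl (A * (A - B)) q = 0 := by
    rw [cl_mul nz.hA hAB, Finsupp.add_apply, h1, h3]; rfl
  have h6 : cl (-A) q = 1 := by
    rw [neg_eq_neg_one_mul, cl_mul (by norm_num) nz.hA, cl_neg_one, Finsupp.add_apply, h1,
      Finsupp.single_eq_of_ne hq.ne_zero, zero_add]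
  rw [at_apply, tor_apply]
  simp only [Finsupp.add_apply, Finsupp.smul_apply, h1, h4, h5, h6, smul_eq_mul, mul_one,
    mul_zero, add_zero, zero_add]

/-- Removing an even power of `q`. -/
lemma LocQ_red {q : ℕ} (hq : q.Prime) {m : ℤ} (hm : m ≠ 0) (h : cl m q = 0) :
    ∃ m' : ℤ, ¬ (q : ℤ) ∣ m' ∧ cl m = cl m' := by
  have hq0 : (q : ℤ) ≠ 0 := by exact_mod_cast hq.ne_zero
  have hfin : FiniteMultiplicity (q : ℤ) m := by
    rw [Int.finiteMultiplicity_iff]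
    refine ⟨?_, hm⟩
    rw [Int.natAbs_natCast]
    exact hq.one_lt.ne'
  obtain ⟨c, hc, hqc⟩ := hfin.exists_eq_pow_mul_and_not_dvd
  have hc0 := LocQ_ne hqc
  rcases Nat.even_or_odd' (multiplicity (q : ℤ) m) with ⟨j, hj | hj⟩
  · refine ⟨c, hqc, ?_⟩
    rw [hc, hj, mul_comm 2 j, pow_mul, cl_mul (pow_ne_zero _ (pow_ne_zero _ hq0)) hc0,
      cl_sq (pow_ne_zero _ hq0), zero_add]
  · exfalso
    have h1 : m = ((q : ℤ) ^ j) ^ 2 * ((q : ℤ) * c) := by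
      rw [hj] at hc
      rw [hc]; ring
    rw [h1, cl_mul (pow_ne_zero _ (pow_ne_zero _ hq0)) (mul_ne_zero hq0 hc0),
      cl_sq (pow_ne_zero _ hq0), zero_add, LocQ_cl_one hq hqc] at h
    exact one_ne_zero h

theorem LocQ_squares {q : ℕ} [Fact q.Prime] {A B a' m n : ℤ} (hA : A = q * a')
    (hqB : (q : ℤ) ∣ B) (ha : ¬ (q : ℤ) ∣ a') (hm : ¬ (q : ℤ) ∣ m) (hn : ¬ (q : ℤ) ∣ n)
    (H : Sol ℚ_[q] A B m n) :
    IsSquare ((m : ℤ) : ZMod q) ∧ IsSquare ((n : ℤ) : ZMod q) := by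
  have hq : q.Prime := Fact.out
  have hqp : Prime (q : ℤ) := Nat.prime_iff_prime_int.1 hq
  have hqA : (q : ℤ) ∣ A := ⟨a', hA⟩
  obtain ⟨z₀, z₁, z₂, z₃, hprim, h1, h2⟩ := prim_sol H 2 (by norm_num)
  have hqq : (q : ℤ) ∣ (q : ℤ) ^ 2 := dvd_pow_self _ (by norm_num)
  have hm' : ((m : ℤ) : ZMod q) ≠ 0 := by
    rwa [Ne, ZMod.intCast_zmod_eq_zero_iff_dvd]
  have hn' : ((n : ℤ) : ZMod q) ≠ 0 := by
    rwa [Ne, ZMod.intCast_zmod_eq_zero_iff_dvd]
  have hA' : ((A : ℤ) : ZMod q) = 0 := by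
    rwa [ZMod.intCast_zmod_eq_zero_iff_dvd]
  have hB' : ((B : ℤ) : ZMod q) = 0 := by
    rwa [ZMod.intCast_zmod_eq_zero_iff_dvd]
  have h1' := (ZMod.intCast_zmod_eq_zero_iff_dvd _ q).2 (dvd_trans hqq h1)
  have h2' := (ZMod.intCast_zmod_eq_zero_iff_dvd _ q).2 (dvd_trans hqq h2)
  push_cast at h1' h2'
  rw [hA', zero_mul, add_zero] at h1'
  rw [hB', zero_mul, add_zero] at h2'
  have h3 : (z₁ : ZMod q) ^ 2 = (n : ZMod q) * (z₃ : ZMod q) ^ 2 := by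
    have : (m : ZMod q) * ((z₁ : ZMod q) ^ 2 - (n : ZMod q) * (z₃ : ZMod q) ^ 2) = 0 := by
      linear_combination h2'
    exact sub_eq_zero.1 ((mul_eq_zero.1 this).resolve_left hm')
  by_cases hz1 : (z₁ : ZMod q) = 0
  · exfalso
    have h4 : (z₃ : ZMod q) = 0 := by
      rw [hz1, zero_pow (by norm_num)] at h3
      exact pow_eq_zero_iff (by norm_num) |>.1 ((mul_eq_zero.1 h3.symm).resolve_left hn')
    have h5 : (z₂ : ZMod q) = 0 := by
      rw [hz1, zero_pow (by norm_num), mul_zero, zero_sub, neg_eq_zero] at h1'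
      exact pow_eq_zero_iff (by norm_num) |>.1 ((mul_eq_zero.1 h1').resolve_left hn')
    rw [ZMod.intCast_zmod_eq_zero_iff_dvd] at hz1 h4 h5
    have h6 : (q : ℤ) ^ 2 ∣ A * z₀ ^ 2 := by
      have e : A * z₀ ^ 2 = m * z₁ ^ 2 - n * z₂ ^ 2 - (m * z₁ ^ 2 - (n * z₂ ^ 2 + A * z₀ ^ 2)) := by
        ring
      rw [e]
      exact dvd_sub (dvd_sub (Dvd.dvd.mul_left (pow_dvd_pow_of_dvd hz1 2) _)
        (Dvd.dvd.mul_left (pow_dvd_pow_of_dvd h5 2) _)) h1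
    have h7 : (q : ℤ) ∣ a' * z₀ ^ 2 := by
      rw [hA, pow_two (q : ℤ), mul_assoc] at h6
      exact (mul_dvd_mul_iff_left hqp.ne_zero).1 h6
    have h8 : (q : ℤ) ∣ z₀ := hqp.dvd_of_dvd_pow ((hqp.dvd_or_dvd h7).resolve_left ha)
    exact hprim ⟨h8, hz1, h5, h4⟩
  · have hz3 : (z₃ : ZMod q) ≠ 0 := by
      intro h
      rw [h, zero_pow (by norm_num), mul_zero] at h3
      exact hz1 (pow_eq_zero_iff (by norm_num) |>.1 h3)
    have hn2 : (n : ZMod q) = ((z₁ : ZMod q) / z₃) ^ 2 := by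
      rw [div_pow, h3, mul_div_assoc, div_self (pow_ne_zero 2 hz3), mul_one]
    have hm2 : (m : ZMod q) = ((z₂ : ZMod q) / z₃) ^ 2 := by
      have e : (m : ZMod q) * (z₁ : ZMod q) ^ 2 =
          ((z₂ : ZMod q) / z₃) ^ 2 * (z₁ : ZMod q) ^ 2 := by
        rw [sub_eq_zero.1 h1', hn2]
        field_simp
      exact mul_right_cancel₀ (pow_ne_zero 2 hz1) e
    exact ⟨⟨_, by rw [hm2, pow_two]⟩, ⟨_, by rw [hn2, pow_two]⟩⟩

theorem loc_q {q : ℕ} [Fact q.Prime] (h2 : q ≠ 2) {A B a' b' : ℤ} (hA : A = q * a')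
    (hB : B = q * b') (ha : ¬ (q : ℤ) ∣ a') (hb : ¬ (q : ℤ) ∣ b') (hab : ¬ (q : ℤ) ∣ a' - b')
    {z : V × V} (H : SolC ℚ_[q] A B z) :
    ev2 (chi q) (z + tor A B (at_ q z)) = 0 := by
  have hq : q.Prime := Fact.out
  have nz := LocQ_nz hq hA hB ha hb hab
  have H' : SolC ℚ_[q] A B (z + tor A B (at_ q z)) := H.add nz (SolC.tor nz _)
  have hat : at_ q (z + tor A B (at_ q z)) = 0 := by
    rw [map_add, at_tor hq hA hB ha hb hab]
    exact CharTwo.add_self_eq_zero _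
  obtain ⟨m, n, hm, hn, hz, _⟩ := id H'
  rw [hz] at hat H' ⊢
  rw [at_apply] at hat
  obtain ⟨m', hm1, hm2⟩ := LocQ_red hq hm (congrArg Prod.fst hat)
  obtain ⟨n', hn1, hn2⟩ := LocQ_red hq hn (congrArg Prod.snd hat)
  rw [hm2, hn2] at H' ⊢
  have HS := SolC.sol (LocQ_ne hm1) (LocQ_ne hn1) H'
  obtain ⟨hs1, hs2⟩ := LocQ_squares hA ⟨b', hB⟩ ha hm1 hn1 HS
  rw [ev2_apply]
  exact Prod.ext ((ev_chi hq h2 hm1).2 hs1) ((ev_chi hq h2 hn1).2 hs2)

end Pool.Agent.H93.MQ
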