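import Pool.Agent.H93.MQ.SelA
import Pool.Agent.H93.MQ.LocQ
import Pool.Agent.H93.MQ.Dir

/-!
ROW StA (project MP_78d38b_MQ). Comparison of the Selmer groups of a twist and of the curve.

Setting (structure `Tw`): `d ≠ 0` is squarefree with all its prime factors in `T`, `T` a finite set of
odd primes disjoint from `S`, every member of `T` divides `d` exactly once, and `d` is a square in
`ℚ_[p]` for `p ∈ S`.

`tw_loc`: for `z ∈ Sel (S ∪ T) (A d) (B d)` and `q ∈ T`: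
`ev2 (chi q) (z + tor (A d) (B d) (at_ q z)) = 0`. This is `loc_q` for `A d = q * (A d')`, where
`d = q d'`, `q ∤ A, B, A - B, d'` (primes dividing `A B (A - B)` are in `S`).

`tw_at`: for `q ∈ T`, `at_ q (tor (A d) (B d) u) = u` (`at_tor`).

`tw_sel`: if `z ∈ Sel (S ∪ T) (A d) (B d)` and `u` satisfies `at_ q z = u` for all `q ∈ T`, then
`z' = z + tor (A d) (B d) u` is supported in `S`, and is soluble for `(A, B)` at the primes of
`S`: it is soluble for `(A d, B d)` (`SolC.add`, `SolC.tor`), now use `SolC.scale`. If moreover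
`0 < d`, then it is soluble over the reals (`d` is a real square), so `z' ∈ Sel S A B`.
-/

set_option autoImplicit false

open NumberField IsDedekindDomain WeierstrassCurve Pool.Agent.H10

namespace Pool.Agent.H93.MQ

/-- Twisting data. -/
structure Tw (S T : Finset ℕ) (d : ℤ) : Prop where
  ne : d ≠ 0
  prime : ∀ q ∈ T, q.Prime
  ne_two : ∀ q ∈ T, q ≠ 2
  disj : Disjoint S T
  dvd : ∀ q : ℕ, q.Prime → ((q : ℤ) ∣ d ↔ q ∈ T)
  once : ∀ q ∈ T, ¬ ((q : ℤ) ^ 2 ∣ d)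
  sq : ∀ (p : ℕ) [Fact p.Prime], p ∈ S → IsSquare ((d : ℤ) : ℚ_[p])

variable {S T : Finset ℕ} {A B d : ℤ}

theorem Tw.adm (hT : Tw S T d) (h : Adm S A B) : Adm (S ∪ T) (A * d) (B * d) := by
  apply h.scale Finset.subset_union_left _ hT.ne
  · intro p hp hpd
    exact Finset.mem_union_right _ ((hT.dvd p hp).1 hpd)
  · intro p hp
    rcases Finset.mem_union.1 hp with hp | hp
    · exact h.prime p hp
    · exact hT.prime p hp

/-- The class of `d` vanishes outside zero and `T`, and is one at `T`. -/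
theorem Tw.cl (hT : Tw S T d) : (∀ q ∈ T, cl d q = 1) ∧ (∀ i, i ≠ 0 → i ∉ T → cl d i = 0) := by
  constructor
  · intro q hq
    have hp := hT.prime q hq
    obtain ⟨d', hd'⟩ := (hT.dvd q hp).2 hq
    have hdd : ¬ (q : ℤ) ∣ d' := by
      intro hh
      apply hT.once q hq
      rw [hd', pow_two]
      exact mul_dvd_mul_left _ hh
    have hd0 : d' ≠ 0 := by
      rintro rfl
      exact hT.ne (by rw [hd', mul_zero])
    rw [hd', cl_mul (by exact_mod_cast hp.ne_zero) hd0, cl_natPrime hp, Finsupp.add_apply,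
      Finsupp.single_eq_same, cl_apply_of_not_dvd hd0 hp hdd, add_zero]
  · intro i hi hiT
    by_cases hp : i.Prime
    · exact cl_apply_of_not_dvd hT.ne hp (fun hh => hiT ((hT.dvd i hp).1 hh))
    · exact cl_apply_of_not_prime d hi hp

theorem StA_split (h : Adm S A B) (hT : Tw S T d) {q : ℕ} (hq : q ∈ T) :
    ∃ d' : ℤ, d = q * d' ∧ ¬ (q : ℤ) ∣ d' ∧ ¬ (q : ℤ) ∣ A * d' ∧ ¬ (q : ℤ) ∣ B * d' ∧
      ¬ (q : ℤ) ∣ A * d' - B * d' := by
  have hp := hT.prime q hq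
  have hpi : Prime (q : ℤ) := Nat.prime_iff_prime_int.1 hp
  obtain ⟨d', hd'⟩ := (hT.dvd q hp).2 hq
  have hqS : q ∉ S := fun hS => (Finset.disjoint_left.1 hT.disj) hS hq
  have hbad : ¬ (q : ℤ) ∣ A * B * (A - B) := fun hh => hqS (h.bad q hp hh)
  have hdd : ¬ (q : ℤ) ∣ d' := by
    intro hh
    apply hT.once q hq
    rw [hd', pow_two]
    exact mul_dvd_mul_left _ hh
  have hA : ¬ (q : ℤ) ∣ A := fun hh => hbad (Dvd.dvd.mul_right (Dvd.dvd.mul_right hh _) _)
  have hB : ¬ (q : ℤ) ∣ B := fun hh => hbad (Dvd.dvd.mul_right (Dvd.dvd.mul_left hh _) _)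
  have hAB : ¬ (q : ℤ) ∣ A - B := fun hh => hbad (Dvd.dvd.mul_left hh _)
  refine ⟨d', hd', hdd, ?_, ?_, ?_⟩
  · exact fun hh => (hpi.dvd_or_dvd hh).elim hA hdd
  · exact fun hh => (hpi.dvd_or_dvd hh).elim hB hdd
  · rw [← sub_mul]
    exact fun hh => (hpi.dvd_or_dvd hh).elim hAB hdd

theorem StA_two (u : ZMod 2 × ZMod 2) : u + u = 0 :=
  Prod.ext (CharTwo.add_self_eq_zero _) (CharTwo.add_self_eq_zero _)

theorem tw_at (h : Adm S A B) (hT : Tw S T d) {q : ℕ} (hq : q ∈ T) (u : ZMod 2 × ZMod 2) :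
    at_ q (tor (A * d) (B * d) u) = u := by
  obtain ⟨d', hd', -, h1, h2, h3⟩ := StA_split h hT hq
  refine at_tor (hT.prime q hq) (a' := A * d') (b' := B * d') ?_ ?_ h1 h2 h3 u
  · rw [hd']
    ring
  · rw [hd']
    ring

theorem tw_loc (h : Adm S A B) (hT : Tw S T d) {z : V × V}
    (hz : z ∈ Sel (S ∪ T) (A * d) (B * d)) {q : ℕ} (hq : q ∈ T) :
    ev2 (chi q) (z + tor (A * d) (B * d) (at_ q z)) = 0 := by
  obtain ⟨d', hd', -, h1, h2, h3⟩ := StA_split h hT hq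
  have : Fact q.Prime := ⟨hT.prime q hq⟩
  have hz' := (mem_sel (hT.adm h).nz).1 hz
  refine loc_q (hT.ne_two q hq) (a' := A * d') (b' := B * d') ?_ ?_ h1 h2 h3
    (hz'.2.1 q (Finset.mem_union_right _ hq))
  · rw [hd']
    ring
  · rw [hd']
    ring

theorem tw_supp (h : Adm S A B) (hT : Tw S T d) {z : V × V}
    (hz : z ∈ Sel (S ∪ T) (A * d) (B * d)) {u : ZMod 2 × ZMod 2} (hu : ∀ q ∈ T, at_ q z = u) :
    Supp S (z + tor (A * d) (B * d) u) := by
  have hz' := (mem_sel (hT.adm h).nz).1 hz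
  intro i hi hiS
  rw [map_add]
  by_cases hiT : i ∈ T
  · rw [hu i hiT, tw_at h hT hiT, StA_two]
  · have hiU : i ∉ S ∪ T := by
      rw [Finset.mem_union]
      rintro (hh | hh)
      · exact hiS hh
      · exact hiT hh
    rw [hz'.1 i hi hiU, tor_supp (hT.adm h) u i hi hiU, add_zero]

theorem tw_solC (h : Adm S A B) (hT : Tw S T d) {z : V × V}
    (hz : z ∈ Sel (S ∪ T) (A * d) (B * d)) (u : ZMod 2 × ZMod 2) (p : ℕ) [Fact p.Prime]
    (hp : p ∈ S) : SolC ℚ_[p] A B (z + tor (A * d) (B * d) u) := by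
  have hz' := (mem_sel (hT.adm h).nz).1 hz
  exact (SolC.scale hT.ne (hT.sq p hp) _).1 (SolC.add (hT.adm h).nz
    (hz'.2.1 p (Finset.mem_union_left _ hp)) (SolC.tor (hT.adm h).nz u))

theorem tw_sel (h : Adm S A B) (hT : Tw S T d) (hd : 0 < d) {z : V × V}
    (hz : z ∈ Sel (S ∪ T) (A * d) (B * d)) {u : ZMod 2 × ZMod 2} (hu : ∀ q ∈ T, at_ q z = u) :
    z + tor (A * d) (B * d) u ∈ Sel S A B := by
  have hz' := (mem_sel (hT.adm h).nz).1 hz
  refine (mem_sel h.nz).2 ⟨tw_supp h hT hz hu, fun p _ hp => tw_solC h hT hz u p hp, ?_⟩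
  have hsq : IsSquare ((d : ℤ) : ℝ) := by
    refine ⟨Real.sqrt (d : ℝ), (Real.mul_self_sqrt ?_).symm⟩
    exact_mod_cast hd.le
  exact (SolC.scale hT.ne hsq _).1 (SolC.add (hT.adm h).nz hz'.2.2 (SolC.tor (hT.adm h).nz u))

end Pool.Agent.H93.MQ
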