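import Pool.Agent.H93.MQ.SelA
import Pool.Agent.H93.MQ.StA

/-!
ROW GenA (project MP_78d38b_MQ). Consequences of genericity.

* `Gen.hi`: take `χ` = the coordinate at the prime `p` of `Gen.prime` (`Finsupp.lapply p`). Then
  `cl A p = 1`, `cl (A * B) p = 1 + 1 = 0`, `cl (A * (A - B)) p = 0`, `cl (-A) p = 1` (as `p ≠ 0`), so
  `χ (tor A B u) = u`.
* `Gen.hii`: the three nonzero `v`. `v = (1,0)`: `u.1 • cl A + u.2 • cl (A B) = 0`: `cl A ≠ 0`
  (coordinate `p`), `cl (A B) ≠ 0` (`h1`), `cl A + cl (A B) = cl (A² B)`, of coordinate one at `p`.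
  `v = (0,1)`: `cl (A (A - B)) ≠ 0` (`h2`), `cl (-A) ≠ 0`, and the sum has coordinate one at `p`.
  `v = (1,1)`: `cl A + cl (A (A - B)) = cl (A - B)` has coordinate one at `p`;
  `cl (A B) + cl (-A) = cl (-B)` (up to the square `A²`) has coordinate one at `p`, and the sum of
  all four is `cl (-(B (A - B))) = cl (B (B - A)) ≠ 0` (`h3`).
* `Gen.tw`: the prime `p` divides `A`, so lies in `S`, so is not in `T` and `cl d p = 0`
  (`Tw.cl`); `cl (A d * (B d)) = cl (A B)` etc. by `cl_mul`, `x + x = 0`.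
* `tor_inj`: from `Gen.hi`; `range_tor`: the range has dimension two.
-/

set_option autoImplicit false

open NumberField IsDedekindDomain WeierstrassCurve Pool.Agent.H10

namespace Pool.Agent.H93.MQ

variable {S T : Finset ℕ} {A B d : ℤ}

lemma GenA_aa (x : V) : x + x = 0 := by
  ext i
  exact CharTwo.add_self_eq_zero _

lemma GenA_z (x : ZMod 2) : x = 0 ∨ x = 1 := by
  revert x
  decide

lemma GenA_neg {n : ℤ} (hn : n ≠ 0) : cl (-n) = Finsupp.single 0 1 + cl n := by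
  have h : -n = (-1) * n := by ring
  rw [h, cl_mul (by norm_num) hn, cl_neg_one]

/-- the coordinate data of a generic pair -/
lemma GenA_coord (hg : Gen A B) : ∃ p : ℕ, p.Prime ∧ cl A p = 1 ∧ cl B p = 1 ∧ cl (A - B) p = 1 ∧
    cl (A * B) p = 0 ∧ cl (A * (A - B)) p = 0 ∧ cl (-A) p = 1 ∧ cl (-B) p = 1 := by
  obtain ⟨p, hp, h1, h2, h3⟩ := hg.prime
  have hs : (Finsupp.single 0 1 : V) p = 0 := by
    rw [Finsupp.single_apply, if_neg (fun h => hp.ne_zero h.symm)]
  refine ⟨p, hp, h1, h2, h3, ?_, ?_, ?_, ?_⟩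
  · rw [cl_mul hg.nz.hA hg.nz.hB, Finsupp.add_apply, h1, h2]
    decide
  · rw [cl_mul hg.nz.hA (sub_ne_zero.2 hg.nz.hAB), Finsupp.add_apply, h1, h3]
    decide
  · rw [GenA_neg hg.nz.hA, Finsupp.add_apply, hs, h1, zero_add]
  · rw [GenA_neg hg.nz.hB, Finsupp.add_apply, hs, h2, zero_add]

theorem Gen.hi (hg : Gen A B) : ∃ χ : V →ₗ[ZMod 2] ZMod 2, ∀ u : ZMod 2 × ZMod 2,
    (χ (tor A B u).1, χ (tor A B u).2) = (0 : ZMod 2 × ZMod 2) → u = 0 := by
  obtain ⟨p, hp, h1, h2, h3, h4, h5, h6, h7⟩ := GenA_coord hg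
  refine ⟨Finsupp.lapply p, fun u hu => ?_⟩
  rw [tor_apply] at hu
  simp only [map_add, map_smul, Finsupp.lapply_apply, h1, h4, h5, h6, smul_eq_mul, mul_one,
    mul_zero, add_zero, zero_add] at hu
  exact hu

lemma GenA_ne {x : V} {p : ℕ} (h : x p = 1) : x ≠ 0 := by
  intro h0
  rw [h0, Finsupp.zero_apply] at h
  exact absurd h (by decide)

theorem Gen.hii (hg : Gen A B) : ∀ v : ZMod 2 × ZMod 2, v ≠ 0 → ∀ u : ZMod 2 × ZMod 2,
    v.1 • (tor A B u).1 + v.2 • (tor A B u).2 = 0 → u = 0 := by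
  obtain ⟨p, hp, h1, h2, h3, h4, h5, h6, h7⟩ := GenA_coord hg
  rintro ⟨v1, v2⟩ hv ⟨u1, u2⟩ hu
  rw [tor_apply] at hu
  rcases GenA_z v1 with rfl | rfl <;> rcases GenA_z v2 with rfl | rfl <;>
    rcases GenA_z u1 with rfl | rfl <;> rcases GenA_z u2 with rfl | rfl <;>
    simp only [zero_smul, one_smul, add_zero, zero_add] at hu
  · exact absurd rfl hv
  · exact absurd rfl hv
  · exact absurd rfl hv
  · exact absurd rfl hv
  · rfl
  · exact absurd hu (GenA_ne h6)
  · exact absurd hu hg.h2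
  · exact absurd hu (GenA_ne (p := p) (by rw [Finsupp.add_apply, h5, h6, zero_add]))
  · rfl
  · exact absurd hu hg.h1
  · exact absurd hu (GenA_ne h1)
  · exact absurd hu (GenA_ne (p := p) (by rw [Finsupp.add_apply, h1, h4, add_zero]))
  · rfl
  · exact absurd hu (GenA_ne (p := p) (by rw [Finsupp.add_apply, h4, h6, zero_add]))
  · exact absurd hu (GenA_ne (p := p) (by rw [Finsupp.add_apply, h1, h5, add_zero]))
  · exfalso
    apply hg.h3
    have hAB : A - B ≠ 0 := sub_ne_zero.2 hg.nz.hAB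
    have hBA : B - A ≠ 0 := sub_ne_zero.2 (Ne.symm hg.nz.hAB)
    have e1 : cl (B - A) = Finsupp.single 0 1 + cl (A - B) := by
      rw [← GenA_neg hAB, neg_sub]
    rw [cl_mul hg.nz.hA hg.nz.hB, cl_mul hg.nz.hA hAB, GenA_neg hg.nz.hA] at hu
    rw [cl_mul hg.nz.hB hBA, e1, ← hu]
    have e2 : cl A + (cl A + cl B) + (cl A + cl (A - B) + (Finsupp.single 0 1 + cl A)) =
        (cl A + cl A) + (cl A + cl A) + (cl B + (Finsupp.single 0 1 + cl (A - B))) := by
      abel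
    simp only [e2, GenA_aa, zero_add]

theorem Gen.tw (hg : Gen A B) (h : Adm S A B) (hT : Tw S T d) : Gen (A * d) (B * d) := by
  have hA := hg.nz.hA
  have hB := hg.nz.hB
  have hd := hT.ne
  have hAB : A - B ≠ 0 := sub_ne_zero.2 hg.nz.hAB
  have hBA : B - A ≠ 0 := sub_ne_zero.2 (Ne.symm hg.nz.hAB)
  have e1 : A * d - B * d = (A - B) * d := by ring
  have e2 : B * d - A * d = (B - A) * d := by ring
  have hq : ∀ m n : ℤ, m ≠ 0 → n ≠ 0 → cl (m * d * (n * d)) = cl (m * n) := by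
    intro m n hm hn
    rw [cl_mul (mul_ne_zero hm hd) (mul_ne_zero hn hd), cl_mul hm hd, cl_mul hn hd,
      cl_mul hm hn]
    have e3 : cl m + cl d + (cl n + cl d) = cl m + cl n + (cl d + cl d) := by abel
    rw [e3, GenA_aa, add_zero]
  refine ⟨⟨mul_ne_zero hA hd, mul_ne_zero hB hd, fun h' => hg.nz.hAB (mul_right_cancel₀ hd h')⟩,
    ?_, ?_, ?_, ?_⟩
  · obtain ⟨p, hp, h1, h2, h3⟩ := hg.prime
    have hpA : (p : ℤ) ∣ A := by
      by_contra hn
      rw [cl_apply_of_not_dvd hA hp hn] at h1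
      exact absurd h1 (by decide)
    have hpS : p ∈ S := by
      refine h.bad p hp ?_
      rw [mul_assoc]
      exact Dvd.dvd.mul_right hpA _
    have hpT : p ∉ T := fun hpT => (Finset.disjoint_left.1 hT.disj) hpS hpT
    have hd0 : cl d p = 0 := hT.cl.2 p hp.ne_zero hpT
    refine ⟨p, hp, ?_, ?_, ?_⟩
    · rw [cl_mul hA hd, Finsupp.add_apply, h1, hd0, add_zero]
    · rw [cl_mul hB hd, Finsupp.add_apply, h2, hd0, add_zero]
    · rw [e1, cl_mul hAB hd, Finsupp.add_apply, h3, hd0, add_zero]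
  · rw [hq A B hA hB]
    exact hg.h1
  · rw [e1, hq A (A - B) hA hAB]
    exact hg.h2
  · rw [e2, hq B (B - A) hB hBA]
    exact hg.h3

theorem Gen.tor_inj (hg : Gen A B) : Function.Injective (tor A B) := by
  rw [injective_iff_map_eq_zero]
  intro u hu
  obtain ⟨χ, hχ⟩ := hg.hi
  apply hχ
  rw [hu, Prod.fst_zero, Prod.snd_zero, map_zero]
  rfl

theorem Gen.range_tor (hg : Gen A B) :
    Module.finrank (ZMod 2) (LinearMap.range (tor A B)) = 2 := by
  rw [LinearMap.finrank_range_of_inj hg.tor_inj, Module.finrank_prod, Module.finrank_self]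

/-- A Selmer group of dimension at most two consists of the classes of two-torsion points. -/
theorem Gen.le_range (hg : Gen A B) (h : Adm S A B)
    (h2 : Module.finrank (ZMod 2) (Sel S A B) ≤ 2) : Sel S A B ≤ LinearMap.range (tor A B) := by
  have hfin : Module.Finite (ZMod 2) (Sel S A B) := sel_finite h.nz
  have hle : LinearMap.range (tor A B) ≤ Sel S A B := by
    rintro _ ⟨u, rfl⟩
    exact tor_mem h u
  exact (Submodule.eq_of_le_of_finrank_le hle (by rw [hg.range_tor]; exact h2)).ge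

theorem Gen.noFour (hg : Gen A B) : NoFour A B ∧ NoFour (-A) (-B) := by
  obtain ⟨p, hp, h1, h2, h3, h4, h5, h6, h7⟩ := GenA_coord hg
  refine ⟨⟨fun h => GenA_ne h6 h.1, fun h => GenA_ne h1 h.1, fun h => GenA_ne h2 h.1⟩,
    ⟨fun h => ?_, fun h => GenA_ne h6 h.1, fun h => GenA_ne h7 h.1⟩⟩
  rw [neg_neg] at h
  exact GenA_ne h1 h.1

end Pool.Agent.H93.MQ
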