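import Pool.Agent.H93.MQ.HsD

/-!
ROW HsA (project MP_78d38b_MQ). Formal properties of the symbol `hs` (definition in HsD).

`hs p` is bilinear and symmetric by inspection. `hs_self`: `hs p v v = hs p v e₀` where
`e₀ = single 0 1` is the class of `-1`: for `p` odd both sides are `v p * chi p 0` (in `ZMod 2`,
`x * x = x` and `x + x = 0`; `ev (chi p) e₀ = chi p 0`, `e₀ p = 0` as `p ≠ 0`); for `p = 2`
both are `ev eps v` (`ev eps e₀ = 1`, `ev ome e₀ = 0`, `e₀ 2 = 0`).
`hs_of_zero`: for `p ≠ 2` with `w p = 0` only the term `v p * ev (chi p) w` is left.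
`hs_neg_self`: `hs p v (v + e₀) = 0`, from `hs_self` and bilinearity.
-/

set_option autoImplicit false

open NumberField IsDedekindDomain WeierstrassCurve Pool.Agent.H10

namespace Pool.Agent.H93.MQ

lemma hs_add_left (p : ℕ) (v v' w : V) : hs p (v + v') w = hs p v w + hs p v' w := by
  unfold hs
  split_ifs <;> simp only [map_add, Finsupp.add_apply] <;> ring

lemma hs_comm (p : ℕ) (v w : V) : hs p v w = hs p w v := by
  unfold hs
  split_ifs <;> ring

lemma hs_add_right (p : ℕ) (v w w' : V) : hs p v (w + w') = hs p v w + hs p v w' := by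
  rw [hs_comm, hs_add_left, hs_comm p w, hs_comm p w']

lemma hs_smul_left (p : ℕ) (c : ZMod 2) (v w : V) : hs p (c • v) w = c * hs p v w := by
  unfold hs
  split_ifs <;> simp only [map_smul, Finsupp.smul_apply, smul_eq_mul] <;> ring

lemma hs_smul_right (p : ℕ) (c : ZMod 2) (v w : V) : hs p v (c • w) = c * hs p v w := by
  rw [hs_comm, hs_smul_left, hs_comm]

lemma hs_self {p : ℕ} (hp : p ≠ 0) (v : V) : hs p v v = hs p v (Finsupp.single 0 1) := by
  unfold hs
  by_cases h2 : p = 2
  · subst h2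
    rw [if_pos rfl, if_pos rfl, ev_single, ev_single]
    have h1 : (Finsupp.single 0 1 : V) 2 = 0 := by simp
    have h3 : eps 0 = 1 := by simp [eps]
    have h4 : ome 0 = 0 := by simp [ome]
    rw [h1, h3, h4]
    generalize ev eps v = x
    generalize ev ome v = y
    generalize v 2 = z
    revert x y z
    decide
  · rw [if_neg h2, if_neg h2, ev_single]
    have h1 : (Finsupp.single 0 1 : V) p = 0 := Finsupp.single_eq_of_ne hp
    rw [h1]
    generalize ev (chi p) v = x
    generalize chi p 0 = y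
    generalize v p = z
    revert x y z
    decide

lemma hs_neg_self {p : ℕ} (hp : p ≠ 0) (v : V) : hs p v (v + Finsupp.single 0 1) = 0 := by
  rw [hs_add_right, hs_self hp]
  generalize hs p v (Finsupp.single 0 1) = x
  revert x
  decide

lemma hs_of_zero {p : ℕ} (h2 : p ≠ 2) (v w : V) (hw : w p = 0) :
    hs p v w = v p * ev (chi p) w := by
  unfold hs
  rw [if_neg h2, hw]
  ring

private lemma HsA_chi (q i : ℕ) : chi q i = 0 ∨ chi q i = 1 := by
  unfold chi
  split_ifs
  · exact Or.inl rfl
  · exact Or.inr rfl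

private lemma HsA_ind {P : ℤ → Prop} (h1 : P 1) (hneg : ∀ n : ℤ, n % 2 = 1 → P n → P (-n))
    (hmul : ∀ p : ℕ, p.Prime → p ≠ 2 → ∀ n : ℤ, n % 2 = 1 → P n → P (p * n)) :
    ∀ n : ℤ, n % 2 = 1 → P n := by
  have hnat : ∀ m : ℕ, m % 2 = 1 → P (m : ℤ) := by
    intro m
    induction m using Nat.strong_induction_on with
    | _ m ih =>
      intro hm
      by_cases hm1 : m = 1
      · subst hm1
        exact_mod_cast h1
      · obtain ⟨k, hk⟩ := Nat.minFac_dvd m
        have hp := Nat.minFac_prime hm1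
        have hp2 : m.minFac ≠ 2 := by
          intro h
          rw [h] at hk
          omega
        have hk2 : k % 2 = 1 := by
          rcases Nat.mod_two_eq_zero_or_one k with h | h
          · exfalso
            have h3 : (m.minFac * k) % 2 = 0 := by
              rw [Nat.mul_mod, h, mul_zero, Nat.zero_mod]
            rw [← hk] at h3
            omega
          · exact h
        have hklt : k < m := by
          have h3 := hp.two_le
          have h4 : 0 < k := by omega
          calc k < 2 * k := by omega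
            _ ≤ m.minFac * k := Nat.mul_le_mul_right k h3
            _ = m := hk.symm
        have h5 := hmul m.minFac hp hp2 (k : ℤ) (by exact_mod_cast hk2) (ih k hklt hk2)
        have h6 : ((m.minFac : ℕ) : ℤ) * (k : ℤ) = (m : ℤ) := by exact_mod_cast hk.symm
        rwa [h6] at h5
  intro n hn
  rcases le_total 0 n with h | h
  · obtain ⟨m, rfl⟩ := Int.eq_ofNat_of_zero_le h
    exact hnat m (by omega)
  · obtain ⟨m, hm⟩ := Int.eq_ofNat_of_zero_le (show 0 ≤ -n by omega)
    have h3 : n = -(m : ℤ) := by omega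
    rw [h3]
    exact hneg _ (by omega) (hnat m (by omega))

private lemma HsA_cl_neg {n : ℤ} (hn : n % 2 = 1) :
    cl (-n) = Finsupp.single 0 1 + cl n := by
  have h1 := cl_mul (m := -1) (n := n) (by norm_num) (by rintro rfl; norm_num at hn)
  rw [cl_neg_one, neg_one_mul] at h1
  exact h1

private lemma HsA_cl_mul {p : ℕ} (hp : p.Prime) {n : ℤ} (hn : n % 2 = 1) :
    cl (p * n) = Finsupp.single p 1 + cl n := by
  have h1 := cl_mul (m := (p : ℤ)) (n := n) (by exact_mod_cast hp.ne_zero)
    (by rintro rfl; norm_num at hn)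
  rw [cl_natPrime hp] at h1
  exact h1

private lemma HsA_eps : ∀ n : ℤ, n % 2 = 1 → ev eps (cl n) = if n % 4 = 1 then 0 else 1 := by
  apply HsA_ind
  · rw [cl_one, map_zero]
    norm_num
  · intro n hn h
    rw [HsA_cl_neg hn, map_add, ev_single, h]
    have h3 : eps 0 = 1 := by simp [eps]
    rw [h3]
    have h4 : n % 4 = 1 ∨ n % 4 = 3 := by omega
    rcases h4 with h4 | h4
    · rw [if_pos h4, if_neg (by omega)]
      decide
    · rw [if_neg (by omega), if_pos (by omega)]
      decide
  · intro p hp hp2 n hn h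
    rw [HsA_cl_mul hp hn, map_add, ev_single, h]
    have hodd : p % 2 = 1 := hp.eq_two_or_odd.resolve_left hp2
    have h0 : p ≠ 0 := hp.ne_zero
    have h4 : n % 4 = 1 ∨ n % 4 = 3 := by omega
    have h5 : (p : ℤ) % 4 = 1 ∨ (p : ℤ) % 4 = 3 := by omega
    rcases h4 with h4 | h4 <;> rcases h5 with h5 | h5
    · have h6 : ((p : ℤ) * n) % 4 = 1 := by rw [Int.mul_emod, h4, h5]; norm_num
      have h7 : eps p = 0 := by
        unfold eps
        rw [if_neg (by omega)]
      rw [if_pos h4, if_pos h6, h7]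
      decide
    · have h6 : ((p : ℤ) * n) % 4 = 3 := by rw [Int.mul_emod, h4, h5]; norm_num
      have h7 : eps p = 1 := by
        unfold eps
        rw [if_pos (by omega)]
      rw [if_pos h4, if_neg (by omega), h7]
      decide
    · have h6 : ((p : ℤ) * n) % 4 = 3 := by rw [Int.mul_emod, h4, h5]; norm_num
      have h7 : eps p = 0 := by
        unfold eps
        rw [if_neg (by omega)]
      rw [if_neg (by omega), if_neg (by omega), h7]
      decide
    · have h6 : ((p : ℤ) * n) % 4 = 1 := by rw [Int.mul_emod, h4, h5]; norm_num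
      have h7 : eps p = 1 := by
        unfold eps
        rw [if_pos (by omega)]
      rw [if_neg (by omega), if_pos h6, h7]
      decide

private lemma HsA_ome : ∀ n : ℤ, n % 2 = 1 →
    ev ome (cl n) = if n % 8 = 1 ∨ n % 8 = 7 then 0 else 1 := by
  apply HsA_ind
  · rw [cl_one, map_zero]
    norm_num
  · intro n hn h
    rw [HsA_cl_neg hn, map_add, ev_single, h]
    have h3 : ome 0 = 0 := by simp [ome]
    rw [h3]
    by_cases h4 : n % 8 = 1 ∨ n % 8 = 7
    · rw [if_pos h4, if_pos (by omega)]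
      decide
    · rw [if_neg h4, if_neg (by omega)]
      decide
  · intro p hp hp2 n hn h
    rw [HsA_cl_mul hp hn, map_add, ev_single, h]
    have hodd : p % 2 = 1 := hp.eq_two_or_odd.resolve_left hp2
    have h0 : p ≠ 0 := hp.ne_zero
    have h4 : n % 8 = 1 ∨ n % 8 = 3 ∨ n % 8 = 5 ∨ n % 8 = 7 := by omega
    have h5 : (p : ℤ) % 8 = 1 ∨ (p : ℤ) % 8 = 3 ∨ (p : ℤ) % 8 = 5 ∨ (p : ℤ) % 8 = 7 := by omega
    have hm : ((p : ℤ) * n) % 8 = (((p : ℤ) % 8) * (n % 8)) % 8 := Int.mul_emod _ _ _
    have hop : ome p = if (p : ℤ) % 8 = 3 ∨ (p : ℤ) % 8 = 5 then 1 else 0 := by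
      unfold ome
      by_cases h7 : p % 8 = 3 ∨ p % 8 = 5
      · rw [if_pos h7, if_pos (by omega)]
      · rw [if_neg h7, if_neg (by omega)]
    rw [hop, hm]
    rcases h4 with h4 | h4 | h4 | h4 <;> rcases h5 with h5 | h5 | h5 | h5 <;> rw [h4, h5] <;>
      norm_num <;> decide

lemma eps_eq {q : ℕ} (hq : q.Prime) (h2 : q ≠ 2) : eps q = chi q 0 := by
  have h1 := chi_zero hq h2
  have h0 : q ≠ 0 := hq.ne_zero
  have hodd : q % 2 = 1 := hq.eq_two_or_odd.resolve_left h2
  have h3 := HsA_chi q 0
  unfold eps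
  by_cases h4 : q % 4 = 1
  · rw [h1.2 h4, if_neg]
    omega
  · rw [if_pos (by omega)]
    rcases h3 with h3 | h3
    · exact absurd (h1.1 h3) h4
    · exact h3.symm

lemma ome_eq {q : ℕ} (hq : q.Prime) (h2 : q ≠ 2) : ome q = chi q 2 := by
  have h1 := chi_two hq h2
  have hodd : q % 2 = 1 := hq.eq_two_or_odd.resolve_left h2
  have h3 := HsA_chi q 2
  unfold ome
  by_cases h4 : q % 8 = 1 ∨ q % 8 = 7
  · rw [h1.2 h4, if_neg]
    omega
  · rw [if_pos (by omega)]
    rcases h3 with h3 | h3
    · exact absurd (h1.1 h3) h4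
    · exact h3.symm

/-- For an odd integer the characters `eps` and `ome` are computed from the residue modulo eight. -/
lemma ev_eps {n : ℤ} (hn : n % 2 = 1) : ev eps (cl n) = 0 ↔ n % 4 = 1 := by
  rw [HsA_eps n hn]
  split_ifs with h <;> simp [h]

lemma ev_ome {n : ℤ} (hn : n % 2 = 1) : ev ome (cl n) = 0 ↔ (n % 8 = 1 ∨ n % 8 = 7) := by
  rw [HsA_ome n hn]
  split_ifs with h <;> simp [h]

/-- The factor two is ignored by `eps` and `ome`. -/
lemma eps_two : eps 2 = 0 ∧ ome 2 = 0 ∧ eps 0 = 1 ∧ ome 0 = 0 := by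
  simp [eps, ome]

end Pool.Agent.H93.MQ
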