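import Pool.Agent.H93.MQ.ClC

/-!
Definition of the Hilbert symbols on square classes (no row; definitions only).
-/

set_option autoImplicit false

open NumberField IsDedekindDomain WeierstrassCurve Pool.Agent.H10

namespace Pool.Agent.H93.MQ

/-- The character `(u - 1) / 2` on the generators: one for `-1` and for primes `3` mod `4`. -/
def eps (i : ℕ) : ZMod 2 := if i = 0 ∨ i % 4 = 3 then 1 else 0

/-- The character `(u ^ 2 - 1) / 8` on the generators. -/
def ome (i : ℕ) : ZMod 2 := if i % 8 = 3 ∨ i % 8 = 5 then 1 else 0

/-- The Hilbert symbol at `p` of two square classes, additively. -/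
noncomputable def hs (p : ℕ) (v w : V) : ZMod 2 :=
  if p = 2 then ev eps v * ev eps w + v 2 * ev ome w + w 2 * ev ome v
  else v p * w p * chi p 0 + v p * ev (chi p) w + w p * ev (chi p) v

end Pool.Agent.H93.MQ
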