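import Pool.Agent.H93.MQ.HsA
import Pool.Agent.H93.MQ.Prim

/-!
ROW HsT (project MP_78d38b_MQ). If the conic `x X² + y Y² = Z²` has a point over `ℚ_[2]` then
`hs 2 (cl x) (cl y) = 0`.

Reduce to `4 ∤ x`, `4 ∤ y` (write `x = 4^k x'` and replace `X` by `2^k X`; the class does not
change). Write `x = u` or `2 u`, `y = w` or `2 w` with `u, w` odd. Then
`ev eps (cl x) = ev eps (cl u)`, `ev ome (cl x) = ev ome (cl u)` (`eps_two`), and by `ev_eps`,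
`ev_ome` these depend only on `u` modulo eight. The formula is
`hs 2 = e(u) e(w) + [2 ∣ x] o(w) + [2 ∣ y] o(u)`.
Take a primitive integral solution modulo `2 ^ 5 = 32` (`prim_conic` with `k = 5`):
`32 ∣ x a² + y b² - c²`, not all of `a, b, c` even. The claim is now a finite statement about
`u, w` modulo 16 (or 8) and `a, b, c` modulo 8: the squares modulo 32 are determined by the
residues; one can do it by hand:
(i) `x = u`, `y = w` odd, `e(u) = e(w) = 1` (both `3` mod `4`) impossible: modulo four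
`-a² - b² = c²`, so `a, b, c` are all even.
(ii) `x = 2 u`, `y = w`: modulo two `b = c` mod two. If `b, c` are even then `4 ∣ 2 u a²`, `a` even,
contradiction. So `b, c` odd and `2 u a² = 1 - w` modulo eight: if `a` is even then `w = 1` mod
eight, and `hs 2 = e(u) * 0 + 0 = 0`. If `a` is odd then `w = 1 - 2 u` mod eight, and one checks for
`u = 1, 3, 5, 7` mod eight: `w = 7, 3, 7, 3`; `e(u) e(w) + o(w)`: `(1,7)`: `0 + 0`; `(3,3)`: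
`1 + 1`; `(5,7)`: `0 + 0`; `(7,3)`: `1 + 1`. All zero.
(iii) `x = u`, `y = 2 w`: symmetric (`hs_comm`).
(iv) `x = 2 u`, `y = 2 w`: `c` is even, `c = 2 c'`, `u a² + w b² = 2 c'²` modulo sixteen. If `a` is
even then `b` is even (parity), then `4 ∣ 2 c'²`, `c'` even: then `a, b, c` all even, contradiction. So
`a, b` are odd, `u + w = 2 c'²` modulo eight: `c'` even: `w = -u` mod eight, `hs 2 =
e(u) e(-u) + o(-u) + o(u) = 0` (one of `u, -u` is `1` mod `4`; `o(-u) = o(u)`). `c'` odd: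
`w = 2 - u` mod eight: `u = 1, 3, 5, 7` gives `w = 1, 7, 5, 3`:
`e(u) e(w) + o(w) + o(u)`: `(1,1)`: `0`; `(3,7)`: `1 + 0 + 1 = 0`; `(5,5)`: `0 + 1 + 1 = 0`;
`(7,3)`: `1 + 1 + 0 = 0`.
-/

set_option autoImplicit false

open NumberField IsDedekindDomain WeierstrassCurve Pool.Agent.H10

namespace Pool.Agent.H93.MQ

lemma HsT_z2 (x : ZMod 2) : x = 0 ∨ x = 1 := by
  revert x
  decide

lemma HsT_eps {n : ℤ} (hn : n % 2 = 1) : ev eps (cl n) = if n % 4 = 1 then 0 else 1 := by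
  split_ifs with h
  · exact (ev_eps hn).2 h
  · rcases HsT_z2 (ev eps (cl n)) with h1 | h1
    · exact absurd ((ev_eps hn).1 h1) h
    · exact h1

lemma HsT_ome {n : ℤ} (hn : n % 2 = 1) :
    ev ome (cl n) = if n % 8 = 1 ∨ n % 8 = 7 then 0 else 1 := by
  split_ifs with h
  · exact (ev_ome hn).2 h
  · rcases HsT_z2 (ev ome (cl n)) with h1 | h1
    · exact absurd ((ev_ome hn).1 h1) h
    · exact h1

lemma HsT_odd {u : ℤ} (hu : u % 2 = 1) : cl u 2 = 0 := by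
  refine cl_apply_of_not_dvd (by omega) Nat.prime_two ?_
  push_cast
  omega

lemma HsT_cltwo {u : ℤ} (hu : u % 2 = 1) : cl (2 * u) = Finsupp.single 2 1 + cl u := by
  have h := cl_natPrime Nat.prime_two
  push_cast at h
  rw [cl_mul (by norm_num) (by omega), h]

lemma HsT_two {u : ℤ} (hu : u % 2 = 1) : cl (2 * u) 2 = 1 ∧
    ev eps (cl (2 * u)) = ev eps (cl u) ∧ ev ome (cl (2 * u)) = ev ome (cl u) := by
  obtain ⟨h1, h2, -, -⟩ := eps_two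
  refine ⟨?_, ?_, ?_⟩
  · rw [HsT_cltwo hu, Finsupp.add_apply, HsT_odd hu, Finsupp.single_eq_same, add_zero]
  · rw [HsT_cltwo hu, map_add, ev_single, h1, mul_zero, zero_add]
  · rw [HsT_cltwo hu, map_add, ev_single, h2, mul_zero, zero_add]

lemma HsT_hs (v w : V) : hs 2 v w = ev eps v * ev eps w + v 2 * ev ome w + w 2 * ev ome v := by
  unfold hs
  rw [if_pos rfl]

lemma HsT_sq {a : ℤ} (h : a % 2 = 1) : ∃ s, a ^ 2 = 8 * s + 1 := by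
  obtain ⟨t, rfl⟩ : ∃ t, a = 2 * t + 1 := ⟨a / 2, by omega⟩
  rcases Int.even_or_odd' t with ⟨r, hr | hr⟩
  · exact ⟨r * (2 * r + 1), by rw [hr]; ring⟩
  · exact ⟨(2 * r + 1) * (r + 1), by rw [hr]; ring⟩

lemma HsT_odd_odd {u w a b c : ℤ} (hu : u % 2 = 1) (hw : w % 2 = 1)
    (hp : ¬ ((2 : ℤ) ∣ a ∧ (2 : ℤ) ∣ b ∧ (2 : ℤ) ∣ c)) (h : (32 : ℤ) ∣ u * a ^ 2 + w * b ^ 2 - c ^ 2) :
    u % 4 = 1 ∨ w % 4 = 1 := by
  by_contra hcon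
  have hu3 : u % 4 = 3 := by omega
  have hw3 : w % 4 = 3 := by omega
  have key : ∀ z d : ℤ, ∃ s, (d % 2 = 1 ∧ z * d ^ 2 = 8 * s + z) ∨ (d % 2 = 0 ∧ z * d ^ 2 = 4 * s) := by
    intro z d
    rcases Int.emod_two_eq_zero_or_one d with h0 | h0
    · obtain ⟨t, rfl⟩ : ∃ t, d = 2 * t := ⟨d / 2, by omega⟩
      exact ⟨z * t ^ 2, Or.inr ⟨h0, by ring⟩⟩
    · obtain ⟨s, hs⟩ := HsT_sq h0
      exact ⟨z * s, Or.inl ⟨h0, by rw [hs]; ring⟩⟩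
  obtain ⟨s1, h1⟩ := key u a
  obtain ⟨s2, h2⟩ := key w b
  obtain ⟨s3, h3⟩ := key 1 c
  rw [one_mul] at h3
  obtain ⟨s4, h4⟩ := h
  apply hp
  rcases h1 with ⟨h1, h1'⟩ | ⟨h1, h1'⟩ <;> rcases h2 with ⟨h2, h2'⟩ | ⟨h2, h2'⟩ <;>
    rcases h3 with ⟨h3, h3'⟩ | ⟨h3, h3'⟩ <;> rw [h1', h2', h3'] at h4 <;> omega

lemma HsT_two_odd {u w a b c : ℤ} (hu : u % 2 = 1) (hw : w % 2 = 1)
    (hp : ¬ ((2 : ℤ) ∣ a ∧ (2 : ℤ) ∣ b ∧ (2 : ℤ) ∣ c))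
    (h : (32 : ℤ) ∣ 2 * u * a ^ 2 + w * b ^ 2 - c ^ 2) :
    w % 8 = 1 ∨ (2 * u + w) % 8 = 1 := by
  have key : ∀ z d : ℤ, ∃ s, (d % 2 = 1 ∧ z * d ^ 2 = 8 * s + z) ∨ (d % 2 = 0 ∧ z * d ^ 2 = 4 * s) := by
    intro z d
    rcases Int.emod_two_eq_zero_or_one d with h0 | h0
    · obtain ⟨t, rfl⟩ : ∃ t, d = 2 * t := ⟨d / 2, by omega⟩
      exact ⟨z * t ^ 2, Or.inr ⟨h0, by ring⟩⟩
    · obtain ⟨s, hs⟩ := HsT_sq h0
      exact ⟨z * s, Or.inl ⟨h0, by rw [hs]; ring⟩⟩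
  obtain ⟨s1, h1⟩ := key u a
  obtain ⟨s2, h2⟩ := key w b
  obtain ⟨s3, h3⟩ := key 1 c
  rw [one_mul] at h3
  obtain ⟨s4, h4⟩ := h
  rw [mul_assoc] at h4
  rcases h1 with ⟨h1, h1'⟩ | ⟨h1, h1'⟩ <;> rcases h2 with ⟨h2, h2'⟩ | ⟨h2, h2'⟩ <;>
    rcases h3 with ⟨h3, h3'⟩ | ⟨h3, h3'⟩ <;> rw [h1', h2', h3'] at h4 <;> omega

lemma HsT_two_two {u w a b c : ℤ} (hu : u % 2 = 1) (hw : w % 2 = 1)
    (hp : ¬ ((2 : ℤ) ∣ a ∧ (2 : ℤ) ∣ b ∧ (2 : ℤ) ∣ c))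
    (h : (32 : ℤ) ∣ 2 * u * a ^ 2 + 2 * w * b ^ 2 - c ^ 2) :
    (u + w) % 8 = 0 ∨ (u + w) % 8 = 2 := by
  have key : ∀ z d : ℤ, ∃ s, (d % 2 = 1 ∧ z * d ^ 2 = 8 * s + z) ∨ (d % 2 = 0 ∧ z * d ^ 2 = 4 * s) := by
    intro z d
    rcases Int.emod_two_eq_zero_or_one d with h0 | h0
    · obtain ⟨t, rfl⟩ : ∃ t, d = 2 * t := ⟨d / 2, by omega⟩
      exact ⟨z * t ^ 2, Or.inr ⟨h0, by ring⟩⟩
    · obtain ⟨s, hs⟩ := HsT_sq h0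
      exact ⟨z * s, Or.inl ⟨h0, by rw [hs]; ring⟩⟩
  obtain ⟨s1, h1⟩ := key u a
  obtain ⟨s2, h2⟩ := key w b
  have hc : c % 2 = 0 := by
    rcases Int.emod_two_eq_zero_or_one c with h0 | h0
    · exact h0
    · obtain ⟨s, hs⟩ := HsT_sq h0
      obtain ⟨s4, h4⟩ := h
      rw [hs, mul_assoc, mul_assoc] at h4
      omega
  obtain ⟨c', rfl⟩ : ∃ c', c = 2 * c' := ⟨c / 2, by omega⟩
  obtain ⟨s3, h3⟩ := key 1 c'
  rw [one_mul] at h3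
  obtain ⟨s4, h4⟩ := h
  have h5 : (2 * c') ^ 2 = 4 * c' ^ 2 := by ring
  rw [mul_assoc, mul_assoc, h5] at h4
  rcases h1 with ⟨h1, h1'⟩ | ⟨h1, h1'⟩ <;> rcases h2 with ⟨h2, h2'⟩ | ⟨h2, h2'⟩ <;>
    rcases h3 with ⟨h3, h3'⟩ | ⟨h3, h3'⟩ <;> rw [h1', h2', h3'] at h4 <;> omega

lemma HsT_fin1 {u w : ℤ} (hu : u % 2 = 1) (hw : w % 2 = 1)
    (h : w % 8 = 1 ∨ (2 * u + w) % 8 = 1) : hs 2 (cl (2 * u)) (cl w) = 0 := by
  obtain ⟨h1, h2, h3⟩ := HsT_two hu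
  rw [HsT_hs, h1, h2, h3, HsT_odd hw, HsT_eps hu, HsT_eps hw, HsT_ome hw, zero_mul, add_zero]
  have hu8 : u % 8 = 1 ∨ u % 8 = 3 ∨ u % 8 = 5 ∨ u % 8 = 7 := by omega
  have hw8 : w % 8 = 1 ∨ w % 8 = 3 ∨ w % 8 = 5 ∨ w % 8 = 7 := by omega
  split_ifs <;> first
    | (exfalso; omega)
    | decide

lemma HsT_fin2 {u w : ℤ} (hu : u % 2 = 1) (hw : w % 2 = 1)
    (h : (u + w) % 8 = 0 ∨ (u + w) % 8 = 2) : hs 2 (cl (2 * u)) (cl (2 * w)) = 0 := by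
  obtain ⟨h1, h2, h3⟩ := HsT_two hu
  obtain ⟨h1', h2', h3'⟩ := HsT_two hw
  rw [HsT_hs, h1, h2, h3, h1', h2', h3', HsT_eps hu, HsT_eps hw, HsT_ome hw, HsT_ome hu]
  have hu8 : u % 8 = 1 ∨ u % 8 = 3 ∨ u % 8 = 5 ∨ u % 8 = 7 := by omega
  have hw8 : w % 8 = 1 ∨ w % 8 = 3 ∨ w % 8 = 5 ∨ w % 8 = 7 := by omega
  split_ifs <;> first
    | (exfalso; omega)
    | decide

lemma HsT_fin0 {u w : ℤ} (hu : u % 2 = 1) (hw : w % 2 = 1)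
    (h : u % 4 = 1 ∨ w % 4 = 1) : hs 2 (cl u) (cl w) = 0 := by
  rw [HsT_hs, HsT_odd hu, HsT_odd hw, HsT_eps hu, HsT_eps hw]
  rcases h with h | h
  · rw [if_pos h]
    ring
  · rw [if_pos h]
    ring

lemma HsT_four {x : ℤ} (hx : x ≠ 0) : ∃ k : ℕ, ∃ x' : ℤ, x = 4 ^ k * x' ∧ ¬ (4 : ℤ) ∣ x' := by
  have h : FiniteMultiplicity (4 : ℤ) x := Int.finiteMultiplicity_iff.2 ⟨by decide, hx⟩
  obtain ⟨c, h1, h2⟩ := h.exists_eq_pow_mul_and_not_dvd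
  exact ⟨_, c, h1, h2⟩

lemma HsT_red {k : ℕ} {x' : ℤ} (hx : x' ≠ 0) : cl (4 ^ k * x') = cl x' := by
  have h1 : (4 : ℤ) ^ k = (2 ^ k) ^ 2 := by
    rw [← pow_mul, mul_comm k 2, pow_mul]
    norm_num
  rw [cl_mul (by positivity) hx, h1, cl_sq (by positivity), zero_add]

lemma HsT_main [Fact (Nat.Prime 2)] {x y : ℤ} (hx : ¬ (4 : ℤ) ∣ x) (hy : ¬ (4 : ℤ) ∣ y)
    {X Y Z : ℚ_[2]} (hne : X ≠ 0 ∨ Y ≠ 0 ∨ Z ≠ 0)
    (h : (x : ℚ_[2]) * X ^ 2 + (y : ℚ_[2]) * Y ^ 2 = Z ^ 2) : hs 2 (cl x) (cl y) = 0 := by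
  obtain ⟨a, b, c, hp, hd⟩ := prim_conic hne h 5 (by norm_num)
  have h32 : ((2 : ℕ) : ℤ) ^ 5 = 32 := by norm_num
  rw [h32] at hd
  push_cast at hp
  rcases Int.emod_two_eq_zero_or_one x with h0 | h0 <;>
    rcases Int.emod_two_eq_zero_or_one y with h1 | h1
  · obtain ⟨u, rfl⟩ : ∃ u, x = 2 * u := ⟨x / 2, by omega⟩
    obtain ⟨w, rfl⟩ : ∃ w, y = 2 * w := ⟨y / 2, by omega⟩
    have hu : u % 2 = 1 := by omega
    have hw : w % 2 = 1 := by omega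
    exact HsT_fin2 hu hw (HsT_two_two hu hw hp hd)
  · obtain ⟨u, rfl⟩ : ∃ u, x = 2 * u := ⟨x / 2, by omega⟩
    have hu : u % 2 = 1 := by omega
    exact HsT_fin1 hu h1 (HsT_two_odd hu h1 hp hd)
  · obtain ⟨w, rfl⟩ : ∃ w, y = 2 * w := ⟨y / 2, by omega⟩
    have hw : w % 2 = 1 := by omega
    rw [hs_comm]
    refine HsT_fin1 hw h0 (HsT_two_odd hw h0 (a := b) (b := a) (c := c) ?_ ?_)
    · exact fun h => hp ⟨h.2.1, h.1, h.2.2⟩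
    · rw [add_comm]
      exact hd
  · exact HsT_fin0 h0 h1 (HsT_odd_odd h0 h1 hp hd)

theorem hs_conic_two [Fact (Nat.Prime 2)] {x y : ℤ} (hx : x ≠ 0) (hy : y ≠ 0)
    {X Y Z : ℚ_[2]} (hne : X ≠ 0 ∨ Y ≠ 0 ∨ Z ≠ 0)
    (h : (x : ℚ_[2]) * X ^ 2 + (y : ℚ_[2]) * Y ^ 2 = Z ^ 2) : hs 2 (cl x) (cl y) = 0 := by
  obtain ⟨k, x', rfl, hx'⟩ := HsT_four hx
  obtain ⟨l, y', rfl, hy'⟩ := HsT_four hy
  have hx0 : x' ≠ 0 := fun h => hx (by rw [h, mul_zero])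
  have hy0 : y' ≠ 0 := fun h => hy (by rw [h, mul_zero])
  rw [HsT_red hx0, HsT_red hy0]
  have h2 : (2 : ℚ_[2]) ≠ 0 := two_ne_zero
  have h4 : ∀ n : ℕ, (4 : ℚ_[2]) ^ n = (2 ^ n) ^ 2 := by
    intro n
    rw [← pow_mul, mul_comm n 2, pow_mul]
    norm_num
  refine HsT_main hx' hy' (X := 2 ^ k * X) (Y := 2 ^ l * Y) (Z := Z) ?_ ?_
  · rcases hne with h1 | h1 | h1
    · exact Or.inl (mul_ne_zero (pow_ne_zero _ h2) h1)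
    · exact Or.inr (Or.inl (mul_ne_zero (pow_ne_zero _ h2) h1))
    · exact Or.inr (Or.inr h1)
  · rw [← h]
    push_cast
    rw [h4, h4]
    ring

end Pool.Agent.H93.MQ
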