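import Pool.Agent.H93.MQ.HsO
import Pool.Agent.H93.MQ.HsT
import Pool.Agent.H93.MQ.SolA

/-!
ROW HsI (project MP_78d38b_MQ). The local images are isotropic.

`iso_quad`: if `z = (cl m, cl n)` is soluble over `ℚ_[p]` then `hs p (z.1 + cl A) (z.2 + cl (-A)) = 0`.
Proof: the solution `(z₀, z₁, z₂, z₃)` satisfies `m z₁² = n z₂² + A z₀²`; multiply by `A`:
`(m A) z₁² + (-n A) z₂² = (A z₀)²`. Not all of `z₁, z₂, A z₀` vanish (otherwise
`m n z₃² = 0`, so `z₃ = 0` as well). Apply `hs_conic_odd` or `hs_conic_two` with `x = m A`,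
`y = -(n A)`, and `cl_mul`: `cl (m A) = cl m + cl A`, `cl (n * (-A)) = cl n + cl (-A)`.

`iso_p`: apply this to `z`, `z'` and `z + z'` (`SolC.add`) and expand by bilinearity (HsA). With
`a = cl A`, `cl (-A) = a + e₀`: writing `Q(z) = hs p (z.1 + a) (z.2 + a + e₀)` we get
`Q(z + z') + Q(z) + Q(z') = hs p z.1 z'.2 + hs p z'.1 z.2 + hs p a (a + e₀)` (characteristic two), and
the last term vanishes by `hs_neg_self`.

`iso_real`: let `z`, `z'` be soluble over the reals; then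
`z.1 0 * z'.2 0 + z.2 0 * z'.1 0 = 0`. The same proof with the real symbol `v 0 * w 0`: if
`x X² + y Y² = Z²` has a nontrivial real solution then not both `x, y` are negative; the symbol
is bilinear and `v 0 * (v 0 + 1) = 0`.
-/

set_option autoImplicit false

open NumberField IsDedekindDomain WeierstrassCurve Pool.Agent.H10

namespace Pool.Agent.H93.MQ

theorem HsI_conic {k : Type*} [Field k] [CharZero k] {A B m n : ℤ} (hA : A ≠ 0) (hm : m ≠ 0)
    (hn : n ≠ 0) (H : Sol k A B m n) : ∃ X Y Z : k, (X ≠ 0 ∨ Y ≠ 0 ∨ Z ≠ 0) ∧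
      ((m * A : ℤ) : k) * X ^ 2 + ((n * (-A) : ℤ) : k) * Y ^ 2 = Z ^ 2 := by
  obtain ⟨z₀, z₁, z₂, z₃, hne, h1, h2⟩ := H
  have hA' : (A : k) ≠ 0 := by exact_mod_cast hA
  have hmn : ((m * n : ℤ) : k) ≠ 0 := by exact_mod_cast mul_ne_zero hm hn
  refine ⟨z₁, z₂, A * z₀, ?_, ?_⟩
  · by_contra hcon
    push Not at hcon
    obtain ⟨e1, e2, e3⟩ := hcon
    have e0 : z₀ = 0 := (mul_eq_zero.1 e3).resolve_left hA'
    rw [e1, e0] at h2
    have e4 : ((m * n : ℤ) : k) * z₃ ^ 2 = 0 := by linear_combination -h2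
    have e5 : z₃ = 0 := by
      have := (mul_eq_zero.1 e4).resolve_left hmn
      exact pow_eq_zero_iff (two_ne_zero) |>.1 this
    rcases hne with h | h | h | h
    · exact h e0
    · exact h e1
    · exact h e2
    · exact h e5
  · push_cast
    linear_combination (A : k) * h1

theorem HsI_neg {A : ℤ} (hA : A ≠ 0) : cl (-A) = cl A + Finsupp.single 0 1 := by
  have h1 : (-A : ℤ) = A * (-1) := by ring
  rw [h1, cl_mul hA (by norm_num), cl_neg_one]

theorem HsI_quad {p : ℕ} [Fact p.Prime] {A B : ℤ} (h : NZ A B) {z : V × V}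
    (H : SolC ℚ_[p] A B z) : hs p (z.1 + cl A) (z.2 + (cl A + Finsupp.single 0 1)) = 0 := by
  obtain ⟨m, n, hm, hn, rfl, hs1⟩ := H
  obtain ⟨X, Y, Z, hne, heq⟩ := HsI_conic h.hA hm hn hs1
  have hA2 : -A ≠ 0 := neg_ne_zero.2 h.hA
  show hs p (cl m + cl A) (cl n + (cl A + Finsupp.single 0 1)) = 0
  rw [← HsI_neg h.hA, ← cl_mul hm h.hA, ← cl_mul hn hA2]
  by_cases h2 : p = 2
  · subst h2
    exact hs_conic_two (mul_ne_zero hm h.hA) (mul_ne_zero hn hA2) hne heq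
  · exact hs_conic_odd h2 (mul_ne_zero hm h.hA) (mul_ne_zero hn hA2) hne heq

theorem HsI_real {A B : ℤ} (h : NZ A B) {z : V × V} (H : SolC ℝ A B z) :
    (z.1 0 + cl A 0) * (z.2 0 + (cl A 0 + 1)) = 0 := by
  obtain ⟨m, n, hm, hn, rfl, hs1⟩ := H
  obtain ⟨X, Y, Z, hne, heq⟩ := HsI_conic h.hA hm hn hs1
  have hA2 : -A ≠ 0 := neg_ne_zero.2 h.hA
  have e1 : cl m 0 + cl A 0 = cl (m * A) 0 := by rw [cl_mul hm h.hA, Finsupp.add_apply]
  have e2 : cl n 0 + (cl A 0 + 1) = cl (n * (-A)) 0 := by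
    rw [cl_mul hn hA2, HsI_neg h.hA, Finsupp.add_apply, Finsupp.add_apply, Finsupp.single_eq_same]
  show (cl m 0 + cl A 0) * (cl n 0 + (cl A 0 + 1)) = 0
  rw [e1, e2, cl_apply_zero (mul_ne_zero hm h.hA), cl_apply_zero (mul_ne_zero hn hA2)]
  by_cases hx : m * A < 0
  · by_cases hy : n * (-A) < 0
    · exfalso
      have hx' : ((m * A : ℤ) : ℝ) < 0 := by exact_mod_cast hx
      have hy' : ((n * (-A) : ℤ) : ℝ) < 0 := by exact_mod_cast hy
      have hX := sq_nonneg X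
      have hY := sq_nonneg Y
      have hZ := sq_nonneg Z
      have k1 : ((m * A : ℤ) : ℝ) * X ^ 2 ≤ 0 := mul_nonpos_of_nonpos_of_nonneg hx'.le hX
      have k2 : ((n * (-A) : ℤ) : ℝ) * Y ^ 2 ≤ 0 := mul_nonpos_of_nonpos_of_nonneg hy'.le hY
      have k3 : ((m * A : ℤ) : ℝ) * X ^ 2 = 0 := by linarith
      have k4 : ((n * (-A) : ℤ) : ℝ) * Y ^ 2 = 0 := by linarith
      have k5 : Z ^ 2 = 0 := by linarith
      have k6 : X = 0 := by
        have := (mul_eq_zero.1 k3).resolve_left hx'.ne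
        exact pow_eq_zero_iff (two_ne_zero) |>.1 this
      have k7 : Y = 0 := by
        have := (mul_eq_zero.1 k4).resolve_left hy'.ne
        exact pow_eq_zero_iff (two_ne_zero) |>.1 this
      have k8 : Z = 0 := pow_eq_zero_iff (two_ne_zero) |>.1 k5
      rcases hne with hh | hh | hh
      · exact hh k6
      · exact hh k7
      · exact hh k8
    · rw [if_neg hy, mul_zero]
  · rw [if_neg hx, zero_mul]

theorem HsI_dec : ∀ x1 x2 y1 y2 α : ZMod 2, (x1 + α) * (x2 + (α + 1)) = 0 →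
    (y1 + α) * (y2 + (α + 1)) = 0 → (x1 + y1 + α) * (x2 + y2 + (α + 1)) = 0 →
    x1 * y2 + x2 * y1 = 0 := by
  decide

theorem iso_p {p : ℕ} [Fact p.Prime] {A B : ℤ} (h : NZ A B) {z z' : V × V}
    (H : SolC ℚ_[p] A B z) (H' : SolC ℚ_[p] A B z') :
    hs p z.1 z'.2 + hs p z.2 z'.1 = 0 := by
  have hp : p ≠ 0 := (Fact.out : p.Prime).ne_zero
  have q1 := HsI_quad h H
  have q2 := HsI_quad h H'
  have q3 := HsI_quad h (SolC.add h H H')
  rw [Prod.fst_add, Prod.snd_add] at q3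
  have q4 := hs_neg_self hp (cl A)
  simp only [hs_add_left, hs_add_right] at q1 q2 q3 q4
  rw [hs_comm p z.2 z'.1]
  linear_combination q3 - q1 - q2 + q4

theorem iso_real {A B : ℤ} (h : NZ A B) {z z' : V × V}
    (H : SolC ℝ A B z) (H' : SolC ℝ A B z') :
    z.1 0 * z'.2 0 + z.2 0 * z'.1 0 = 0 := by
  have q1 := HsI_real h H
  have q2 := HsI_real h H'
  have q3 := HsI_real h (SolC.add h H H')
  rw [Prod.fst_add, Prod.snd_add, Finsupp.add_apply, Finsupp.add_apply] at q3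
  exact HsI_dec _ _ _ _ _ q1 q2 q3

end Pool.Agent.H93.MQ
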