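import Pool.Agent.H93.MQ.HsA
import Pool.Agent.H93.MQ.Prim

/-!
ROW HsO (project MP_78d38b_MQ). If the conic `x X² + y Y² = Z²` has a point over `ℚ_[p]`, `p` odd,
then the symbol `hs p (cl x) (cl y)` vanishes.

Reduce to the case that `p²` divides neither `x` nor `y`: write `x = p^{2k} x'` and replace `X` by
`p^k X` (the class does not change, `cl_eq_iff`). Cases:
(a) `p ∤ x`, `p ∤ y`: `cl x p = cl y p = 0`, so `hs p = 0`.
(b) `x = p u`, `p ∤ u`, `p ∤ y`: `hs p = ev (chi p) (cl y)`, which is zero iff `y` is a square mod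
`p` (`ev_chi`). Take a primitive integral solution modulo `p ^ 2` (`prim_conic`):
`p u a² + y b² = c²`. If `p ∤ b` then `y` is a square mod `p`. If `p ∣ b` then `p ∣ c`, so
`p² ∣ p u a²`, `p ∣ a`, contradiction.
(c) symmetric to (b).
(d) `x = p u`, `y = p w`: `hs p = chi p 0 + ev (chi p) (cl y) + ev (chi p) (cl x)`, and
`ev (chi p) (cl (p u)) = ev (chi p) (cl u)` since `chi p p = 0`. So `hs p = ev (chi p) (cl (-u w))`
(`cl_mul`, `cl_neg_one`, `ev_single`), zero iff `-u w` is a square mod `p`. From the primitive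
solution modulo `p ^ 2`: `p u a² + p w b² = c²`, so `p ∣ c`, and `p ∣ u a² + w b²`; if `p ∤ a` then
`p ∤ b` and `-u w = (w b / a)²` mod `p` (multiply `u a² = - w b²` by `w`); if `p ∣ a` then `p ∣ b`,
contradiction.
-/

set_option autoImplicit false

open NumberField IsDedekindDomain WeierstrassCurve Pool.Agent.H10

namespace Pool.Agent.H93.MQ

lemma HsO_norm {p : ℕ} [hp : Fact p.Prime] {x : ℤ} (hx : x ≠ 0) :
    ∃ (k : ℕ) (x' : ℤ), x = (p : ℤ) ^ (2 * k) * x' ∧ x' ≠ 0 ∧ cl x = cl x' ∧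
      (¬ (p : ℤ) ∣ x' ∨ ∃ u, x' = p * u ∧ ¬ (p : ℤ) ∣ u) := by
  have hp0 : (p : ℤ) ≠ 0 := by exact_mod_cast hp.out.ne_zero
  have hfin : FiniteMultiplicity (p : ℤ) x := by
    rw [Int.finiteMultiplicity_iff]
    exact ⟨by rw [Int.natAbs_natCast]; exact hp.out.ne_one, hx⟩
  obtain ⟨u, hu, hpu⟩ := hfin.exists_eq_pow_mul_and_not_dvd
  obtain ⟨n, hn⟩ : ∃ n, n = multiplicity (p : ℤ) x := ⟨_, rfl⟩
  rw [← hn] at hu
  have hu0 : u ≠ 0 := by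
    rintro rfl
    exact hpu (dvd_zero _)
  have hcl : ∀ (k : ℕ) (x' : ℤ), x' ≠ 0 → cl ((p : ℤ) ^ (2 * k) * x') = cl x' := by
    intro k x' hx'
    rw [cl_mul (pow_ne_zero _ hp0) hx', mul_comm 2 k, pow_mul, cl_sq (pow_ne_zero _ hp0), zero_add]
  rcases Nat.even_or_odd' n with ⟨k, hk | hk⟩
  · refine ⟨k, u, by rw [← hk]; exact hu, hu0, ?_, Or.inl hpu⟩
    rw [hu, hk, hcl k u hu0]
  · refine ⟨k, p * u, by rw [hu, hk, pow_succ]; ring, mul_ne_zero hp0 hu0, ?_,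
      Or.inr ⟨u, rfl, hpu⟩⟩
    rw [hu, hk, pow_succ, mul_assoc, hcl k (p * u) (mul_ne_zero hp0 hu0)]

lemma HsO_b {p : ℕ} [hp : Fact p.Prime] (h2 : p ≠ 2) {u y : ℤ} (hu : ¬ (p : ℤ) ∣ u)
    (hy : ¬ (p : ℤ) ∣ y) {a b c : ℤ} (hprim : ¬ ((p : ℤ) ∣ a ∧ (p : ℤ) ∣ b ∧ (p : ℤ) ∣ c))
    (h : (p : ℤ) ^ 2 ∣ p * u * a ^ 2 + y * b ^ 2 - c ^ 2) :
    hs p (cl (p * u)) (cl y) = 0 := by
  have hpz : Prime (p : ℤ) := Nat.prime_iff_prime_int.1 hp.out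
  have hy0 : y ≠ 0 := by
    rintro rfl
    exact hy (dvd_zero _)
  rw [hs_of_zero h2 _ _ (cl_apply_of_not_dvd hy0 hp.out hy)]
  have hsq : ev (chi p) (cl y) = 0 := by
    rw [ev_chi hp.out h2 hy]
    have h1 : (p : ℤ) ∣ y * b ^ 2 - c ^ 2 := by
      have h3 : (p : ℤ) ∣ p * u * a ^ 2 + y * b ^ 2 - c ^ 2 :=
        (dvd_pow_self (p : ℤ) two_ne_zero).trans h
      have h4 : y * b ^ 2 - c ^ 2 = (p * u * a ^ 2 + y * b ^ 2 - c ^ 2) - p * (u * a ^ 2) := by ring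
      rw [h4]
      exact dvd_sub h3 (dvd_mul_right _ _)
    have hz : ((y : ℤ) : ZMod p) * (b : ZMod p) ^ 2 = (c : ZMod p) ^ 2 := by
      have h5 := (ZMod.intCast_zmod_eq_zero_iff_dvd (y * b ^ 2 - c ^ 2) p).2 h1
      push_cast at h5
      exact sub_eq_zero.1 h5
    by_cases hb : (b : ZMod p) = 0
    · exfalso
      have hpb : (p : ℤ) ∣ b := (ZMod.intCast_zmod_eq_zero_iff_dvd b p).1 hb
      have hc : (c : ZMod p) = 0 := by
        rw [hb, zero_pow two_ne_zero, mul_zero] at hz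
        exact pow_eq_zero_iff two_ne_zero |>.1 hz.symm
      have hpc : (p : ℤ) ∣ c := (ZMod.intCast_zmod_eq_zero_iff_dvd c p).1 hc
      have h6 : (p : ℤ) ^ 2 ∣ p * (u * a ^ 2) := by
        have h7 : (p : ℤ) * (u * a ^ 2) = (p * u * a ^ 2 + y * b ^ 2 - c ^ 2) - y * b ^ 2 +
          c ^ 2 := by ring
        rw [h7]
        exact dvd_add (dvd_sub h (Dvd.dvd.mul_left (pow_dvd_pow_of_dvd hpb 2) _))
          (pow_dvd_pow_of_dvd hpc 2)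
      rw [pow_two] at h6
      have h8 : (p : ℤ) ∣ u * a ^ 2 := (mul_dvd_mul_iff_left hpz.ne_zero).1 h6
      have hpa : (p : ℤ) ∣ a := hpz.dvd_of_dvd_pow ((hpz.dvd_or_dvd h8).resolve_left hu)
      exact hprim ⟨hpa, hpb, hpc⟩
    · refine ⟨(c : ZMod p) / b, ?_⟩
      have hb2 : (b : ZMod p) ^ 2 ≠ 0 := pow_ne_zero _ hb
      rw [div_mul_div_comm, ← sq, ← sq, eq_div_iff hb2]
      exact hz
  rw [hsq, mul_zero]

lemma HsO_d {p : ℕ} [hp : Fact p.Prime] (h2 : p ≠ 2) {u w : ℤ} (hu : ¬ (p : ℤ) ∣ u)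
    (hw : ¬ (p : ℤ) ∣ w) {a b c : ℤ} (hprim : ¬ ((p : ℤ) ∣ a ∧ (p : ℤ) ∣ b ∧ (p : ℤ) ∣ c))
    (h : (p : ℤ) ^ 2 ∣ p * u * a ^ 2 + p * w * b ^ 2 - c ^ 2) :
    hs p (cl (p * u)) (cl (p * w)) = 0 := by
  have hpz : Prime (p : ℤ) := Nat.prime_iff_prime_int.1 hp.out
  have hp0 : (p : ℤ) ≠ 0 := hpz.ne_zero
  have hu0 : u ≠ 0 := by
    rintro rfl
    exact hu (dvd_zero _)
  have hw0 : w ≠ 0 := by
    rintro rfl
    exact hw (dvd_zero _)
  have hpc : (p : ℤ) ∣ c := by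
    have h3 : (p : ℤ) ∣ p * u * a ^ 2 + p * w * b ^ 2 - c ^ 2 :=
      (dvd_pow_self (p : ℤ) two_ne_zero).trans h
    have h4 : c ^ 2 = p * (u * a ^ 2 + w * b ^ 2) - (p * u * a ^ 2 + p * w * b ^ 2 - c ^ 2) := by
      ring
    have h5 : (p : ℤ) ∣ c ^ 2 := by
      rw [h4]
      exact dvd_sub (dvd_mul_right _ _) h3
    exact hpz.dvd_of_dvd_pow h5
  have hdvd : (p : ℤ) ∣ u * a ^ 2 + w * b ^ 2 := by
    have h6 : (p : ℤ) ^ 2 ∣ p * (u * a ^ 2 + w * b ^ 2) := by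
      have h7 : (p : ℤ) * (u * a ^ 2 + w * b ^ 2) =
        (p * u * a ^ 2 + p * w * b ^ 2 - c ^ 2) + c ^ 2 := by ring
      rw [h7]
      exact dvd_add h (pow_dvd_pow_of_dvd hpc 2)
    rw [pow_two] at h6
    exact (mul_dvd_mul_iff_left hp0).1 h6
  have hz : (u : ZMod p) * (a : ZMod p) ^ 2 + (w : ZMod p) * (b : ZMod p) ^ 2 = 0 := by
    have h5 := (ZMod.intCast_zmod_eq_zero_iff_dvd (u * a ^ 2 + w * b ^ 2) p).2 hdvd
    push_cast at h5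
    exact h5
  have hwz : (w : ZMod p) ≠ 0 := fun h0 => hw ((ZMod.intCast_zmod_eq_zero_iff_dvd w p).1 h0)
  have ha : (a : ZMod p) ≠ 0 := by
    intro ha
    rw [ha, zero_pow two_ne_zero, mul_zero, zero_add] at hz
    have hb : (b : ZMod p) = 0 := by
      have := (mul_eq_zero.1 hz).resolve_left hwz
      exact pow_eq_zero_iff two_ne_zero |>.1 this
    exact hprim ⟨(ZMod.intCast_zmod_eq_zero_iff_dvd a p).1 ha,
      (ZMod.intCast_zmod_eq_zero_iff_dvd b p).1 hb, hpc⟩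
  have hsq : IsSquare (((-(u * w) : ℤ)) : ZMod p) := by
    refine ⟨(w : ZMod p) * b / a, ?_⟩
    have ha2 : (a : ZMod p) ^ 2 ≠ 0 := pow_ne_zero _ ha
    rw [div_mul_div_comm, ← sq (a : ZMod p), eq_div_iff ha2]
    push_cast
    linear_combination (-(w : ZMod p)) * hz
  have hnd : ¬ (p : ℤ) ∣ -(u * w) := by
    rw [dvd_neg]
    intro h9
    rcases hpz.dvd_or_dvd h9 with h9 | h9
    · exact hu h9
    · exact hw h9
  have hev := (ev_chi hp.out h2 hnd).2 hsq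
  have hcl : cl (-(u * w)) = Finsupp.single 0 1 + (cl u + cl w) := by
    have e : -(u * w) = -1 * (u * w) := by ring
    rw [e, cl_mul (by norm_num) (mul_ne_zero hu0 hw0), cl_mul hu0 hw0, cl_neg_one]
  rw [hcl, map_add, map_add, ev_single, one_mul] at hev
  have hchi : chi p p = 0 := by
    unfold chi
    rw [if_pos (Or.inl rfl)]
  have hvu : cl (p * u) = Finsupp.single p 1 + cl u := by
    rw [cl_mul hp0 hu0, cl_natPrime hp.out]
  have hvw : cl (p * w) = Finsupp.single p 1 + cl w := by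
    rw [cl_mul hp0 hw0, cl_natPrime hp.out]
  unfold hs
  rw [if_neg h2, hvu, hvw]
  simp only [Finsupp.add_apply, Finsupp.single_eq_same, map_add, ev_single, hchi,
    cl_apply_of_not_dvd hu0 hp.out hu, cl_apply_of_not_dvd hw0 hp.out hw]
  linear_combination hev

theorem hs_conic_odd {p : ℕ} [Fact p.Prime] (h2 : p ≠ 2) {x y : ℤ} (hx : x ≠ 0) (hy : y ≠ 0)
    {X Y Z : ℚ_[p]} (hne : X ≠ 0 ∨ Y ≠ 0 ∨ Z ≠ 0)
    (h : (x : ℚ_[p]) * X ^ 2 + (y : ℚ_[p]) * Y ^ 2 = Z ^ 2) : hs p (cl x) (cl y) = 0 := by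
  have hp : p.Prime := Fact.out
  obtain ⟨k, x', hxx, hx0, hcx, hx'⟩ := HsO_norm (p := p) hx
  obtain ⟨l, y', hyy, hy0, hcy, hy'⟩ := HsO_norm (p := p) hy
  rw [hcx, hcy]
  have hpQ : (p : ℚ_[p]) ≠ 0 := by exact_mod_cast hp.ne_zero
  have hne' : (p : ℚ_[p]) ^ k * X ≠ 0 ∨ (p : ℚ_[p]) ^ l * Y ≠ 0 ∨ Z ≠ 0 := by
    rcases hne with h1 | h1 | h1
    · exact Or.inl (mul_ne_zero (pow_ne_zero _ hpQ) h1)
    · exact Or.inr (Or.inl (mul_ne_zero (pow_ne_zero _ hpQ) h1))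
    · exact Or.inr (Or.inr h1)
  have heq : (x' : ℚ_[p]) * ((p : ℚ_[p]) ^ k * X) ^ 2 + (y' : ℚ_[p]) * ((p : ℚ_[p]) ^ l * Y) ^ 2 =
      Z ^ 2 := by
    rw [← h, hxx, hyy]
    push_cast
    ring
  obtain ⟨a, b, c, hprim, hdvd⟩ := prim_conic hne' heq 2 two_ne_zero
  rcases hx' with hx' | ⟨u, rfl, hu⟩
  · rcases hy' with hy' | ⟨w, rfl, hw⟩
    · rw [hs_of_zero h2 _ _ (cl_apply_of_not_dvd hy0 hp hy'), cl_apply_of_not_dvd hx0 hp hx',
        zero_mul]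
    · rw [hs_comm]
      refine HsO_b h2 hw hx' (a := b) (b := a) (c := c) (fun h3 => hprim ⟨h3.2.1, h3.1, h3.2.2⟩) ?_
      have e : (p : ℤ) * w * b ^ 2 + x' * a ^ 2 - c ^ 2 = x' * a ^ 2 + p * w * b ^ 2 - c ^ 2 := by
        ring
      rw [e]
      exact hdvd
  · rcases hy' with hy' | ⟨w, rfl, hw⟩
    · exact HsO_b h2 hu hy' hprim hdvd
    · exact HsO_d h2 hu hw hprim hdvd

end Pool.Agent.H93.MQ
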