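import Pool.Agent.H93.MQ.HsA

/-!
ROW HsP (project MP_78d38b_MQ). Product formula for the symbols `hs`.

Let `S` be a finite set of primes containing two, and `v`, `w` supported in `S` and zero. Then
`∑ p ∈ S, hs p v w + v 0 * w 0 = 0`.

Both sides are bilinear (HsA), so by induction on `v` and `w` (for instance
`Finsupp.induction_linear`, or write `v = ∑ i ∈ insert 0 S, v i • single i 1`) it is enough to treat
`v = single i 1`, `w = single j 1` with `i, j ∈ insert 0 S`, and by symmetry (`hs_comm`) the pairs: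
* `(0, 0)`: `hs 2 = eps 0 * eps 0 = 1`, `hs p = 0` for odd `p`, and `v 0 * w 0 = 1`. Sum `0`.
* `(0, 2)`: `hs 2 = eps 0 * eps 2 + ome 0 = 0`, others `0`.
* `(2, 2)`: `hs 2 = 0` (`eps 2 = ome 2 = 0`), others `0`.
* `(0, q)`, `q` odd: `hs 2 = eps q`, `hs q = chi q 0`, others `0`; `eps_eq`.
* `(2, q)`: `hs 2 = ome q` (from `v 2 * ev ome w`), `hs q = chi q 2`; `ome_eq`.
* `(q, q)`: `hs 2 = eps q * eps q = eps q`, `hs q = chi q 0` (recall `chi q q = 0`).
* `(p, q)`, `p ≠ q` odd: `hs 2 = eps p * eps q = chi p 0 * chi q 0`, `hs p = chi p q`,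
  `hs q = chi q p`; `chi_recip`.
All other `hs r` vanish since the coordinates at `r` are zero.
-/

set_option autoImplicit false

open NumberField IsDedekindDomain WeierstrassCurve Pool.Agent.H10

namespace Pool.Agent.H93.MQ

lemma HsP_ev (χ : ℕ → ZMod 2) (i : ℕ) : ev χ (Finsupp.single i 1) = χ i := by
  unfold ev
  rw [Finsupp.linearCombination_single, one_smul]

lemma HsP_app (i j : ℕ) : (Finsupp.single i (1 : ZMod 2)) j = if i = j then 1 else 0 :=
  Finsupp.single_apply

lemma HsP_chi_self (q : ℕ) : chi q q = 0 := by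
  unfold chi
  rw [if_pos (Or.inl rfl)]

/-- the sum for two generators -/
lemma HsP_sum {S : Finset ℕ} (h2 : 2 ∈ S) (i j : ℕ) :
    ∑ p ∈ S, hs p (Finsupp.single i 1) (Finsupp.single j 1) =
      (eps i * eps j + (if i = 2 then ome j else 0) + (if j = 2 then ome i else 0)) +
      ((if i ∈ S.erase 2 then (if j = i then chi i 0 else 0) else 0) +
        (if i ∈ S.erase 2 then chi i j else 0) + (if j ∈ S.erase 2 then chi j i else 0)) := by
  rw [← Finset.add_sum_erase S _ h2]
  congr 1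
  · unfold hs
    rw [if_pos rfl, HsP_ev, HsP_ev, HsP_ev, HsP_ev, HsP_app, HsP_app, ite_mul, ite_mul]
    simp
  · have h3 : ∀ p ∈ S.erase 2, hs p (Finsupp.single i 1) (Finsupp.single j 1) =
        (if i = p then (if j = p then chi p 0 else 0) else 0) + (if i = p then chi p j else 0) +
        (if j = p then chi p i else 0) := by
      intro p hp
      unfold hs
      rw [if_neg (Finset.ne_of_mem_erase hp), HsP_ev, HsP_ev, HsP_app, HsP_app]
      by_cases h4 : i = p <;> by_cases h5 : j = p <;> simp [h4, h5]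
    rw [Finset.sum_congr rfl h3, Finset.sum_add_distrib, Finset.sum_add_distrib,
      Finset.sum_ite_eq, Finset.sum_ite_eq, Finset.sum_ite_eq]

lemma HsP_two (x : ZMod 2) : x + x = 0 := CharTwo.add_self_eq_zero x

lemma HsP_gen {S : Finset ℕ} (hS : ∀ p ∈ S, p.Prime) (h2 : 2 ∈ S) {i j : ℕ}
    (hi : i = 0 ∨ i ∈ S) (hj : j = 0 ∨ j ∈ S) :
    ∑ p ∈ S, hs p (Finsupp.single i 1) (Finsupp.single j 1) +
      (Finsupp.single i (1 : ZMod 2)) 0 * (Finsupp.single j (1 : ZMod 2)) 0 = 0 := by
  have h0 : 0 ∉ S := fun h => Nat.not_prime_zero (hS 0 h)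
  obtain ⟨e2, o2, e0, o0⟩ := eps_two
  rw [HsP_sum h2, HsP_app, HsP_app]
  have key : ∀ q ∈ S, q ≠ 2 → q ≠ 0 ∧ q ∈ S.erase 2 ∧ eps q = chi q 0 ∧ ome q = chi q 2 := by
    intro q hq hq2
    exact ⟨fun h => h0 (h ▸ hq), Finset.mem_erase.2 ⟨hq2, hq⟩, eps_eq (hS q hq) hq2,
      ome_eq (hS q hq) hq2⟩
  have h0e : 0 ∉ S.erase 2 := fun h => h0 (Finset.mem_of_mem_erase h)
  have h2e : 2 ∉ S.erase 2 := Finset.notMem_erase 2 S
  rcases hi with rfl | hi
  · rcases hj with rfl | hj
    · simp [h0e, e0, HsP_two]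
    · by_cases hj2 : j = 2
      · subst hj2
        simp [h0e, h2e, e2, o0]
      · obtain ⟨a1, a2, a3, a4⟩ := key j hj hj2
        simp only [h0e, a2, e0, a3, hj2, a1, if_true, if_false]
        simp [HsP_two]
  · by_cases hi2 : i = 2
    · subst hi2
      rcases hj with rfl | hj
      · simp [h0e, h2e, e2, o0]
      · by_cases hj2 : j = 2
        · subst hj2
          simp [h2e, e2, o2]
        · obtain ⟨a1, a2, a3, a4⟩ := key j hj hj2
          simp only [h2e, a2, e2, a3, a4, hj2, a1, if_true, if_false]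
          simp [HsP_two]
    · obtain ⟨b1, b2, b3, b4⟩ := key i hi hi2
      rcases hj with rfl | hj
      · simp only [h0e, b2, e0, b3, hi2, b1, if_true, if_false]
        have : (0 : ℕ) ≠ i := Ne.symm b1
        simp [HsP_two, this]
      · by_cases hj2 : j = 2
        · subst hj2
          have : (2 : ℕ) ≠ i := Ne.symm hi2
          simp only [h2e, b2, e2, b3, b4, hi2, b1, this, if_true, if_false]
          simp [HsP_two]
        · obtain ⟨a1, a2, a3, a4⟩ := key j hj hj2
          by_cases hij : j = i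
          · subst hij
            simp only [a2, a3, hj2, a1, if_true, if_false, HsP_chi_self]
            have h7 : ∀ x : ZMod 2, x * x + 0 + 0 + (x + 0 + 0) + 0 * 0 = 0 := by decide
            exact h7 _
          · have hr := chi_recip (hS i hi) (hS j hj) hi2 hj2 (Ne.symm hij)
            simp only [a2, a3, b2, b3, hi2, hj2, a1, b1, hij, if_true, if_false]
            have h8 : ∀ x y z t : ZMod 2, t + z = x * y →
                x * y + 0 + 0 + (0 + t + z) + 0 * 0 = 0 := by decide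
            exact h8 _ _ _ _ hr

theorem hs_prod {S : Finset ℕ} (hS : ∀ p ∈ S, p.Prime) (h2 : 2 ∈ S) {v w : V}
    (hv : ∀ i, i ≠ 0 → i ∉ S → v i = 0) (hw : ∀ i, i ≠ 0 → i ∉ S → w i = 0) :
    ∑ p ∈ S, hs p v w + v 0 * w 0 = 0 := by
  classical
  let L : ℕ → V →ₗ[ZMod 2] V →ₗ[ZMod 2] ZMod 2 := fun p => LinearMap.mk₂ (ZMod 2) (hs p)
    (hs_add_left p) (hs_smul_left p) (hs_add_right p) (hs_smul_right p)
  let C : V →ₗ[ZMod 2] V →ₗ[ZMod 2] ZMod 2 := LinearMap.mk₂ (ZMod 2) (fun v w => v 0 * w 0)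
    (fun a b c => by simp [add_mul]) (fun a b c => by simp [mul_assoc])
    (fun a b c => by simp [mul_add]) (fun a b c => by simp [mul_left_comm])
  let B : V →ₗ[ZMod 2] V →ₗ[ZMod 2] ZMod 2 := ∑ p ∈ S, L p + C
  have hB : ∀ a b : V, B a b = ∑ p ∈ S, hs p a b + a 0 * b 0 := by
    intro a b
    simp only [B, LinearMap.add_apply, LinearMap.sum_apply]
    rfl
  have hdec : ∀ a : V, (∀ i, i ≠ 0 → i ∉ S → a i = 0) →
      a = ∑ i ∈ insert 0 S, a i • (Finsupp.single i (1 : ZMod 2)) := by
    intro a ha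
    ext k
    rw [Finsupp.finsetSum_apply]
    have h3 : ∀ i ∈ insert 0 S, (a i • (Finsupp.single i (1 : ZMod 2))) k =
        if k = i then a k else 0 := by
      intro i _
      rw [Finsupp.smul_apply, HsP_app]
      by_cases h4 : k = i
      · simp [h4]
      · simp [h4, Ne.symm h4]
    rw [Finset.sum_congr rfl h3, Finset.sum_ite_eq]
    split_ifs with h5
    · rfl
    · rw [Finset.mem_insert, not_or] at h5
      exact ha k h5.1 h5.2
  rw [← hB, hdec v hv, hdec w hw]
  simp only [map_sum, LinearMap.sum_apply, map_smul, LinearMap.smul_apply]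
  refine Finset.sum_eq_zero fun i hi => ?_
  have h6 : ∑ x ∈ insert 0 S, v x • (B (Finsupp.single x 1)) (Finsupp.single i 1) = 0 := by
    refine Finset.sum_eq_zero fun j hj => ?_
    rw [hB, HsP_gen hS h2 (Finset.mem_insert.1 hj) (Finset.mem_insert.1 hi)]
    simp
  rw [h6, smul_zero]

end Pool.Agent.H93.MQ
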