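import Pool.Agent.H93.MQ.PaB
import Pool.Agent.H93.MQ.Cls

/-!
ROW PaC (project MP_78d38b_MQ). The parity step: if the Selmer group has dimension three, some
negative twist has only the classes of two-torsion points.

Let `N = modS S` and `χ` from `pos_char`; `r` from `exists_class` for `χ`. Choose with
`exists_prime_in_class`: a prime `q₀ = -1` mod `N` (that is `q₀ = N - 1` mod `N`); a prime
`q₁ = r` mod `N`, `q₁ > q₀`; a prime `q₁' = r` mod `N`, `q₁' > q₁`, with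
`chi q₀ q₁' = 1 + chi q₀ q₁`. Note `q₀` is odd, not in `S`, `q₀ % 8 = 7`.
`chi q₀ p = 0` for `p ∈ S`: `p = 2` by `chi_two`; `p` odd: `chi q₀ 0 = 1` by `chi_zero`
(`q₀ % 4 = 3`), `chi p q₀ = chi p 0` since `q₀ = -1` mod `p` (`chi_eq_zero_iff` and the definition of
`chi p 0`, `gen 0 = -1`), so `chi_recip` gives `chi q₀ p = chi p q₀ + chi p 0 * 1 = 0`.
`chi q₁ q₀ ≠ chi q₁' q₀`: by `chi_recip`, `chi q₁ q₀ = chi q₀ q₁ + chi q₀ 0 * chi q₁ 0` and
`chi q₁' q₀ = chi q₀ q₁' + chi q₀ 0 * chi q₁' 0`, where `chi q₁ 0 = χ 0 = chi q₁' 0`.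
Let `d = - q₀ q₁ q₁'`, `T = {q₀, q₁, q₁'}`; `Tw S T d` with `sq` by `sq_prod`, `c = q₁`
(`d = q₁²` mod `N`). Let `z ∈ Sel (S ∪ T) (A d) (B d)`, `u = at_ q₀ z`; by `three_equal` all
`at_ q z = u`. Let `z' = z + tor (A d) (B d) u`: supported in `S` (`tw_supp`), soluble for `(A, B)` at
the primes of `S` (`tw_solC`), and `ev2 (chi q₀) z' = 0 = ev2 (chi q₁) z'` (`tw_loc`). Since `chi q₀`
vanishes on `S` and is `1` at zero, `ev2 (chi q₀) z' = at_ 0 z'`, so `at_ 0 z' = 0` and `z'` is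
soluble over the reals (`SolC.real_of_pos`). So `z' ∈ Sel S A B` (`mem_sel`), and
`ev2 χ z' = ev2 (chi q₁) z' = 0`, so `z' = 0` by `pos_char`, and `z = tor (A d) (B d) u`.
-/

set_option autoImplicit false

open NumberField IsDedekindDomain WeierstrassCurve Pool.Agent.H10

namespace Pool.Agent.H93.MQ

lemma PaC_cop {q r N : ℕ} (h : q ≡ r [MOD N]) (hr : r.Coprime N) : q.Coprime N := by
  unfold Nat.Coprime
  rw [Nat.ModEq.gcd_eq h]
  exact hr

lemma PaC_dvd {S : Finset ℕ} {p : ℕ} (hp : p ∈ S) : 8 * p ∣ modS S := by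
  unfold modS
  exact Nat.mul_dvd_mul_left 8 (Finset.dvd_prod_of_mem (fun p => p) hp)

lemma PaC_notMem {S : Finset ℕ} {q : ℕ} (hq : q.Prime) (h : q.Coprime (modS S)) : q ∉ S := by
  intro hS
  have h1 : q ∣ modS S := dvd_trans (Dvd.intro_left 8 rfl) (PaC_dvd hS)
  have h2 : q ∣ Nat.gcd q (modS S) := Nat.dvd_gcd dvd_rfl h1
  rw [h] at h2
  exact hq.one_lt.ne' (Nat.dvd_one.1 h2)

lemma PaC_modS_ne {S : Finset ℕ} (hS : ∀ p ∈ S, p.Prime) : modS S ≠ 0 := by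
  unfold modS
  refine mul_ne_zero (by norm_num) (Finset.prod_ne_zero_iff.2 fun p hp => (hS p hp).ne_zero)

lemma PaC_z2 {a b : ZMod 2} (h : a = 0 ↔ b = 0) : a = b := by
  revert a b
  decide

lemma PaC_one {a : ZMod 2} (h : a ≠ 0) : a = 1 := by
  revert a
  decide

lemma PaC_chi_zero (p : ℕ) (hp : p ≠ 0) : chi p 0 = 0 ↔ IsSquare ((-1 : ℤ) : ZMod p) := by
  unfold chi
  constructor
  · intro h
    by_contra hc
    rw [if_neg] at h
    · exact one_ne_zero h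
    · rintro (h1 | h1)
      · exact hp h1.symm
      · apply hc
        simpa [gen] using h1
  · intro h
    rw [if_pos]
    right
    simpa [gen] using h

lemma PaC_c0 {S : Finset ℕ} (hS : ∀ p ∈ S, p.Prime) {q : ℕ} (hq : q.Prime)
    (hqS : q ∉ S) (h2 : q ≠ 2) (h7 : modS S ∣ q + 1) {p : ℕ} (hp : p ∈ S)
    (hq0 : chi q 0 = 1) (hq8 : q % 8 = 7) : chi q p = 0 := by
  by_cases hp2 : p = 2
  · subst hp2
    exact (chi_two hq h2).2 (Or.inr hq8)
  · have hpp := hS p hp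
    have hne : p ≠ q := fun h => hqS (h ▸ hp)
    have hr := chi_recip hpp hq hp2 h2 hne
    have hpd : p ∣ q + 1 := dvd_trans (dvd_trans (Dvd.intro_left 8 rfl) (PaC_dvd hp)) h7
    have he : ((q : ℤ) : ZMod p) = ((-1 : ℤ) : ZMod p) := by
      have h1 : ((q + 1 : ℕ) : ZMod p) = 0 := (ZMod.natCast_eq_zero_iff _ _).2 hpd
      push_cast at h1 ⊢
      exact eq_neg_of_add_eq_zero_left h1
    have hc : chi p q = chi p 0 := by
      apply PaC_z2
      rw [chi_eq_zero_iff hq hne.symm, PaC_chi_zero p hpp.ne_zero, he]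
    rw [hc, hq0, mul_one] at hr
    have := add_eq_left.1 hr
    exact this

lemma PaC_ev_single (v : V) : ev (Pi.single 0 1) v = v 0 := by
  have h : ev (Pi.single 0 1) = Finsupp.lapply 0 := by
    apply Finsupp.lhom_ext
    intro i c
    rw [ev_single]
    by_cases hi : i = 0
    · subst hi
      simp
    · simp [hi]
  rw [h]
  rfl

theorem parity_step {S : Finset ℕ} {A B : ℤ} (h : Adm S A B) (hg : Gen A B)
    (h3 : Module.finrank (ZMod 2) (Sel S A B) = 3) :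
    ∃ (T : Finset ℕ) (d : ℤ), Tw S T d ∧ Gen (A * d) (B * d) ∧
      Sel (S ∪ T) (A * d) (B * d) ≤ LinearMap.range (tor (A * d) (B * d)) := by
  obtain ⟨χ, hχs, hχi⟩ := pos_char h hg h3
  have hN := PaC_modS_ne h.prime
  obtain ⟨r, hr, hcls⟩ := exists_class h.prime h.two χ
  have hNpos : 0 < modS S := Nat.pos_of_ne_zero hN
  have hr0 : (modS S - 1).Coprime (modS S) := by
    have h1 : (modS S - 1).Coprime (modS S - 1 + 1) := by simp
    rwa [Nat.sub_add_cancel hNpos] at h1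
  -- the first prime
  obtain ⟨q₀, hq₀, hq₀2, hq₀N, -⟩ := exists_prime_in_class hN hr0 ∅ (by simp) (fun _ => 0) 2
  have h7 : modS S ∣ q₀ + 1 := by
    have h1 : q₀ + 1 ≡ modS S - 1 + 1 [MOD modS S] := Nat.ModEq.add_right 1 hq₀N
    rw [Nat.sub_add_cancel hNpos] at h1
    exact (Nat.modEq_zero_iff_dvd.1 (h1.trans (by simp [Nat.ModEq])))
  have h2 : q₀ ≠ 2 := by omega
  have hcop₀ : q₀.Coprime (modS S) := PaC_cop hq₀N hr0
  have hq₀S : q₀ ∉ S := PaC_notMem hq₀ hcop₀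
  have h8 : q₀ % 8 = 7 := by
    have h1 : 8 ∣ q₀ + 1 := dvd_trans (Dvd.intro _ rfl) h7
    omega
  have h01 : chi q₀ 0 = 1 := by
    apply PaC_one
    intro h1
    have := (chi_zero hq₀ h2).1 h1
    omega
  have c0 : ∀ i ∈ S, chi q₀ i = 0 := fun i hi => PaC_c0 h.prime hq₀ hq₀S h2 h7 hi h01 h8
  -- the second prime
  obtain ⟨q₁, hq₁, hq₁0, hq₁N, -⟩ := exists_prime_in_class hN hr ∅ (by simp) (fun _ => 0) q₀
  obtain ⟨hq₁S, hq₁χ⟩ := hcls q₁ hq₁ hq₁N
  have hcop₁ : q₁.Coprime (modS S) := PaC_cop hq₁N hr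
  -- the third prime
  obtain ⟨q₂, hq₂, hq₂0, hq₂N, hq₂c⟩ := exists_prime_in_class hN hr {q₀}
    (by
      intro p hp
      rw [Finset.mem_singleton] at hp
      subst hp
      exact ⟨hq₀, h2, hcop₀⟩) (fun _ => 1 + chi q₀ q₁) q₁
  have hq₂c' : chi q₀ q₂ = 1 + chi q₀ q₁ := hq₂c q₀ (Finset.mem_singleton_self _)
  obtain ⟨hq₂S, hq₂χ⟩ := hcls q₂ hq₂ hq₂N
  have n1 : q₀ ≠ q₁ := by omega
  have n2 : q₀ ≠ q₂ := by omega
  have n3 : q₁ ≠ q₂ := by omega
  have h12 : q₁ ≠ 2 := by omega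
  have h22 : q₂ ≠ 2 := by omega
  have c1 : ∀ i, i = 0 ∨ i ∈ S → chi q₁ i = chi q₂ i := by
    intro i hi
    rw [hq₁χ i hi, hq₂χ i hi]
  have hmu : chi q₁ q₀ ≠ chi q₂ q₀ := by
    have e1 := chi_recip hq₀ hq₁ h2 h12 n1
    have e2 := chi_recip hq₀ hq₂ h2 h22 n2
    rw [h01, hq₁χ 0 (Or.inl rfl)] at e1
    rw [h01, hq₂χ 0 (Or.inl rfl), hq₂c'] at e2
    intro he
    rw [he] at e1
    revert e1 e2
    generalize chi q₀ q₁ = a
    generalize chi q₂ q₀ = b
    generalize χ 0 = c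
    revert a b c
    decide
  -- the twist
  have hz₀ : (q₀ : ℤ) ≠ 0 := by exact_mod_cast hq₀.ne_zero
  have hz₁ : (q₁ : ℤ) ≠ 0 := by exact_mod_cast hq₁.ne_zero
  have hz₂ : (q₂ : ℤ) ≠ 0 := by exact_mod_cast hq₂.ne_zero
  have hTw : Tw S {q₀, q₁, q₂} (-((q₀ : ℤ) * q₁ * q₂)) := by
    refine ⟨neg_ne_zero.2 (mul_ne_zero (mul_ne_zero hz₀ hz₁) hz₂), ?_, ?_, ?_, ?_, ?_, ?_⟩
    · intro q hq
      simp only [Finset.mem_insert, Finset.mem_singleton] at hq
      rcases hq with rfl | rfl | rfl <;> assumption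
    · intro q hq
      simp only [Finset.mem_insert, Finset.mem_singleton] at hq
      rcases hq with rfl | rfl | rfl <;> assumption
    · rw [Finset.disjoint_right]
      intro q hq
      simp only [Finset.mem_insert, Finset.mem_singleton] at hq
      rcases hq with rfl | rfl | rfl <;> assumption
    · intro q hq
      have e : (-((q₀ : ℤ) * q₁ * q₂)) = -((q₀ * q₁ * q₂ : ℕ) : ℤ) := by push_cast; ring
      rw [e, dvd_neg, Int.natCast_dvd_natCast, hq.dvd_mul, hq.dvd_mul,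
        Nat.prime_dvd_prime_iff_eq hq hq₀, Nat.prime_dvd_prime_iff_eq hq hq₁,
        Nat.prime_dvd_prime_iff_eq hq hq₂]
      simp only [Finset.mem_insert, Finset.mem_singleton]
      tauto
    · intro q hq
      have e : (-((q₀ : ℤ) * q₁ * q₂)) = -((q₀ * q₁ * q₂ : ℕ) : ℤ) := by push_cast; ring
      have e2 : ((q : ℤ) ^ 2) = ((q ^ 2 : ℕ) : ℤ) := by push_cast; ring
      rw [e, dvd_neg, e2, Int.natCast_dvd_natCast]
      simp only [Finset.mem_insert, Finset.mem_singleton] at hq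
      intro hd
      rcases hq with rfl | rfl | rfl
      · have h1 : q * q ∣ q * (q₁ * q₂) := by
          rw [← mul_assoc, ← pow_two]; exact hd
        have h2 := Nat.dvd_of_mul_dvd_mul_left hq₀.pos h1
        rcases hq₀.dvd_mul.1 h2 with h3 | h3
        · exact n1 ((Nat.prime_dvd_prime_iff_eq hq₀ hq₁).1 h3)
        · exact n2 ((Nat.prime_dvd_prime_iff_eq hq₀ hq₂).1 h3)
      · have h1 : q * q ∣ q * (q₀ * q₂) := by
          have : q * (q₀ * q₂) = q₀ * q * q₂ := by ring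
          rw [this, ← pow_two]; exact hd
        have h2 := Nat.dvd_of_mul_dvd_mul_left hq₁.pos h1
        rcases hq₁.dvd_mul.1 h2 with h3 | h3
        · exact n1 ((Nat.prime_dvd_prime_iff_eq hq₁ hq₀).1 h3).symm
        · exact n3 ((Nat.prime_dvd_prime_iff_eq hq₁ hq₂).1 h3)
      · have h1 : q * q ∣ q * (q₀ * q₁) := by
          have : q * (q₀ * q₁) = q₀ * q₁ * q := by ring
          rw [this, ← pow_two]; exact hd
        have h2 := Nat.dvd_of_mul_dvd_mul_left hq₂.pos h1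
        rcases hq₂.dvd_mul.1 h2 with h3 | h3
        · exact n2 ((Nat.prime_dvd_prime_iff_eq hq₂ hq₀).1 h3).symm
        · exact n3 ((Nat.prime_dvd_prime_iff_eq hq₂ hq₁).1 h3).symm
    · intro p _ hp
      refine sq_prod (c := (q₁ : ℤ)) ?_ ?_ hp
      · exact Nat.isCoprime_iff_coprime.2 hcop₁
      · have e1 : (modS S : ℤ) ∣ (q₀ : ℤ) + 1 := by exact_mod_cast h7
        have e2 : (modS S : ℤ) ∣ (q₂ : ℤ) - q₁ := by
          have : q₁ ≡ q₂ [MOD modS S] := hq₁N.trans hq₂N.symm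
          exact Nat.modEq_iff_dvd.1 this
        have e3 : (-((q₀ : ℤ) * q₁ * q₂)) - (q₁ : ℤ) ^ 2 =
            (q₁ : ℤ) * ((q₂ : ℤ) - q₁) - (q₁ : ℤ) * q₂ * ((q₀ : ℤ) + 1) := by ring
        rw [e3]
        exact dvd_sub (Dvd.dvd.mul_left e2 _) (Dvd.dvd.mul_left e1 _)
  set d : ℤ := -((q₀ : ℤ) * q₁ * q₂) with hd
  have hm₀ : q₀ ∈ ({q₀, q₁, q₂} : Finset ℕ) := by simp
  have hm₁ : q₁ ∈ ({q₀, q₁, q₂} : Finset ℕ) := by simp
  refine ⟨{q₀, q₁, q₂}, d, hTw, hg.tw h hTw, ?_⟩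
  intro z hz
  have hs : ∀ w : ZMod 2 × ZMod 2, ∃ t ∈ Sel S A B, at_ 0 t = 0 ∧ ev2 (chi q₁) t = w := by
    intro w
    obtain ⟨t, ht, ht0, htw⟩ := hχs w
    refine ⟨t, ht, ht0, ?_⟩
    rw [ev2_congr ((mem_sel h.nz).1 ht).1 hq₁χ]
    exact htw
  have heq := three_equal h hTw n1 n2 n3 c0 c1 hs hmu hz
  set u := at_ q₀ z with hu
  have hsupp := tw_supp h hTw hz heq
  have hloc₀ := tw_loc h hTw hz hm₀
  have hloc₁ := tw_loc h hTw hz hm₁
  rw [heq q₁ hm₁] at hloc₁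
  rw [← hu] at hloc₀
  set z' := z + tor (A * d) (B * d) u with hz'
  have hat : at_ 0 z' = 0 := by
    have e1 : ev2 (chi q₀) z' = ev2 (Pi.single 0 1) z' := by
      refine ev2_congr hsupp ?_
      intro i hi
      rcases hi with rfl | hi
      · rw [h01]; simp
      · rw [c0 i hi]
        have : i ≠ 0 := (h.prime i hi).ne_zero
        simp [this]
    rw [hloc₀] at e1
    rw [ev2_apply, PaC_ev_single, PaC_ev_single] at e1
    rw [at_apply]
    exact e1.symm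
  have hnp : ∀ i : ℕ, i ≠ 0 → ¬ i.Prime → at_ i z' = 0 := fun i hi hip =>
    hsupp i hi fun hS => hip (h.prime i hS)
  have hmem : z' ∈ Sel S A B :=
    (mem_sel h.nz).2 ⟨hsupp, fun p _ hp => tw_solC h hTw hz u p hp, SolC.real_of_pos hnp hat⟩
  have hzero : z' = 0 := by
    refine hχi z' hmem hat ?_
    rw [← ev2_congr hsupp hq₁χ]
    exact hloc₁
  refine ⟨-u, ?_⟩
  rw [map_neg]
  exact (eq_neg_of_add_eq_zero_left hzero).symm

end Pool.Agent.H93.MQ
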