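import Pool.Agent.H93.MQ.StC
import Pool.Agent.H93.MQ.PaC

/-!
ROW Ind (project MP_78d38b_MQ). Existence of a twist whose Selmer group consists of the classes of
two-torsion points.

`lower_all`: strong induction on `dim Sel S A B`: if it is at most two, take `d = 1`
(`Gen.le_range`); if it is three, `parity_step`; if it is at least four, `lower_step` and
the induction hypothesis for `(S ∪ T, A d, B d)` (`Tw.adm`). The twisting integers multiply to a
squarefree integer all of whose prime factors are outside `S`: at each stage the primes of `d` are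
in `T`, each divides `d` once (`Tw.once`), and `T` is disjoint from the previous set.

`exists_twist`: let `D₀` be a prime larger than `C`, than `|A B (A - B)|`, than two and all
elements of `P` (`Nat.exists_infinite_primes`); `S₀` = primes dividing `2 A B (A - B) D₀` together with `P`. Then `Adm S₀
(A D₀) (B D₀)`, and `Gen (A D₀) (B D₀)`: `D₀` divides `A D₀`, `B D₀`, `(A - B) D₀` exactly once, and
the three classes are those of `A B`, `A (A - B)`, `B (B - A)`, which are not squares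
(`cl_eq_zero_iff`). Apply `lower_all` and put `D = D₀ d` (`d` is squarefree, prime to `D₀` as
`D₀ ∈ S₀`).
-/

set_option autoImplicit false

open NumberField IsDedekindDomain WeierstrassCurve Pool.Agent.H10

namespace Pool.Agent.H93.MQ

theorem Ind_sqf_mul {d e : ℤ} (hd : Squarefree d) (he : Squarefree e)
    (h : ∀ p : ℕ, p.Prime → (p : ℤ) ∣ d → ¬ (p : ℤ) ∣ e) : Squarefree (d * e) := by
  rw [← Int.squarefree_natAbs] at hd he ⊢
  rw [Int.natAbs_mul, Nat.squarefree_mul]
  · exact ⟨hd, he⟩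
  · apply Nat.Coprime.symm
    apply Nat.coprime_of_dvd
    intro p hp h1 h2
    exact h p hp (Int.natCast_dvd.2 h2) (Int.natCast_dvd.2 h1)

theorem Ind_sqf_tw {S T : Finset ℕ} {d : ℤ} (h : Tw S T d) : Squarefree d := by
  rw [← Int.squarefree_natAbs, Nat.squarefree_iff_prime_squarefree]
  intro q hq hdvd
  have h1 : ((q : ℤ)) ^ 2 ∣ d := by
    have h2 : ((q * q : ℕ) : ℤ) ∣ d := Int.natCast_dvd.2 hdvd
    rw [Nat.cast_mul, ← pow_two] at h2
    exact h2
  have h3 : (q : ℤ) ∣ d := (dvd_pow_self (q : ℤ) two_ne_zero).trans h1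
  exact h.once q ((h.dvd q hq).1 h3) h1

theorem Ind_not_mem {S T : Finset ℕ} {d : ℤ} (h : Tw S T d) {p : ℕ} (hp : p.Prime)
    (hd : (p : ℤ) ∣ d) : p ∉ S := by
  intro hS
  exact Finset.disjoint_left.1 h.disj hS ((h.dvd p hp).1 hd)

theorem lower_all (n : ℕ) : ∀ (S : Finset ℕ) (A B : ℤ), Adm S A B → Gen A B →
    Module.finrank (ZMod 2) (Sel S A B) ≤ n →
    ∃ (S' : Finset ℕ) (d : ℤ), S ⊆ S' ∧ Squarefree d ∧
      (∀ p : ℕ, p.Prime → (p : ℤ) ∣ d → p ∉ S) ∧ Adm S' (A * d) (B * d) ∧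
      Gen (A * d) (B * d) ∧ Sel S' (A * d) (B * d) ≤ LinearMap.range (tor (A * d) (B * d)) := by
  have small : ∀ (S : Finset ℕ) (A B : ℤ), Adm S A B → Gen A B →
    Module.finrank (ZMod 2) (Sel S A B) ≤ 2 →
    ∃ (S' : Finset ℕ) (d : ℤ), S ⊆ S' ∧ Squarefree d ∧
      (∀ p : ℕ, p.Prime → (p : ℤ) ∣ d → p ∉ S) ∧ Adm S' (A * d) (B * d) ∧
      Gen (A * d) (B * d) ∧ Sel S' (A * d) (B * d) ≤ LinearMap.range (tor (A * d) (B * d)) := by
    intro S A B hA hG h2
    refine ⟨S, 1, Finset.Subset.refl S, squarefree_one, ?_, ?_, ?_, ?_⟩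
    · intro p hp h1
      exfalso
      have h3 := Int.natCast_dvd.1 h1
      rw [Int.natAbs_one, Nat.dvd_one] at h3
      exact hp.one_lt.ne' h3
    · rw [mul_one, mul_one]; exact hA
    · rw [mul_one, mul_one]; exact hG
    · rw [mul_one, mul_one]; exact hG.le_range hA h2
  induction n with
  | zero => intro S A B hA hG h0; exact small S A B hA hG (by omega)
  | succ n ih =>
    intro S A B hA hG hn
    rcases Nat.lt_or_ge 2 (Module.finrank (ZMod 2) (Sel S A B)) with h2 | h2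
    swap
    · exact small S A B hA hG h2
    rcases Nat.lt_or_ge 3 (Module.finrank (ZMod 2) (Sel S A B)) with h3 | h3
    · obtain ⟨T, d, hT, hG', hr⟩ := lower_step hA hG h3
      obtain ⟨S', e, hS', he, hep, hA2, hG2, hr2⟩ := ih (S ∪ T) (A * d) (B * d) (hT.adm hA) hG' (by omega)
      refine ⟨S', d * e, Finset.subset_union_left.trans hS', ?_, ?_, ?_, ?_, ?_⟩
      · apply Ind_sqf_mul (Ind_sqf_tw hT) he
        intro p hp hpd hpe
        exact hep p hp hpe (Finset.mem_union_right _ ((hT.dvd p hp).1 hpd))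
      · intro p hp hpd hpS
        have hpp : Prime (p : ℤ) := Nat.prime_iff_prime_int.1 hp
        rcases hpp.dvd_or_dvd hpd with h | h
        · exact Ind_not_mem hT hp h hpS
        · exact hep p hp h (Finset.mem_union_left _ hpS)
      · rw [← mul_assoc, ← mul_assoc]; exact hA2
      · rw [← mul_assoc, ← mul_assoc]; exact hG2
      · rw [← mul_assoc, ← mul_assoc]; exact hr2
    · obtain ⟨T, d, hT, hG', hr⟩ := parity_step hA hG (by omega)
      exact ⟨S ∪ T, d, Finset.subset_union_left, Ind_sqf_tw hT,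
        fun p hp hpd => Ind_not_mem hT hp hpd, hT.adm hA, hG', hr⟩

theorem exists_twist {A B : ℤ} (h : NZ A B) (h1 : ¬ IsSquare (A * B))
    (h2 : ¬ IsSquare (A * (A - B))) (h3 : ¬ IsSquare (B * (B - A))) (P : Finset ℕ)
    (hP : ∀ p ∈ P, p.Prime) (C : ℕ) :
    ∃ (S : Finset ℕ) (D : ℤ), P ⊆ S ∧ Squarefree D ∧ (C : ℤ) < |D| ∧ Adm S (A * D) (B * D) ∧
      Gen (A * D) (B * D) ∧ Sel S (A * D) (B * D) ≤ LinearMap.range (tor (A * D) (B * D)) := by
  classical
  obtain ⟨D, hDge, hDp⟩ := Nat.exists_infinite_primes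
    (C + A.natAbs + B.natAbs + (A - B).natAbs + 3)
  have hDC : C < D := by omega
  have hDA : A.natAbs < D := by omega
  have hDB : B.natAbs < D := by omega
  have hDAB : (A - B).natAbs < D := by omega
  have hD0 : (D : ℤ) ≠ 0 := by exact_mod_cast hDp.ne_zero
  have hAB0 : A - B ≠ 0 := sub_ne_zero.2 h.hAB
  have hnd : ∀ x : ℤ, x ≠ 0 → x.natAbs < D → ¬ (D : ℤ) ∣ x := by
    intro x hx hlt hdvd
    have h4 := Nat.le_of_dvd (Int.natAbs_pos.2 hx) (Int.natCast_dvd.1 hdvd)
    omega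
  have hcl : ∀ x : ℤ, x ≠ 0 → x.natAbs < D → cl (x * D) D = 1 := by
    intro x hx hlt
    rw [cl_mul hx hD0, Finsupp.add_apply, cl_apply_of_not_dvd hx hDp (hnd x hx hlt),
      cl_natPrime hDp, Finsupp.single_eq_same, zero_add]
  have hsq : ∀ x : ℤ, x ≠ 0 → ¬ IsSquare x → cl (x * (D : ℤ) ^ 2) ≠ 0 := by
    intro x hx hns
    rw [cl_mul hx (pow_ne_zero 2 hD0), cl_sq hD0, add_zero]
    exact fun h0 => hns ((cl_eq_zero_iff hx).1 h0)
  obtain ⟨N, hN⟩ : ∃ N : ℤ, N = 2 * A * B * (A - B) * D := ⟨_, rfl⟩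
  have hN0 : N ≠ 0 := by
    rw [hN]
    exact mul_ne_zero (mul_ne_zero (mul_ne_zero (mul_ne_zero two_ne_zero h.hA) h.hB) hAB0) hD0
  have hmem : ∀ p : ℕ, p.Prime → (p : ℤ) ∣ N → p ∈ N.natAbs.primeFactors := by
    intro p hp hpN
    exact Nat.mem_primeFactors.2 ⟨hp, Int.natCast_dvd.1 hpN, Int.natAbs_ne_zero.2 hN0⟩
  have hNZ : NZ (A * D) (B * D) :=
    ⟨mul_ne_zero h.hA hD0, mul_ne_zero h.hB hD0, fun h5 => h.hAB (mul_right_cancel₀ hD0 h5)⟩
  have hAdm : Adm (N.natAbs.primeFactors ∪ P) (A * D) (B * D) := by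
    refine ⟨?_, ?_, hNZ, ?_⟩
    · intro p hp
      rcases Finset.mem_union.1 hp with hp | hp
      · exact Nat.prime_of_mem_primeFactors hp
      · exact hP p hp
    · apply Finset.mem_union_left
      apply hmem 2 Nat.prime_two
      rw [hN]
      exact ⟨A * B * (A - B) * D, by push_cast; ring⟩
    · intro p hp hdvd
      apply Finset.mem_union_left
      apply hmem p hp
      have hpp : Prime (p : ℤ) := Nat.prime_iff_prime_int.1 hp
      have e1 : A * D * (B * D) * (A * D - B * D) = (A * B * (A - B)) * (D : ℤ) ^ 3 := by ring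
      rw [e1] at hdvd
      rw [hN]
      rcases hpp.dvd_or_dvd hdvd with h6 | h6
      · have e2 : 2 * A * B * (A - B) * (D : ℤ) = A * B * (A - B) * (2 * D) := by ring
        rw [e2]
        exact h6.mul_right _
      · exact (hpp.dvd_of_dvd_pow h6).mul_left _
  have hGen : Gen (A * D) (B * D) := by
    refine ⟨hNZ, ⟨D, hDp, hcl A h.hA hDA, hcl B h.hB hDB, ?_⟩, ?_, ?_, ?_⟩
    · rw [← sub_mul]
      exact hcl _ hAB0 hDAB
    · have e3 : A * D * (B * D) = A * B * (D : ℤ) ^ 2 := by ring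
      rw [e3]
      exact hsq _ (mul_ne_zero h.hA h.hB) h1
    · have e3 : A * D * (A * D - B * D) = A * (A - B) * (D : ℤ) ^ 2 := by ring
      rw [e3]
      exact hsq _ (mul_ne_zero h.hA hAB0) h2
    · have e3 : B * D * (B * D - A * D) = B * (B - A) * (D : ℤ) ^ 2 := by ring
      rw [e3]
      exact hsq _ (mul_ne_zero h.hB (sub_ne_zero.2 h.hAB.symm)) h3
  obtain ⟨S', d, hS', hd, hdp, hA2, hG2, hr2⟩ := lower_all _ _ _ _ hAdm hGen le_rfl
  have hDmem : D ∈ N.natAbs.primeFactors ∪ P := by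
    apply Finset.mem_union_left
    apply hmem D hDp
    rw [hN]
    exact Dvd.intro_left _ rfl
  refine ⟨S', (D : ℤ) * d, Finset.subset_union_right.trans hS', ?_, ?_, ?_, ?_, ?_⟩
  · apply Ind_sqf_mul
    · exact (Nat.prime_iff_prime_int.1 hDp).squarefree
    · exact hd
    · intro p hp hpD hpd
      have h7 : p = D := (Nat.prime_dvd_prime_iff_eq hp hDp).1 (by exact_mod_cast hpD)
      exact hdp p hp hpd (h7 ▸ hDmem)
  · rw [abs_mul, Nat.abs_cast]
    have h8 : 1 ≤ |d| := Int.one_le_abs hd.ne_zero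
    have h9 : (C : ℤ) < D := by exact_mod_cast hDC
    nlinarith
  · rw [← mul_assoc, ← mul_assoc]; exact hA2
  · rw [← mul_assoc, ← mul_assoc]; exact hG2
  · rw [← mul_assoc, ← mul_assoc]; exact hr2

end Pool.Agent.H93.MQ
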