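import Mathlib

/-!
ROW LinA (project MP_78d38b_MQ). Linear algebra over the field with two elements (self-contained).

`la_zero`: let `T` be a subspace of `X × X` containing two distinct nonzero elements. Then either some
linear form `χ` of `X` makes `T → F × F`, `z ↦ (χ z.1, χ z.2)` surjective, or there is a nonzero
`v` with `v.1 z.1 + v.2 z.2 = 0` for all `z ∈ T`.

Proof. Suppose no `χ` is surjective on `T`; then for all `χ` and `s, t ∈ T` the vectors `χ s`, `χ t`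
of `F × F` are linearly dependent (over two elements: one of them is zero or they are equal).
(1) No element `s = (x, y)` of `T` has `x, y` linearly independent (`x ≠ 0`, `y ≠ 0`, `x ≠ y`):
suppose it has, let `t ∈ T`, `t ≠ 0`, `t ≠ s`. For every nonzero `w ∈ F × F` there is `χ` with
`χ s = w`; for each such `χ` we have `χ t ∈ {0, w}`. If `χ'` has `χ' s = 0`, then comparing `χ` and
`χ + χ'` gives `χ' t ∈ {0, w}` for all three nonzero `w`, so `χ' t = 0`. Hence `χ t` depends only on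
`χ s`, linearly: `χ t = M (χ s)` with `M w ∈ {0, w}` for all `w`, which forces `M = 0` or `M = 1`
(if `M w₁ = 0`, `M w₂ = w₂` with `w₁ ≠ w₂` nonzero then `M (w₁ + w₂) = w₂` is neither `0` nor
`w₁ + w₂`). So `χ t = 0` for all `χ` or `χ t = χ s` for all `χ`, whence `t = 0` or `t = s` (linear
forms separate points), a contradiction.
(2) So every nonzero element of `T` is one of `(x, 0)`, `(0, x)`, `(x, x)`, that is `x ⊗ w` with
`w ∈ {(1,0), (0,1), (1,1)}`, `x ≠ 0`. If two nonzero elements `x ⊗ w`, `x' ⊗ w'` have `w ≠ w'`,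
choose `χ` with `χ x = χ x' = 1` (exists: if `x = x'` clear, otherwise `x, x'` are independent);
then `χ` is surjective on `T` since `w, w'` span `F × F`; contradiction. So `w` is constant, and `v`
is the nonzero vector orthogonal to `w`: `(0,1)` for `(1,0)`, `(1,0)` for `(0,1)`, `(1,1)` for
`(1,1)`.

Useful: `Module.forall_dual_apply_eq_zero_iff`, `Submodule.exists_dual_map_eq_bot_of_notMem`,
`Module.Free.of_divisionRing`. In `ZMod 2` every element is `0` or `1`. An instance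
`Fact (Nat.Prime 2)` is available (`fact_prime_two`), so `ZMod 2` is a field.
-/

set_option autoImplicit false

namespace Pool.Agent.H93.MQ

theorem LinA_eq_one (a : ZMod 2) (h : a ≠ 0) : a = 1 := by
  revert h; revert a; decide

theorem LinA_sep {X : Type*} [AddCommGroup X] [Module (ZMod 2) X] (x : X) (hx : x ≠ 0) :
    ∃ χ : X →ₗ[ZMod 2] ZMod 2, χ x = 1 := by
  by_contra hcon
  apply hx
  refine (Module.forall_dual_apply_eq_zero_iff (ZMod 2) x).1 ?_
  intro f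
  by_contra hf
  exact hcon ⟨f, LinA_eq_one _ hf⟩

theorem LinA_sep2 {X : Type*} [AddCommGroup X] [Module (ZMod 2) X] (x y : X) (hy : y ≠ 0)
    (hxy : y ≠ x) : ∃ χ : X →ₗ[ZMod 2] ZMod 2, χ x = 0 ∧ χ y = 1 := by
  have hns : y ∉ Submodule.span (ZMod 2) {x} := by
    intro h
    obtain ⟨a, ha⟩ := Submodule.mem_span_singleton.1 h
    by_cases h0 : a = 0
    · apply hy
      rw [← ha, h0, zero_smul]
    · apply hxy
      rw [← ha, LinA_eq_one a h0, one_smul]
  obtain ⟨f, hf1, hf2⟩ := Submodule.exists_dual_map_eq_bot_of_notMem hns inferInstance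
  refine ⟨f, ?_, LinA_eq_one _ hf1⟩
  have : f x ∈ (Submodule.span (ZMod 2) {x}).map f :=
    Submodule.mem_map_of_mem (Submodule.mem_span_singleton_self x)
  rw [hf2] at this
  exact (Submodule.mem_bot _).1 this

theorem LinA_both {X : Type*} [AddCommGroup X] [Module (ZMod 2) X] (x y : X) (hx : x ≠ 0)
    (hy : y ≠ 0) : ∃ χ : X →ₗ[ZMod 2] ZMod 2, χ x = 1 ∧ χ y = 1 := by
  obtain ⟨χ1, h1⟩ := LinA_sep x hx
  by_cases h2 : χ1 y = 0
  · obtain ⟨χ2, h3⟩ := LinA_sep y hy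
    by_cases h4 : χ2 x = 0
    · refine ⟨χ1 + χ2, ?_, ?_⟩
      · rw [LinearMap.add_apply, h1, h4, add_zero]
      · rw [LinearMap.add_apply, h2, h3, zero_add]
    · exact ⟨χ2, LinA_eq_one _ h4, h3⟩
  · exact ⟨χ1, h1, LinA_eq_one _ h2⟩

/-- an element killed by all linear forms that kill `x` is `0` or `x` -/
theorem LinA_mem {X : Type*} [AddCommGroup X] [Module (ZMod 2) X] (x a : X)
    (h : ∀ χ : X →ₗ[ZMod 2] ZMod 2, χ x = 0 → χ a = 0) : a = 0 ∨ a = x := by
  by_contra hcon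
  push Not at hcon
  obtain ⟨χ, h1, h2⟩ := LinA_sep2 x a hcon.1 hcon.2
  have h3 := h χ h1
  rw [h2] at h3
  exact one_ne_zero h3

theorem LinA_det {X : Type*} [AddCommGroup X] [Module (ZMod 2) X]
    (T : Submodule (ZMod 2) (X × X))
    (hT : ¬ ∃ χ : X →ₗ[ZMod 2] ZMod 2, ∀ w : ZMod 2 × ZMod 2, ∃ z ∈ T, (χ z.1, χ z.2) = w)
    {s t : X × X} (hs : s ∈ T) (ht : t ∈ T) (χ : X →ₗ[ZMod 2] ZMod 2) :
    χ s.1 * χ t.2 = χ s.2 * χ t.1 := by
  by_contra hne
  apply hT
  refine ⟨χ, ?_⟩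
  intro w
  have hd : χ s.1 * χ t.2 - χ s.2 * χ t.1 = 1 := LinA_eq_one _ (sub_ne_zero.2 hne)
  refine ⟨(w.1 * χ t.2 - w.2 * χ t.1) • s + (w.2 * χ s.1 - w.1 * χ s.2) • t,
    T.add_mem (T.smul_mem _ hs) (T.smul_mem _ ht), ?_⟩
  ext
  · simp only [Prod.fst_add, Prod.smul_fst, map_add, map_smul, smul_eq_mul]
    linear_combination w.1 * hd
  · simp only [Prod.snd_add, Prod.smul_snd, map_add, map_smul, smul_eq_mul]
    linear_combination w.2 * hd

/-- step (1) -/
theorem LinA_step {X : Type*} [AddCommGroup X] [Module (ZMod 2) X]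
    (T : Submodule (ZMod 2) (X × X))
    (hT : ¬ ∃ χ : X →ₗ[ZMod 2] ZMod 2, ∀ w : ZMod 2 × ZMod 2, ∃ z ∈ T, (χ z.1, χ z.2) = w)
    {z t : X × X} (hz : z ∈ T) (ht : t ∈ T) (ht0 : t ≠ 0) (hzt : t ≠ z) :
    z.1 = 0 ∨ z.2 = 0 ∨ z.1 = z.2 := by
  by_contra hcon
  push Not at hcon
  obtain ⟨hx, hy, hxy⟩ := hcon
  have hdet := fun χ => LinA_det T hT hz ht χ
  have ha : t.1 = 0 ∨ t.1 = z.1 := by
    apply LinA_mem
    intro χ hχ
    obtain ⟨χ2, h1, h2⟩ := LinA_sep2 z.1 z.2 hy (Ne.symm hxy)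
    have key : ∀ ψ : X →ₗ[ZMod 2] ZMod 2, ψ z.1 = 0 → ψ z.2 = 1 → ψ t.1 = 0 := by
      intro ψ h3 h4
      have h5 := hdet ψ
      rw [h3, h4, zero_mul, one_mul] at h5
      exact h5.symm
    by_cases h3 : χ z.2 = 0
    · have h4 := key χ2 h1 h2
      have h5 := key (χ + χ2) (by rw [LinearMap.add_apply, hχ, h1, add_zero])
        (by rw [LinearMap.add_apply, h3, h2, zero_add])
      rw [LinearMap.add_apply, h4, add_zero] at h5
      exact h5
    · exact key χ hχ (LinA_eq_one _ h3)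
  have hb : t.2 = 0 ∨ t.2 = z.2 := by
    apply LinA_mem
    intro χ hχ
    obtain ⟨χ2, h1, h2⟩ := LinA_sep2 z.2 z.1 hx hxy
    have key : ∀ ψ : X →ₗ[ZMod 2] ZMod 2, ψ z.2 = 0 → ψ z.1 = 1 → ψ t.2 = 0 := by
      intro ψ h3 h4
      have h5 := hdet ψ
      rw [h3, h4, zero_mul, one_mul] at h5
      exact h5
    by_cases h3 : χ z.1 = 0
    · have h4 := key χ2 h1 h2
      have h5 := key (χ + χ2) (by rw [LinearMap.add_apply, hχ, h1, add_zero])
        (by rw [LinearMap.add_apply, h3, h2, zero_add])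
      rw [LinearMap.add_apply, h4, add_zero] at h5
      exact h5
    · exact key χ hχ (LinA_eq_one _ h3)
  obtain ⟨χ3, h1, h2⟩ := LinA_both z.1 z.2 hx hy
  have h3 := hdet χ3
  rw [h1, h2, one_mul, one_mul] at h3
  rcases ha with ha | ha <;> rcases hb with hb | hb
  · exact ht0 (Prod.ext ha hb)
  · rw [ha, hb, map_zero, h2] at h3
    exact one_ne_zero h3
  · rw [ha, hb, map_zero, h1] at h3
    exact one_ne_zero h3.symm
  · exact hzt (Prod.ext ha hb)

/-- form of the elements of `T` -/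
theorem LinA_form {X : Type*} [AddCommGroup X] [Module (ZMod 2) X] (z : X × X)
    (h : z.1 = 0 ∨ z.2 = 0 ∨ z.1 = z.2) :
    ∃ (x : X) (w : ZMod 2 × ZMod 2), w ≠ 0 ∧ z.1 = w.1 • x ∧ z.2 = w.2 • x := by
  rcases h with h | h | h
  · refine ⟨z.2, (0, 1), ?_, ?_, ?_⟩
    · decide
    · rw [h, zero_smul]
    · rw [one_smul]
  · refine ⟨z.1, (1, 0), ?_, ?_, ?_⟩
    · decide
    · rw [one_smul]
    · rw [h, zero_smul]
  · refine ⟨z.1, (1, 1), ?_, ?_, ?_⟩
    · decide
    · rw [one_smul]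
    · rw [one_smul, h]

theorem la_zero {X : Type*} [AddCommGroup X] [Module (ZMod 2) X]
    (T : Submodule (ZMod 2) (X × X)) {s t : X × X} (hs : s ∈ T) (ht : t ∈ T) (hs0 : s ≠ 0)
    (ht0 : t ≠ 0) (hst : s ≠ t) :
    (∃ χ : X →ₗ[ZMod 2] ZMod 2, ∀ w : ZMod 2 × ZMod 2, ∃ z ∈ T, (χ z.1, χ z.2) = w) ∨
    (∃ v : ZMod 2 × ZMod 2, v ≠ 0 ∧ ∀ z ∈ T, v.1 • z.1 + v.2 • z.2 = 0) := by
  by_cases hT : ∃ χ : X →ₗ[ZMod 2] ZMod 2, ∀ w : ZMod 2 × ZMod 2, ∃ z ∈ T, (χ z.1, χ z.2) = w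
  · exact Or.inl hT
  right
  have hform : ∀ z ∈ T, ∃ (x : X) (w : ZMod 2 × ZMod 2), w ≠ 0 ∧ z.1 = w.1 • x ∧
      z.2 = w.2 • x := by
    intro z hz
    apply LinA_form
    by_cases h : s = z
    · exact LinA_step T hT hz ht ht0 (fun h2 => hst (h.trans h2.symm))
    · exact LinA_step T hT hz hs hs0 h
  obtain ⟨x, w, hw, h1, h2⟩ := hform s hs
  have hx : x ≠ 0 := by
    intro h0
    apply hs0
    refine Prod.ext ?_ ?_
    · rw [h1, h0, smul_zero]; rfl
    · rw [h2, h0, smul_zero]; rfl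
  refine ⟨(w.2, w.1), ?_, ?_⟩
  · intro h0
    apply hw
    have h3 := congrArg Prod.fst h0
    have h4 := congrArg Prod.snd h0
    exact Prod.ext h4 h3
  · intro z hz
    obtain ⟨x', w', hw', h1', h2'⟩ := hform z hz
    by_cases hx' : x' = 0
    · rw [h1', h2', hx', smul_zero, smul_zero, smul_zero, smul_zero, add_zero]
    · obtain ⟨χ, h3, h4⟩ := LinA_both x x' hx hx'
      have h5 := LinA_det T hT hs hz χ
      rw [h1, h2, h1', h2', map_smul, map_smul, map_smul, map_smul, h3, h4, smul_eq_mul,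
        smul_eq_mul, smul_eq_mul, smul_eq_mul, mul_one, mul_one, mul_one, mul_one] at h5
      change w.2 • z.1 + w.1 • z.2 = 0
      rw [h1', h2', smul_smul, smul_smul, h5, ← add_smul, CharTwo.add_self_eq_zero, zero_smul]

end Pool.Agent.H93.MQ
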