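import Mathlib

/-!
ROW LinB (project MP_78d38b_MQ). Two planes have a common complement (over two elements).

`la_compl`: let `y₁, y₂` be linearly independent and `a₁, a₂` linearly independent in `X`. There
are linear forms `θ₁, θ₂` such that the `2 × 2` matrices `(θ_i y_j)` and `(θ_i a_j)` are both
invertible; stated as injectivity. Since the scalars are `ZMod 2`, linear independence of `y₁, y₂`
means `y₁ ≠ 0`, `y₂ ≠ 0`, `y₁ ≠ y₂`.

Proof. Let `Y`, `A` be the two planes and `I = Y ∩ A`.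
If `I = Y` then `A = Y`; choose forms dual to `y₁, y₂`.
If `I` has two elements `0, e`, choose bases `e, y` of `Y` and `e, a` of `A`; then `e, y, a` are
linearly independent (otherwise `a ∈ Y`, so `a ∈ I`), so there are forms with
`θ₁ e = 1, θ₁ y = 0, θ₁ a = 0` and `θ₂ e = 0, θ₂ y = 1, θ₂ a = 1`.
If `I = 0` then `y₁, y₂, a₁, a₂` are linearly independent; choose `θ_i y_j = δ_ij = θ_i a_j`.
Injectivity of `c ↦ (θ₁ (c.1 y₁ + c.2 y₂), θ₂ (...))` follows in each case.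
An alternative: a counting argument or `Submodule` complements (`Submodule.exists_isCompl`).
-/

set_option autoImplicit false

namespace Pool.Agent.H93.MQ

theorem LinB_two (x : ZMod 2) : x = 0 ∨ x = 1 := by
  revert x
  decide

section

variable {X : Type*} [AddCommGroup X] [Module (ZMod 2) X]

theorem LinB_sep {v : X} (hv : v ≠ 0) : ∃ f : X →ₗ[ZMod 2] ZMod 2, f v = 1 := by
  by_contra hcon
  push Not at hcon
  apply hv
  rw [← Module.forall_dual_apply_eq_zero_iff (ZMod 2)]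
  intro f
  exact (LinB_two (f v)).resolve_right (hcon f)

theorem LinB_both {u v : X} (hu : u ≠ 0) (hv : v ≠ 0) :
    ∃ f : X →ₗ[ZMod 2] ZMod 2, f u = 1 ∧ f v = 1 := by
  obtain ⟨f, hf⟩ := LinB_sep hu
  obtain ⟨g, hg⟩ := LinB_sep hv
  rcases LinB_two (f v) with h1 | h1
  · rcases LinB_two (g u) with h2 | h2
    · exact ⟨f + g, by simp [hf, h2], by simp [hg, h1]⟩
    · exact ⟨g, h2, hg⟩
  · exact ⟨f, hf, h1⟩

theorem LinB_eq : ∀ c d : ZMod 2, c + d = 0 → c = d := by decide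

theorem LinB_plane {y₁ y₂ : X} (hy2 : y₂ ≠ 0) (hy : y₁ ≠ y₂) {θ : X →ₗ[ZMod 2] ZMod 2}
    (hθ : θ y₁ = 1) : ∃ e : X, e ≠ 0 ∧ ∀ θ' : X →ₗ[ZMod 2] ZMod 2, θ' e = 1 →
      ∀ c d : ZMod 2, θ (c • y₁ + d • y₂) = 0 → θ' (c • y₁ + d • y₂) = 0 → c = 0 ∧ d = 0 := by
  rcases LinB_two (θ y₂) with h | h
  · refine ⟨y₂, hy2, fun θ' h' c d h1 h2 => ?_⟩
    rw [map_add, map_smul, map_smul, hθ, h, smul_zero, add_zero, smul_eq_mul, mul_one] at h1
    subst h1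
    rw [zero_smul, zero_add, map_smul, h', smul_eq_mul, mul_one] at h2
    exact ⟨rfl, h2⟩
  · refine ⟨y₁ + y₂, ?_, fun θ' h' c d h1 h2 => ?_⟩
    · intro h0
      apply hy
      have h3 : (2 : ZMod 2) • y₂ = 0 := by
        have : (2 : ZMod 2) = 0 := by decide
        rw [this, zero_smul]
      have h4 : y₂ + y₂ = 0 := by rw [← two_smul (ZMod 2) y₂, h3]
      have h5 : y₁ + y₂ = y₂ + y₂ := by rw [h0, h4]
      exact add_right_cancel h5
    · rw [map_add, map_smul, map_smul, hθ, h, smul_eq_mul, smul_eq_mul, mul_one, mul_one] at h1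
      have h3 : c = d := LinB_eq c d h1
      subst h3
      rw [← smul_add, map_smul, h', smul_eq_mul, mul_one] at h2
      exact ⟨h2, h2⟩

end

theorem la_compl {X : Type*} [AddCommGroup X] [Module (ZMod 2) X] {y₁ y₂ a₁ a₂ : X}
    (hy1 : y₁ ≠ 0) (hy2 : y₂ ≠ 0) (hy : y₁ ≠ y₂) (ha1 : a₁ ≠ 0) (ha2 : a₂ ≠ 0) (ha : a₁ ≠ a₂) :
    ∃ θ₁ θ₂ : X →ₗ[ZMod 2] ZMod 2,
      (∀ c d : ZMod 2, θ₁ (c • y₁ + d • y₂) = 0 → θ₂ (c • y₁ + d • y₂) = 0 → c = 0 ∧ d = 0) ∧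
      (∀ c d : ZMod 2, θ₁ (c • a₁ + d • a₂) = 0 → θ₂ (c • a₁ + d • a₂) = 0 → c = 0 ∧ d = 0) := by
  obtain ⟨θ₁, h1, h2⟩ := LinB_both hy1 ha1
  obtain ⟨e, he, h3⟩ := LinB_plane hy2 hy h1
  obtain ⟨e', he', h4⟩ := LinB_plane ha2 ha h2
  obtain ⟨θ₂, h5, h6⟩ := LinB_both he he'
  exact ⟨θ₁, θ₂, h3 θ₂ h5, h4 θ₂ h6⟩

end Pool.Agent.H93.MQ
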