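import Pool.Agent.H93.MQ.LinA
import Pool.Agent.H93.MQ.LinB

/-!
ROW LinC (project MP_78d38b_MQ). The main linear algebra statement.

`T` is a subspace of `X × X` of dimension at least four, `e : F × F → X × X` is linear with values in
`T`, (i) for some linear form `χ` of `X` the map `u ↦ χ (e u)` is injective (hence bijective), and
(ii) for every nonzero `v` the map `u ↦ v.1 (e u).1 + v.2 (e u).2` is injective. Then there are two
linear forms `χ₁, χ₂` of `X` for which `T → (F × F) × (F × F)` is surjective.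

Proof. Take `χ₁ = χ` from (i) and `T' = {s ∈ T : χ₁ s = 0}`; since `T = e(F × F) ⊕ T'`
(subtract `e u` with `χ₁ (e u) = χ₁ s`), `T'` has dimension at least two, so it contains two
distinct nonzero elements. Apply `la_zero` to `T'`.
Case 1: some `χ₂` is surjective on `T'`. Given `w₁, w₂`, choose `u` with `χ₁ (e u) = w₁` and
`s' ∈ T'` with `χ₂ s' = w₂ - χ₂ (e u)`; take `z = e u + s'`.
Case 2: there is `v ≠ 0` with `v.1 z.1 + v.2 z.2 = 0` for all `z ∈ T'`. Then all elements of `T'` are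
`x ⊗ w`, where `w ≠ 0` is the vector with `v.1 w.1 + v.2 w.2 = 0`, that is
`(x • w.1, x • w.2)` (for `v = (1,0)`: `z = (0, x)`; `v = (0,1)`: `z = (x, 0)`; `v = (1,1)`:
`z = (x, x)`). Choose `a₁ ⊗ w`, `a₂ ⊗ w` distinct nonzero in `T'`, so `a₁, a₂` are distinct and
nonzero. Let `y_j = v.1 (e u_j).1 + v.2 (e u_j).2` for `u₁ = (1,0)`, `u₂ = (0,1)`; by (ii) these are
nonzero and distinct. Take `θ₁, θ₂` from `la_compl` and `χ_i = θ_i`. Surjectivity: given `w₁, w₂`,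
choose `u` with `θ_i (v · e u) = v · w_i` for `i = 1, 2` (possible: `c, d ↦ θ_i (c y₁ + d y₂)` is an
injective, hence surjective, map of `F × F`). Then `w_i - θ_i (e u)` is orthogonal to `v`, so it is
a multiple `c_i w`; choose `x` in the span of `a₁, a₂` with `θ_i x = c_i`, and
`z = e u + x ⊗ w`.

`dim_step`: the kernel `T₀` of `(χ₁, χ₂)` on `T` has dimension `dim T - 4` (rank-nullity,
surjectivity onto a space of dimension four), and `z ↦ (f z, g z)` embeds `T'` into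
`T₀ × (F × F)`.
-/

set_option autoImplicit false

namespace Pool.Agent.H93.MQ

theorem LinC_two (a : ZMod 2) : a = 0 ∨ a = 1 := by
  revert a
  decide

theorem LinC_orth {X : Type*} [AddCommGroup X] [Module (ZMod 2) X] (v : ZMod 2 × ZMod 2)
    (hv : v ≠ 0) : ∃ w : ZMod 2 × ZMod 2,
      (∀ z : X × X, v.1 • z.1 + v.2 • z.2 = 0 → ∃ y, z = (w.1 • y, w.2 • y)) ∧
      (∀ z : ZMod 2 × ZMod 2, v.1 * z.1 + v.2 * z.2 = 0 → ∃ y, z = (w.1 * y, w.2 * y)) := by
  obtain ⟨a, b⟩ := v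
  have h2 : ∀ x y : X, x + y = 0 → x = y := by
    intro x y h
    have h3 : y + y = 0 := by
      have h4 : ((2 : ZMod 2)) • y = 0 := by
        rw [show (2 : ZMod 2) = 0 by decide, zero_smul]
      rw [show (2 : ZMod 2) = 1 + 1 by decide, add_smul, one_smul] at h4
      exact h4
    exact add_right_cancel (h.trans h3.symm)
  rcases LinC_two a with rfl | rfl <;> rcases LinC_two b with rfl | rfl
  · exact absurd rfl hv
  · refine ⟨(1, 0), ?_, ?_⟩
    · rintro ⟨x, y⟩ h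
      simp only [zero_smul, one_smul, zero_add] at h
      exact ⟨x, by simp [h]⟩
    · rintro ⟨x, y⟩ h
      simp only [zero_mul, one_mul, zero_add] at h
      exact ⟨x, by simp [h]⟩
  · refine ⟨(0, 1), ?_, ?_⟩
    · rintro ⟨x, y⟩ h
      simp only [zero_smul, one_smul, add_zero] at h
      exact ⟨y, by simp [h]⟩
    · rintro ⟨x, y⟩ h
      simp only [zero_mul, one_mul, add_zero] at h
      exact ⟨y, by simp [h]⟩
  · refine ⟨(1, 1), ?_, ?_⟩
    · rintro ⟨x, y⟩ h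
      simp only [one_smul] at h
      exact ⟨x, by rw [one_smul, h2 x y h]⟩
    · rintro ⟨x, y⟩ h
      simp only [one_mul] at h
      refine ⟨x, ?_⟩
      have h3 : x = y := by
        rw [add_eq_zero_iff_eq_neg] at h
        rw [h, ZMod.neg_eq_self_mod_two]
      rw [one_mul, h3]

theorem LinC_surj (G : ZMod 2 × ZMod 2 →ₗ[ZMod 2] ZMod 2 × ZMod 2) (hG : ∀ u, G u = 0 → u = 0) :
    Function.Surjective G :=
  LinearMap.injective_iff_surjective.1 ((injective_iff_map_eq_zero G).2 hG)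

/-- The map applying a form to both components. -/
def LinC_psi {X : Type*} [AddCommGroup X] [Module (ZMod 2) X] (χ : X →ₗ[ZMod 2] ZMod 2) :
    X × X →ₗ[ZMod 2] ZMod 2 × ZMod 2 :=
  χ.prodMap χ

theorem LinC_psi_apply {X : Type*} [AddCommGroup X] [Module (ZMod 2) X] (χ : X →ₗ[ZMod 2] ZMod 2)
    (z : X × X) : LinC_psi χ z = (χ z.1, χ z.2) := rfl

/-- The map `(c, d) ↦ (θ₁ (c y₁ + d y₂), θ₂ (c y₁ + d y₂))`. -/
def LinC_G {X : Type*} [AddCommGroup X] [Module (ZMod 2) X] (θ₁ θ₂ : X →ₗ[ZMod 2] ZMod 2)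
    (y₁ y₂ : X) : ZMod 2 × ZMod 2 →ₗ[ZMod 2] ZMod 2 × ZMod 2 :=
  (θ₁.prod θ₂).comp ((LinearMap.toSpanSingleton (ZMod 2) X y₁).coprod
    (LinearMap.toSpanSingleton (ZMod 2) X y₂))

theorem LinC_G_apply {X : Type*} [AddCommGroup X] [Module (ZMod 2) X]
    (θ₁ θ₂ : X →ₗ[ZMod 2] ZMod 2) (y₁ y₂ : X) (u : ZMod 2 × ZMod 2) :
    LinC_G θ₁ θ₂ y₁ y₂ u = (θ₁ (u.1 • y₁ + u.2 • y₂), θ₂ (u.1 • y₁ + u.2 • y₂)) := rfl

theorem la_main {X : Type*} [AddCommGroup X] [Module (ZMod 2) X]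
    (T : Submodule (ZMod 2) (X × X)) [Module.Finite (ZMod 2) T]
    (e : ZMod 2 × ZMod 2 →ₗ[ZMod 2] X × X) (he : ∀ u, e u ∈ T)
    (hi : ∃ χ : X →ₗ[ZMod 2] ZMod 2, ∀ u, (χ (e u).1, χ (e u).2) = (0 : ZMod 2 × ZMod 2) → u = 0)
    (hii : ∀ v : ZMod 2 × ZMod 2, v ≠ 0 → ∀ u, v.1 • (e u).1 + v.2 • (e u).2 = 0 → u = 0)
    (hT : 4 ≤ Module.finrank (ZMod 2) T) :
    ∃ χ₁ χ₂ : X →ₗ[ZMod 2] ZMod 2, ∀ w₁ w₂ : ZMod 2 × ZMod 2,
      ∃ z ∈ T, (χ₁ z.1, χ₁ z.2) = w₁ ∧ (χ₂ z.1, χ₂ z.2) = w₂ := by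
  obtain ⟨χ, hχ⟩ := hi
  have hsur : Function.Surjective ((LinC_psi χ).comp e) := LinC_surj _ hχ
  -- the kernel of `χ` on `T`
  let ψ : T →ₗ[ZMod 2] ZMod 2 × ZMod 2 := (LinC_psi χ).comp T.subtype
  have hK : 1 < Module.finrank (ZMod 2) (LinearMap.ker ψ) := by
    have h1 := LinearMap.finrank_range_add_finrank_ker ψ
    have h2 : Module.finrank (ZMod 2) (LinearMap.range ψ) ≤ 2 := by
      have h3 := Submodule.finrank_le (LinearMap.range ψ)
      have h4 : Module.finrank (ZMod 2) (ZMod 2 × ZMod 2) = 2 := by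
        rw [Module.finrank_prod, Module.finrank_self]
      omega
    omega
  obtain ⟨s', hs'⟩ := Module.finrank_pos_iff_exists_ne_zero.1 (lt_trans zero_lt_one hK)
  obtain ⟨t', ht'⟩ := exists_linearIndependent_pair_of_one_lt_finrank hK hs'
  have ht0' : t' ≠ 0 := ht'.ne_zero 1
  have hst' : s' ≠ t' := by
    intro h
    have h1 := ht'.injective
    have h2 : (![s', t'] : Fin 2 → _) 0 = ![s', t'] 1 := h
    exact absurd (h1 h2) (by decide)
  let T' : Submodule (ZMod 2) (X × X) := T ⊓ LinearMap.ker (LinC_psi χ)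
  have hmem : ∀ z : LinearMap.ker ψ, ((z : T) : X × X) ∈ T' := by
    intro z
    exact ⟨(z : T).2, z.2⟩
  have hinj : ∀ z z' : LinearMap.ker ψ, ((z : T) : X × X) = ((z' : T) : X × X) → z = z' :=
    fun z z' h => Subtype.ext (Subtype.ext h)
  have hs0 : ((s' : T) : X × X) ≠ 0 := fun h => hs' (hinj s' 0 h)
  have ht0 : ((t' : T) : X × X) ≠ 0 := fun h => ht0' (hinj t' 0 h)
  have hst : ((s' : T) : X × X) ≠ ((t' : T) : X × X) := fun h => hst' (hinj s' t' h)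
  rcases la_zero T' (hmem s') (hmem t') hs0 ht0 hst with ⟨χ₂, h2⟩ | ⟨v, hv, h2⟩
  · refine ⟨χ, χ₂, fun w₁ w₂ => ?_⟩
    obtain ⟨u, hu⟩ := hsur w₁
    obtain ⟨z, hz, hzw⟩ := h2 (w₂ - LinC_psi χ₂ (e u))
    refine ⟨e u + z, T.add_mem (he u) hz.1, ?_, ?_⟩
    · rw [← LinC_psi_apply, map_add]
      have h3 : LinC_psi χ z = 0 := hz.2
      rw [h3, add_zero]
      exact hu
    · rw [← LinC_psi_apply, map_add, LinC_psi_apply χ₂ z, hzw, add_sub_cancel]
  · obtain ⟨w, hwX, hwF⟩ := LinC_orth (X := X) v hv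
    obtain ⟨a₁, ha₁⟩ := hwX _ (h2 _ (hmem s'))
    obtain ⟨a₂, ha₂⟩ := hwX _ (h2 _ (hmem t'))
    have ha10 : a₁ ≠ 0 := by
      rintro rfl
      exact hs0 (by rw [ha₁]; simp)
    have ha20 : a₂ ≠ 0 := by
      rintro rfl
      exact ht0 (by rw [ha₂]; simp)
    have ha12 : a₁ ≠ a₂ := by
      rintro rfl
      exact hst (by rw [ha₁, ha₂])
    let V : X × X →ₗ[ZMod 2] X := v.1 • LinearMap.fst (ZMod 2) X X + v.2 • LinearMap.snd (ZMod 2) X X
    have hV : ∀ z, V z = v.1 • z.1 + v.2 • z.2 := fun _ => rfl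
    have hVe : ∀ u, V (e u) = 0 → u = 0 := fun u h => hii v hv u h
    have hlin : ∀ u : ZMod 2 × ZMod 2, V (e u) = u.1 • V (e (1, 0)) + u.2 • V (e (0, 1)) := by
      intro u
      rw [← map_smul, ← map_smul, ← map_smul, ← map_smul, ← map_add, ← map_add]
      congr 2
      ext <;> simp
    have hy1 : V (e (1, 0)) ≠ 0 := fun h => absurd (hVe _ h) (by decide)
    have hy2 : V (e (0, 1)) ≠ 0 := fun h => absurd (hVe _ h) (by decide)
    have hy12 : V (e (1, 0)) ≠ V (e (0, 1)) := by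
      intro h
      have h3 : V (e ((1, 0) - (0, 1))) = 0 := by
        rw [map_sub, map_sub, h, sub_self]
      exact absurd (hVe _ h3) (by decide)
    obtain ⟨θ₁, θ₂, hθy, hθa⟩ := la_compl hy1 hy2 hy12 ha10 ha20 ha12
    have hGy : Function.Surjective (LinC_G θ₁ θ₂ (V (e (1, 0))) (V (e (0, 1)))) := by
      refine LinC_surj _ fun u hu => ?_
      rw [LinC_G_apply, Prod.mk_eq_zero] at hu
      obtain ⟨h3, h4⟩ := hθy u.1 u.2 hu.1 hu.2
      exact Prod.ext h3 h4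
    have hGa : Function.Surjective (LinC_G θ₁ θ₂ a₁ a₂) := by
      refine LinC_surj _ fun u hu => ?_
      rw [LinC_G_apply, Prod.mk_eq_zero] at hu
      obtain ⟨h3, h4⟩ := hθa u.1 u.2 hu.1 hu.2
      exact Prod.ext h3 h4
    refine ⟨θ₁, θ₂, fun w₁ w₂ => ?_⟩
    obtain ⟨u, hu⟩ := hGy (v.1 * w₁.1 + v.2 * w₁.2, v.1 * w₂.1 + v.2 * w₂.2)
    rw [LinC_G_apply, ← hlin, Prod.mk.injEq] at hu
    have hr : ∀ (θ : X →ₗ[ZMod 2] ZMod 2) (w' : ZMod 2 × ZMod 2),
        θ (V (e u)) = v.1 * w'.1 + v.2 * w'.2 →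
        ∃ y, (w'.1 - θ (e u).1, w'.2 - θ (e u).2) = (w.1 * y, w.2 * y) := by
      intro θ w' h
      apply hwF
      rw [hV, map_add, map_smul, map_smul, smul_eq_mul, smul_eq_mul] at h
      change v.1 * (w'.1 - θ (e u).1) + v.2 * (w'.2 - θ (e u).2) = 0
      linear_combination -h
    obtain ⟨c₁, hc₁⟩ := hr θ₁ w₁ hu.1
    obtain ⟨c₂, hc₂⟩ := hr θ₂ w₂ hu.2
    obtain ⟨x, hx⟩ := hGa (c₁, c₂)
    rw [LinC_G_apply, Prod.mk.injEq] at hx
    set x' : X := x.1 • a₁ + x.2 • a₂ with hx'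
    have hz : ((w.1 • x', w.2 • x') : X × X) = x.1 • ((s' : T) : X × X) + x.2 • ((t' : T) : X × X) := by
      rw [ha₁, ha₂, hx']
      ext
      · simp only [Prod.smul_mk, Prod.mk_add_mk, smul_add, smul_smul, mul_comm]
      · simp only [Prod.smul_mk, Prod.mk_add_mk, smul_add, smul_smul, mul_comm]
    rw [Prod.mk.injEq] at hc₁ hc₂
    refine ⟨e u + (w.1 • x', w.2 • x'), ?_, ?_, ?_⟩
    · refine T.add_mem (he u) ?_
      rw [hz]
      exact T.add_mem (T.smul_mem _ (s' : T).2) (T.smul_mem _ (t' : T).2)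
    · ext
      · change θ₁ ((e u).1 + w.1 • x') = w₁.1
        rw [map_add, map_smul, hx.1, smul_eq_mul, ← hc₁.1]
        ring
      · change θ₁ ((e u).2 + w.2 • x') = w₁.2
        rw [map_add, map_smul, hx.1, smul_eq_mul, ← hc₁.2]
        ring
    · ext
      · change θ₂ ((e u).1 + w.1 • x') = w₂.1
        rw [map_add, map_smul, hx.2, smul_eq_mul, ← hc₂.1]
        ring
      · change θ₂ ((e u).2 + w.2 • x') = w₂.2
        rw [map_add, map_smul, hx.2, smul_eq_mul, ← hc₂.2]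
        ring

/-- Dimension count: a subspace `T'` which maps injectively to `T × (F × F)` by `z ↦ (f z, g z)`,
where all `f z` are killed by two forms which are jointly surjective on `T`. -/
theorem dim_step {W W' : Type*} [AddCommGroup W] [Module (ZMod 2) W] [AddCommGroup W']
    [Module (ZMod 2) W'] (T : Submodule (ZMod 2) W) [Module.Finite (ZMod 2) T]
    (T' : Submodule (ZMod 2) W') (f : W' →ₗ[ZMod 2] W) (g : W' →ₗ[ZMod 2] ZMod 2 × ZMod 2)
    (χ₁ χ₂ : W →ₗ[ZMod 2] ZMod 2 × ZMod 2)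
    (hs : ∀ w₁ w₂ : ZMod 2 × ZMod 2, ∃ z ∈ T, χ₁ z = w₁ ∧ χ₂ z = w₂)
    (hf : ∀ z ∈ T', f z ∈ T ∧ χ₁ (f z) = 0 ∧ χ₂ (f z) = 0)
    (hinj : ∀ z ∈ T', f z = 0 → g z = 0 → z = 0) :
    Module.finrank (ZMod 2) T' + 2 ≤ Module.finrank (ZMod 2) T := by
  let χ : T →ₗ[ZMod 2] (ZMod 2 × ZMod 2) × (ZMod 2 × ZMod 2) :=
    (χ₁.comp T.subtype).prod (χ₂.comp T.subtype)
  have hsur : Function.Surjective χ := by
    rintro ⟨w₁, w₂⟩
    obtain ⟨z, hz, h1, h2⟩ := hs w₁ w₂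
    exact ⟨⟨z, hz⟩, Prod.ext h1 h2⟩
  have h1 := LinearMap.finrank_range_add_finrank_ker χ
  rw [LinearMap.range_eq_top.2 hsur, finrank_top] at h1
  have h4 : Module.finrank (ZMod 2) ((ZMod 2 × ZMod 2) × (ZMod 2 × ZMod 2)) = 4 := by
    rw [Module.finrank_prod, Module.finrank_prod, Module.finrank_self]
  rw [h4] at h1
  let f' : T' →ₗ[ZMod 2] T := (f.comp T'.subtype).codRestrict T (fun z => (hf z z.2).1)
  let f'' : T' →ₗ[ZMod 2] LinearMap.ker χ :=
    f'.codRestrict (LinearMap.ker χ) (fun z => Prod.ext (hf z z.2).2.1 (hf z z.2).2.2)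
  let φ : T' →ₗ[ZMod 2] LinearMap.ker χ × (ZMod 2 × ZMod 2) := f''.prod (g.comp T'.subtype)
  have hφ : Function.Injective φ := by
    rw [injective_iff_map_eq_zero]
    intro z hz
    apply Subtype.ext
    refine hinj z z.2 ?_ ?_
    · exact congrArg (fun p => (((p.1 : LinearMap.ker χ) : T) : W)) hz
    · exact congrArg (fun p => p.2) hz
  have h5 := LinearMap.finrank_le_finrank_of_injective hφ
  rw [Module.finrank_prod, Module.finrank_prod, Module.finrank_self] at h5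
  omega

end Pool.Agent.H93.MQ
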