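import Pool.Agent.H93.MQ.SolA

/-!
ROW LocR (project MP_78d38b_MQ). The real place.

Let `e₁ < e₂ < e₃` be the three numbers `0, A, B` in increasing order. By `real_mp`
(Pool/Agent/H10/RealPl.lean) a soluble real triple has positive component at the smallest root and
the other two components have the same sign; so the signs of `z` are trivial or those of the
pattern `(+, -, -)`.
The class of the two-torsion point `e_i` has the components `e_i - e_j`, `e_i - e_k` at the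
other two roots and their product at `e_i`. So: the class of the largest root is totally positive
(`real_pm`), the class of the middle root has the pattern `(+, -, -)`: at the smallest root
`e₂ - e₁ > 0`, at the largest `e₂ - e₃ < 0`. Hence `real_neg` and `real_tor` (add the class of the
middle root if the signs are not trivial).
There are six orderings of `0, A, B`; for `tor A B u` recall: `u = (0, 1)` is the point `0` (triple
`(A B, -A)`), `u = (1, 0)` is the point `A` (triple `(A, A (A - B))`), `u = (1, 1)` is the point `B`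
(triple `(B, B - A)` up to squares). The signs are computed by `cl_apply_zero` and `cl_mul`.
Here `at_ 0 z = (z.1 0, z.2 0)` are the signs of the first two components of the triple
`(m, n, m n)`; their sum is the sign of the third component.
-/

set_option autoImplicit false

open NumberField IsDedekindDomain WeierstrassCurve Pool.Agent.H10

namespace Pool.Agent.H93.MQ

variable {A B : ℤ}

/-- the sign as an element of `ZMod 2` -/
def LocR_sg (x : ℤ) : ZMod 2 := if x < 0 then 1 else 0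

theorem LocR_neg {x : ℤ} (h : x < 0) : LocR_sg x = 1 := if_pos h

theorem LocR_pos {x : ℤ} (h : 0 < x) : LocR_sg x = 0 := if_neg (not_lt.2 h.le)

theorem LocR_cl {x : ℤ} (h : x ≠ 0) : cl x 0 = LocR_sg x := cl_apply_zero h

theorem LocR_at (h : NZ A B) (u : ZMod 2 × ZMod 2) : at_ 0 (tor A B u) =
    (u.1 * LocR_sg A + u.2 * (LocR_sg A + LocR_sg B),
      u.1 * (LocR_sg A + LocR_sg (A - B)) + u.2 * (1 + LocR_sg A)) := by
  have hAB : A - B ≠ 0 := sub_ne_zero.2 h.hAB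
  have e1 : cl (A * B) 0 = LocR_sg A + LocR_sg B := by
    rw [cl_mul h.hA h.hB, Finsupp.add_apply, LocR_cl h.hA, LocR_cl h.hB]
  have e2 : cl (A * (A - B)) 0 = LocR_sg A + LocR_sg (A - B) := by
    rw [cl_mul h.hA hAB, Finsupp.add_apply, LocR_cl h.hA, LocR_cl hAB]
  have e3 : cl (-A) 0 = 1 + LocR_sg A := by
    rw [show -A = (-1) * A by ring, cl_mul (by norm_num) h.hA, Finsupp.add_apply, cl_neg_one,
      Finsupp.single_eq_same, LocR_cl h.hA]
  rw [tor_apply, at_apply]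
  simp only [Finsupp.add_apply, Finsupp.smul_apply, smul_eq_mul]
  rw [e1, e2, e3, LocR_cl h.hA]

/-- the six orderings -/
theorem LocR_cases (h : NZ A B) : (0 < A ∧ 0 < B ∧ 0 < A - B) ∨ (0 < A ∧ 0 < B ∧ A - B < 0) ∨
    (0 < A ∧ B < 0 ∧ 0 < A - B) ∨ (A < 0 ∧ 0 < B ∧ A - B < 0) ∨ (A < 0 ∧ B < 0 ∧ 0 < A - B) ∨
    (A < 0 ∧ B < 0 ∧ A - B < 0) := by
  have h1 := h.hA
  have h2 := h.hB
  have h3 := h.hAB
  omega

theorem LocR_swap12 {e₁ e₂ e₃ d₁ d₂ d₃ : ℝ} (H : CPt e₁ e₂ e₃ d₁ d₂ d₃) :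
    CPt e₂ e₁ e₃ d₂ d₁ d₃ := by
  obtain ⟨z₀, z₁, z₂, z₃, hz, E1, E2⟩ := H
  refine ⟨z₀, z₂, z₁, z₃, ?_, E1.symm, E1.symm.trans E2⟩
  tauto

theorem LocR_rot {e₁ e₂ e₃ d₁ d₂ d₃ : ℝ} (H : CPt e₁ e₂ e₃ d₁ d₂ d₃) :
    CPt e₃ e₁ e₂ d₃ d₁ d₂ := by
  obtain ⟨z₀, z₁, z₂, z₃, hz, E1, E2⟩ := H
  refine ⟨z₀, z₃, z₁, z₂, ?_, E2.symm, E2.symm.trans E1⟩
  tauto

/-- the component at the smallest root is positive -/
theorem LocR_sol {m n : ℤ} (hm : m ≠ 0) (hn : n ≠ 0) (H : Sol ℝ A B m n) :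
    (0 < A → 0 < B → 0 < m) ∧ (A < 0 → A < B → 0 < n) ∧ (B < 0 → B < A → 0 < m * n) := by
  have hm' : (m : ℝ) ≠ 0 := by exact_mod_cast hm
  have hn' : (n : ℝ) ≠ 0 := by exact_mod_cast hn
  have hc : (m : ℝ) * n ≠ 0 := mul_ne_zero hm' hn'
  unfold Sol at H
  refine ⟨fun h1 h2 => ?_, fun h1 h2 => ?_, fun h1 h2 => ?_⟩
  · have h1' : (0 : ℝ) < A := by exact_mod_cast h1
    have h2' : (0 : ℝ) < B := by exact_mod_cast h2
    have h3 := (real_mp h1' h2' (c := (m : ℝ) * n) (by push_cast; ring) hc H).1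
    exact_mod_cast h3
  · have h1' : (A : ℝ) < 0 := by exact_mod_cast h1
    have h2' : (A : ℝ) < B := by exact_mod_cast h2
    have h3 := (real_mp h1' h2' (c := (m : ℝ) * n) (by push_cast; ring) hc (LocR_swap12 H)).1
    exact_mod_cast h3
  · have h1' : (B : ℝ) < 0 := by exact_mod_cast h1
    have h2' : (B : ℝ) < A := by exact_mod_cast h2
    have h3 := (real_mp h1' h2' (c := (m : ℝ) * n) (by push_cast; ring) hc (LocR_rot H)).1
    exact_mod_cast h3

/-- A real soluble class has the signs of a two-torsion point. -/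
theorem real_tor (h : NZ A B) {z : V × V} (H : SolC ℝ A B z) :
    ∃ u : ZMod 2 × ZMod 2, at_ 0 (z + tor A B u) = 0 := by
  obtain ⟨m, n, hm, hn, rfl, H⟩ := H
  obtain ⟨k1, k2, k3⟩ := LocR_sol hm hn H
  have hz : at_ 0 (cl m, cl n) = (LocR_sg m, LocR_sg n) := by
    rw [at_apply]
    simp only
    rw [LocR_cl hm, LocR_cl hn]
  simp only [map_add, hz, LocR_at h]
  have hmm : m < 0 ∨ 0 < m := lt_or_gt_of_ne hm
  have hnn : n < 0 ∨ 0 < n := lt_or_gt_of_ne hn
  rcases LocR_cases h with ⟨hA, hB, hD⟩ | ⟨hA, hB, hD⟩ | ⟨hA, hB, hD⟩ | ⟨hA, hB, hD⟩ |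
    ⟨hA, hB, hD⟩ | ⟨hA, hB, hD⟩
  · rw [LocR_pos hA, LocR_pos hB, LocR_pos hD, LocR_pos (k1 hA hB)]
    rcases hnn with h1 | h1
    · rw [LocR_neg h1]; decide
    · rw [LocR_pos h1]; decide
  · rw [LocR_pos hA, LocR_pos hB, LocR_neg hD, LocR_pos (k1 hA hB)]
    rcases hnn with h1 | h1
    · rw [LocR_neg h1]; decide
    · rw [LocR_pos h1]; decide
  · have h3 := k3 hB (by omega)
    rw [LocR_pos hA, LocR_neg hB, LocR_pos hD]
    rcases hmm with h1 | h1
    · have h2 : n < 0 := by nlinarith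
      rw [LocR_neg h1, LocR_neg h2]; decide
    · have h2 : 0 < n := by nlinarith
      rw [LocR_pos h1, LocR_pos h2]; decide
  · rw [LocR_neg hA, LocR_pos hB, LocR_neg hD, LocR_pos (k2 hA (by omega))]
    rcases hmm with h1 | h1
    · rw [LocR_neg h1]; decide
    · rw [LocR_pos h1]; decide
  · have h3 := k3 hB (by omega)
    rw [LocR_neg hA, LocR_neg hB, LocR_pos hD]
    rcases hmm with h1 | h1
    · have h2 : n < 0 := by nlinarith
      rw [LocR_neg h1, LocR_neg h2]; decide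
    · have h2 : 0 < n := by nlinarith
      rw [LocR_pos h1, LocR_pos h2]; decide
  · rw [LocR_neg hA, LocR_neg hB, LocR_neg hD, LocR_pos (k2 hA (by omega))]
    rcases hmm with h1 | h1
    · rw [LocR_neg h1]; decide
    · rw [LocR_pos h1]; decide

/-- Exactly one nonzero two-torsion point has totally positive class. -/
theorem real_pm (h : NZ A B) : ∃ u : ZMod 2 × ZMod 2, u ≠ 0 ∧ at_ 0 (tor A B u) = 0 := by
  simp only [LocR_at h]
  rcases LocR_cases h with ⟨hA, hB, hD⟩ | ⟨hA, hB, hD⟩ | ⟨hA, hB, hD⟩ | ⟨hA, hB, hD⟩ |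
    ⟨hA, hB, hD⟩ | ⟨hA, hB, hD⟩
  · rw [LocR_pos hA, LocR_pos hB, LocR_pos hD]; decide
  · rw [LocR_pos hA, LocR_pos hB, LocR_neg hD]; decide
  · rw [LocR_pos hA, LocR_neg hB, LocR_pos hD]; decide
  · rw [LocR_neg hA, LocR_pos hB, LocR_neg hD]; decide
  · rw [LocR_neg hA, LocR_neg hB, LocR_pos hD]; decide
  · rw [LocR_neg hA, LocR_neg hB, LocR_neg hD]; decide

theorem real_neg (h : NZ A B) : ∃ u : ZMod 2 × ZMod 2, at_ 0 (tor A B u) ≠ 0 := by
  simp only [LocR_at h]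
  rcases LocR_cases h with ⟨hA, hB, hD⟩ | ⟨hA, hB, hD⟩ | ⟨hA, hB, hD⟩ | ⟨hA, hB, hD⟩ |
    ⟨hA, hB, hD⟩ | ⟨hA, hB, hD⟩
  · rw [LocR_pos hA, LocR_pos hB, LocR_pos hD]; decide
  · rw [LocR_pos hA, LocR_pos hB, LocR_neg hD]; decide
  · rw [LocR_pos hA, LocR_neg hB, LocR_pos hD]; decide
  · rw [LocR_neg hA, LocR_pos hB, LocR_neg hD]; decide
  · rw [LocR_neg hA, LocR_neg hB, LocR_pos hD]; decide
  · rw [LocR_neg hA, LocR_neg hB, LocR_neg hD]; decide

end Pool.Agent.H93.MQ
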