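import Pool.Agent.H93.MQ.SolA
import Pool.Agent.H93.MQ.ClB

/-!
ROW SelA (project MP_78d38b_MQ). The Selmer group `Sel S A B` (defined as the span of `SelSet`).

* `mem_sel`: `SelSet` contains zero and is closed under addition (`SolC.zero`, `SolC.add`), hence
  under scalars of `ZMod 2`; so it is its own span.
* `sel_finite`: an element of `Sel` is supported in `insert 0 S`, so `Sel` is a finite set (it
  injects into the functions from `insert 0 S` to `ZMod 2 × ZMod 2`), hence a finite module.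
* `tor_mem`: `SolC.tor`; the support: a prime dividing `A`, `B` or `A - B` lies in `S` by `Adm.bad`;
  nonzero non-primes by `cl_apply_of_not_prime`.
* `supp_iff`: primes of the support.
-/

set_option autoImplicit false

open NumberField IsDedekindDomain WeierstrassCurve Pool.Agent.H10

namespace Pool.Agent.H93.MQ

variable {S : Finset ℕ} {A B : ℤ}

lemma SelA_smul (c : ZMod 2) (z : V × V) : c • z = 0 ∨ c • z = z := by
  have hc : c = 0 ∨ c = 1 := by
    revert c
    decide
  rcases hc with rfl | rfl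
  · left; exact zero_smul _ _
  · right; exact one_smul _ _

lemma SelA_supp_add {z z' : V × V} (hz : Supp S z) (hz' : Supp S z') : Supp S (z + z') := by
  intro i hi hS
  rw [map_add, hz i hi hS, hz' i hi hS, add_zero]

lemma SelA_zero : (0 : V × V) ∈ SelSet S A B :=
  ⟨fun _ _ _ => map_zero _, fun _ _ _ => SolC.zero, SolC.zero⟩

lemma SelA_add (h : NZ A B) {z z' : V × V} (hz : z ∈ SelSet S A B) (hz' : z' ∈ SelSet S A B) :
    z + z' ∈ SelSet S A B :=
  ⟨SelA_supp_add hz.1 hz'.1, fun p _ hp => SolC.add h (hz.2.1 p hp) (hz'.2.1 p hp),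
    SolC.add h hz.2.2 hz'.2.2⟩

theorem mem_sel (h : NZ A B) {z : V × V} : z ∈ Sel S A B ↔ z ∈ SelSet S A B := by
  refine ⟨fun hz => ?_, fun hz => Submodule.subset_span hz⟩
  refine Submodule.span_induction (p := fun z _ => z ∈ SelSet S A B) ?_ ?_ ?_ ?_ hz
  · intro z hz
    exact hz
  · exact SelA_zero
  · intro z z' _ _ h1 h2
    exact SelA_add h h1 h2
  · intro c z _ h1
    rcases SelA_smul c z with h2 | h2
    · rw [h2]; exact SelA_zero
    · rw [h2]; exact h1

lemma SelA_cl {n : ℤ} (hn : n ≠ 0) {i : ℕ} (h0 : i ≠ 0)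
    (h1 : i.Prime → ¬ (i : ℤ) ∣ n) : cl n i = 0 := by
  by_cases hi : i.Prime
  · exact cl_apply_of_not_dvd hn hi (h1 hi)
  · exact cl_apply_of_not_prime n h0 hi

theorem tor_supp (h : Adm S A B) (u : ZMod 2 × ZMod 2) : Supp S (tor A B u) := by
  intro i hi hS
  have hA := h.nz.hA
  have hB := h.nz.hB
  have hAB : A - B ≠ 0 := sub_ne_zero.2 h.nz.hAB
  have hd : i.Prime → ∀ n : ℤ, n ∣ A * B * (A - B) → ¬ (i : ℤ) ∣ n := fun hp n hn hin =>
    hS (h.bad i hp (hin.trans hn))
  have h1 : cl A i = 0 := SelA_cl hA hi fun hp =>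
    hd hp A ⟨B * (A - B), by ring⟩
  have h2 : cl (A * B) i = 0 := SelA_cl (mul_ne_zero hA hB) hi fun hp =>
    hd hp _ ⟨A - B, by ring⟩
  have h3 : cl (A * (A - B)) i = 0 := SelA_cl (mul_ne_zero hA hAB) hi fun hp =>
    hd hp _ ⟨B, by ring⟩
  have h4 : cl (-A) i = 0 := SelA_cl (neg_ne_zero.2 hA) hi fun hp =>
    hd hp _ ⟨-(B * (A - B)), by ring⟩
  rw [at_apply, tor_apply]
  simp only [Finsupp.add_apply, Finsupp.smul_apply, h1, h2, h3, h4, smul_zero, add_zero]
  rfl

theorem tor_mem (h : Adm S A B) (u : ZMod 2 × ZMod 2) : tor A B u ∈ Sel S A B :=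
  (mem_sel h.nz).2 ⟨tor_supp h u, fun _ _ _ => SolC.tor h.nz u, SolC.tor h.nz u⟩

theorem sel_finite (h : NZ A B) : Module.Finite (ZMod 2) (Sel S A B) := by
  let f : Sel S A B →ₗ[ZMod 2] ({i // i ∈ insert 0 S} → ZMod 2 × ZMod 2) :=
    LinearMap.pi fun i => (at_ i.1).domRestrict (Sel S A B)
  refine Module.Finite.of_injective f ?_
  rw [← LinearMap.ker_eq_bot, LinearMap.ker_eq_bot']
  intro z hz
  have h1 : ∀ i, i ∈ insert 0 S → at_ i z.1 = 0 := fun i hi => congrFun hz ⟨i, hi⟩
  have h2 : ∀ i, at_ i z.1 = 0 := by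
    intro i
    by_cases hi : i ∈ insert 0 S
    · exact h1 i hi
    · rw [Finset.mem_insert, not_or] at hi
      exact ((mem_sel h).1 z.2).1 i hi.1 hi.2
  apply Subtype.ext
  refine Prod.ext (Finsupp.ext fun i => ?_) (Finsupp.ext fun i => ?_)
  · have := h2 i
    rw [at_apply] at this
    exact congrArg Prod.fst this
  · have := h2 i
    rw [at_apply] at this
    exact congrArg Prod.snd this

lemma Supp.mono {S' : Finset ℕ} (hS : S ⊆ S') {z : V × V} (hz : Supp S z) : Supp S' z :=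
  fun i hi hi' => hz i hi fun h => hi' (hS h)

lemma Supp.add {z z' : V × V} (hz : Supp S z) (hz' : Supp S z') : Supp S (z + z') :=
  SelA_supp_add hz hz'

/-- Multiplying by a further integer all of whose primes are in `S` keeps admissibility. -/
lemma Adm.scale (h : Adm S A B) {S' : Finset ℕ} (hS : S ⊆ S') (hS' : ∀ p ∈ S', p.Prime) {d : ℤ}
    (hd : d ≠ 0) (hd' : ∀ p : ℕ, p.Prime → (p : ℤ) ∣ d → p ∈ S') : Adm S' (A * d) (B * d) := by
  refine ⟨hS', hS h.two, h.nz.scale hd, fun p hp hpd => ?_⟩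
  have hpi : Prime (p : ℤ) := Nat.prime_iff_prime_int.1 hp
  have e : A * d * (B * d) * (A * d - B * d) = (A * B * (A - B)) * d ^ 3 := by ring
  rw [e] at hpd
  rcases hpi.dvd_or_dvd hpd with h1 | h1
  · exact hS (h.bad p hp h1)
  · exact hd' p hp (hpi.dvd_of_dvd_pow h1)

/-- The class of a two-torsion point for the twist. -/
lemma tor_scale (h : NZ A B) {d : ℤ} (hd : d ≠ 0) (u : ZMod 2 × ZMod 2) :
    tor (A * d) (B * d) u = tor A B u + (u.1 • cl d, u.2 • cl d) := by
  have hA := h.hA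
  have hB := h.hB
  have hAB : A - B ≠ 0 := sub_ne_zero.2 h.hAB
  have hd2 : d ^ 2 ≠ 0 := pow_ne_zero 2 hd
  have e1 : cl (A * d) = cl A + cl d := cl_mul hA hd
  have e2 : cl (A * d * (B * d)) = cl (A * B) := by
    rw [show A * d * (B * d) = (A * B) * d ^ 2 by ring, cl_mul (mul_ne_zero hA hB) hd2,
      cl_sq hd, add_zero]
  have e3 : cl (A * d * (A * d - B * d)) = cl (A * (A - B)) := by
    rw [show A * d * (A * d - B * d) = (A * (A - B)) * d ^ 2 by ring,
      cl_mul (mul_ne_zero hA hAB) hd2, cl_sq hd, add_zero]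
  have e4 : cl (-(A * d)) = cl (-A) + cl d := by
    rw [show -(A * d) = (-A) * d by ring, cl_mul (neg_ne_zero.2 hA) hd]
  rw [tor_apply, tor_apply, e1, e2, e3, e4, Prod.mk_add_mk, smul_add, smul_add]
  congr 1
  · abel
  · abel

end Pool.Agent.H93.MQ
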