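import Pool.Agent.H93.MQ.HsI
import Pool.Agent.H93.MQ.HsP
import Pool.Agent.H93.MQ.SelA

/-!
ROW Pair (project MP_78d38b_MQ). The global pairing.

Let `t ∈ Sel S A B` and let `x` be supported in a larger finite set of primes `S'`, soluble for
`(A, B)` at the primes of `S` (but possibly ramified outside). Add the product formulas `hs_prod`
on `S'` for `(x.1, t.2)` and for `(x.2, t.1)`. For `p ∈ S` the two local terms add up to zero by
`iso_p` (`mem_sel` gives that `t` is soluble at `p`). For `q ∈ S' \ S`: `q ≠ 2` (as `2 ∈ S`), and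
`t` vanishes at `q`, so by `hs_of_zero` the terms are `x.1 q * ev (chi q) t.2` and
`x.2 q * ev (chi q) t.1`.
-/

set_option autoImplicit false

open NumberField IsDedekindDomain WeierstrassCurve Pool.Agent.H10

namespace Pool.Agent.H93.MQ

lemma Pair_supp {S : Finset ℕ} {z : V × V} (h : Supp S z) {i : ℕ} (hi : i ≠ 0) (hS : i ∉ S) :
    z.1 i = 0 ∧ z.2 i = 0 := by
  have h1 := h i hi hS
  rw [at_apply, Prod.mk_eq_zero] at h1
  exact h1

theorem pairing {S S' : Finset ℕ} {A B : ℤ} (h : Adm S A B) (hS : S ⊆ S')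
    (hS' : ∀ p ∈ S', p.Prime) {x t : V × V} (hx : Supp S' x)
    (hloc : ∀ (p : ℕ) [Fact p.Prime], p ∈ S → SolC ℚ_[p] A B x) (ht : t ∈ Sel S A B) :
    ∑ q ∈ S' \ S, (x.1 q * ev (chi q) t.2 + x.2 q * ev (chi q) t.1) +
      (x.1 0 * t.2 0 + x.2 0 * t.1 0) = 0 := by
  have ht' := (mem_sel h.nz).1 ht
  have htS : Supp S t := ht'.1
  have htS' : Supp S' t := Supp.mono hS htS
  have e1 := hs_prod hS' (hS h.two) (v := x.1) (w := t.2)
    (fun i hi hi' => (Pair_supp hx hi hi').1) (fun i hi hi' => (Pair_supp htS' hi hi').2)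
  have e2 := hs_prod hS' (hS h.two) (v := x.2) (w := t.1)
    (fun i hi hi' => (Pair_supp hx hi hi').2) (fun i hi hi' => (Pair_supp htS' hi hi').1)
  have e3 : ∑ p ∈ S', (hs p x.1 t.2 + hs p x.2 t.1) + (x.1 0 * t.2 0 + x.2 0 * t.1 0) = 0 := by
    rw [Finset.sum_add_distrib]
    linear_combination e1 + e2
  rw [← Finset.sum_sdiff hS] at e3
  have e4 : ∑ p ∈ S, (hs p x.1 t.2 + hs p x.2 t.1) = 0 := by
    refine Finset.sum_eq_zero fun p hp => ?_
    have : Fact p.Prime := ⟨h.prime p hp⟩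
    exact iso_p h.nz (hloc p hp) (ht'.2.1 p hp)
  rw [e4, add_zero] at e3
  rw [← e3]
  congr 1
  refine Finset.sum_congr rfl fun q hq => ?_
  rw [Finset.mem_sdiff] at hq
  have hq2 : q ≠ 2 := fun h2 => hq.2 (h2 ▸ h.two)
  have hq0 : q ≠ 0 := (hS' q hq.1).ne_zero
  have h5 := Pair_supp htS hq0 hq.2
  rw [hs_of_zero hq2 _ _ h5.2, hs_of_zero hq2 _ _ h5.1]

end Pool.Agent.H93.MQ
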