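import Pool.Agent.H93.MQ.StA
import Pool.Agent.H93.MQ.Pair

/-!
ROW PaA (project MP_78d38b_MQ). Core of the parity step: three primes.

`q₀, q₁, q₁'` are distinct odd primes outside `S`, `T = {q₀, q₁, q₁'}`, `Tw S T d` (in the application
`d = - q₀ q₁ q₁'`), `chi q₀` vanishes on `S`, and `chi q₁`, `chi q₁'` agree on zero and `S`. Suppose
that `ev2 (chi q₁)` is surjective on the totally positive elements (`at_ 0 t = 0`) of
`Sel S A B`, and `chi q₁ q₀ ≠ chi q₁' q₀`. Then the coordinates `at_ q z`, `q ∈ T`, are equal for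
every `z ∈ Sel (S ∪ T) (A d) (B d)`.

Proof. (1) Apply `pairing` with `x = z` and `t ∈ Sel S A B` totally positive: the real term
vanishes since `t.1 0 = t.2 0 = 0`; the term at `q₀` vanishes since `t` is supported in `S` and
`chi q₀` is zero there (`ev_congr` with the zero function, or `ev2_congr`). The remaining two terms
give, with `w = at_ q₁ z + at_ q₁' z`, `w.1 * ev (chi q₁) t.2 + w.2 * ev (chi q₁) t.1 = 0`, so
`w = 0`. (`z` is soluble for `(A, B)` at the primes of `S` by `SolC.scale` and `Tw.sq`.)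
(2) Let `a = at_ q₁ z = at_ q₁' z`, `b = at_ q₀ z`, `y = z + tor (A d) (B d) a`. By `tw_loc`,
`ev2 (chi q₁) y = 0 = ev2 (chi q₁') y`; by `tw_at`, `at_ q₁ y = at_ q₁' y = 0`, `at_ q₀ y = a + b`.
Write `y = y₀ + (a + b) ⊗ e_{q₀}` with `y₀` supported in `S` and zero; then
`ev2 (chi q₁) y₀ = ev2 (chi q₁') y₀`, so `(chi q₁ q₀ + chi q₁' q₀) • (a + b) = 0`, hence `a = b`.
-/

set_option autoImplicit false

open NumberField IsDedekindDomain WeierstrassCurve Pool.Agent.H10

namespace Pool.Agent.H93.MQ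

theorem PaA_ev2_single (χ : ℕ → ZMod 2) (i : ℕ) (c : ZMod 2 × ZMod 2) :
    ev2 χ (Finsupp.single i c.1, Finsupp.single i c.2) = (c.1 * χ i, c.2 * χ i) := by
  rw [ev2_apply, ev_single, ev_single]

/-- The pairing with a totally positive element reduces to the primes `q₁`, `q₁'`. -/
theorem PaA_pair {S : Finset ℕ} {A B d : ℤ} {q₀ q₁ q₁' : ℕ} (h : Adm S A B)
    (hT : Tw S {q₀, q₁, q₁'} d) (n1 : q₀ ≠ q₁) (n2 : q₀ ≠ q₁') (n3 : q₁ ≠ q₁')
    (c0 : ∀ i ∈ S, chi q₀ i = 0)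
    (c1 : ∀ i, i = 0 ∨ i ∈ S → chi q₁ i = chi q₁' i) {z : V × V}
    (hz : z ∈ Sel (S ∪ {q₀, q₁, q₁'}) (A * d) (B * d)) {t : V × V} (ht : t ∈ Sel S A B)
    (ht0 : at_ 0 t = 0) :
    (z.1 q₁ + z.1 q₁') * ev (chi q₁) t.2 + (z.2 q₁ + z.2 q₁') * ev (chi q₁) t.1 = 0 := by
  have hz' := (mem_sel (hT.adm h).nz).1 hz
  have ht' := (mem_sel h.nz).1 ht
  have hp := pairing h (S' := S ∪ {q₀, q₁, q₁'}) Finset.subset_union_left (hT.adm h).prime hz'.1
    (fun p _ hpS => (SolC.scale hT.ne (hT.sq p hpS) _).1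
      (hz'.2.1 p (Finset.mem_union_left _ hpS))) ht
  have hsd : (S ∪ {q₀, q₁, q₁'}) \ S = ({q₀, q₁, q₁'} : Finset ℕ) := by
    rw [Finset.union_sdiff_left]
    exact Finset.sdiff_eq_self_of_disjoint hT.disj.symm
  rw [hsd] at hp
  have h10 : t.1 0 = 0 := congrArg Prod.fst ht0
  have h20 : t.2 0 = 0 := congrArg Prod.snd ht0
  have e0 : ev2 (chi q₀) t = ev2 (fun i => if i = 0 then chi q₀ 0 else 0) t :=
    ev2_congr ht'.1 (fun i hi => by
      rcases hi with rfl | hi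
      · simp
      · have hi0 : i ≠ 0 := (h.prime i hi).ne_zero
        simp [hi0, c0 i hi])
  have e0' : ev2 (fun i => if i = 0 then chi q₀ 0 else 0) t = 0 := by
    have hv : ∀ v : V, v 0 = 0 → ev (fun i => if i = 0 then chi q₀ 0 else 0) v = 0 := by
      intro v hv0
      have h1 : ev (fun i => if i = 0 then chi q₀ 0 else 0) v = ev (fun _ => 0) v := by
        apply ev_congr
        intro i hi
        by_cases hi0 : i = 0
        · subst hi0
          exact absurd hv0 hi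
        · simp [hi0]
      rw [h1]
      simp [ev, Finsupp.linearCombination_apply]
    rw [ev2_apply, hv _ h10, hv _ h20]
    rfl
  have e1 : ev2 (chi q₁) t = ev2 (chi q₁') t := ev2_congr ht'.1 c1
  rw [e0'] at e0
  have e01 : ev (chi q₀) t.1 = 0 := congrArg Prod.fst e0
  have e02 : ev (chi q₀) t.2 = 0 := congrArg Prod.snd e0
  have e11 : ev (chi q₁) t.1 = ev (chi q₁') t.1 := congrArg Prod.fst e1
  have e12 : ev (chi q₁) t.2 = ev (chi q₁') t.2 := congrArg Prod.snd e1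
  rw [Finset.sum_insert (by simp [n1, n2]), Finset.sum_insert (by simp [n3]),
    Finset.sum_singleton, e01, e02, h10, h20, ← e11, ← e12] at hp
  linear_combination hp

theorem three_equal {S : Finset ℕ} {A B d : ℤ} {q₀ q₁ q₁' : ℕ} (h : Adm S A B)
    (hT : Tw S {q₀, q₁, q₁'} d) (n1 : q₀ ≠ q₁) (n2 : q₀ ≠ q₁') (n3 : q₁ ≠ q₁')
    (c0 : ∀ i ∈ S, chi q₀ i = 0)
    (c1 : ∀ i, i = 0 ∨ i ∈ S → chi q₁ i = chi q₁' i)
    (hs : ∀ w : ZMod 2 × ZMod 2, ∃ t ∈ Sel S A B, at_ 0 t = 0 ∧ ev2 (chi q₁) t = w)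
    (hmu : chi q₁ q₀ ≠ chi q₁' q₀) {z : V × V}
    (hz : z ∈ Sel (S ∪ {q₀, q₁, q₁'}) (A * d) (B * d)) :
    ∀ q ∈ ({q₀, q₁, q₁'} : Finset ℕ), at_ q z = at_ q₀ z := by
  have hz' := (mem_sel (hT.adm h).nz).1 hz
  have m0 : q₀ ∈ ({q₀, q₁, q₁'} : Finset ℕ) := by simp
  have m1 : q₁ ∈ ({q₀, q₁, q₁'} : Finset ℕ) := by simp
  have m2 : q₁' ∈ ({q₀, q₁, q₁'} : Finset ℕ) := by simp
  -- step one
  have hw : at_ q₁ z + at_ q₁' z = 0 := by
    obtain ⟨t, ht, ht0, hte⟩ := hs (0, 1)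
    obtain ⟨t', ht', ht0', hte'⟩ := hs (1, 0)
    have k1 := PaA_pair h hT n1 n2 n3 c0 c1 hz ht ht0
    have k2 := PaA_pair h hT n1 n2 n3 c0 c1 hz ht' ht0'
    rw [ev2_apply] at hte hte'
    have a1 : ev (chi q₁) t.1 = 0 := congrArg Prod.fst hte
    have a2 : ev (chi q₁) t.2 = 1 := congrArg Prod.snd hte
    have b1 : ev (chi q₁) t'.1 = 1 := congrArg Prod.fst hte'
    have b2 : ev (chi q₁) t'.2 = 0 := congrArg Prod.snd hte'
    rw [a1, a2, mul_one, mul_zero, add_zero] at k1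
    rw [b1, b2, mul_one, mul_zero, zero_add] at k2
    exact Prod.ext k1 k2
  have hww : at_ q₁' z = at_ q₁ z := by
    have h2 := StA_two (at_ q₁ z)
    calc at_ q₁' z = at_ q₁' z + (at_ q₁ z + at_ q₁ z) := by rw [h2, add_zero]
      _ = (at_ q₁ z + at_ q₁' z) + at_ q₁ z := by abel
      _ = at_ q₁ z := by rw [hw, zero_add]
  -- step two
  set a := at_ q₁ z with ha
  set b := at_ q₀ z with hb
  set y := z + tor (A * d) (B * d) a with hy
  have y1 : ev2 (chi q₁) y = 0 := tw_loc h hT hz m1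
  have y2 : ev2 (chi q₁') y = 0 := by
    have := tw_loc h hT hz m2
    rw [hww] at this
    exact this
  have t1 : at_ q₁ y = 0 := by
    rw [hy, map_add, tw_at h hT m1, ← ha, StA_two]
  have t2 : at_ q₁' y = 0 := by
    rw [hy, map_add, tw_at h hT m2, hww, StA_two]
  have t0 : at_ q₀ y = b + a := by
    rw [hy, map_add, tw_at h hT m0]
  set c := b + a with hc
  set y' : V × V := y + (Finsupp.single q₀ c.1, Finsupp.single q₀ c.2) with hy'
  have hys : Supp (S ∪ {q₀, q₁, q₁'}) y := Supp.add hz'.1 (tor_supp (hT.adm h) a)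
  have hsupp : Supp S y' := by
    intro i hi hiS
    have hsing : at_ i ((Finsupp.single q₀ c.1, Finsupp.single q₀ c.2) : V × V) =
        if q₀ = i then c else 0 := by
      rw [at_apply]
      by_cases hiq : q₀ = i
      · subst hiq
        simp
      · simp [hiq]
    rw [hy', map_add, hsing]
    by_cases i0 : q₀ = i
    · subst i0
      rw [if_pos rfl, t0, StA_two]
    · rw [if_neg i0, add_zero]
      by_cases i1 : i = q₁
      · rw [i1, t1]
      · by_cases i2 : i = q₁'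
        · rw [i2, t2]
        · apply hys i hi
          simp only [Finset.mem_union, Finset.mem_insert, Finset.mem_singleton, not_or]
          exact ⟨hiS, fun hh => i0 hh.symm, i1, i2⟩
  have hev : ev2 (chi q₁) y' = ev2 (chi q₁') y' := ev2_congr hsupp c1
  clear_value y
  rw [hy', map_add, map_add, y1, y2, zero_add, zero_add, PaA_ev2_single, PaA_ev2_single] at hev
  have e1 : c.1 * chi q₁ q₀ = c.1 * chi q₁' q₀ := congrArg Prod.fst hev
  have e2 : c.2 * chi q₁ q₀ = c.2 * chi q₁' q₀ := congrArg Prod.snd hev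
  have hsub : chi q₁ q₀ - chi q₁' q₀ ≠ 0 := sub_ne_zero.2 hmu
  have c1z : c.1 = 0 := by
    have : c.1 * (chi q₁ q₀ - chi q₁' q₀) = 0 := by rw [mul_sub, e1, sub_self]
    exact (mul_eq_zero.1 this).resolve_right hsub
  have c2z : c.2 = 0 := by
    have : c.2 * (chi q₁ q₀ - chi q₁' q₀) = 0 := by rw [mul_sub, e2, sub_self]
    exact (mul_eq_zero.1 this).resolve_right hsub
  have hc0 : b + a = 0 := Prod.ext c1z c2z
  have hab : a = b := by
    have h2 := StA_two b
    calc a = (b + b) + a := by rw [h2, zero_add]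
      _ = b + (b + a) := by abel
      _ = b := by rw [hc0, add_zero]
  intro q hq
  simp only [Finset.mem_insert, Finset.mem_singleton] at hq
  rcases hq with rfl | rfl | rfl
  · rfl
  · rw [← ha, hab]
  · rw [hww, hab]

end Pool.Agent.H93.MQ
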