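import Pool.Agent.H93.MQ.PaA
import Pool.Agent.H93.MQ.GenA
import Pool.Agent.H93.MQ.LinC
import Pool.Agent.H93.MQ.LocR

/-!
ROW PaB (project MP_78d38b_MQ). The totally positive part of the Selmer group when the Selmer
group has dimension three.

`pos_finrank`: let `P = Sel S A B ⊓ ker (at_ 0)`. By `real_tor` (elements of `Sel` are soluble over the
reals) the image of `at_ 0` on `Sel` equals the image of `u ↦ at_ 0 (tor A B u)`, which by
`real_neg` is nonzero and by `real_pm` is not injective, so it has dimension one. Hence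
`dim P = dim Sel - 1 = 2`.
`pos_char`: some `χ : ℕ → ZMod 2` makes `ev2 χ` surjective, hence bijective, on `P`: `P` contains two
distinct nonzero elements, apply `la_zero`; the second alternative is impossible since `P` contains
`tor A B u` with `u ≠ 0` (`real_pm`, `tor_mem`) and `Gen.hii`. Use `exists_ev`.
-/

set_option autoImplicit false

open NumberField IsDedekindDomain WeierstrassCurve Pool.Agent.H10

namespace Pool.Agent.H93.MQ

theorem PaB_two (a : ZMod 2 × ZMod 2) : a + a = 0 := by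
  revert a
  decide

theorem PaB_theta {A B : ℤ} (h : NZ A B) :
    Module.finrank (ZMod 2) (LinearMap.range ((at_ 0).comp (tor A B))) = 1 := by
  have h1 := LinearMap.finrank_range_add_finrank_ker ((at_ 0).comp (tor A B))
  have h4 : Module.finrank (ZMod 2) (ZMod 2 × ZMod 2) = 2 := by
    rw [Module.finrank_prod, Module.finrank_self]
  rw [h4] at h1
  obtain ⟨u, hu, hu0⟩ := real_pm h
  obtain ⟨w, hw⟩ := real_neg h
  have h2 : 0 < Module.finrank (ZMod 2) (LinearMap.ker ((at_ 0).comp (tor A B))) := by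
    refine Module.finrank_pos_iff_exists_ne_zero.2 ⟨⟨u, hu0⟩, ?_⟩
    intro h5
    exact hu (congrArg Subtype.val h5)
  have h3 : 0 < Module.finrank (ZMod 2) (LinearMap.range ((at_ 0).comp (tor A B))) := by
    refine Module.finrank_pos_iff_exists_ne_zero.2 ⟨⟨at_ 0 (tor A B w), ⟨w, rfl⟩⟩, ?_⟩
    intro h5
    exact hw (congrArg Subtype.val h5)
  omega

theorem pos_finrank {S : Finset ℕ} {A B : ℤ} (h : Adm S A B)
    (h3 : Module.finrank (ZMod 2) (Sel S A B) = 3) :
    Module.finrank (ZMod 2) (Sel S A B ⊓ LinearMap.ker (at_ 0) : Submodule (ZMod 2) (V × V)) = 2 := by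
  have hfin : Module.Finite (ZMod 2) (Sel S A B) := sel_finite h.nz
  let ρ : Sel S A B →ₗ[ZMod 2] ZMod 2 × ZMod 2 := (at_ 0).comp (Sel S A B).subtype
  have h1 := LinearMap.finrank_range_add_finrank_ker ρ
  have hr : LinearMap.range ρ =
      LinearMap.range ((at_ 0).comp (tor A B)) := by
    apply le_antisymm
    · rintro _ ⟨z, rfl⟩
      obtain ⟨u, hu⟩ := real_tor h.nz ((mem_sel h.nz).1 z.2).2.2
      refine ⟨u, ?_⟩
      change at_ 0 (tor A B u) = at_ 0 (z : V × V)
      rw [map_add] at hu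
      have h5 := PaB_two (at_ 0 (tor A B u))
      exact add_right_cancel (h5.trans hu.symm)
    · rintro _ ⟨u, rfl⟩
      exact ⟨⟨tor A B u, tor_mem h u⟩, rfl⟩
  have hk : Module.finrank (ZMod 2)
      (Sel S A B ⊓ LinearMap.ker (at_ 0) : Submodule (ZMod 2) (V × V)) =
      Module.finrank (ZMod 2) (LinearMap.ker ρ) := by
    have e : LinearMap.ker ρ = Submodule.comap (Sel S A B).subtype (LinearMap.ker (at_ 0)) := rfl
    rw [e, ← Submodule.map_comap_subtype]
    exact Submodule.finrank_map_subtype_eq _ _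
  rw [hr, PaB_theta h.nz, h3] at h1
  rw [hk]
  omega

theorem pos_char {S : Finset ℕ} {A B : ℤ} (h : Adm S A B) (hg : Gen A B)
    (h3 : Module.finrank (ZMod 2) (Sel S A B) = 3) :
    ∃ χ : ℕ → ZMod 2, (∀ w : ZMod 2 × ZMod 2, ∃ t ∈ Sel S A B, at_ 0 t = 0 ∧ ev2 χ t = w) ∧
      (∀ t ∈ Sel S A B, at_ 0 t = 0 → ev2 χ t = 0 → t = 0) := by
  have hfin : Module.Finite (ZMod 2) (Sel S A B) := sel_finite h.nz
  set P : Submodule (ZMod 2) (V × V) := Sel S A B ⊓ LinearMap.ker (at_ 0) with hP
  have hP2 : Module.finrank (ZMod 2) P = 2 := pos_finrank h h3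
  have hPf : Module.Finite (ZMod 2) P := Module.finite_of_finrank_pos (by omega)
  obtain ⟨s', hs'⟩ := Module.finrank_pos_iff_exists_ne_zero.1 (show 0 < Module.finrank (ZMod 2) P by omega)
  obtain ⟨t', ht'⟩ := exists_linearIndependent_pair_of_one_lt_finrank
    (show 1 < Module.finrank (ZMod 2) P by omega) hs'
  have ht0' : t' ≠ 0 := ht'.ne_zero 1
  have hst' : s' ≠ t' := by
    intro h
    have h1 := ht'.injective
    have h2 : (![s', t'] : Fin 2 → _) 0 = ![s', t'] 1 := h
    exact absurd (h1 h2) (by decide)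
  have hs0 : (s' : V × V) ≠ 0 := fun h => hs' (Subtype.ext h)
  have ht0 : (t' : V × V) ≠ 0 := fun h => ht0' (Subtype.ext h)
  have hst : (s' : V × V) ≠ (t' : V × V) := fun h => hst' (Subtype.ext h)
  rcases la_zero P s'.2 t'.2 hs0 ht0 hst with ⟨f, hf⟩ | ⟨v, hv, hall⟩
  · obtain ⟨χ, rfl⟩ := exists_ev f
    have hsurj : ∀ w : ZMod 2 × ZMod 2, ∃ t ∈ P, ev2 χ t = w := by
      intro w
      obtain ⟨z, hz, hzw⟩ := hf w
      exact ⟨z, hz, hzw⟩
    have hrange : Function.Surjective ((ev2 χ).comp P.subtype) := by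
      intro w
      obtain ⟨t, ht, htw⟩ := hsurj w
      exact ⟨⟨t, ht⟩, htw⟩
    have hfr : Module.finrank (ZMod 2) P = Module.finrank (ZMod 2) (ZMod 2 × ZMod 2) := by
      rw [hP2, Module.finrank_prod, Module.finrank_self]
    have hinj : Function.Injective ((ev2 χ).comp P.subtype) :=
      (LinearMap.injective_iff_surjective_of_finrank_eq_finrank hfr).2 hrange
    refine ⟨χ, ?_, ?_⟩
    · intro w
      obtain ⟨t, ht, htw⟩ := hsurj w
      exact ⟨t, ht.1, ht.2, htw⟩
    · intro t ht h0 hev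
      have h5 : ((ev2 χ).comp P.subtype) ⟨t, ⟨ht, h0⟩⟩ = 0 := hev
      have h6 := (injective_iff_map_eq_zero _).1 hinj _ h5
      exact congrArg Subtype.val h6
  · exfalso
    obtain ⟨u, hu, hu0⟩ := real_pm h.nz
    exact hu (hg.hii v hv u (hall _ ⟨tor_mem h u, hu0⟩))

end Pool.Agent.H93.MQ
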