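import Pool.Agent.H93.MQ.RscS

/-!
ROW RscA (project MP_78d38b_MQ). The twist isomorphism anticommutes with the automorphism changing
the sign of the square root.

Setting: `L/K` normal, `V₀, V₀'` curves over `K` with base changes `V, V'` over `L`, `s ∈ L`,
`Rsc s V V'`, and `σ` an automorphism of `L/K` with `σ s = - s`. Then
`actS σ (shaRsc x) = - shaRsc (actS σ x)`.

Proof. On cocycles: `actS σ` is the class of `conjZ (lf σ)`, that is
`τ ↦ act (lf σ) (f (cj (lf σ) τ))` (Pool/Agent/H11/Conj.lean, ConjSha.lean), where `lf σ` is an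
automorphism of the closure extending `σ` (`lf_apply`). By `rsc_pm` with `φ = lf σ`,
`act (lf σ) (rsc P) = rsc' (act (lf σ) P)`, with `rsc'` the rescaling for
`(lf σ) (algebraMap s) = algebraMap (σ s) = - algebraMap s`; by `rsc_neg` this is
`- rsc (act (lf σ) P)`. So the two cocycles are negatives of each other value by value, and the
classes too (`Sha.mk` is additive: `mkHom`).
Note `act h s = pm s (h s)`.
-/

set_option autoImplicit false
set_option linter.style.haveILetI false
open scoped Classical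

open NumberField IsDedekindDomain WeierstrassCurve Pool.Agent.H10 Pool.Agent.H11

namespace Pool.Agent.H93.MQ

theorem actS_rsc {K L : Type} [Field K] [NumberField K] [Field L] [NumberField L] [Algebra K L]
    [Normal K L] {V₀ V₀' : WeierstrassCurve K} {V V' : WeierstrassCurve L}
    (hV : V₀.map (algebraMap K L) = V) (hV' : V₀'.map (algebraMap K L) = V') {s : L}
    (h : Rsc s V V') (σ : L ≃ₐ[K] L) (hσ : σ s = -s) (x : Sha L V) :
    actS hV' σ (shaRsc h x) = - shaRsc h (actS hV σ x) := by
  obtain ⟨f, rfl⟩ := Sha.mk_surjective x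
  have e1 : actS hV' σ (shaRsc h (Sha.mk f)) = Sha.mk (conjZ hV' (lf σ) (rscZ h f)) := rfl
  have e2 : shaRsc h (actS hV σ (Sha.mk f)) = Sha.mk (rscZ h (conjZ hV (lf σ) f)) := rfl
  rw [e1, e2]
  have e3 : - Sha.mk (rscZ h (conjZ hV (lf σ) f)) = Sha.mk (-(rscZ h (conjZ hV (lf σ) f))) :=
    (map_neg (mkHom L V') (rscZ h (conjZ hV (lf σ) f))).symm
  rw [e3]
  congr 1
  apply Subtype.ext
  funext τ
  change Pool.Agent.H10.act (inv_up hV') (lf σ) (rsc (h.bc (AlgebraicClosure L)) (f.1 (cj (lf σ) τ))) =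
    -(rsc (h.bc (AlgebraicClosure L)) (Pool.Agent.H10.act (inv_up hV) (lf σ) (f.1 (cj (lf σ) τ))))
  have ht : (-(algebraMap L (AlgebraicClosure L) s)) =
      (lf σ : AlgebraicClosure L →+* AlgebraicClosure L) (algebraMap L (AlgebraicClosure L) s) := by
    change _ = lf σ (algebraMap L (AlgebraicClosure L) s)
    rw [lf_apply, hσ, map_neg]
  have h' : Rsc (-(algebraMap L (AlgebraicClosure L) s)) (V.baseChange (AlgebraicClosure L))
      (V'.baseChange (AlgebraicClosure L)) := by
    rw [ht]
    exact (h.bc (AlgebraicClosure L)).map _ (inv_up hV (lf σ)) (inv_up hV' (lf σ))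
  unfold Pool.Agent.H10.act
  rw [rsc_pm (h.bc (AlgebraicClosure L)) (lf σ : AlgebraicClosure L →+* AlgebraicClosure L)
    (inv_up hV (lf σ)) (inv_up hV' (lf σ)) ht h', rsc_neg two_ne_zero (h.bc _) h']

end Pool.Agent.H93.MQ
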