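import Pool.Agent.H93.MQ.Rsc

/-!
ROW RscS (project MP_78d38b_MQ). Rescaling on the Tate-Shafarevich group.

For `Rsc s V V'` over a number field `L` (`s ∈ L`), apply the rescaling to the values of cochains.
* `isCocycle_rscF`: `isCocycle_iff`, `IsLocallyConstant.comp`, and `rsc_act`: the action commutes with
  the rescaling since `s` is fixed (`rsc_pm` with `φ = σ`).
* `isCobound_rscF`: same. `isLocTriv_rscF`: `isLocTriv_iff`, unfold `TrivAt`; take the image
  of the point `P` under the rescaling over the closure of the completion, `rsc_pm` for `φ = ι` and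
  for `φ = τ`.
* `Sha.rsc_symm`: `rsc_symm` on values.
-/

set_option autoImplicit false
set_option linter.style.haveILetI false
open scoped Classical

open NumberField IsDedekindDomain WeierstrassCurve Pool.Agent.H10

namespace Pool.Agent.H93.MQ

section

variable {L : Type} [Field L] [NumberField L] {s : L} {V V' : WeierstrassCurve L}

theorem Rsc.bc (h : Rsc s V V') (Ω : Type*) [Field Ω] [Algebra L Ω] :
    Rsc (algebraMap L Ω s) (V.baseChange Ω) (V'.baseChange Ω) :=
  h.map (algebraMap L Ω) rfl rfl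

/-- Rescaling of cochains. -/
noncomputable def rscF (h : Rsc s V V') (f : Coch L V) : Coch L V' :=
  fun σ => rsc (h.bc (AlgebraicClosure L)) (f σ)

theorem rsc_act (h : Rsc s V V') (σ : AlgebraicClosure L ≃ₐ[L] AlgebraicClosure L)
    (P : (V.baseChange (AlgebraicClosure L)).toAffine.Point) :
    rsc (h.bc (AlgebraicClosure L)) (act (inv_bc L V) σ P) =
      act (inv_bc L V') σ (rsc (h.bc (AlgebraicClosure L)) P) :=
  (rsc_pm (h.bc (AlgebraicClosure L)) (σ : AlgebraicClosure L →+* AlgebraicClosure L)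
    (inv_bc L V σ) (inv_bc L V' σ) (σ.commutes s).symm (h.bc (AlgebraicClosure L)) P).symm

theorem isCocycle_rscF (h : Rsc s V V') {f : Coch L V} (hf : IsCocycle L V f) :
    IsCocycle L V' (rscF h f) := by
  rw [isCocycle_iff] at hf ⊢
  refine ⟨hf.1.comp _, fun σ τ => ?_⟩
  show rsc (h.bc (AlgebraicClosure L)) (f (σ * τ)) = rsc (h.bc (AlgebraicClosure L)) (f σ) +
    act (inv_bc L V') σ (rsc (h.bc (AlgebraicClosure L)) (f τ))
  rw [hf.2, map_add, rsc_act h]

theorem rscS_trivAt (h : Rsc s V V') {F : Type} [Field F] [Algebra L F]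
    (ι : AlgebraicClosure L →ₐ[L] AlgebraicClosure F) {f : Coch L V}
    (H : TrivAt (F := F) (inv_bc' V) (ι : AlgebraicClosure L →+* AlgebraicClosure F)
      (map_bc V ι) f) :
    TrivAt (F := F) (inv_bc' V') (ι : AlgebraicClosure L →+* AlgebraicClosure F)
      (map_bc V' ι) (rscF h f) := by
  obtain ⟨P, hP⟩ := H
  refine ⟨rsc (h.bc (AlgebraicClosure F)) P, fun τ σ hτσ => ?_⟩
  have e1 : pm (ι : AlgebraicClosure L →+* AlgebraicClosure F) (map_bc V' ι)
      (rsc (h.bc (AlgebraicClosure L)) (f σ)) = rsc (h.bc (AlgebraicClosure F))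
        (pm (ι : AlgebraicClosure L →+* AlgebraicClosure F) (map_bc V ι) (f σ)) :=
    rsc_pm (h.bc (AlgebraicClosure L)) (ι : AlgebraicClosure L →+* AlgebraicClosure F)
      (map_bc V ι) (map_bc V' ι) (ι.commutes s).symm (h.bc (AlgebraicClosure F)) (f σ)
  have hs : algebraMap L (AlgebraicClosure F) s = τ (algebraMap L (AlgebraicClosure F) s) := by
    rw [IsScalarTower.algebraMap_apply L F (AlgebraicClosure F), τ.commutes]
  have e2 : act (K := F) (inv_bc' V') τ (rsc (h.bc (AlgebraicClosure F)) P) =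
      rsc (h.bc (AlgebraicClosure F)) (act (inv_bc' V) τ P) :=
    rsc_pm (h.bc (AlgebraicClosure F)) (τ : AlgebraicClosure F →+* AlgebraicClosure F)
      (inv_bc' V τ) (inv_bc' V' τ) hs (h.bc (AlgebraicClosure F)) P
  show pm (ι : AlgebraicClosure L →+* AlgebraicClosure F) (map_bc V' ι)
      (rsc (h.bc (AlgebraicClosure L)) (f σ)) = _
  rw [e1, hP τ σ hτσ, map_sub, e2]

theorem isLocTriv_rscF (h : Rsc s V V') {f : Coch L V} (hf : IsLocTriv L V f) :
    IsLocTriv L V' (rscF h f) := by
  rw [isLocTriv_iff] at hf ⊢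
  exact ⟨fun v ι => rscS_trivAt h ι (hf.1 v ι), fun v ι => rscS_trivAt h ι (hf.2 v ι)⟩

theorem isCobound_rscF (h : Rsc s V V') {f : Coch L V} (hf : IsCobound L V f) :
    IsCobound L V' (rscF h f) := by
  rw [isCobound_iff] at hf ⊢
  obtain ⟨Q, hQ⟩ := hf
  refine ⟨rsc (h.bc (AlgebraicClosure L)) Q, fun σ => ?_⟩
  show rsc (h.bc (AlgebraicClosure L)) (f σ) = _
  rw [hQ, map_sub, rsc_act h]

/-- Rescaling of locally trivial cocycles. -/
noncomputable def rscZ (h : Rsc s V V') : ShaZ L V →+ ShaZ L V' where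
  toFun f := ⟨rscF h f.1, isCocycle_rscF h f.2.1, isLocTriv_rscF h f.2.2⟩
  map_zero' := by
    apply Subtype.ext
    funext τ
    change rsc (h.bc (AlgebraicClosure L)) 0 = 0
    rw [map_zero]
  map_add' f g := by
    apply Subtype.ext
    funext τ
    change rsc (h.bc (AlgebraicClosure L)) (f.1 τ + g.1 τ) = _
    rw [map_add]
    rfl

/-- Rescaling on the Tate-Shafarevich group. -/
noncomputable def shaRsc (h : Rsc s V V') : Sha L V →+ Sha L V' :=
  QuotientAddGroup.map _ _ (rscZ h) (by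
    intro f hf
    rw [AddSubgroup.mem_comap, AddSubgroup.mem_addSubgroupOf]
    exact isCobound_rscF h hf)

lemma shaRsc_mk (h : Rsc s V V') (f : ShaZ L V) : shaRsc h (Sha.mk f) = Sha.mk (rscZ h f) := rfl

theorem rscS_congr {k : Type*} [Field k] [DecidableEq k] {t t' : k} {W W' : WeierstrassCurve k}
    (e : t = t') (h1 : Rsc t W W') (h2 : Rsc t' W W') (P : W.toAffine.Point) :
    rsc h1 P = rsc h2 P := by
  subst e
  rfl

theorem shaRsc_symm (h : Rsc s V V') (x : Sha L V) : shaRsc h.symm (shaRsc h x) = x := by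
  obtain ⟨f, rfl⟩ := Sha.mk_surjective x
  rw [shaRsc_mk, shaRsc_mk]
  congr 1
  apply Subtype.ext
  funext τ
  show rsc (h.symm.bc (AlgebraicClosure L)) (rsc (h.bc (AlgebraicClosure L)) (f.1 τ)) = f.1 τ
  rw [rscS_congr (map_inv₀ (algebraMap L (AlgebraicClosure L)) s) (h.symm.bc (AlgebraicClosure L))
    (h.bc (AlgebraicClosure L)).symm]
  exact rsc_symm (h.bc (AlgebraicClosure L)) (f.1 τ)

end

end Pool.Agent.H93.MQ
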