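import Pool.Agent.H93.MQ.StA
import Pool.Agent.H93.MQ.Pair

/-!
ROW StB (project MP_78d38b_MQ). Core of the lowering step: four primes.

`q₁, q₁'` are primes with the same values of `chi` on zero and on `S`, similarly `q₂, q₂'`; the four
primes are distinct, odd, outside `S`; `d = q₁ q₁' q₂ q₂'`, `T = {q₁, q₁', q₂, q₂'}`, `Tw S T d`.
Suppose that `(ev2 (chi q₁), ev2 (chi q₂))` is surjective on `Sel S A B`, and
`chi q₁ q₂ + chi q₁ q₂' + chi q₁' q₂ + chi q₁' q₂' = 1`. Then all coordinates `at_ q z`, `q ∈ T`,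
of an element `z` of `Sel (S ∪ T) (A d) (B d)` are equal.

Proof. (1) For `t ∈ Sel S A B` apply `pairing` with `x = z`, `S' = S ∪ T` (`z` is soluble for
`(A d, B d)` at `p ∈ S`, hence for `(A, B)` by `SolC.scale`). The real term vanishes by `iso_real`
(`d > 0` is a real square, `SolC.scale` over the reals). Since `t` is supported in `S` and zero,
`ev (chi q₁') t.i = ev (chi q₁) t.i` and similarly for `q₂'` (`ev2_congr`). So with
`w₁ = at_ q₁ z + at_ q₁' z`, `w₂ = at_ q₂ z + at_ q₂' z`: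
`w₁.1 * ev (chi q₁) t.2 + w₁.2 * ev (chi q₁) t.1 + w₂.1 * ev (chi q₂) t.2 + w₂.2 * ev (chi q₂) t.1 = 0`
for all `t`; by surjectivity `w₁ = w₂ = 0` (choose `t` with one of the four values equal to one and
the others zero).
(2) Let `a = at_ q₁ z = at_ q₁' z` and `b = at_ q₂ z = at_ q₂' z`. Put `y = z + tor (A d) (B d) a`. By
`tw_loc`, `ev2 (chi q₁) y = 0 = ev2 (chi q₁') y`. By `tw_at`, `at_ q₁ y = at_ q₁' y = 0` and
`at_ q₂ y = at_ q₂' y = a + b`. Write `y = y₀ + (a + b) ⊗ (e_{q₂} + e_{q₂'})` with `y₀` supported in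
`S` and zero; `ev2 (chi q₁) y₀ = ev2 (chi q₁') y₀`. Adding the two equations,
`(chi q₁ q₂ + chi q₁ q₂' + chi q₁' q₂ + chi q₁' q₂') • (a + b) = 0`, so `a = b`.
-/

set_option autoImplicit false

open NumberField IsDedekindDomain WeierstrassCurve Pool.Agent.H10

namespace Pool.Agent.H93.MQ

lemma StB_eq : ∀ x y : ZMod 2, x + y = 0 → x = y := by decide

lemma StB_self : ∀ x : ZMod 2, x + x = 0 := by decide

lemma StB_pself (x : ZMod 2 × ZMod 2) : x + x = 0 :=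
  Prod.ext (StB_self x.1) (StB_self x.2)

lemma StB_peq {x y : ZMod 2 × ZMod 2} (h : x + y = 0) : x = y :=
  Prod.ext (StB_eq _ _ (congrArg Prod.fst h)) (StB_eq _ _ (congrArg Prod.snd h))

/-- the first step: coordinates at the primes of one pair agree -/
theorem StB_pair {S : Finset ℕ} {A B d : ℤ} {q₁ q₁' q₂ q₂' : ℕ} (h : Adm S A B)
    (hT : Tw S {q₁, q₁', q₂, q₂'} d) (hd : 0 < d) (n1 : q₁ ≠ q₁') (n2 : q₁ ≠ q₂) (n3 : q₁ ≠ q₂')
    (n4 : q₁' ≠ q₂) (n5 : q₁' ≠ q₂') (n6 : q₂ ≠ q₂')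
    (c1 : ∀ i, i = 0 ∨ i ∈ S → chi q₁ i = chi q₁' i)
    (c2 : ∀ i, i = 0 ∨ i ∈ S → chi q₂ i = chi q₂' i)
    (hs : ∀ w₁ w₂ : ZMod 2 × ZMod 2, ∃ t ∈ Sel S A B, ev2 (chi q₁) t = w₁ ∧ ev2 (chi q₂) t = w₂)
    {z : V × V} (hz : z ∈ Sel (S ∪ {q₁, q₁', q₂, q₂'}) (A * d) (B * d)) :
    at_ q₁ z = at_ q₁' z ∧ at_ q₂ z = at_ q₂' z := by
  have hnz := h.nz
  have hz' := (mem_sel (hnz.scale hT.ne)).1 hz
  have hprime : ∀ p ∈ S ∪ {q₁, q₁', q₂, q₂'}, p.Prime := by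
    intro p hp
    rcases Finset.mem_union.1 hp with hp | hp
    · exact h.prime p hp
    · exact hT.prime p hp
  have hloc : ∀ (p : ℕ) [Fact p.Prime], p ∈ S → SolC ℚ_[p] A B z := by
    intro p _ hp
    exact (SolC.scale hT.ne (hT.sq p hp) z).1 (hz'.2.1 p (Finset.mem_union_left _ hp))
  have hreal : SolC ℝ A B z := by
    refine (SolC.scale hT.ne ?_ z).1 hz'.2.2
    have hdr : (0 : ℝ) ≤ ((d : ℤ) : ℝ) := by exact_mod_cast hd.le
    exact ⟨Real.sqrt ((d : ℤ) : ℝ), (Real.mul_self_sqrt hdr).symm⟩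
  have hsd : (S ∪ {q₁, q₁', q₂, q₂'}) \ S = {q₁, q₁', q₂, q₂'} := by
    rw [Finset.union_sdiff_left]
    exact Finset.sdiff_eq_self_of_disjoint hT.disj.symm
  have key : ∀ t ∈ Sel S A B,
      (z.1 q₁ + z.1 q₁') * ev (chi q₁) t.2 + (z.2 q₁ + z.2 q₁') * ev (chi q₁) t.1 +
      ((z.1 q₂ + z.1 q₂') * ev (chi q₂) t.2 + (z.2 q₂ + z.2 q₂') * ev (chi q₂) t.1) = 0 := by
    intro t ht
    have ht' := (mem_sel hnz).1 ht
    have hp := pairing h Finset.subset_union_left hprime hz'.1 hloc ht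
    rw [iso_real hnz hreal ht'.2.2, add_zero, hsd,
      Finset.sum_insert (by simp [n1, n2, n3]), Finset.sum_insert (by simp [n4, n5]),
      Finset.sum_insert (by simp [n6]), Finset.sum_singleton] at hp
    have e1 := ev2_congr ht'.1 c1
    have e2 := ev2_congr ht'.1 c2
    rw [ev2_apply, ev2_apply, Prod.mk.injEq] at e1 e2
    rw [← e1.1, ← e1.2, ← e2.1, ← e2.2] at hp
    rw [← hp]
    ring
  have r1 : z.1 q₁ + z.1 q₁' = 0 := by
    obtain ⟨t, ht, t1, t2⟩ := hs (0, 1) (0, 0)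
    have hk := key t ht
    rw [ev2_apply, Prod.mk.injEq] at t1 t2
    rw [t1.1, t1.2, t2.1, t2.2] at hk
    simpa using hk
  have r2 : z.2 q₁ + z.2 q₁' = 0 := by
    obtain ⟨t, ht, t1, t2⟩ := hs (1, 0) (0, 0)
    have hk := key t ht
    rw [ev2_apply, Prod.mk.injEq] at t1 t2
    rw [t1.1, t1.2, t2.1, t2.2] at hk
    simpa using hk
  have r3 : z.1 q₂ + z.1 q₂' = 0 := by
    obtain ⟨t, ht, t1, t2⟩ := hs (0, 0) (0, 1)
    have hk := key t ht
    rw [ev2_apply, Prod.mk.injEq] at t1 t2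
    rw [t1.1, t1.2, t2.1, t2.2] at hk
    simpa using hk
  have r4 : z.2 q₂ + z.2 q₂' = 0 := by
    obtain ⟨t, ht, t1, t2⟩ := hs (0, 0) (1, 0)
    have hk := key t ht
    rw [ev2_apply, Prod.mk.injEq] at t1 t2
    rw [t1.1, t1.2, t2.1, t2.2] at hk
    simpa using hk
  constructor
  · rw [at_apply, at_apply]
    exact Prod.ext (StB_eq _ _ r1) (StB_eq _ _ r2)
  · rw [at_apply, at_apply]
    exact Prod.ext (StB_eq _ _ r3) (StB_eq _ _ r4)

/-- the vector with the value `c` at the two primes `q`, `q'` -/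
noncomputable def StB_e (q q' : ℕ) (c : ZMod 2 × ZMod 2) : V × V :=
  (Finsupp.single q c.1 + Finsupp.single q' c.1, Finsupp.single q c.2 + Finsupp.single q' c.2)

lemma StB_ev (χ : ℕ → ZMod 2) (q q' : ℕ) (c : ZMod 2 × ZMod 2) :
    ev2 χ (StB_e q q' c) = (c.1 * (χ q + χ q'), c.2 * (χ q + χ q')) := by
  rw [ev2_apply]
  unfold StB_e
  simp only [map_add, ev_single]
  ext
  · simp only
    ring
  · simp only
    ring

lemma StB_at (q q' : ℕ) (c : ZMod 2 × ZMod 2) {i : ℕ} (h1 : i ≠ q) (h2 : i ≠ q') :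
    at_ i (StB_e q q' c) = 0 := by
  rw [at_apply]
  unfold StB_e
  simp only [Finsupp.add_apply, Finsupp.single_eq_of_ne h1, Finsupp.single_eq_of_ne h2, add_zero]
  rfl

lemma StB_at1 {q q' : ℕ} (c : ZMod 2 × ZMod 2) (h1 : q ≠ q') :
    at_ q (StB_e q q' c) = c := by
  rw [at_apply]
  unfold StB_e
  simp only [Finsupp.add_apply, Finsupp.single_eq_same, Finsupp.single_eq_of_ne h1, add_zero]

lemma StB_at2 {q q' : ℕ} (c : ZMod 2 × ZMod 2) (h1 : q ≠ q') :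
    at_ q' (StB_e q q' c) = c := by
  rw [at_apply]
  unfold StB_e
  simp only [Finsupp.add_apply, Finsupp.single_eq_same, Finsupp.single_eq_of_ne h1.symm, zero_add]

theorem four_equal {S : Finset ℕ} {A B d : ℤ} {q₁ q₁' q₂ q₂' : ℕ} (h : Adm S A B)
    (hT : Tw S {q₁, q₁', q₂, q₂'} d) (hd : 0 < d) (n1 : q₁ ≠ q₁') (n2 : q₁ ≠ q₂) (n3 : q₁ ≠ q₂')
    (n4 : q₁' ≠ q₂) (n5 : q₁' ≠ q₂') (n6 : q₂ ≠ q₂')
    (c1 : ∀ i, i = 0 ∨ i ∈ S → chi q₁ i = chi q₁' i)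
    (c2 : ∀ i, i = 0 ∨ i ∈ S → chi q₂ i = chi q₂' i)
    (hs : ∀ w₁ w₂ : ZMod 2 × ZMod 2, ∃ t ∈ Sel S A B, ev2 (chi q₁) t = w₁ ∧ ev2 (chi q₂) t = w₂)
    (hmu : chi q₁ q₂ + chi q₁ q₂' + chi q₁' q₂ + chi q₁' q₂' = 1) {z : V × V}
    (hz : z ∈ Sel (S ∪ {q₁, q₁', q₂, q₂'}) (A * d) (B * d)) :
    ∀ q ∈ ({q₁, q₁', q₂, q₂'} : Finset ℕ), at_ q z = at_ q₁ z := by
  obtain ⟨ha, hb⟩ := StB_pair h hT hd n1 n2 n3 n4 n5 n6 c1 c2 hs hz
  have m1 : q₁ ∈ ({q₁, q₁', q₂, q₂'} : Finset ℕ) := by simp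
  have m1' : q₁' ∈ ({q₁, q₁', q₂, q₂'} : Finset ℕ) := by simp
  have m2 : q₂ ∈ ({q₁, q₁', q₂, q₂'} : Finset ℕ) := by simp
  have m2' : q₂' ∈ ({q₁, q₁', q₂, q₂'} : Finset ℕ) := by simp
  have hz' := (mem_sel (h.nz.scale hT.ne)).1 hz
  set a := at_ q₁ z with haa
  set c := a + at_ q₂ z with hc
  set y := z + tor (A * d) (B * d) a with hy
  have l1 : ev2 (chi q₁) y = 0 := tw_loc h hT hz m1
  have l1' : ev2 (chi q₁') y = 0 := by
    have := tw_loc h hT hz m1'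
    rw [← ha] at this
    exact this
  have aty : ∀ q ∈ ({q₁, q₁', q₂, q₂'} : Finset ℕ), at_ q y = at_ q z + a := by
    intro q hq
    rw [hy, map_add, tw_at h hT hq]
  have a1 : at_ q₁ y = 0 := by
    rw [aty q₁ m1]
    exact StB_pself _
  have a1' : at_ q₁' y = 0 := by
    rw [aty q₁' m1', ← ha]
    exact StB_pself _
  have a2 : at_ q₂ y = c := by
    rw [aty q₂ m2, hc, add_comm]
  have a2' : at_ q₂' y = c := by
    rw [aty q₂' m2', hc, ← hb, add_comm]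
  have hsy : Supp (S ∪ {q₁, q₁', q₂, q₂'}) y := hz'.1.add (tor_supp (hT.adm h) a)
  have hs0 : Supp S (y + StB_e q₂ q₂' c) := by
    intro i h0 hi
    rw [map_add]
    by_cases i1 : i = q₁
    · rw [i1, a1, StB_at _ _ _ n2 n3, add_zero]
    by_cases i1' : i = q₁'
    · rw [i1', a1', StB_at _ _ _ n4 n5, add_zero]
    by_cases i2 : i = q₂
    · rw [i2, a2, StB_at1 _ n6]
      exact StB_pself _
    by_cases i2' : i = q₂'
    · rw [i2', a2', StB_at2 _ n6]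
      exact StB_pself _
    rw [hsy i h0 (by simp [hi, i1, i1', i2, i2']), StB_at _ _ _ i2 i2', add_zero]
  have he := ev2_congr hs0 c1
  rw [map_add (ev2 (chi q₁)) y, map_add (ev2 (chi q₁')) y, l1, l1', zero_add, zero_add, StB_ev,
    StB_ev, Prod.mk.injEq] at he
  have hc0 : c = 0 := by
    have f1 : ∀ x u v u' v' : ZMod 2, x * (u + v) = x * (u' + v') → u + v + u' + v' = 1 → x = 0 := by
      decide
    exact Prod.ext (f1 _ _ _ _ _ he.1 hmu) (f1 _ _ _ _ _ he.2 hmu)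
  have hab : a = at_ q₂ z := StB_peq hc0
  intro q hq
  simp only [Finset.mem_insert, Finset.mem_singleton] at hq
  rcases hq with rfl | rfl | rfl | rfl
  · rfl
  · exact ha.symm
  · exact hab.symm
  · rw [← hb]
    exact hab.symm

end Pool.Agent.H93.MQ
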