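import Pool.Agent.H93.MQ.StB
import Pool.Agent.H93.MQ.GenA
import Pool.Agent.H93.MQ.LinC
import Pool.Agent.H93.MQ.Cls

/-!
ROW StC (project MP_78d38b_MQ). The lowering step: if `Sel S A B` has dimension at least four, some
positive twist has a Selmer group of dimension smaller by two.

Proof. `la_main` for `X = V`, the subspace `Sel S A B`, `e = tor A B` (`tor_mem`, `sel_finite`,
`Gen.hi`, `Gen.hii`) gives `χ₁, χ₂`; by `exists_ev` they are given by functions `ℕ → ZMod 2`.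
`exists_class` gives classes `r₁, r₂` modulo `N = modS S`. Choose primes with
`exists_prime_in_class` (N ≠ 0 since the elements of `S` are primes): `q₁ = r₁`, then
`q₁' = r₁` mod `N`, `q₁' > q₁`; `q₂ = r₂` mod `N`, `q₂ > q₁'`; finally `q₂' = r₂` mod `N`,
`q₂' > q₂` with `chi q₁ q₂' = 1 + chi q₁ q₂` and `chi q₁' q₂' = chi q₁' q₂` (here
`T = {q₁, q₁'}`, primes not in `S`, in particular odd and prime to `N`). Take
`d = q₁ q₁' q₂ q₂'`, `T = {q₁, q₁', q₂, q₂'}`. `Tw S T d`: `sq` by `sq_prod` with `c = q₁ q₂`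
(`d - c² = q₁ q₂ (q₁' q₂' - q₁ q₂)` is divisible by `N`).
By `four_equal` all `at_ q z`, `q ∈ T`, are equal for `z ∈ Sel (S ∪ T) (A d) (B d)`; so by `tw_sel`
`f z = z + tor (A d) (B d) (at_ q₁ z)` lies in `Sel S A B`, and `ev2 (chi q₁) (f z) = 0`,
`ev2 (chi q₂) (f z) = 0` by `tw_loc`. Apply `dim_step` with `g = at_ q₁`, `χ_i = ev2 (chi q_i)`
(surjectivity of `(χ₁, χ₂)` transfers to `chi q_i` by `ev2_congr`, since elements of `Sel S A B` are
supported in `S`). Injectivity: `g z = 0` and `f z = 0` give `z = 0`.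
`Gen (A d) (B d)` by `Gen.tw`.
-/

set_option autoImplicit false

open NumberField IsDedekindDomain WeierstrassCurve Pool.Agent.H10

namespace Pool.Agent.H93.MQ

private theorem StC_cop {N r q : ℕ} (hr : r.Coprime N) (h : q ≡ r [MOD N]) : q.Coprime N := by
  have h1 : q.gcd N = r.gcd N := h.gcd_eq
  show q.gcd N = 1
  rw [h1]
  exact hr

private theorem StC_sf {a b c e : ℕ} (ha : a.Prime) (hb : b.Prime) (hc : c.Prime) (he : e.Prime)
    (n1 : a ≠ b) (n2 : a ≠ c) (n3 : a ≠ e) (n4 : b ≠ c) (n5 : b ≠ e) (n6 : c ≠ e) :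
    Squarefree (a * b * c * e) := by
  have s1 : Squarefree (a * b) :=
    (Nat.squarefree_mul_iff).2 ⟨(Nat.coprime_primes ha hb).2 n1, ha.squarefree, hb.squarefree⟩
  have s2 : Squarefree (a * b * c) :=
    (Nat.squarefree_mul_iff).2 ⟨Nat.Coprime.mul_left ((Nat.coprime_primes ha hc).2 n2)
      ((Nat.coprime_primes hb hc).2 n4), s1, hc.squarefree⟩
  exact (Nat.squarefree_mul_iff).2 ⟨Nat.Coprime.mul_left (Nat.Coprime.mul_left
    ((Nat.coprime_primes ha he).2 n3) ((Nat.coprime_primes hb he).2 n5))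
      ((Nat.coprime_primes hc he).2 n6), s2, he.squarefree⟩

private theorem StC_tw {S : Finset ℕ} {a b c e : ℕ} (ha : a.Prime) (hb : b.Prime)
    (hc : c.Prime) (he : e.Prime) (l1 : 2 < a) (l2 : a < b) (l3 : b < c) (l4 : c < e)
    (haS : a ∉ S) (hbS : b ∉ S) (hcS : c ∉ S) (heS : e ∉ S) (ka : a.Coprime (modS S))
    (kc : c.Coprime (modS S)) (m1 : b ≡ a [MOD modS S]) (m2 : e ≡ c [MOD modS S]) :
    Tw S {a, b, c, e} ((a * b * c * e : ℕ) : ℤ) := by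
  have hsf := StC_sf ha hb hc he (by omega) (by omega) (by omega) (by omega) (by omega) (by omega)
  refine ⟨?_, ?_, ?_, ?_, ?_, ?_, ?_⟩
  · have : a * b * c * e ≠ 0 := hsf.ne_zero
    exact_mod_cast this
  · intro q hq
    simp only [Finset.mem_insert, Finset.mem_singleton] at hq
    rcases hq with rfl | rfl | rfl | rfl <;> assumption
  · intro q hq
    simp only [Finset.mem_insert, Finset.mem_singleton] at hq
    rcases hq with rfl | rfl | rfl | rfl <;> omega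
  · rw [Finset.disjoint_right]
    intro q hq
    simp only [Finset.mem_insert, Finset.mem_singleton] at hq
    rcases hq with rfl | rfl | rfl | rfl <;> assumption
  · intro q hq
    rw [Int.natCast_dvd_natCast, hq.dvd_mul, hq.dvd_mul, hq.dvd_mul,
      Nat.prime_dvd_prime_iff_eq hq ha, Nat.prime_dvd_prime_iff_eq hq hb,
      Nat.prime_dvd_prime_iff_eq hq hc, Nat.prime_dvd_prime_iff_eq hq he]
    simp only [Finset.mem_insert, Finset.mem_singleton]
    tauto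
  · intro q hq hdv
    have hqp : q.Prime := by
      simp only [Finset.mem_insert, Finset.mem_singleton] at hq
      rcases hq with rfl | rfl | rfl | rfl <;> assumption
    have h1 : ((q * q : ℕ) : ℤ) ∣ ((a * b * c * e : ℕ) : ℤ) := by
      have e1 : ((q * q : ℕ) : ℤ) = (q : ℤ) ^ 2 := by push_cast; ring
      rw [e1]
      exact hdv
    have h2 := hsf q (Int.natCast_dvd_natCast.1 h1)
    exact hqp.one_lt.ne' (Nat.isUnit_iff.1 h2)
  · intro p _ hp
    refine sq_prod (c := ((a * c : ℕ) : ℤ)) (Nat.isCoprime_iff_coprime.2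
      (Nat.Coprime.mul_left ka kc)) ?_ hp
    have h1 : (modS S : ℤ) ∣ (b : ℤ) - a := by
      have := (Nat.modEq_iff_dvd.1 m1.symm)
      exact this
    have h2 : (modS S : ℤ) ∣ (e : ℤ) - c := by
      have := (Nat.modEq_iff_dvd.1 m2.symm)
      exact this
    have e1 : ((a * b * c * e : ℕ) : ℤ) - ((a * c : ℕ) : ℤ) ^ 2 =
        ((b : ℤ) - a) * (a * c * e) + ((e : ℤ) - c) * (a * a * c) := by
      push_cast
      ring
    rw [e1]
    exact (h1.mul_right _).add (h2.mul_right _)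

theorem lower_step {S : Finset ℕ} {A B : ℤ} (h : Adm S A B) (hg : Gen A B)
    (h4 : 4 ≤ Module.finrank (ZMod 2) (Sel S A B)) :
    ∃ (T : Finset ℕ) (d : ℤ), Tw S T d ∧ Gen (A * d) (B * d) ∧
      Module.finrank (ZMod 2) (Sel (S ∪ T) (A * d) (B * d)) + 2 ≤
        Module.finrank (ZMod 2) (Sel S A B) := by
  have hfin : Module.Finite (ZMod 2) (Sel S A B) := sel_finite h.nz
  obtain ⟨χ₁, χ₂, hχ⟩ := la_main (Sel S A B) (tor A B) (tor_mem h) hg.hi hg.hii h4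
  obtain ⟨k₁, rfl⟩ := exists_ev χ₁
  obtain ⟨k₂, rfl⟩ := exists_ev χ₂
  obtain ⟨r₁, cr₁, hr₁⟩ := exists_class h.prime h.two k₁
  obtain ⟨r₂, cr₂, hr₂⟩ := exists_class h.prime h.two k₂
  have hN : modS S ≠ 0 := by
    refine mul_ne_zero (by norm_num) (Finset.prod_ne_zero_iff.2 fun p hp => (h.prime p hp).ne_zero)
  obtain ⟨q₁, p₁, l₁, m₁, -⟩ := exists_prime_in_class hN cr₁ ∅ (by simp) (fun _ => 0) 2
  obtain ⟨q₁', p₁', l₁', m₁', -⟩ := exists_prime_in_class hN cr₁ ∅ (by simp) (fun _ => 0) q₁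
  obtain ⟨q₂, p₂, l₂, m₂, -⟩ := exists_prime_in_class hN cr₂ ∅ (by simp) (fun _ => 0) q₁'
  have cq₁ := StC_cop cr₁ m₁
  have cq₁' := StC_cop cr₁ m₁'
  have cq₂ := StC_cop cr₂ m₂
  obtain ⟨q₂', p₂', l₂', m₂', hs₂⟩ := exists_prime_in_class hN cr₂ {q₁, q₁'} (by
    intro p hp
    simp only [Finset.mem_insert, Finset.mem_singleton] at hp
    rcases hp with rfl | rfl
    · exact ⟨p₁, by omega, cq₁⟩
    · exact ⟨p₁', by omega, cq₁'⟩)
    (fun p => if p = q₁ then 1 + chi q₁ q₂ else chi q₁' q₂) q₂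
  have s1 : chi q₁ q₂' = 1 + chi q₁ q₂ := by
    have := hs₂ q₁ (by simp)
    rwa [if_pos rfl] at this
  have s2 : chi q₁' q₂' = chi q₁' q₂ := by
    have := hs₂ q₁' (by simp)
    rwa [if_neg (by omega)] at this
  obtain ⟨x₁, y₁⟩ := hr₁ q₁ p₁ m₁
  obtain ⟨x₁', y₁'⟩ := hr₁ q₁' p₁' m₁'
  obtain ⟨x₂, y₂⟩ := hr₂ q₂ p₂ m₂
  obtain ⟨x₂', y₂'⟩ := hr₂ q₂' p₂' m₂'
  have hT : Tw S {q₁, q₁', q₂, q₂'} ((q₁ * q₁' * q₂ * q₂' : ℕ) : ℤ) :=
    StC_tw p₁ p₁' p₂ p₂' l₁ l₁' l₂ l₂' x₁ x₁' x₂ x₂' cq₁ cq₂ (m₁'.trans m₁.symm)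
      (m₂'.trans m₂.symm)
  have hd : (0 : ℤ) < ((q₁ * q₁' * q₂ * q₂' : ℕ) : ℤ) := by
    have h0 : 0 < q₁ * q₁' * q₂ * q₂' :=
      Nat.mul_pos (Nat.mul_pos (Nat.mul_pos p₁.pos p₁'.pos) p₂.pos) p₂'.pos
    exact_mod_cast h0
  have hs : ∀ w₁ w₂ : ZMod 2 × ZMod 2, ∃ t ∈ Sel S A B, ev2 (chi q₁) t = w₁ ∧
      ev2 (chi q₂) t = w₂ := by
    intro w₁ w₂
    obtain ⟨t, ht, e1, e2⟩ := hχ w₁ w₂
    have hsup : Supp S t := ((mem_sel h.nz).1 ht).1
    refine ⟨t, ht, ?_, ?_⟩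
    · rw [ev2_congr hsup y₁, ev2_apply]
      exact e1
    · rw [ev2_congr hsup y₂, ev2_apply]
      exact e2
  have hfour := fun (z : V × V) (hz : z ∈ Sel (S ∪ {q₁, q₁', q₂, q₂'})
      (A * ((q₁ * q₁' * q₂ * q₂' : ℕ) : ℤ)) (B * ((q₁ * q₁' * q₂ * q₂' : ℕ) : ℤ))) =>
    four_equal h hT hd (by omega) (by omega) (by omega) (by omega) (by omega) (by omega)
      (fun i hi => (y₁ i hi).trans (y₁' i hi).symm)
      (fun i hi => (y₂ i hi).trans (y₂' i hi).symm) hs (by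
        rw [s1, s2]
        generalize chi q₁ q₂ = a
        generalize chi q₁' q₂ = b
        revert a b
        decide) hz
  refine ⟨{q₁, q₁', q₂, q₂'}, ((q₁ * q₁' * q₂ * q₂' : ℕ) : ℤ), hT, hg.tw h hT, ?_⟩
  refine dim_step (Sel S A B) _ (LinearMap.id + (tor (A * ((q₁ * q₁' * q₂ * q₂' : ℕ) : ℤ))
    (B * ((q₁ * q₁' * q₂ * q₂' : ℕ) : ℤ))).comp (at_ q₁)) (at_ q₁) (ev2 (chi q₁))
    (ev2 (chi q₂)) hs ?_ ?_
  · intro z hz
    refine ⟨tw_sel h hT hd hz (hfour z hz), tw_loc h hT hz (by simp), ?_⟩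
    have h5 := tw_loc h hT hz (q := q₂) (by simp)
    rw [hfour z hz q₂ (by simp)] at h5
    exact h5
  · intro z hz h6 h7
    have h8 : z + tor (A * ((q₁ * q₁' * q₂ * q₂' : ℕ) : ℤ))
      (B * ((q₁ * q₁' * q₂ * q₂' : ℕ) : ℤ)) (at_ q₁ z) = 0 := h6
    rw [h7, map_zero, add_zero] at h8
    exact h8

end Pool.Agent.H93.MQ
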